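import Pool.Agent.Run7.h575.MS5

/-!
# Maps which are steady at small scales: manifolds without boundary, the main statement
-/

set_option autoImplicit false

open Set Filter Topology Metric Function MeasureTheory
open scoped Manifold ContDiff

noncomputable section

namespace Run7.h575.MS

open Pool.Agent.Y522 Pool.Agent.R765 Run7.h60.Sc

section main

variable {n : ℕ} {X Y : Type} [TopologicalSpace X] [TopologicalSpace Y]
    [ChartedSpace (E n) X] [ChartedSpace (E n) Y] [T2Space X]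

/-- **Homeomorphisms which are steady at small scales** (manifolds without boundary), with a
homotopy. -/
theorem styMain' (hn : 0 < n) (f : X ≃ₜ Y) (d : X → X → ℝ) {K a : ℝ} (hK : 1 ≤ K)
    (ha : 9 * K ^ 8 ≤ a) (hak : 9 * K ^ 8 * k2 n < a)
    {ε : ℕ → ℝ} (hε : ∀ m, 0 < ε m) (hε0 : Tendsto ε atTop (𝓝 0)) (O : Set (X × Y))
    (hx : ∀ x, LD n f x ∨ StAt (n := n) d K a ε f x) (hB : IsCompact {x | ¬ LD n f x})
    (hO : IsOpen O) (hfO : ∀ x, (x, f x) ∈ O) :
    ∃ (f' : C(X, Y)) (C : Set X), IsCompact C ∧ Bijective f' ∧ (∀ x, LD n f' x) ∧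
      HomRel O C (⟨f, f.continuous⟩ : C(X, Y)) f' := by
  classical
  obtain ⟨F, hF⟩ : ∃ F : C(X, Y), F = ⟨f, f.continuous⟩ := ⟨_, rfl⟩
  have hFf : ∀ x, F x = f x := fun x => by rw [hF]; rfl
  have hFf' : (F : X → Y) = f := funext hFf
  have hK0 : 0 < K := by linarith
  obtain ⟨ε', hε'd⟩ : ∃ ε' : ℕ → ℝ, ε' = fun m => ε m / (3 * K ^ 2) := ⟨_, rfl⟩
  have hε' : ∀ m, 0 < ε' m := fun m => by
    rw [hε'd]
    have := hε m
    positivity
  have hε'0 : Tendsto ε' atTop (𝓝 0) := by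
    rw [hε'd]
    simpa using hε0.div_const (3 * K ^ 2)
  have hbox : ∀ x ∈ {x | ¬ LD n f x}, ∃ b : Bx n F, b.A 0 = x ∧
      (∀ z ∈ closedBall (0 : E n) (2 * b.r),
        ∀ w ∈ closedBall (0 : E n) (2 * b.r), d (b.A z) (b.A w) ≤ K * ‖z - w‖ ∧
          ‖z - w‖ ≤ K * d (b.A z) (b.A w)) ∧
      ∃ k : Ct, k.Ok n ∧ k.K = K ^ 2 ∧ ∃ (om : E n × ℕ → ℝ) (l : E n × ℕ → Fn n),
        ∀ z ∈ closedBall (0 : E n) b.r,
          DMF k.R k.t k.δ k.c k.M 1 ε' b.h z om l := by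
    intro x hxb
    rw [hε'd]
    refine exists_boxs (f := F) hn hK ha hak hε hε0 ?_
    rw [hFf']
    exact (hx x).resolve_left hxb
  choose b hb0 hb1 hb2 using hbox
  have hU : ∀ x (hx : x ∈ {x | ¬ LD n f x}), (b x hx).A '' ball 0 ((b x hx).r / 2) ∈ 𝓝 x := by
    intro x hx
    have hr := (b x hx).hr
    have h2 : LD n (b x hx).A 0 := (b x hx).hAd 0 (by
      rw [mem_closedBall_zero_iff, norm_zero]
      linarith)
    have h3 := h2.image_mem_nhds (ball_mem_nhds (0 : E n) (by linarith : 0 < (b x hx).r / 2))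
    rwa [hb0 x hx] at h3
  obtain ⟨t, ht⟩ := hB.elim_nhds_subcover' (fun x hx => (b x hx).A '' ball 0 ((b x hx).r / 2)) hU
  obtain ⟨c, hc⟩ : ∃ c : ↥t → Bx n F, ∀ i, c i = b i.1.1 i.1.2 := ⟨_, fun _ => rfl⟩
  have hcov : ∀ x, ¬ LD n F x → ∃ i, ∃ z : E n, ‖z‖ < (c i).r / 2 ∧ (c i).A z = x := by
    intro x hx
    rw [hFf'] at hx
    obtain ⟨y, hy, z, hz, hzx⟩ := mem_iUnion₂.1 (ht hx)
    refine ⟨⟨y, hy⟩, z, ?_, ?_⟩
    · rw [hc]
      exact mem_ball_zero_iff.1 hz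
    · rw [hc]
      exact hzx
  have hd1 : ∀ i, ∀ z ∈ closedBall (0 : E n) (2 * (c i).r),
        ∀ w ∈ closedBall (0 : E n) (2 * (c i).r), d ((c i).A z) ((c i).A w) ≤ K * ‖z - w‖ := by
    intro i
    rw [hc]
    exact fun z hz w hw => (hb1 _ i.1.2 z hz w hw).1
  have hd2 : ∀ i, ∀ z ∈ closedBall (0 : E n) (2 * (c i).r),
        ∀ w ∈ closedBall (0 : E n) (2 * (c i).r), ‖z - w‖ ≤ K * d ((c i).A z) ((c i).A w) := by
    intro i
    rw [hc]
    exact fun z hz w hw => (hb1 _ i.1.2 z hz w hw).2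
  have hAA : ∀ i, ∃ k : Ct, k.Ok n ∧ k.K = K ^ 2 ∧ ∃ (om : E n × ℕ → ℝ) (l : E n × ℕ → Fn n),
        ∀ z ∈ closedBall (0 : E n) (c i).r,
          DMF k.R k.t k.δ k.c k.M 1 ε' (c i).h z om l := by
    intro i
    rw [hc]
    exact hb2 _ i.1.2
  choose kk hkk1 hkk2 hkk3 using hAA
  have hg : ∀ x, ∃ k, Gs c ε' x k ∧
      (LD n F x → ∀ i, (k i).δ = (k i).t / 4 ∧ (k i).c = 1 / 2 ∧ (k i).M = (k i).R + 1) := by
    intro x
    by_cases hx' : LD n F x
    · -- a good point: the constants depend on the point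
      have hQ : ∀ p : ↥t × ↥t, ∃ Q : ℝ, ∀ z ∈ closedBall (0 : E n) (c p.1).r,
          ∀ w ∈ closedBall (0 : E n) (c p.2).r, (c p.1).A z = x → (c p.2).A w = x →
          ∀ᶠ z' in 𝓝 z, ‖(Dq (fun y => (c p.2).α ((c p.1).A y)) z' : E n →L[ℝ] E n)‖ ≤ Q ∧
          ‖((Dq (fun y => (c p.2).α ((c p.1).A y)) z').symm : E n →L[ℝ] E n)‖ ≤ Q := by
        intro p
        by_cases hp : ∃ z ∈ closedBall (0 : E n) (c p.1).r, ∃ w ∈ closedBall (0 : E n) (c p.2).r,
            (c p.1).A z = x ∧ (c p.2).A w = x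
        · obtain ⟨z, hz, w, hw, hzx, hwx⟩ := hp
          have hlam : LD n (fun y => (c p.2).α ((c p.1).A y)) z := by
            refine LD.comp_fun ?_ ((c p.1).hAd z (ball_subset_closedBall (ball_sub2 hz)))
            rw [hzx, ← hwx]
            exact (c p.2).α_LD (ball_sub2 hw)
          obtain ⟨Q, ρ, -, hρ, hq⟩ := quad hlam
          refine ⟨Q, fun z₁ hz₁ w₁ hw₁ hz₁x hw₁x => ?_⟩
          have e1 : z₁ = z := (c p.1).hAi (ball_subset_closedBall (ball_sub2 hz₁))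
            (ball_subset_closedBall (ball_sub2 hz)) (by rw [hz₁x, hzx])
          rw [e1]
          filter_upwards [ball_mem_nhds z hρ] with z' hz'
          exact ⟨(hq z' hz').2.1, (hq z' hz').2.2.1⟩
        · exact ⟨0, fun z hz w hw hzx hwx => absurd ⟨z, hz, w, hw, hzx, hwx⟩ hp⟩
      choose Q hQ using hQ
      obtain ⟨K', hK'1, hK'⟩ : ∃ K' : ℝ, 1 ≤ K' ∧ ∀ p, Q p ≤ K' := by
        obtain ⟨M, hM⟩ := (Set.finite_range Q).bddAbove
        exact ⟨max M 1, le_max_right _ _, fun p => (hM (mem_range_self p)).trans (le_max_left _ _)⟩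
      have hk2 : 0 ≤ k2 n := k2_nonneg
      have hK'0 : 0 < K' := by linarith
      obtain ⟨W, hW⟩ : ∃ W, W = K' + 4 * (3 * K' + 1) * K' ^ 2 * (k2 n + 1) := ⟨_, rfl⟩
      have hW0 : 0 < W := by rw [hW]; positivity
      have hok : (⟨K', 3 * K', 1 / W, 1 / W / 4, 1 / 2, 3 * K' + 1⟩ : Ct).Ok n := by
        refine ⟨hK'1, le_rfl, by positivity, ?_, by positivity, by positivity, ?_⟩
        · change 1 / W * K' ≤ 1
          rw [one_div_mul_eq_div, div_le_one hW0, hW]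
          have : 0 ≤ 4 * (3 * K' + 1) * K' ^ 2 * (k2 n + 1) := by positivity
          linarith
        · change (3 * K' + 1) * (1 / W) * K' ^ 2 * k2 n < 1 / 2
          have e1 : (3 * K' + 1) * (1 / W) * K' ^ 2 * k2 n =
              ((3 * K' + 1) * K' ^ 2 * k2 n) / W := by ring
          rw [e1, div_lt_iff₀ hW0, hW]
          have e2 : 0 ≤ (3 * K' + 1) * K' ^ 2 * k2 n := by positivity
          have e3 : 0 < (3 * K' + 1) * K' ^ 2 := by positivity
          nlinarith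
      refine ⟨fun _ => ⟨K', 3 * K', 1 / W, 1 / W / 4, 1 / 2, 3 * K' + 1⟩, ⟨fun _ => hok, ?_, ?_⟩,
        fun _ _ => ⟨rfl, rfl, rfl⟩⟩
      · intro i z hz hzx
        have hz2' := ball_subset_closedBall (ball_sub2 hz)
        have hh : LD n (c i).h z := by
          refine LD.comp_fun (g := (c i).B) ((c i).hBd _ ((c i).hfV z hz2')) ?_
          refine LD.comp_fun (g := F) ?_ ((c i).hAd z hz2')
          rw [hzx]
          exact hx'
        obtain ⟨Q', hQ', d1, -⟩ := DMF.of_LD hε' hε'0 hh (by linarith : 1 ≤ 3 * K') hok.ht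
        exact ⟨Q', _, _, hQ', d1⟩
      · intro i j z hz w hw hzx hwx
        filter_upwards [hQ (i, j) z hz w hw hzx hwx] with z' hz'
        exact ⟨hz'.1.trans (hK' _), hz'.2.trans (hK' _)⟩
    · -- a bad point
      refine ⟨kk, ⟨hkk1, ?_, ?_⟩, fun h => absurd h hx'⟩
      · intro i z hz hzx
        obtain ⟨om, l, hl⟩ := hkk3 i
        exact ⟨1, om, l, zero_le_one, hl z hz⟩
      · intro i j z hz w hw hzx hwx
        have h1 := trans_lip hK (hd1 i) (hd2 j) hz hw (hzx.trans hwx.symm)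
        have h2 := trans_lip hK (hd1 j) (hd2 i) hw hz (hwx.trans hzx.symm)
        have h3 := trans_symm hz hw (hzx.trans hwx.symm)
        have c1 : ContinuousAt (fun y => (c j).α ((c i).A y)) z := by
          have : ContinuousAt (c j).α ((c i).A z) := by
            rw [hzx, ← hwx]
            exact ((c j).α_LD (ball_sub2 hw)).continuousAt
          exact ContinuousAt.comp (g := (c j).α) (f := (c i).A) this
            ((c i).hAd z (ball_subset_closedBall (ball_sub2 hz))).continuousAt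
        have e1 : (c j).α ((c i).A z) = w := by
          rw [hzx, ← hwx, (c j).α_A (ball_subset_closedBall (ball_sub2 hw))]
        rw [← e1] at h2
        rw [hkk2]
        filter_upwards [h1, c1.eventually h2, h3] with z' g1 g2 g3
        refine ⟨g1, ?_⟩
        rw [g3]
        exact g2
  obtain ⟨G, D, hD, hG1, hG2⟩ := globs c hε' hε'0 hg hcov
  obtain ⟨m, hm1, hm2⟩ := ((hG1 O hO (fun x => by rw [hFf]; exact hfO x)).and hG2).exists
  have : T2Space Y := f.t2Space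
  have hl : IsLocalDiffeomorph (𝓡 n) (𝓡 n) ∞ (G m) := hm2
  rw [hF] at hm1
  exact ⟨G m, D, hD, bijective_of_homRel f (G m) hl.isLocalHomeomorph O D hD hm1, hm2, hm1⟩

/-- **Homeomorphisms which are steady at small scales** (manifolds without boundary). -/
theorem styMain (hn : 0 < n) (f : X ≃ₜ Y) (d : X → X → ℝ) {K a : ℝ} (hK : 1 ≤ K)
    (ha : 9 * K ^ 8 ≤ a) (hak : 9 * K ^ 8 * k2 n < a)
    {ε : ℕ → ℝ} (hε : ∀ m, 0 < ε m) (hε0 : Tendsto ε atTop (𝓝 0)) (O : Set (X × Y))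
    (hx : ∀ x, LD n f x ∨ StAt (n := n) d K a ε f x) (hB : IsCompact {x | ¬ LD n f x})
    (hO : IsOpen O) (hfO : ∀ x, (x, f x) ∈ O) :
    ∃ (f' : X → Y) (C : Set X), IsCompact C ∧ Bijective f' ∧ (∀ x, LD n f' x) ∧
      (∀ x, (x, f' x) ∈ O) ∧ ∀ x, x ∉ C → f' x = f x := by
  obtain ⟨f', C, hC, hb, hl, hH⟩ := styMain' hn f d hK ha hak hε hε0 O hx hB hO hfO
  exact ⟨f', C, hC, hb, hl, fun x => (hH.off x).1, fun x hx' => (hH.off x).2 hx'⟩

end main

end Run7.h575.MS
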