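import Pool.Agent.Run7.h575.Fac

set_option autoImplicit false

/-!
Approximate solutions in slow directions, and their use for extensions of the map.
-/

open MeasureTheory Set Filter Topology Matrix

namespace Run7.h575

variable {d m : ℕ}

theorem slow_approx {F : (Fin d → ℝ) → (Fin d → ℝ)} {ρ : Fin d → ℝ} (hF : ContDiff ℝ (⊤ : ℕ∞) F)
    (hFe : Eqv F) {C₀ : ℝ} (hdev : ∀ (n : ℕ) (x : Fin d → ℝ), ‖F^[n] x - x - (n : ℝ) • ρ‖ ≤ C₀)
    {k : Fin d → ℤ} (hk : Slow F k) :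
    ∃ Ψ : ℕ → (Fin d → ℝ) → ℝ, (∀ n, ContDiff ℝ (⊤ : ℕ∞) (Ψ n)) ∧ (∀ n, IsPer (Ψ n)) ∧
      ∀ j : ℕ, ∀ ε : ℝ, 0 < ε → ∃ N : ℕ, ∀ n, N ≤ n → ∀ i ≤ j, ∀ x : Fin d → ℝ,
        ‖iteratedFDeriv ℝ i (fun y => Ψ n (F y) - Ψ n y - disp F ρ k 1 y) x‖ < ε := by
  have hC₀ : 0 ≤ C₀ := (norm_nonneg _).trans (hdev 0 0)
  set C₁ : ℝ := (∑ i, |(k i : ℝ)|) * C₀ with hC₁
  have hC₁0 : 0 ≤ C₁ := by positivity
  have hu0 : ∀ n x, |disp F ρ k n x| ≤ C₁ := by
    intro n x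
    refine (ph_abs_le k _).trans ?_
    rw [hC₁]
    gcongr
    exact hdev n x
  choose C hC hI using fun s : ℕ => interp (V := Fin d → ℝ) (W := ℝ) s
  -- good times
  have htime : ∀ m : ℕ, ∃ n : ℕ, 1 ≤ n ∧ ∀ j ≤ m, ∀ x,
      ‖iteratedFDeriv ℝ j (disp F ρ k n) x‖ ≤ 2 / (m + 1) * n := by
    intro m
    have hCm : 0 < C (m + 2) := by have := hC (m + 2); linarith
    set ε : ℝ := 1 / ((m + 1) * C (m + 2)) with hε
    have hε0 : 0 < ε := by positivity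
    obtain ⟨N, hN⟩ := exists_nat_gt (C₁ / ε)
    obtain ⟨n, hn, hb⟩ := hk (m + 2) (by omega) ε hε0 (N + 1)
    have hn1 : (N : ℝ) < n := by exact_mod_cast (show N < n by omega)
    have hn2 : C₁ ≤ ε * n := by
      rw [div_lt_iff₀ hε0] at hN
      nlinarith
    refine ⟨n, by omega, fun j hj x => ?_⟩
    have h1 := hI (m + 2) (disp F ρ k n) (disp_contDiff hF ρ k n)
      (fun i => (disp_per hFe ρ k n).bounded_deriv (disp_contDiff hF ρ k n) i)
      C₁ (ε * n) 1 one_pos (fun x => by rw [Real.norm_eq_abs]; exact hu0 n x)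
      (fun x => by rw [iter_disp hF]; exact hb x) j (by omega) x
    rw [one_pow, one_mul, one_pow, one_mul] at h1
    refine h1.trans ?_
    calc C (m + 2) * (C₁ + ε * n) ≤ C (m + 2) * (ε * n + ε * n) := by gcongr
      _ = 2 / (m + 1) * n := by rw [hε]; field_simp; ring
  choose n hn1 hn using htime
  set Ψ : ℕ → (Fin d → ℝ) → ℝ := fun m x => -(1 / (n m : ℝ)) * ∑ j ∈ Finset.range (n m), disp F ρ k j x
    with hΨ
  have hsum : ∀ (N : ℕ) (x : Fin d → ℝ), ∑ j ∈ Finset.range N, disp F ρ k j (F x)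
      = ∑ j ∈ Finset.range N, disp F ρ k j x + disp F ρ k N x - N * disp F ρ k 1 x := by
    intro N x
    induction N with
    | zero => simp [disp_zero]
    | succ N ih =>
      rw [Finset.sum_range_succ, ih, Finset.sum_range_succ, disp_cocycle]
      push_cast
      ring
  have herr : ∀ m, (fun y => Ψ m (F y) - Ψ m y - disp F ρ k 1 y)
      = fun y => -(1 / (n m : ℝ)) * disp F ρ k (n m) y := by
    intro m
    funext y
    have h0 : (n m : ℝ) ≠ 0 := by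
      have : 0 < n m := hn1 m
      positivity
    rw [hΨ]
    simp only
    rw [hsum]
    field_simp
    ring
  refine ⟨Ψ, fun m => contDiff_const.mul (ContDiff.sum fun j _ => disp_contDiff hF ρ k j),
    fun m x l => by
      show -(1 / (n m : ℝ)) * ∑ j ∈ Finset.range (n m), disp F ρ k j _ = _
      congr 1
      exact Finset.sum_congr rfl fun j _ => disp_per hFe ρ k j x l, fun J ε hε => ?_⟩
  obtain ⟨N, hN⟩ := exists_nat_gt (2 / ε)
  refine ⟨max N J, fun m hm j hj x => ?_⟩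
  rw [herr]
  have h4 : iteratedFDeriv ℝ j (fun y => -(1 / (n m : ℝ)) * disp F ρ k (n m) y) x
      = (-(1 / (n m : ℝ))) • iteratedFDeriv ℝ j (disp F ρ k (n m)) x :=
    iteratedFDeriv_const_smul_apply (𝕜 := ℝ) (i := j) (a := -(1 / (n m : ℝ)))
      (f := disp F ρ k (n m)) (x := x)
      (((disp_contDiff hF ρ k (n m)).of_le (by exact_mod_cast le_top)).contDiffAt)
  have h0 : (0 : ℝ) < n m := by exact_mod_cast hn1 m
  rw [h4, norm_smul, norm_neg, Real.norm_of_nonneg (by positivity)]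
  have h5 := hn m j (le_trans hj (le_trans (le_max_right _ _) hm)) x
  have h6 : (N : ℝ) ≤ m := by exact_mod_cast le_trans (le_max_left _ _) hm
  have h7 : 2 / ε < m + 1 := by linarith
  rw [div_lt_iff₀ hε] at h7
  calc 1 / (n m : ℝ) * ‖iteratedFDeriv ℝ j (disp F ρ k (n m)) x‖
      ≤ 1 / (n m : ℝ) * (2 / (m + 1) * n m) := by gcongr
    _ = 2 / (m + 1) := by field_simp
    _ < ε := by rw [div_lt_iff₀ (by positivity)]; linarith

/-- Slow directions of a smooth factor. -/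
theorem cob_of_slow_factor {F : (Fin d → ℝ) → (Fin d → ℝ)} {G : (Fin m → ℝ) → (Fin m → ℝ)}
    {p : (Fin d → ℝ) → (Fin m → ℝ)} {ρ : Fin m → ℝ} (hG : ContDiff ℝ (⊤ : ℕ∞) G) (hGe : Eqv G)
    {C₀ : ℝ} (hdev : ∀ (n : ℕ) (x : Fin m → ℝ), ‖G^[n] x - x - (n : ℝ) • ρ‖ ≤ C₀)
    (hc : ClosedCob F) (hp : ContDiff ℝ (⊤ : ℕ∞) p) (ep : Desc p) (hpF : ∀ x, p (F x) = G (p x))
    {k : Fin m → ℤ} (hk : Slow G k) :
    ∃ Ψ : (Fin d → ℝ) → ℝ, ContDiff ℝ (⊤ : ℕ∞) Ψ ∧ IsPer Ψ ∧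
      ∀ x, ph k (G (p x) - p x - ρ) = Ψ (F x) - Ψ x := by
  obtain ⟨Ψ, h1, h2, h3⟩ := slow_approx hG hGe hdev hk
  obtain ⟨Ψ₀, g1, g2, g3⟩ := hc (fun n x => Ψ n (p x)) (fun x => disp G ρ k 1 (p x))
    (fun n => (h1 n).comp hp) (fun n => (h2 n).comp_desc ep) ((disp_contDiff hG ρ k 1).comp hp)
    ((disp_per hGe ρ k 1).comp_desc ep) (fun j ε hε => by
      obtain ⟨D, hD, hcs⟩ := comp_small' (W := ℝ) ep hp j
      obtain ⟨N, hN⟩ := h3 j (ε / (2 * D)) (by positivity)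
      refine ⟨N, fun n hn x => ?_⟩
      have e : (fun y => Ψ n (p (F y)) - Ψ n (p y) - disp G ρ k 1 (p y))
          = fun y => (fun z => Ψ n (G z) - Ψ n z - disp G ρ k 1 z) (p y) := by
        funext y
        simp only [hpF]
      rw [e]
      have h4 := hcs (fun z => Ψ n (G z) - Ψ n z - disp G ρ k 1 z) (ε / (2 * D))
        ((((h1 n).comp hG).sub (h1 n)).sub (disp_contDiff hG ρ k 1))
        (fun i hi y => (hN n hn i hi y).le) x
      have h5 : D * (ε / (2 * D)) = ε / 2 := by field_simp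
      linarith)
  refine ⟨Ψ₀, g1, g2, fun x => ?_⟩
  rw [← g3]
  simp [disp]

end Run7.h575
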