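import Mathlib

set_option autoImplicit false

namespace Run7.h575

/-- Interpolation for sequences satisfying Landau's inequality at every scale. -/
theorem seq_interp (s : ℕ) : ∃ C : ℝ, 1 ≤ C ∧ ∀ M : ℕ → ℝ, (∀ i, 0 ≤ M i) →
    (∀ i, ∀ t : ℝ, 0 < t → M (i + 1) ≤ 2 * M i / t + t * M (i + 2)) →
    ∀ t : ℝ, 0 < t → ∀ j ≤ s, t ^ j * M j ≤ C * (M 0 + t ^ s * M s) := by
  induction s with
  | zero =>
    refine ⟨1, le_rfl, fun M hM _ t ht j hj => ?_⟩
    obtain rfl : j = 0 := by omega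
    have := hM 0
    simp
    linarith
  | succ s ih =>
    obtain ⟨C, hC, hI⟩ := ih
    have hC0 : 0 < C := by linarith
    rcases Nat.eq_zero_or_pos s with rfl | hs
    · refine ⟨1, le_rfl, fun M hM _ t ht j hj => ?_⟩
      have h0 := hM 0
      have h1 := hM 1
      have h2 : 0 ≤ t * M 1 := by positivity
      interval_cases j
      · simp; linarith
      · simp; linarith
    · obtain ⟨r, rfl⟩ : ∃ r, s = r + 1 := ⟨s - 1, by omega⟩
      refine ⟨C * (3 + 4 * C * (4 * C) ^ r), ?_, fun M hM hL t ht j hj => ?_⟩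
      · have : 0 ≤ 4 * C * (4 * C) ^ r := by positivity
        nlinarith
      have hM0 := hM 0
      -- the top intermediate term
      have e1 : t ^ (r + 1) * M (r + 1) ≤ 2 * (t ^ r * M r) + t ^ (r + 2) * M (r + 2) := by
        have h := hL r t ht
        have h' : t ^ (r + 1) * M (r + 1) ≤ t ^ (r + 1) * (2 * M r / t + t * M (r + 2)) := by
          gcongr
        refine h'.trans (le_of_eq ?_)
        field_simp
        ring
      have e2 : t ^ r * M r ≤ C * (4 * C) ^ r * M 0 + 1 / 4 * (t ^ (r + 1) * M (r + 1)) := by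
        have hl : (0 : ℝ) < 1 / (4 * C) * t := by positivity
        have h := hI M hM hL (1 / (4 * C) * t) hl r (by omega)
        rw [mul_pow, mul_pow] at h
        have h4 : (0 : ℝ) < (4 * C) ^ r := by positivity
        have h5 : (1 / (4 * C)) ^ r = 1 / (4 * C) ^ r := by rw [one_div_pow]
        have h6 : (1 / (4 * C)) ^ (r + 1) = 1 / (4 * C) ^ r * (1 / (4 * C)) := by
          rw [pow_succ, one_div_pow]
        rw [h5, h6] at h
        have h7 : (4 * C) ^ r * (1 / (4 * C) ^ r * t ^ r * M r)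
            ≤ (4 * C) ^ r * (C * (M 0 + 1 / (4 * C) ^ r * (1 / (4 * C)) * t ^ (r + 1) * M (r + 1))) := by
          gcongr
        have h8 : (4 * C) ^ r * (1 / (4 * C) ^ r * t ^ r * M r) = t ^ r * M r := by
          field_simp
        have h9 : (4 * C) ^ r * (C * (M 0 + 1 / (4 * C) ^ r * (1 / (4 * C)) * t ^ (r + 1) * M (r + 1)))
            = C * (4 * C) ^ r * M 0 + 1 / 4 * (t ^ (r + 1) * M (r + 1)) := by
          field_simp
        rw [h8, h9] at h7
        exact h7
      have e3 : t ^ (r + 1) * M (r + 1) ≤ 4 * C * (4 * C) ^ r * M 0 + 2 * (t ^ (r + 2) * M (r + 2)) := by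
        linarith
      have e4 : 0 ≤ t ^ (r + 2) * M (r + 2) := mul_nonneg (by positivity) (hM _)
      have e5 : 0 ≤ 4 * C * (4 * C) ^ r := by positivity
      rcases Nat.lt_or_ge j (r + 2) with hj2 | hj2
      · have h := hI M hM hL t ht j (by omega)
        refine h.trans ?_
        rw [mul_assoc]
        gcongr
        nlinarith [mul_nonneg e5 e4]
      · obtain rfl : j = r + 2 := by omega
        have h1 : t ^ (r + 2) * M (r + 2) ≤ 1 * (M 0 + t ^ (r + 2) * M (r + 2)) := by linarith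
        refine h1.trans ?_
        have : (1 : ℝ) ≤ C * (3 + 4 * C * (4 * C) ^ r) := by nlinarith
        gcongr

variable {V W : Type*} [NormedAddCommGroup V] [NormedSpace ℝ V] [NormedAddCommGroup W]
  [NormedSpace ℝ W]

/-- Landau's inequality for consecutive derivatives. -/
theorem landau {v : V → W} (hv : ContDiff ℝ (⊤ : ℕ∞) v) (i : ℕ) {a b : ℝ}
    (ha : ∀ x, ‖iteratedFDeriv ℝ i v x‖ ≤ a) (hb : ∀ x, ‖iteratedFDeriv ℝ (i + 2) v x‖ ≤ b)
    (t : ℝ) (ht : 0 < t) (x : V) : ‖iteratedFDeriv ℝ (i + 1) v x‖ ≤ 2 * a / t + t * b := by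
  have ha0 : 0 ≤ a := (norm_nonneg _).trans (ha x)
  have hb0 : 0 ≤ b := (norm_nonneg _).trans (hb x)
  have hd1 : Differentiable ℝ (iteratedFDeriv ℝ i v) :=
    hv.differentiable_iteratedFDeriv (by exact_mod_cast WithTop.coe_lt_top i)
  have hd2 : Differentiable ℝ (iteratedFDeriv ℝ (i + 1) v) :=
    hv.differentiable_iteratedFDeriv (by exact_mod_cast WithTop.coe_lt_top (i + 1))
  have hlip : ∀ y z, ‖fderiv ℝ (iteratedFDeriv ℝ i v) y - fderiv ℝ (iteratedFDeriv ℝ i v) z‖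
      ≤ b * ‖y - z‖ := by
    intro y z
    rw [fderiv_iteratedFDeriv]
    simp only [Function.comp_apply]
    have hcur : ∀ p q : ContinuousMultilinearMap ℝ (fun _ : Fin (i + 1) => V) W,
        ‖continuousMultilinearCurryLeftEquiv ℝ (fun _ : Fin (i + 1) => V) W p
          - continuousMultilinearCurryLeftEquiv ℝ (fun _ : Fin (i + 1) => V) W q‖ = ‖p - q‖ := by
      intro p q
      rw [← LinearIsometryEquiv.map_sub, LinearIsometryEquiv.norm_map]
    refine (hcur _ _).trans_le ?_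
    refine Convex.norm_image_sub_le_of_norm_fderiv_le (𝕜 := ℝ) (s := Set.univ) (fun u _ => hd2 u)
      (fun u _ => ?_) convex_univ (Set.mem_univ z) (Set.mem_univ y)
    rw [norm_fderiv_iteratedFDeriv]
    exact hb u
  rw [← norm_fderiv_iteratedFDeriv]
  set w := iteratedFDeriv ℝ i v with hw
  refine ContinuousLinearMap.opNorm_le_of_unit_norm (by positivity) fun e he => ?_
  have hφ : ‖(w (x + t • e) - fderiv ℝ w x (x + t • e)) - (w x - fderiv ℝ w x x)‖ ≤ (b * t) * ‖(x + t • e) - x‖ := by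
    refine Convex.norm_image_sub_le_of_norm_fderiv_le (𝕜 := ℝ) (f := fun y => w y - fderiv ℝ w x y)
      (s := Metric.closedBall x t) (fun u _ => ?_) (fun u hu => ?_) (convex_closedBall x t)
      (Metric.mem_closedBall_self ht.le) ?_
    · exact (hd1 u).sub (fderiv ℝ w x).differentiableAt
    · have h1 : fderiv ℝ (fun y => w y - fderiv ℝ w x y) u = fderiv ℝ w u - fderiv ℝ w x := by
        rw [fderiv_fun_sub (hd1 u) (fderiv ℝ w x).differentiableAt, ContinuousLinearMap.fderiv]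
      rw [h1]
      refine (hlip u x).trans ?_
      rw [Metric.mem_closedBall, dist_eq_norm] at hu
      gcongr
    · rw [Metric.mem_closedBall, dist_eq_norm, add_sub_cancel_left, norm_smul, he, mul_one,
        Real.norm_of_nonneg ht.le]
  have h2 : (x + t • e) - x = t • e := by abel
  rw [h2, norm_smul, he, mul_one, Real.norm_of_nonneg ht.le] at hφ
  have h3 : (w (x + t • e) - fderiv ℝ w x (x + t • e)) - (w x - fderiv ℝ w x x)
      = (w (x + t • e) - w x) - t • fderiv ℝ w x e := by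
    rw [map_add, map_smul]; abel
  rw [h3] at hφ
  have h4 : ‖t • fderiv ℝ w x e‖ ≤ ‖w (x + t • e) - w x‖ + b * t * t := by
    have h7 := norm_sub_norm_le (t • fderiv ℝ w x e) (w (x + t • e) - w x)
    have h8 : ‖t • fderiv ℝ w x e - (w (x + t • e) - w x)‖
        = ‖w (x + t • e) - w x - t • fderiv ℝ w x e‖ := norm_sub_rev _ _
    linarith
  have h5 : ‖w (x + t • e) - w x‖ ≤ 2 * a := by
    refine (norm_sub_le _ _).trans ?_
    have := ha (x + t • e)
    have := ha x
    linarith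
  rw [norm_smul, Real.norm_of_nonneg ht.le] at h4
  have h6 : ‖fderiv ℝ w x e‖ ≤ (2 * a + b * t * t) / t := by
    rw [le_div_iff₀ ht]
    linarith
  refine h6.trans (le_of_eq ?_)
  field_simp

/-- Interpolation of derivatives, additive form with a scale. -/
theorem interp (s : ℕ) : ∃ C : ℝ, 1 ≤ C ∧ ∀ (v : V → W), ContDiff ℝ (⊤ : ℕ∞) v →
    (∀ i, ∃ B, ∀ x, ‖iteratedFDeriv ℝ i v x‖ ≤ B) → ∀ a b t : ℝ, 0 < t →
    (∀ x, ‖v x‖ ≤ a) → (∀ x, ‖iteratedFDeriv ℝ s v x‖ ≤ b) → ∀ j ≤ s, ∀ x,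
    t ^ j * ‖iteratedFDeriv ℝ j v x‖ ≤ C * (a + t ^ s * b) := by
  obtain ⟨C, hC, h⟩ := seq_interp s
  refine ⟨C, hC, fun v hv hB a b t ht ha hb j hj x => ?_⟩
  have hbdd : ∀ i, BddAbove (Set.range fun x => ‖iteratedFDeriv ℝ i v x‖) := by
    intro i
    obtain ⟨B, hB⟩ := hB i
    exact ⟨B, by rintro _ ⟨x, rfl⟩; exact hB x⟩
  have hle : ∀ i x, ‖iteratedFDeriv ℝ i v x‖ ≤ ⨆ x, ‖iteratedFDeriv ℝ i v x‖ :=
    fun i x => le_ciSup (hbdd i) x
  have h1 := h (fun i => ⨆ x, ‖iteratedFDeriv ℝ i v x‖)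
    (fun i => (norm_nonneg _).trans (hle i 0))
    (fun i t ht => ciSup_le fun x => landau hv i (hle i) (hle (i + 2)) t ht x) t ht j hj
  have h2 : (⨆ x, ‖iteratedFDeriv ℝ 0 v x‖) ≤ a := ciSup_le fun x => by
    rw [norm_iteratedFDeriv_zero]; exact ha x
  have h3 : (⨆ x, ‖iteratedFDeriv ℝ s v x‖) ≤ b := ciSup_le hb
  calc t ^ j * ‖iteratedFDeriv ℝ j v x‖ ≤ t ^ j * ⨆ x, ‖iteratedFDeriv ℝ j v x‖ := by
        gcongr; exact hle j x
    _ ≤ C * ((⨆ x, ‖iteratedFDeriv ℝ 0 v x‖) + t ^ s * ⨆ x, ‖iteratedFDeriv ℝ s v x‖) := h1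
    _ ≤ _ := by gcongr

end Run7.h575
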