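import Pool.Agent.Run7.h575.Lift
import Pool.Agent.Run7.h575.Interp

set_option autoImplicit false

/-!
Closedness of the space of smooth coboundaries, smooth linearizations, and small divisors.
-/

open MeasureTheory Set Filter Topology Matrix

namespace Run7.h575

variable {d : ℕ}

/-- The space of smooth coboundaries is closed (sequentially, which is the same in a Fréchet
space). -/
def ClosedCob (F : (Fin d → ℝ) → (Fin d → ℝ)) : Prop :=
  ∀ (Ψ : ℕ → (Fin d → ℝ) → ℝ) (Φ : (Fin d → ℝ) → ℝ),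
    (∀ n, ContDiff ℝ ((⊤ : ℕ∞) : WithTop ℕ∞) (Ψ n)) →
    (∀ n (x : Fin d → ℝ) (k : Fin d → ℤ), Ψ n (x + fun i => (k i : ℝ)) = Ψ n x) →
    ContDiff ℝ ((⊤ : ℕ∞) : WithTop ℕ∞) Φ →
    (∀ (x : Fin d → ℝ) (k : Fin d → ℤ), Φ (x + fun i => (k i : ℝ)) = Φ x) →
    (∀ j : ℕ, ∀ ε : ℝ, 0 < ε → ∃ N : ℕ, ∀ n, N ≤ n → ∀ x : Fin d → ℝ,
      ‖iteratedFDeriv ℝ j (fun y => Ψ n (F y) - Ψ n y - Φ y) x‖ < ε) →
    ∃ Ψ₀ : (Fin d → ℝ) → ℝ, ContDiff ℝ ((⊤ : ℕ∞) : WithTop ℕ∞) Ψ₀ ∧
      (∀ (x : Fin d → ℝ) (k : Fin d → ℤ), Ψ₀ (x + fun i => (k i : ℝ)) = Ψ₀ x) ∧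
      ∀ x, Φ x = Ψ₀ (F x) - Ψ₀ x

/-- A map commuting with integer translations. -/
def Eqv (H : (Fin d → ℝ) → (Fin d → ℝ)) : Prop := ∀ x k, H (x + zv k) = H x + zv k

theorem Eqv.per_sub {H : (Fin d → ℝ) → (Fin d → ℝ)} (h : Eqv H) : IsPer fun x => H x - x := by
  intro x k
  show H (x + zv k) - (x + zv k) = H x - x
  rw [h]
  abel

theorem IsPer.zv {W : Type*} {v : (Fin d → ℝ) → W} (hv : IsPer v) (x : Fin d → ℝ)
    (k : Fin d → ℤ) : v (x + Run7.h575.zv k) = v x := hv x k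

theorem IsPer.comp_eqv {W : Type*} {v : (Fin d → ℝ) → W} (hv : IsPer v)
    {H : (Fin d → ℝ) → (Fin d → ℝ)} (hH : Eqv H) : IsPer fun x => v (H x) := by
  intro x k
  show v (H (x + Run7.h575.zv k)) = v (H x)
  rw [hH, hv.zv]

/-- Uniform bounds for the derivatives of an equivariant map. -/
theorem Eqv.bounds {H : (Fin d → ℝ) → (Fin d → ℝ)} (hH : Eqv H) (hs : ContDiff ℝ (⊤ : ℕ∞) H)
    (p : ℕ) : ∃ D : ℝ, 1 ≤ D ∧ ∀ x, ∀ i, 1 ≤ i → i ≤ p → ‖iteratedFDeriv ℝ i H x‖ ≤ D ^ i := by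
  have hper : ∀ i, 1 ≤ i → IsPer (iteratedFDeriv ℝ i H) := by
    intro i hi x k
    have h := iteratedFDeriv_comp_add_right (𝕜 := ℝ) (f := H) i (Run7.h575.zv k) x
    show iteratedFDeriv ℝ i H (x + Run7.h575.zv k) = _
    rw [← h]
    have e : (fun z => H (z + Run7.h575.zv k)) = fun z => H z + Run7.h575.zv k := funext fun z => hH z k
    rw [e]
    have h1 := iteratedFDeriv_add_apply (𝕜 := ℝ) (i := i) (f := H) (g := fun _ => Run7.h575.zv k) (x := x)
      ((hs.of_le (by exact_mod_cast le_top)).contDiffAt) contDiff_const.contDiffAt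
    have h2 : iteratedFDeriv ℝ i (fun _ : Fin d → ℝ => Run7.h575.zv k) x = 0 := by
      rw [iteratedFDeriv_const_of_ne (by omega)]
      rfl
    rw [h2, add_zero] at h1
    exact h1
  have hb : ∀ i, 1 ≤ i → ∃ B, ∀ x, ‖iteratedFDeriv ℝ i H x‖ ≤ B := fun i hi =>
    (hper i hi).bounded (hs.continuous_iteratedFDeriv (by exact_mod_cast le_top))
  induction p with
  | zero => exact ⟨1, le_rfl, fun x i h1 h2 => by omega⟩
  | succ p ih =>
    obtain ⟨D, hD, h⟩ := ih
    obtain ⟨B, hB⟩ := hb (p + 1) (by omega)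
    refine ⟨max D B, le_max_of_le_left hD, fun x i h1 h2 => ?_⟩
    rcases Nat.lt_or_ge i (p + 1) with h3 | h3
    · refine (h x i h1 (by omega)).trans ?_
      gcongr
      exact le_max_left _ _
    · obtain rfl : i = p + 1 := by omega
      have hM : 1 ≤ max D B := le_max_of_le_left hD
      calc ‖iteratedFDeriv ℝ (p + 1) H x‖ ≤ B := hB x
        _ ≤ max D B := le_max_right _ _
        _ = max D B ^ 1 := (pow_one _).symm
        _ ≤ max D B ^ (p + 1) := pow_le_pow_right₀ hM (by omega)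

/-- Composition with an equivariant map preserves smallness of derivatives. -/
theorem comp_small {W : Type*} [NormedAddCommGroup W] [NormedSpace ℝ W]
    {H : (Fin d → ℝ) → (Fin d → ℝ)} (hH : Eqv H) (hs : ContDiff ℝ (⊤ : ℕ∞) H)
    (p : ℕ) : ∃ D : ℝ, 1 ≤ D ∧ ∀ (v : (Fin d → ℝ) → W) (ε : ℝ), ContDiff ℝ (⊤ : ℕ∞) v →
      (∀ i ≤ p, ∀ y, ‖iteratedFDeriv ℝ i v y‖ ≤ ε) →
      ∀ x, ‖iteratedFDeriv ℝ p (fun x => v (H x)) x‖ ≤ D * ε := by
  obtain ⟨D, hD, h⟩ := hH.bounds hs p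
  refine ⟨p.factorial * D ^ p, ?_, fun v ε hv hε x => ?_⟩
  · have h1 : (1 : ℝ) ≤ p.factorial := by exact_mod_cast Nat.succ_le_of_lt p.factorial_pos
    have h2 : 1 ≤ D ^ p := one_le_pow₀ hD
    nlinarith
  · have := norm_iteratedFDeriv_comp_le (𝕜 := ℝ) (g := v) (f := H) (n := p) hv hs
      (by exact_mod_cast le_top) x (fun i hi => hε i hi (H x)) (h x)
    refine this.trans (le_of_eq ?_)
    ring

theorem norm_iter_re_le {v : (Fin d → ℝ) → ℂ} (hv : ContDiff ℝ (⊤ : ℕ∞) v) (p : ℕ)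
    (x : Fin d → ℝ) :
    ‖iteratedFDeriv ℝ p (fun x => (v x).re) x‖ ≤ ‖iteratedFDeriv ℝ p v x‖ := by
  have h := ContinuousLinearMap.iteratedFDeriv_comp_left (𝕜 := ℝ) Complex.reCLM (f := v) (x := x)
    (n := ((⊤ : ℕ∞) : WithTop ℕ∞)) hv.contDiffAt (i := p) (by exact_mod_cast le_top)
  have e : (fun x => (v x).re) = Complex.reCLM ∘ v := rfl
  rw [e, h]
  refine (ContinuousLinearMap.norm_compContinuousMultilinearMap_le _ _).trans ?_
  rw [Complex.reCLM_norm, one_mul]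

theorem norm_iter_im_le {v : (Fin d → ℝ) → ℂ} (hv : ContDiff ℝ (⊤ : ℕ∞) v) (p : ℕ)
    (x : Fin d → ℝ) :
    ‖iteratedFDeriv ℝ p (fun x => (v x).im) x‖ ≤ ‖iteratedFDeriv ℝ p v x‖ := by
  have h := ContinuousLinearMap.iteratedFDeriv_comp_left (𝕜 := ℝ) Complex.imCLM (f := v) (x := x)
    (n := ((⊤ : ℕ∞) : WithTop ℕ∞)) hv.contDiffAt (i := p) (by exact_mod_cast le_top)
  have e : (fun x => (v x).im) = Complex.imCLM ∘ v := rfl
  rw [e, h]
  refine (ContinuousLinearMap.norm_compContinuousMultilinearMap_le _ _).trans ?_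
  rw [Complex.imCLM_norm, one_mul]

/-- Complex version of closedness. -/
theorem ClosedCob.complex {F : (Fin d → ℝ) → (Fin d → ℝ)} (hc : ClosedCob F)
    (hFs : ContDiff ℝ (⊤ : ℕ∞) F) {ψ : ℕ → (Fin d → ℝ) → ℂ} {φ : (Fin d → ℝ) → ℂ}
    (h1 : ∀ n, ContDiff ℝ (⊤ : ℕ∞) (ψ n)) (h2 : ∀ n, IsPer (ψ n)) (h3 : ContDiff ℝ (⊤ : ℕ∞) φ)
    (h4 : IsPer φ) (h5 : ∀ j : ℕ, ∀ ε : ℝ, 0 < ε → ∃ N : ℕ, ∀ n, N ≤ n → ∀ x : Fin d → ℝ,
      ‖iteratedFDeriv ℝ j (fun y => ψ n (F y) - ψ n y - φ y) x‖ < ε) :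
    ∃ ψ₀ : (Fin d → ℝ) → ℂ, Continuous ψ₀ ∧ IsPer ψ₀ ∧ ∀ x, φ x = ψ₀ (F x) - ψ₀ x := by
  have hsm : ∀ n, ContDiff ℝ (⊤ : ℕ∞) fun y => ψ n (F y) - ψ n y - φ y := fun n =>
    (((h1 n).comp hFs).sub (h1 n)).sub h3
  obtain ⟨u, hu1, hu2, hu3⟩ := hc (fun n x => (ψ n x).re) (fun x => (φ x).re)
    (fun n => Complex.reCLM.contDiff.comp (h1 n)) (fun n x k => by
      show (ψ n _).re = _; rw [h2 n x k]) (Complex.reCLM.contDiff.comp h3)
    (fun x k => by show (φ _).re = _; rw [h4 x k]) (fun j ε hε => by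
      obtain ⟨N, hN⟩ := h5 j ε hε
      refine ⟨N, fun n hn x => lt_of_le_of_lt ?_ (hN n hn x)⟩
      exact norm_iter_re_le (hsm n) j x)
  obtain ⟨w, hw1, hw2, hw3⟩ := hc (fun n x => (ψ n x).im) (fun x => (φ x).im)
    (fun n => Complex.imCLM.contDiff.comp (h1 n)) (fun n x k => by
      show (ψ n _).im = _; rw [h2 n x k]) (Complex.imCLM.contDiff.comp h3)
    (fun x k => by show (φ _).im = _; rw [h4 x k]) (fun j ε hε => by
      obtain ⟨N, hN⟩ := h5 j ε hε
      refine ⟨N, fun n hn x => lt_of_le_of_lt ?_ (hN n hn x)⟩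
      exact norm_iter_im_le (hsm n) j x)
  refine ⟨fun x => ⟨u x, w x⟩, ?_, fun x k => ?_, fun x => ?_⟩
  · have e : (fun x => (⟨u x, w x⟩ : ℂ)) = fun x => (u x : ℂ) + (w x : ℂ) * Complex.I := by
      funext x
      apply Complex.ext <;> simp
    rw [e]
    exact (Complex.continuous_ofReal.comp hu1.continuous).add
      ((Complex.continuous_ofReal.comp hw1.continuous).mul continuous_const)
  · show (⟨u _, w _⟩ : ℂ) = ⟨u x, w x⟩
    rw [hu2, hw2]
  · apply Complex.ext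
    · exact hu3 x
    · exact hw3 x

/-! ### the Diophantine half for smoothly linearizable maps -/

theorem closed_of_conj {F H K : (Fin d → ℝ) → (Fin d → ℝ)} {ρ : Fin d → ℝ}
    (hH : ContDiff ℝ (⊤ : ℕ∞) H) (hK : ContDiff ℝ (⊤ : ℕ∞) K) (eH : Eqv H) (eK : Eqv K)
    (KH : ∀ x, K (H x) = x) (HK : ∀ y, H (K y) = y) (HF : ∀ x, H (F x) = H x + ρ)
    (hρ : Dioph ρ) : ClosedCob F := by
  intro Ψ Φ h1 h2 h3 h4 h5
  have hFK : ∀ y, F (K y) = K (y + ρ) := by
    intro y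
    have := HF (K y)
    rw [HK] at this
    rw [← this, KH]
  have hφp : IsPer fun y => Φ (K y) := IsPer.comp_eqv h4 eK
  have hφs : ContDiff ℝ (⊤ : ℕ∞) fun y => Φ (K y) := h3.comp hK
  have h0 : ∫ x in cube, Φ (K x) = 0 := by
    by_contra hne
    have hpos : 0 < |∫ x in cube, Φ (K x)| := abs_pos.2 hne
    obtain ⟨N, hN⟩ := h5 0 (|∫ x in cube, Φ (K x)| / 2) (by positivity)
    have h6 := hN N le_rfl
    simp only [norm_iteratedFDeriv_zero] at h6
    have hper : IsPer fun y => Ψ N (K y) := IsPer.comp_eqv (h2 N) eK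
    have hcont : Continuous fun y => Ψ N (K y) := (h1 N).continuous.comp hK.continuous
    have h7 := integral_shift hper ρ
    have i1 : IntegrableOn (fun y => Ψ N (K (y + ρ))) cube :=
      integrableOn_cube (hcont.comp (continuous_id.add continuous_const))
    have i2 : IntegrableOn (fun y => Ψ N (K y)) cube := integrableOn_cube hcont
    have i3 : IntegrableOn (fun y => Φ (K y)) cube := integrableOn_cube hφs.continuous
    have h8 : ∫ y in cube, (Ψ N (K (y + ρ)) - Ψ N (K y) - Φ (K y)) = -∫ x in cube, Φ (K x) := by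
      have i12 : IntegrableOn (fun y => Ψ N (K (y + ρ)) - Ψ N (K y)) cube := i1.sub i2
      rw [integral_sub i12 i3, integral_sub i1 i2, h7]
      ring
    have h9 : ‖∫ y in cube, (Ψ N (K (y + ρ)) - Ψ N (K y) - Φ (K y))‖
        ≤ |∫ x in cube, Φ (K x)| / 2 := by
      have := norm_setIntegral_le_of_norm_le_const (μ := (volume : Measure (Fin d → ℝ)))
        (s := cube) (f := fun y => Ψ N (K (y + ρ)) - Ψ N (K y) - Φ (K y))
        (C := |∫ x in cube, Φ (K x)| / 2) (by rw [volume_cube]; exact ENNReal.one_lt_top)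
        (fun y _ => by
          have := h6 (K y)
          rw [hFK] at this
          exact this.le)
      rw [measureReal_def, volume_cube] at this
      simpa using this
    rw [h8, norm_neg, Real.norm_eq_abs] at h9
    linarith
  obtain ⟨g, hg1, hg2, hg3⟩ := solve hρ hφp hφs h0
  refine ⟨fun x => g (H x), hg2.comp hH, IsPer.comp_eqv hg1 eH, fun x => ?_⟩
  show Φ x = g (H (F x)) - g (H x)
  rw [HF, hg3, KH]

/-! ### small divisors -/

theorem integral_ee {k : Fin d → ℤ} (hk : k ≠ 0) : ∫ x in cube, ee k x = 0 := by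
  obtain ⟨j, hj⟩ : ∃ j, k j ≠ 0 := by
    by_contra h
    push Not at h
    exact hk (funext h)
  have hk' : (k j : ℝ) ≠ 0 := by exact_mod_cast hj
  have h1 := integral_shift (ee_per k) (Pi.single j (1 / (2 * (k j : ℝ))))
  have hph : ph k (Pi.single j (1 / (2 * (k j : ℝ)))) = 1 / 2 := by
    rw [ph, Finset.sum_eq_single j]
    · rw [Pi.single_eq_same]; field_simp
    · intro b _ hb
      rw [Pi.single_eq_of_ne hb, mul_zero]
    · intro h; exact absurd (Finset.mem_univ j) h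
  have hee : ee k (Pi.single j (1 / (2 * (k j : ℝ)))) = -1 := by
    rw [ee, hph]
    have : (2 * Real.pi * Complex.I * ((1 / 2 : ℝ) : ℂ)) = Real.pi * Complex.I := by
      push_cast; ring
    rw [this, Complex.exp_pi_mul_I]
  simp only [ee_add, hee, mul_neg, mul_one] at h1
  rw [integral_neg] at h1
  have h2 : (2 : ℂ) * ∫ x in cube, ee k x = 0 := by linear_combination -h1
  rcases mul_eq_zero.1 h2 with h | h
  · norm_num at h
  · exact h

theorem fc_ee_mul (k l : Fin d → ℤ) (x : Fin d → ℝ) : ee (-k) x * ee l x = ee (l - k) x := by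
  rw [ee, ee, ee, ← Complex.exp_add]
  congr 1
  have : ph (l - k) x = ph l x - ph k x := by
    simp [ph, sub_mul, Finset.sum_sub_distrib]
  rw [this, ph_neg]
  push_cast
  ring

theorem fc_tsum {b : ℕ → ℂ} (hb : Summable b) {κ : ℕ → Fin d → ℤ} (hκ : Function.Injective κ)
    (j : ℕ) : fc (fun x => ∑' i, b i * ee (κ i) x) (κ j) = b j := by
  have hbn : Summable fun i => ‖b i‖ := hb.norm
  have h1 : ∀ x : Fin d → ℝ, ee (-(κ j)) x * ∑' i, b i * ee (κ i) x = ∑' i, b i * ee (κ i - κ j) x := by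
    intro x
    rw [← tsum_mul_left]
    refine tsum_congr fun i => ?_
    rw [← fc_ee_mul]
    ring
  rw [fc]
  simp only [h1]
  have h2 := hasSum_integral_of_summable_integral_norm (μ := volume.restrict (cube (d := d)))
    (F := fun i x => b i * ee (κ i - κ j) x)
    (fun i => (integrableOn_cube (continuous_const.mul (ee_continuous _)))) (by
      refine hbn.congr fun i => ?_
      simp only [norm_mul, norm_ee, mul_one]
      rw [setIntegral_const, measureReal_def, volume_cube]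
      simp)
  have h3 : ∀ i, ∫ x in cube, b i * ee (κ i - κ j) x = if i = j then b j else 0 := by
    intro i
    rw [integral_const_mul]
    by_cases hij : i = j
    · subst hij
      simp only [sub_self, if_true]
      have : (fun x : Fin d → ℝ => ee (0 : Fin d → ℤ) x) = fun _ => (1 : ℂ) := funext fun x => ee_zero_left x
      rw [this, setIntegral_const, measureReal_def, volume_cube]
      simp
    · rw [if_neg hij, integral_ee, mul_zero]
      intro h
      exact hij (hκ (sub_eq_zero.1 h))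
  simp only [h3] at h2
  rw [← h2.tsum_eq, tsum_ite_eq]

end Run7.h575
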