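import Mathlib

set_option autoImplicit false

/-!
# Slow growth of derivatives and towers of extensions

Maps of the torus are represented by their lifts to `ℝ^d`.
-/

namespace Run7.h575

/-- Slow growth: for every `δ > 0` there are arbitrarily large orders `s` such that
`sup_x ‖D^s (F^n)(x)‖ = O(n^(δ s))`. -/
def Subpoly {d : ℕ} (F : (Fin d → ℝ) → (Fin d → ℝ)) : Prop :=
  ∀ δ : ℝ, 0 < δ → ∀ s₀ : ℕ, ∃ s : ℕ, s₀ ≤ s ∧ ∃ C : ℝ, ∀ n : ℕ, 1 ≤ n → ∀ x : Fin d → ℝ,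
    ‖iteratedFDeriv ℝ s F^[n] x‖ ≤ C * (n : ℝ) ^ (δ * s)

/-- The smallest class of maps that contains the maps with slow growth, the extensions
`(x, y) ↦ (G x, y + φ x)` of its members by translations of a circle, and the smooth conjugates
`Θ ∘ G ∘ Θ⁻¹` of its members by diffeomorphisms `Θ` of the torus. -/
inductive Tower : (d : ℕ) → ((Fin d → ℝ) → (Fin d → ℝ)) → Prop
  | base (d : ℕ) (F : (Fin d → ℝ) → (Fin d → ℝ)) : Subpoly F → Tower d F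
  | ext (n : ℕ) (G : (Fin n → ℝ) → (Fin n → ℝ)) (φ : (Fin n → ℝ) → ℝ)
      (F : (Fin (n + 1) → ℝ) → (Fin (n + 1) → ℝ)) : Tower n G →
      (∀ x (i : Fin n), F x i.castSucc = G (fun j => x j.castSucc) i) →
      (∀ x, F x (Fin.last n) = x (Fin.last n) + φ (fun j => x j.castSucc)) → Tower (n + 1) F
  | conj (d : ℕ) (G F Θ Θ' : (Fin d → ℝ) → (Fin d → ℝ)) : Tower d G →
      ContDiff ℝ ((⊤ : ℕ∞) : WithTop ℕ∞) Θ → ContDiff ℝ ((⊤ : ℕ∞) : WithTop ℕ∞) Θ' →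
      (∀ x, Θ' (Θ x) = x) → (∀ x, Θ (Θ' x) = x) →
      (∀ (x : Fin d → ℝ) (k : Fin d → ℤ), ∃ l : Fin d → ℤ,
        Θ (x + fun i => (k i : ℝ)) = Θ x + fun i => (l i : ℝ)) →
      (∀ (x : Fin d → ℝ) (k : Fin d → ℤ), ∃ l : Fin d → ℤ,
        Θ' (x + fun i => (k i : ℝ)) = Θ' x + fun i => (l i : ℝ)) →
      (∀ x, F (Θ x) = Θ (G x)) → Tower d F

end Run7.h575
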