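import Pool.Agent.Run7.h575.Slow

set_option autoImplicit false

/-!
A smooth semiconjugacy homotopic to the identity is a smooth diffeomorphism (Sard and minimality).
-/

open MeasureTheory Set Filter Topology Matrix

namespace Run7.h575

variable {d : ℕ}

theorem rot_eq {F H : (Fin d → ℝ) → (Fin d → ℝ)} {α ρ : Fin d → ℝ} (D : Dat F α)
    (hH : Continuous H) (eH : Eqv H) (HF : ∀ x, H (F x) = H x + ρ) :
    D.rA ρ = α + zv D.m ∧ ρ = D.rho := by
  have hper : IsPer fun x => D.P x - D.rA (H x) := by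
    intro x k
    show D.P (x + zv k) - D.rA (H (x + zv k)) = D.P x - D.rA (H x)
    rw [D.Pper, eH, map_add, D.rA_zv]
    abel
  obtain ⟨B, hB⟩ := hper.bounded (D.hP.sub (D.rA.continuous.comp hH))
  have h1 := Dat.no_drift (F := F) (c := α + zv D.m - D.rA ρ) hB (fun x => by
    rw [D.PF, HF, map_add]; abel)
  have h2 : D.rA ρ = α + zv D.m := (sub_eq_zero.1 h1).symm
  refine ⟨h2, ?_⟩
  rw [Dat.rho, ← h2, D.rB_rA]

theorem det_ne_zero {F G : (Fin d → ℝ) → (Fin d → ℝ)} (hdF : Differentiable ℝ F)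
    (hdG : Differentiable ℝ G) (GF : ∀ x, G (F x) = x) (x : Fin d → ℝ) :
    (fderiv ℝ F x).det ≠ 0 := by
  intro h0
  have h1 : (fderiv ℝ G (F x)).comp (fderiv ℝ F x) = ContinuousLinearMap.id ℝ _ := by
    rw [← fderiv_comp x (hdG _) (hdF _)]
    have : G ∘ F = id := funext GF
    rw [this, fderiv_id]
  have h2 := congrArg ContinuousLinearMap.det h1
  have h3 : ((fderiv ℝ G (F x)).comp (fderiv ℝ F x)).det
      = (fderiv ℝ G (F x)).det * (fderiv ℝ F x).det := by
    show LinearMap.det _ = LinearMap.det _ * LinearMap.det _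
    rw [← LinearMap.det_comp]
    rfl
  rw [h3, h0, mul_zero] at h2
  have h4 : (ContinuousLinearMap.id ℝ (Fin d → ℝ)).det = 1 := LinearMap.det_id
  rw [h4] at h2
  exact zero_ne_one h2

theorem exists_inverse_gen {r : WithTop ℕ∞} (hr : r ≠ 0) {F H : (Fin d → ℝ) → (Fin d → ℝ)}
    {α ρ : Fin d → ℝ} (D : Dat F α)
    (hα : Irr α) (hdF : Differentiable ℝ F) (hdetF : ∀ x, (fderiv ℝ F x).det ≠ 0)
    (hH : ContDiff ℝ r H) (eH : Eqv H) (HF : ∀ x, H (F x) = H x + ρ) :
    ∃ K : (Fin d → ℝ) → (Fin d → ℝ), ContDiff ℝ r K ∧ Eqv K ∧ (∀ x, K (H x) = x) ∧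
      ∀ y, H (K y) = y := by
  obtain ⟨hA, hρ⟩ := rot_eq D hH.continuous eH HF
  have hper : IsPer fun x => D.P x - D.rA (H x) := by
    intro x k
    show D.P (x + zv k) - D.rA (H (x + zv k)) = D.P x - D.rA (H x)
    rw [D.Pper, eH, map_add, D.rA_zv]
    abel
  set c : Fin d → ℝ := D.P 0 - D.rA (H 0) with hc
  have hconst : ∀ x, D.P x - D.rA (H x) = c := by
    intro x
    funext i
    refine D.const hα (v := fun x => (D.P x - D.rA (H x)) i) (hper.comp (fun w => w i))
      ((continuous_apply i).comp (D.hP.sub (D.rA.continuous.comp hH.continuous)))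
      (fun x => ?_) x 0
    have : D.P (F x) - D.rA (H (F x)) = D.P x - D.rA (H x) := by
      rw [D.PF, HF, map_add, hA]
      abel
    exact congrFun this i
  set K : (Fin d → ℝ) → (Fin d → ℝ) := fun y => D.Q (D.rA y + c) with hK
  have KH : ∀ x, K (H x) = x := by
    intro x
    show D.Q (D.rA (H x) + c) = x
    rw [← hconst x, add_sub_cancel, D.QP]
  have HK : ∀ y, H (K y) = y := by
    intro y
    have h1 := hconst (K y)
    rw [hK] at h1
    simp only [D.PQ] at h1
    have h2 : D.rA (H (K y)) = D.rA y := by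
      rw [hK]
      simp only
      have : D.rA y + c - D.rA (H (D.Q (D.rA y + c))) - c = 0 := by rw [h1]; abel
      rw [sub_sub, add_comm (D.rA (H _)) c, ← sub_sub, add_sub_cancel_right, sub_eq_zero] at this
      exact this.symm
    have h3 := congrArg D.rB h2
    rwa [D.rB_rA, D.rB_rA] at h3
  have hKc : Continuous K := D.hQ.comp (D.rA.continuous.add continuous_const)
  have eK : Eqv K := by
    intro y k
    have h1 : H (K y + zv k) = y + zv k := by rw [eH, HK]
    rw [← h1, KH]
  refine ⟨K, ?_, eK, KH, HK⟩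
  -- the derivative of H is invertible everywhere
  set E : Set (Fin d → ℝ) := {x | (fderiv ℝ H x).det = 0} with hE
  have hdH : Differentiable ℝ H := hH.differentiable hr
  have hEc : IsClosed E := by
    have : Continuous fun x => (fderiv ℝ H x).det :=
      ContinuousLinearMap.continuous_det.comp (hH.continuous_fderiv hr)
    exact isClosed_eq this continuous_const
  have hfper : ∀ x k, fderiv ℝ H (x + zv k) = fderiv ℝ H x := by
    intro x k
    have h1 := fderiv_comp_add_right (𝕜 := ℝ) (f := H) (x := x) (zv k)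
    rw [← h1]
    have e : (fun z => H (z + zv k)) = fun z => H z + zv k := funext fun z => eH z k
    rw [e, fderiv_add_const]
  have hinv : ∀ x, F x ∈ E ↔ x ∈ E := by
    intro x
    have h1 : (fderiv ℝ H (F x)).comp (fderiv ℝ F x) = fderiv ℝ H x := by
      rw [← fderiv_comp x (hdH _) (hdF _)]
      have : H ∘ F = fun x => H x + ρ := funext HF
      rw [this, fderiv_add_const]
    have h3 : (fderiv ℝ H x).det = (fderiv ℝ H (F x)).det * (fderiv ℝ F x).det := by
      rw [← h1]
      show LinearMap.det _ = LinearMap.det _ * LinearMap.det _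
      rw [← LinearMap.det_comp]
      rfl
    show (fderiv ℝ H (F x)).det = 0 ↔ (fderiv ℝ H x).det = 0
    rw [h3, mul_eq_zero]
    constructor
    · exact fun h => Or.inl h
    · rintro (h | h)
      · exact h
      · exact absurd h (hdetF x)
  have hdet : ∀ x, (fderiv ℝ H x).det ≠ 0 := by
    intro x0 h0
    have huniv := D.minimal hα hEc ⟨x0, h0⟩ (fun x k hx => by
      show (fderiv ℝ H (x + zv k)).det = 0
      rw [hfper]; exact hx) hinv
    have h1 := addHaar_image_eq_zero_of_det_fderivWithin_eq_zero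
      (volume : Measure (Fin d → ℝ)) (f := H) (f' := fderiv ℝ H) (s := univ)
      (fun x _ => (hdH x).hasFDerivAt.hasFDerivWithinAt) (fun x _ => by
        have : x ∈ E := by rw [huniv]; exact mem_univ x
        exact this)
    have h2 : H '' univ = univ := by
      rw [image_univ]
      exact Function.Surjective.range_eq fun y => ⟨K y, HK y⟩
    rw [h2] at h1
    have h3 : volume (cube (d := d)) ≤ volume (univ : Set (Fin d → ℝ)) := measure_mono (subset_univ _)
    rw [h1, volume_cube] at h3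
    exact absurd h3 (by norm_num)
  let e : (Fin d → ℝ) ≃ₜ (Fin d → ℝ) :=
    { toFun := H, invFun := K, left_inv := KH, right_inv := HK,
      continuous_toFun := hH.continuous, continuous_invFun := hKc }
  have h1 := e.contDiff_symm (𝕜 := ℝ) (n := r)
    (f₀' := fun a => (fderiv ℝ H a).toContinuousLinearEquivOfDetNeZero (hdet a))
    (fun a => (hdH a).hasFDerivAt) hH
  exact h1

theorem exists_inverse {F G H : (Fin d → ℝ) → (Fin d → ℝ)} {α ρ : Fin d → ℝ} (D : Dat F α)
    (hα : Irr α) (hFs : ContDiff ℝ (⊤ : ℕ∞) F) (hGs : ContDiff ℝ (⊤ : ℕ∞) G)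
    (GF : ∀ x, G (F x) = x)
    (hH : ContDiff ℝ (⊤ : ℕ∞) H) (eH : Eqv H) (HF : ∀ x, H (F x) = H x + ρ) :
    ∃ K : (Fin d → ℝ) → (Fin d → ℝ), ContDiff ℝ (⊤ : ℕ∞) K ∧ Eqv K ∧ (∀ x, K (H x) = x) ∧
      ∀ y, H (K y) = y :=
  exists_inverse_gen (by simp) D hα (hFs.differentiable (by simp))
    (det_ne_zero (hFs.differentiable (by simp)) (hGs.differentiable (by simp)) GF) hH eH HF

end Run7.h575
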