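import Pool.Agent.Run7.h575.RD

set_option autoImplicit false

/-!
Effective density of the orbit of a Diophantine translation.
-/

open MeasureTheory Set Filter Topology

namespace Run7.h575

variable {d : ℕ}

/-- The one-dimensional exponential. -/
noncomputable def e1 (t : ℝ) : ℂ := Complex.exp (2 * Real.pi * Complex.I * (t : ℂ))

theorem norm_e1 (t : ℝ) : ‖e1 t‖ = 1 := by
  have : (2 * Real.pi * Complex.I * (t : ℂ)) = ((2 * Real.pi * t : ℝ) : ℂ) * Complex.I := by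
    push_cast; ring
  rw [e1, this, Complex.norm_exp_ofReal_mul_I]

theorem norm_one_add_e1 (t : ℝ) : ‖(1 + e1 t) / 2‖ ^ 2 ≤ 1 - 4 * |t - round t| ^ 2 := by
  have h1 : ‖1 + e1 t‖ ^ 2 + ‖1 - e1 t‖ ^ 2 = 2 * (‖(1 : ℂ)‖ ^ 2 + ‖e1 t‖ ^ 2) :=
    parallelogram_law_with_norm ℝ 1 (e1 t)
  rw [norm_one, norm_e1] at h1
  have h2 := norm_exp_sub_one_ge t
  have h3 : ‖1 - e1 t‖ = ‖Complex.exp (2 * Real.pi * Complex.I * (t : ℂ)) - 1‖ := norm_sub_rev _ _
  rw [← h3] at h2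
  rw [norm_div, Complex.norm_ofNat, div_pow]
  have h4 := abs_nonneg (t - round t)
  nlinarith

theorem e1_nat_mul (m : ℕ) (t : ℝ) : e1 (m * t) = e1 t ^ m := by
  rw [e1, e1, ← Complex.exp_nat_mul]
  congr 1
  push_cast
  ring

theorem ee_eq_prod (k : Fin d → ℤ) (x : Fin d → ℝ) : ee k x = ∏ i, e1 (k i * x i) := by
  simp only [e1, ← Complex.exp_sum]
  rw [ee, ph]
  congr 1
  push_cast
  rw [Finset.mul_sum]

/-- The coefficients of the test polynomial. -/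
noncomputable def cf (p : ℕ) (l : Fin d → ℕ) : ℝ := ∏ i, ((p.choose (l i) : ℝ) / 2 ^ p)

/-- The index box. -/
def box (d p : ℕ) : Finset (Fin d → ℕ) := Fintype.piFinset fun _ => Finset.range (p + 1)

theorem test_eq (p : ℕ) (x : Fin d → ℝ) :
    ∏ i, ((1 + e1 (x i)) / 2) ^ p = ∑ l ∈ box d p, (cf p l : ℂ) * ee (fun i => (l i : ℤ)) x := by
  have h1 : ∀ i, ((1 + e1 (x i)) / 2) ^ p
      = ∑ m ∈ Finset.range (p + 1), ((p.choose m : ℂ) / 2 ^ p) * e1 (m * x i) := by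
    intro i
    rw [div_pow, add_comm, add_pow, Finset.sum_div]
    refine Finset.sum_congr rfl fun m _ => ?_
    rw [e1_nat_mul, one_pow, mul_one]
    ring
  simp only [h1]
  rw [Finset.prod_univ_sum]
  refine Finset.sum_congr rfl fun l _ => ?_
  rw [Finset.prod_mul_distrib, ee_eq_prod, cf]
  push_cast
  rfl

theorem cf_nonneg (p : ℕ) (l : Fin d → ℕ) : 0 ≤ cf p l := Finset.prod_nonneg fun i _ => by positivity

theorem sum_cf (p : ℕ) : ∑ l ∈ box d p, cf p l = 1 := by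
  have h := test_eq (d := d) p 0
  simp only [Pi.zero_apply, ee_zero_right, mul_one] at h
  have h0 : e1 0 = 1 := by simp [e1]
  rw [h0] at h
  have h1 : ((1 + 1 : ℂ) / 2) ^ p = 1 := by norm_num
  rw [h1] at h
  simp only [Finset.prod_const_one] at h
  have h2 : ((∑ l ∈ box d p, cf p l : ℝ) : ℂ) = 1 := by
    rw [h]; push_cast; rfl
  exact_mod_cast h2

theorem card_box (d p : ℕ) : (box d p).card = (p + 1) ^ d := by
  rw [box, Fintype.card_piFinset]
  simp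

theorem sum_cf_sq (p : ℕ) : 1 / ((p : ℝ) + 1) ^ d ≤ ∑ l ∈ box d p, cf p l ^ 2 := by
  have h := sq_sum_le_card_mul_sum_sq (s := box d p) (f := cf p)
  rw [sum_cf, card_box, one_pow] at h
  push_cast at h
  rw [div_le_iff₀ (by positivity)]
  linarith

theorem geom_bound {z : ℂ} (hz : z ≠ 1) (h1 : ‖z‖ = 1) (N : ℕ) :
    ‖∑ j ∈ Finset.range N, z ^ j‖ ≤ 2 / ‖z - 1‖ := by
  rw [geom_sum_eq hz, norm_div]
  gcongr
  refine (norm_sub_le _ _).trans ?_
  rw [norm_pow, h1, one_pow, norm_one]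
  norm_num

theorem ee_nat (k : Fin d → ℤ) (x : Fin d → ℝ) (j : ℕ) : ee k ((j : ℝ) • x) = ee k x ^ j := by
  rw [ee, ee, ← Complex.exp_nat_mul, ph_smul]
  congr 1
  push_cast
  ring

theorem ee_conj (k l : Fin d → ℤ) (x : Fin d → ℝ) :
    ee k x * (starRingEnd ℂ) (ee l x) = ee (k - l) x := by
  have h1 : (starRingEnd ℂ) (ee l x) = ee (-l) x := by
    rw [ee, ee, ← Complex.exp_conj, ph_neg]
    congr 1
    simp only [map_mul, Complex.conj_ofReal, Complex.conj_I, map_ofNat]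
    push_cast
    ring
  rw [h1, ee, ee, ee, ← Complex.exp_add]
  congr 1
  have : ph (k - l) x = ph k x - ph l x := by
    simp [ph, sub_mul, Finset.sum_sub_distrib]
  rw [this, ph_neg]
  push_cast
  ring

theorem sum_sq_lower {ρ : Fin d → ℝ} {c : ℝ} (hc : 0 < c) {n : ℕ}
    (h : ∀ k : Fin d → ℤ, k ≠ 0 → c ≤ wt k ^ n * ‖ee k ρ - 1‖) (b : Fin d → ℝ) (p N : ℕ) :
    N * (1 / ((p : ℝ) + 1) ^ d) - 2 / c * ((p : ℝ) + 1) ^ n ≤
      ∑ j ∈ Finset.range N,
        ‖∑ l ∈ box d p, (cf p l : ℂ) * ee (fun i => (l i : ℤ)) ((j : ℝ) • ρ - b)‖ ^ 2 := by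
  set L : (Fin d → ℕ) → (Fin d → ℤ) := fun l i => (l i : ℤ) with hL
  have hLinj : Function.Injective L := by
    intro l l' hl
    funext i
    have := congrFun hl i
    simp only [hL] at this
    exact_mod_cast this
  have e1 : ∀ j : ℕ, ((‖∑ l ∈ box d p, (cf p l : ℂ) * ee (L l) ((j : ℝ) • ρ - b)‖ ^ 2 : ℝ) : ℂ)
      = ∑ l ∈ box d p, ∑ l' ∈ box d p, ((cf p l * cf p l' : ℝ) : ℂ) *
        (ee (L l - L l') (-b) * ee (L l - L l') ρ ^ j) := by
    intro j
    have h1 : ((‖∑ l ∈ box d p, (cf p l : ℂ) * ee (L l) ((j : ℝ) • ρ - b)‖ ^ 2 : ℝ) : ℂ)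
        = (∑ l ∈ box d p, (cf p l : ℂ) * ee (L l) ((j : ℝ) • ρ - b))
          * (starRingEnd ℂ) (∑ l ∈ box d p, (cf p l : ℂ) * ee (L l) ((j : ℝ) • ρ - b)) := by
      rw [Complex.mul_conj, Complex.normSq_eq_norm_sq]
    rw [h1, map_sum, Finset.sum_mul_sum]
    refine Finset.sum_congr rfl fun l _ => Finset.sum_congr rfl fun l' _ => ?_
    rw [map_mul, Complex.conj_ofReal, ← ee_nat, ← ee_add, ← ee_conj]
    have : -b + (j : ℝ) • ρ = (j : ℝ) • ρ - b := by abel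
    rw [this]
    push_cast
    ring
  have e2 : ((∑ j ∈ Finset.range N,
        ‖∑ l ∈ box d p, (cf p l : ℂ) * ee (L l) ((j : ℝ) • ρ - b)‖ ^ 2 : ℝ) : ℂ)
      = ∑ l ∈ box d p, ∑ l' ∈ box d p, ((cf p l * cf p l' : ℝ) : ℂ) *
        (ee (L l - L l') (-b) * ∑ j ∈ Finset.range N, ee (L l - L l') ρ ^ j) := by
    rw [Complex.ofReal_sum, Finset.sum_congr rfl fun j _ => e1 j, Finset.sum_comm]
    refine Finset.sum_congr rfl fun l _ => ?_
    rw [Finset.sum_comm]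
    refine Finset.sum_congr rfl fun l' _ => ?_
    simp only [Finset.mul_sum]
  have e3 : ∀ l ∈ box d p, ∀ l' ∈ box d p,
      ‖(ee (L l - L l') (-b) * ∑ j ∈ Finset.range N, ee (L l - L l') ρ ^ j)
        - (if l = l' then (N : ℂ) else 0)‖ ≤ 2 / c * ((p : ℝ) + 1) ^ n := by
    intro l hl l' hl'
    by_cases hll : l = l'
    · subst hll
      simp only [sub_self, ee_zero_left, one_pow, Finset.sum_const, Finset.card_range, if_true,
        nsmul_eq_mul, mul_one, one_mul]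
      rw [norm_zero]
      positivity
    · have hne : L l - L l' ≠ 0 := fun h0 => hll (hLinj (sub_eq_zero.1 h0))
      rw [if_neg hll, sub_zero, norm_mul, norm_ee, one_mul]
      have hz := h _ hne
      have hz1 : ee (L l - L l') ρ ≠ 1 := by
        intro h0
        rw [h0, sub_self, norm_zero, mul_zero] at hz
        linarith
      refine (geom_bound hz1 (norm_ee _ _) N).trans ?_
      have hpos : 0 < ‖ee (L l - L l') ρ - 1‖ := norm_pos_iff.2 (sub_ne_zero.2 hz1)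
      have hwt : wt (L l - L l') ≤ (p : ℝ) + 1 := by
        have : ‖L l - L l'‖ ≤ p := by
          refine (pi_norm_le_iff_of_nonneg (by positivity)).2 fun i => ?_
          have h1 : l i < p + 1 := by
            have := Fintype.mem_piFinset.1 hl i
            exact Finset.mem_range.1 this
          have h2 : l' i < p + 1 := by
            have := Fintype.mem_piFinset.1 hl' i
            exact Finset.mem_range.1 this
          rw [Int.norm_eq_abs, ← Int.cast_abs]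
          have h3 : |(L l - L l') i| ≤ (p : ℤ) := by
            simp only [hL, Pi.sub_apply]
            rw [abs_le]
            omega
          exact_mod_cast h3
        unfold wt
        linarith
      have hw0 := wt_pos (L l - L l')
      rw [div_le_iff₀ hpos]
      calc (2 : ℝ) = 2 / c * c := by field_simp
        _ ≤ 2 / c * (wt (L l - L l') ^ n * ‖ee (L l - L l') ρ - 1‖) := by gcongr
        _ ≤ 2 / c * (((p : ℝ) + 1) ^ n * ‖ee (L l - L l') ρ - 1‖) := by gcongr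
        _ = _ := by ring
  have e4 : ((∑ j ∈ Finset.range N,
        ‖∑ l ∈ box d p, (cf p l : ℂ) * ee (L l) ((j : ℝ) • ρ - b)‖ ^ 2 : ℝ) : ℂ)
        - ((N * ∑ l ∈ box d p, cf p l ^ 2 : ℝ) : ℂ)
      = ∑ l ∈ box d p, ∑ l' ∈ box d p, ((cf p l * cf p l' : ℝ) : ℂ) *
        ((ee (L l - L l') (-b) * ∑ j ∈ Finset.range N, ee (L l - L l') ρ ^ j)
          - (if l = l' then (N : ℂ) else 0)) := by
    rw [e2]
    simp only [mul_sub, Finset.sum_sub_distrib]
    congr 1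
    rw [Complex.ofReal_mul, Complex.ofReal_sum, Finset.mul_sum]
    refine Finset.sum_congr rfl fun l hl => ?_
    simp only [mul_ite, mul_zero]
    rw [Finset.sum_ite_eq, if_pos hl]
    push_cast
    ring
  have e5 : ‖((∑ j ∈ Finset.range N,
        ‖∑ l ∈ box d p, (cf p l : ℂ) * ee (L l) ((j : ℝ) • ρ - b)‖ ^ 2 : ℝ) : ℂ)
        - ((N * ∑ l ∈ box d p, cf p l ^ 2 : ℝ) : ℂ)‖ ≤ 2 / c * ((p : ℝ) + 1) ^ n := by
    rw [e4]
    calc ‖∑ l ∈ box d p, ∑ l' ∈ box d p, ((cf p l * cf p l' : ℝ) : ℂ) *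
        ((ee (L l - L l') (-b) * ∑ j ∈ Finset.range N, ee (L l - L l') ρ ^ j)
          - (if l = l' then (N : ℂ) else 0))‖
        ≤ ∑ l ∈ box d p, ∑ l' ∈ box d p, (cf p l * cf p l') * (2 / c * ((p : ℝ) + 1) ^ n) := by
          refine (norm_sum_le _ _).trans (Finset.sum_le_sum fun l hl => ?_)
          refine (norm_sum_le _ _).trans (Finset.sum_le_sum fun l' hl' => ?_)
          rw [norm_mul, Complex.norm_real, Real.norm_of_nonneg
            (mul_nonneg (cf_nonneg p l) (cf_nonneg p l'))]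
          exact mul_le_mul_of_nonneg_left (e3 l hl l' hl')
            (mul_nonneg (cf_nonneg p l) (cf_nonneg p l'))
      _ = (∑ l ∈ box d p, cf p l) * (∑ l ∈ box d p, cf p l) * (2 / c * ((p : ℝ) + 1) ^ n) := by
          rw [Finset.sum_mul_sum, Finset.sum_mul]
          refine Finset.sum_congr rfl fun l _ => ?_
          rw [Finset.sum_mul]
      _ = 2 / c * ((p : ℝ) + 1) ^ n := by rw [sum_cf]; ring
  rw [← Complex.ofReal_sub, Complex.norm_real, Real.norm_eq_abs, abs_le] at e5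
  have e6 := sum_cf_sq (d := d) p
  have e7 : (N : ℝ) * (1 / ((p : ℝ) + 1) ^ d) ≤ N * ∑ l ∈ box d p, cf p l ^ 2 := by gcongr
  linarith [e5.1]

theorem exists_M (d : ℕ) : ∃ M : ℕ, 1 ≤ M ∧ ∀ y : ℝ, (M : ℝ) ≤ y →
    2 * (5 * y ^ 3) ^ d ≤ Real.exp y := by
  have h1 := Real.tendsto_pow_mul_exp_neg_atTop_nhds_zero (3 * d)
  have h2 := h1.eventually (gt_mem_nhds (show (0 : ℝ) < 1 / (2 * 5 ^ d) by positivity))
  obtain ⟨M, hM⟩ := Filter.eventually_atTop.1 h2
  obtain ⟨M', hM'⟩ := exists_nat_ge M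
  refine ⟨M' + 1, by omega, fun y hy => ?_⟩
  have h3 := hM y (by push_cast at hy; linarith)
  rw [Real.exp_neg] at h3
  have h4 := Real.exp_pos y
  rw [lt_div_iff₀ (by positivity)] at h3
  have h5 : y ^ (3 * d) * (Real.exp y)⁻¹ * (2 * 5 ^ d) = 2 * (5 * y ^ 3) ^ d * (Real.exp y)⁻¹ := by
    rw [mul_pow, ← pow_mul]; ring
  rw [h5, ← div_eq_mul_inv, div_lt_one h4] at h3
  exact h3.le

/-- Effective density. -/
theorem eff_dense_n {ρ : Fin d → ℝ} {c : ℝ} (hc : 0 < c) {n : ℕ}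
    (hcn : ∀ k : Fin d → ℤ, k ≠ 0 → c ≤ wt k ^ n * ‖ee k ρ - 1‖) : ∃ C : ℝ, 0 < C ∧
    ∀ A : ℕ, 1 ≤ A → ∀ b : Fin d → ℝ, ∃ j : ℕ, (j : ℝ) ≤ C * (A : ℝ) ^ (3 * (n + d)) ∧
      ∃ p : Fin d → ℤ, ‖(j : ℝ) • ρ - b - fun i => (p i : ℝ)‖ ≤ 1 / (4 * A) := by
  obtain ⟨M, hM1, hM⟩ := exists_M d
  refine ⟨4 / c * (5 * M) ^ (n + d), by positivity, fun A hA b => ?_⟩
  have hA' : (1 : ℝ) ≤ A := by exact_mod_cast hA
  have hM' : (1 : ℝ) ≤ M := by exact_mod_cast hM1
  set p : ℕ := 4 * M * A ^ 3 with hp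
  have hp1 : (p : ℝ) + 1 ≤ 5 * M * A ^ 3 := by
    rw [hp]
    push_cast
    have : (1 : ℝ) ≤ M * A ^ 3 := by
      have := one_le_pow₀ hA' (n := 3)
      nlinarith
    linarith
  have hexp : 2 * ((p : ℝ) + 1) ^ d ≤ Real.exp (M * A) := by
    refine le_trans ?_ (hM (M * A) (by nlinarith))
    have : (p : ℝ) + 1 ≤ 5 * (M * A) ^ 3 := by
      refine hp1.trans ?_
      rw [mul_pow, ← mul_assoc]
      have : (M : ℝ) ≤ M ^ 3 := by
        calc (M : ℝ) = M ^ 1 := (pow_one _).symm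
          _ ≤ M ^ 3 := pow_le_pow_right₀ hM' (by norm_num)
      gcongr
    gcongr
  set N : ℕ := ⌊4 / c * ((p : ℝ) + 1) ^ (n + d)⌋₊ + 1 with hN
  have hNlt : 4 / c * ((p : ℝ) + 1) ^ (n + d) < N := by
    rw [hN]; push_cast; exact Nat.lt_floor_add_one _
  by_contra hcon
  push Not at hcon
  have hfar : ∀ j < N, ‖∏ i, ((1 + e1 (((j : ℝ) • ρ - b) i)) / 2) ^ p‖ ^ 2
      ≤ 1 / (2 * ((p : ℝ) + 1) ^ d) := by
    intro j hj
    have hjN : (j : ℝ) ≤ 4 / c * (5 * M) ^ (n + d) * (A : ℝ) ^ (3 * (n + d)) := by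
      have h1 : j ≤ ⌊4 / c * ((p : ℝ) + 1) ^ (n + d)⌋₊ := by omega
      have h2 : (j : ℝ) ≤ 4 / c * ((p : ℝ) + 1) ^ (n + d) := by
        refine le_trans (by exact_mod_cast h1) (Nat.floor_le (by positivity))
      refine h2.trans ?_
      calc 4 / c * ((p : ℝ) + 1) ^ (n + d) ≤ 4 / c * (5 * M * A ^ 3) ^ (n + d) := by gcongr
        _ = 4 / c * (5 * M) ^ (n + d) * (A : ℝ) ^ (3 * (n + d)) := by
          rw [mul_pow, ← pow_mul]; ring
    have h1 := hcon j hjN (fun i => round (((j : ℝ) • ρ - b) i))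
    obtain ⟨i, hi⟩ : ∃ i, 1 / (4 * (A : ℝ)) < |((j : ℝ) • ρ - b) i - round (((j : ℝ) • ρ - b) i)| := by
      by_contra h2
      push Not at h2
      refine absurd h1 (not_lt.2 ((pi_norm_le_iff_of_nonneg (by positivity)).2 fun i => ?_))
      exact h2 i
    have hf : ∀ t : ℝ, ‖(1 + e1 t) / 2‖ ^ 2 ≤ 1 := fun t => by
      have := norm_one_add_e1 t
      have h0 := abs_nonneg (t - round t)
      nlinarith
    have h3 : ‖(1 + e1 (((j : ℝ) • ρ - b) i)) / 2‖ ^ 2 ≤ 1 - 1 / (4 * (A : ℝ) ^ 2) := by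
      refine (norm_one_add_e1 _).trans ?_
      have h4 : (1 / (4 * (A : ℝ))) ^ 2 ≤ |((j : ℝ) • ρ - b) i - round (((j : ℝ) • ρ - b) i)| ^ 2 := by
        gcongr
      have h5 : 4 * (1 / (4 * (A : ℝ))) ^ 2 = 1 / (4 * (A : ℝ) ^ 2) := by
        have : (A : ℝ) ≠ 0 := by positivity
        rw [div_pow, mul_pow, one_pow, mul_one_div, div_eq_div_iff (by positivity) (by positivity)]
        ring
      linarith
    have h6 : 1 - 1 / (4 * (A : ℝ) ^ 2) ≤ Real.exp (-(1 / (4 * (A : ℝ) ^ 2))) :=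
      Real.one_sub_le_exp_neg _
    rw [norm_prod, ← Finset.prod_pow]
    calc ∏ i, ‖((1 + e1 (((j : ℝ) • ρ - b) i)) / 2) ^ p‖ ^ 2
        = ∏ i, (‖(1 + e1 (((j : ℝ) • ρ - b) i)) / 2‖ ^ 2) ^ p := by
          refine Finset.prod_congr rfl fun i _ => ?_
          rw [norm_pow, ← pow_mul, ← pow_mul, mul_comm]
      _ ≤ ∏ i', (if i' = i then Real.exp (-(M * A)) else 1) := by
          refine Finset.prod_le_prod (fun i _ => by positivity) fun i' _ => ?_
          by_cases hii : i' = i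
          · subst hii
            rw [if_pos rfl]
            calc (‖(1 + e1 (((j : ℝ) • ρ - b) i')) / 2‖ ^ 2) ^ p
                ≤ (Real.exp (-(1 / (4 * (A : ℝ) ^ 2)))) ^ p :=
                  pow_le_pow_left₀ (by positivity) (h3.trans h6) p
              _ = Real.exp (-(M * A)) := by
                  rw [← Real.exp_nat_mul]
                  congr 1
                  rw [hp]
                  push_cast
                  field_simp
          · rw [if_neg hii]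
            exact pow_le_one₀ (by positivity) (hf _)
      _ = Real.exp (-(M * A)) := by rw [Finset.prod_ite_eq' Finset.univ i, if_pos (Finset.mem_univ i)]
      _ ≤ 1 / (2 * ((p : ℝ) + 1) ^ d) := by
          rw [Real.exp_neg, ← one_div]
          gcongr
  have hlow := sum_sq_lower hc hcn b p N
  have hup : ∑ j ∈ Finset.range N,
      ‖∑ l ∈ box d p, (cf p l : ℂ) * ee (fun i => (l i : ℤ)) ((j : ℝ) • ρ - b)‖ ^ 2
      ≤ N * (1 / (2 * ((p : ℝ) + 1) ^ d)) := by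
    calc ∑ j ∈ Finset.range N,
        ‖∑ l ∈ box d p, (cf p l : ℂ) * ee (fun i => (l i : ℤ)) ((j : ℝ) • ρ - b)‖ ^ 2
        ≤ ∑ _j ∈ Finset.range N, (1 / (2 * ((p : ℝ) + 1) ^ d)) := by
          refine Finset.sum_le_sum fun j hj => ?_
          rw [← test_eq]
          exact hfar j (Finset.mem_range.1 hj)
      _ = N * (1 / (2 * ((p : ℝ) + 1) ^ d)) := by
          rw [Finset.sum_const, Finset.card_range, nsmul_eq_mul]
  have h1 : (N : ℝ) * (1 / ((p : ℝ) + 1) ^ d) - N * (1 / (2 * ((p : ℝ) + 1) ^ d))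
      ≤ 2 / c * ((p : ℝ) + 1) ^ n := by linarith
  have h2 : (N : ℝ) * (1 / ((p : ℝ) + 1) ^ d) - N * (1 / (2 * ((p : ℝ) + 1) ^ d))
      = N / (2 * ((p : ℝ) + 1) ^ d) := by
    have : ((p : ℝ) + 1) ^ d ≠ 0 := by positivity
    rw [mul_one_div, mul_one_div, div_sub_div _ _ this (by positivity),
      div_eq_div_iff (by positivity) (by positivity)]
    ring
  rw [h2, div_le_iff₀ (by positivity)] at h1
  have h3 : 2 / c * ((p : ℝ) + 1) ^ n * (2 * ((p : ℝ) + 1) ^ d)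
      = 4 / c * ((p : ℝ) + 1) ^ (n + d) := by rw [pow_add]; ring
  rw [h3] at h1
  linarith

theorem eff_dense {ρ : Fin d → ℝ} (hρ : Dioph ρ) : ∃ C : ℝ, 0 < C ∧ ∃ σ : ℕ,
    ∀ A : ℕ, 1 ≤ A → ∀ b : Fin d → ℝ, ∃ j : ℕ, (j : ℝ) ≤ C * (A : ℝ) ^ σ ∧ ∃ p : Fin d → ℤ,
      ‖(j : ℝ) • ρ - b - fun i => (p i : ℝ)‖ ≤ 1 / (4 * A) := by
  obtain ⟨c, hc, n, hcn⟩ := ee_sub_one_ge hρ
  obtain ⟨C, hC, h⟩ := eff_dense_n hc hcn
  exact ⟨C, hC, 3 * (n + d), h⟩

end Run7.h575
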