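import Pool.Agent.Run7.h575.Slow

set_option autoImplicit false

/-!
Smooth translation factors of a map with closed space of coboundaries are Diophantine.
-/

open MeasureTheory Set Filter Topology Matrix

namespace Run7.h575

variable {d m : ℕ}

/-- A map descending to the tori. -/
def Desc (p : (Fin d → ℝ) → (Fin m → ℝ)) : Prop :=
  ∀ (x : Fin d → ℝ) (k : Fin d → ℤ), ∃ l : Fin m → ℤ, p (x + zv k) = p x + zv l

theorem Eqv.desc {H : (Fin d → ℝ) → (Fin d → ℝ)} (h : Eqv H) : Desc H := fun x k => ⟨k, h x k⟩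

theorem IsPer.comp_desc {W : Type*} {v : (Fin m → ℝ) → W} (hv : IsPer v)
    {p : (Fin d → ℝ) → (Fin m → ℝ)} (hp : Desc p) : IsPer fun x => v (p x) := by
  intro x k
  show v (p (x + Run7.h575.zv k)) = v (p x)
  obtain ⟨l, hl⟩ := hp x k
  rw [hl, hv.zv]

theorem Desc.comp {m' : ℕ} {p : (Fin d → ℝ) → (Fin m → ℝ)} (hp : Desc p)
    {q : (Fin m → ℝ) → (Fin m' → ℝ)} (hq : Desc q) : Desc fun x => q (p x) := by
  intro x k
  obtain ⟨l, hl⟩ := hp x k
  obtain ⟨l', hl'⟩ := hq (p x) l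
  refine ⟨l', ?_⟩
  show q (p (x + zv k)) = q (p x) + zv l'
  rw [hl, hl']

/-- The integer translation is constant in the point. -/
theorem Desc.const {p : (Fin d → ℝ) → (Fin m → ℝ)} (hp : Desc p) (hc : Continuous p)
    (k : Fin d → ℤ) : ∃ l : Fin m → ℤ, ∀ x, p (x + zv k) = p x + zv l := by
  obtain ⟨l, hl⟩ := hp 0 k
  refine ⟨l, fun x => ?_⟩
  have h1 : ∀ i, p (x + zv k) i - p x i = p (0 + zv k) i - p 0 i := by
    intro i
    refine const_of_int (u := fun x => p (x + zv k) i - p x i)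
      (((continuous_apply i).comp (hc.comp (continuous_id.add continuous_const))).sub
        ((continuous_apply i).comp hc)) (fun x => ?_) x 0
    obtain ⟨l', hl'⟩ := hp x k
    exact ⟨l' i, by rw [hl', Pi.add_apply, zv_apply]; ring⟩
  funext i
  have := h1 i
  rw [hl] at this
  simp only [Pi.add_apply] at this ⊢
  linarith

/-- Uniform bounds for the derivatives of a map descending to the tori. -/
theorem Desc.bounds {H : (Fin d → ℝ) → (Fin m → ℝ)} (hH : Desc H) (hs : ContDiff ℝ (⊤ : ℕ∞) H)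
    (p : ℕ) : ∃ D : ℝ, 1 ≤ D ∧ ∀ x, ∀ i, 1 ≤ i → i ≤ p → ‖iteratedFDeriv ℝ i H x‖ ≤ D ^ i := by
  have hper : ∀ i, 1 ≤ i → IsPer (iteratedFDeriv ℝ i H) := by
    intro i hi x k
    obtain ⟨l, hl⟩ := hH.const hs.continuous k
    have h := iteratedFDeriv_comp_add_right (𝕜 := ℝ) (f := H) i (Run7.h575.zv k) x
    show iteratedFDeriv ℝ i H (x + Run7.h575.zv k) = _
    rw [← h]
    have e : (fun z => H (z + Run7.h575.zv k)) = fun z => H z + Run7.h575.zv l := funext fun z => hl z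
    rw [e]
    have h1 := iteratedFDeriv_add_apply (𝕜 := ℝ) (i := i) (f := H) (g := fun _ => Run7.h575.zv l) (x := x)
      ((hs.of_le (by exact_mod_cast le_top)).contDiffAt) contDiff_const.contDiffAt
    have h2 : iteratedFDeriv ℝ i (fun _ : Fin d → ℝ => Run7.h575.zv l) x = 0 := by
      rw [iteratedFDeriv_const_of_ne (by omega)]
      rfl
    rw [h2, add_zero] at h1
    exact h1
  have hb : ∀ i, 1 ≤ i → ∃ B, ∀ x, ‖iteratedFDeriv ℝ i H x‖ ≤ B := fun i hi =>
    (hper i hi).bounded (hs.continuous_iteratedFDeriv (by exact_mod_cast le_top))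
  induction p with
  | zero => exact ⟨1, le_rfl, fun x i h1 h2 => by omega⟩
  | succ p ih =>
    obtain ⟨D, hD, h⟩ := ih
    obtain ⟨B, hB⟩ := hb (p + 1) (by omega)
    refine ⟨max D B, le_max_of_le_left hD, fun x i h1 h2 => ?_⟩
    rcases Nat.lt_or_ge i (p + 1) with h3 | h3
    · refine (h x i h1 (by omega)).trans ?_
      gcongr
      exact le_max_left _ _
    · obtain rfl : i = p + 1 := by omega
      have hM : 1 ≤ max D B := le_max_of_le_left hD
      calc ‖iteratedFDeriv ℝ (p + 1) H x‖ ≤ B := hB x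
        _ ≤ max D B := le_max_right _ _
        _ = max D B ^ 1 := (pow_one _).symm
        _ ≤ max D B ^ (p + 1) := pow_le_pow_right₀ hM (by omega)

/-- Composition with a map descending to the tori preserves smallness of derivatives. -/
theorem comp_small' {W : Type*} [NormedAddCommGroup W] [NormedSpace ℝ W]
    {H : (Fin d → ℝ) → (Fin m → ℝ)} (hH : Desc H) (hs : ContDiff ℝ (⊤ : ℕ∞) H)
    (p : ℕ) : ∃ D : ℝ, 1 ≤ D ∧ ∀ (v : (Fin m → ℝ) → W) (ε : ℝ), ContDiff ℝ (⊤ : ℕ∞) v →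
      (∀ i ≤ p, ∀ y, ‖iteratedFDeriv ℝ i v y‖ ≤ ε) →
      ∀ x, ‖iteratedFDeriv ℝ p (fun x => v (H x)) x‖ ≤ D * ε := by
  obtain ⟨D, hD, h⟩ := hH.bounds hs p
  refine ⟨p.factorial * D ^ p, ?_, fun v ε hv hε x => ?_⟩
  · have h1 : (1 : ℝ) ≤ p.factorial := by exact_mod_cast Nat.succ_le_of_lt p.factorial_pos
    have h2 : 1 ≤ D ^ p := one_le_pow₀ hD
    nlinarith
  · have := norm_iteratedFDeriv_comp_le (𝕜 := ℝ) (g := v) (f := H) (n := p) hv hs
      (by exact_mod_cast le_top) x (fun i hi => hε i hi (H x)) (h x)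
    refine this.trans (le_of_eq ?_)
    ring

/-- If the space of smooth coboundaries is closed, every smooth translation factor with irrational
vector is Diophantine. -/
theorem dioph_fac {F : (Fin d → ℝ) → (Fin d → ℝ)} {H : (Fin d → ℝ) → (Fin m → ℝ)}
    {α : Fin d → ℝ} (D : Dat F α) (hα : Irr α)
    (hFs : ContDiff ℝ (⊤ : ℕ∞) F) (hH : ContDiff ℝ (⊤ : ℕ∞) H) (eH : Desc H)
    {σ : Fin m → ℝ} (hσ : Irr σ)
    (hHF : ∀ x, H (F x) = H x + σ) (hc : ClosedCob F) : Dioph σ := by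
  by_contra hcon
  obtain ⟨κ, hκ, hres⟩ := exists_resonances hσ (V := univ) (by
    rintro ⟨C, hC, τ, hτ, h⟩
    exact hcon ⟨C, hC, τ, hτ, fun k => h k (mem_univ k)⟩)
  set c : ℕ → ℂ := fun n => ee (κ n) σ - 1 with hcdef
  have hc0 : ∀ n, c n ≠ 0 := by
    intro n h
    obtain ⟨m, hm⟩ := (ee_eq_one_iff _ _).1 (sub_eq_zero.1 h)
    exact hσ _ (hres n).2.1 m hm
  have hcn : ∀ n, ‖c n‖ ≤ 2 * Real.pi * ((1 / 2) ^ n / wt (κ n) ^ n) := by
    intro n
    obtain ⟨-, -, m, hm⟩ := hres n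
    refine (norm_exp_sub_one_le (ph (κ n) σ) m).trans ?_
    have := Real.pi_pos
    gcongr
  set φ : ℕ → (Fin d → ℝ) → ℂ := fun n x => ee (κ n) (H x) with hφ
  have hφs : ∀ n, ContDiff ℝ (⊤ : ℕ∞) (φ n) := fun n => (ee_contDiff (κ n)).comp hH
  have hφp : ∀ n, IsPer (φ n) := fun n => (ee_per (κ n)).comp_desc eH
  have hφF : ∀ n x, φ n (F x) = ee (κ n) σ * φ n x := by
    intro n x
    show ee (κ n) (H (F x)) = _ * ee (κ n) (H x)
    rw [hHF, ee_add, mul_comm]
  -- bounds for derivatives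
  have hbd : ∀ p : ℕ, ∃ M : ℝ, 0 ≤ M ∧ ∀ n x, ‖iteratedFDeriv ℝ p (φ n) x‖ ≤ M * wt (κ n) ^ p := by
    intro p
    obtain ⟨D', hD', hcs⟩ := comp_small' (W := ℂ) eH hH p
    refine ⟨D' * (1 + 2 * Real.pi * m) ^ p, by have := Real.pi_pos; positivity, fun n x => ?_⟩
    have hw := one_le_wt (κ n)
    have hpi := Real.pi_pos
    have h1 := hcs (ee (κ n)) (((1 + 2 * Real.pi * m) * wt (κ n)) ^ p) (ee_contDiff _)
      (fun i hi y => by
        refine (norm_iter_ee i (κ n) y).trans ?_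
        have h2 : 2 * Real.pi * (m * wt (κ n)) ≤ (1 + 2 * Real.pi * m) * wt (κ n) := by
          nlinarith
        have h3 : 1 ≤ (1 + 2 * Real.pi * m) * wt (κ n) := by
          have : 0 ≤ 2 * Real.pi * (m : ℝ) := by positivity
          nlinarith
        calc (2 * Real.pi * (m * wt (κ n))) ^ i ≤ ((1 + 2 * Real.pi * m) * wt (κ n)) ^ i := by
              gcongr
          _ ≤ _ := pow_le_pow_right₀ h3 hi) x
    refine h1.trans (le_of_eq ?_)
    rw [mul_pow]
    ring
  choose M hM0 hM using hbd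
  have hterm : ∀ p n x, ‖iteratedFDeriv ℝ p (fun x => c n * φ n x) x‖
      ≤ (2 * Real.pi * M p) * ((1 / 2) ^ n / wt (κ n) ^ n) * wt (κ n) ^ p := by
    intro p n x
    have h1 : iteratedFDeriv ℝ p (fun x => c n * φ n x) x = c n • iteratedFDeriv ℝ p (φ n) x :=
      iteratedFDeriv_const_smul_apply (𝕜 := ℝ) (i := p) (a := c n) (f := φ n) (x := x)
        (((hφs n).of_le (by exact_mod_cast le_top)).contDiffAt)
    rw [h1, norm_smul]
    have hw := wt_pos (κ n)
    have h2 := hM0 p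
    calc ‖c n‖ * ‖iteratedFDeriv ℝ p (φ n) x‖
        ≤ (2 * Real.pi * ((1 / 2) ^ n / wt (κ n) ^ n)) * (M p * wt (κ n) ^ p) :=
          mul_le_mul (hcn n) (hM p n x) (norm_nonneg _) (by have := Real.pi_pos; positivity)
      _ = _ := by ring
  have hsum : ∀ p, Summable fun n => (2 * Real.pi * M p) * ((1 / 2) ^ n / wt (κ n) ^ n)
      * wt (κ n) ^ p := fun p =>
    summable_geo_wt _ (by have := hM0 p; have := Real.pi_pos; positivity) κ p
  have hcs : ∀ n, ContDiff ℝ (⊤ : ℕ∞) fun x => c n * φ n x := fun n => contDiff_const.mul (hφs n)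
  have hcsum : Summable c := by
    refine Summable.of_norm_bounded (g := fun n => 2 * Real.pi * ((1 / 2) ^ n / wt (κ n) ^ n)
      * wt (κ n) ^ 0) (summable_geo_wt (2 * Real.pi) (by have := Real.pi_pos; positivity) κ 0) ?_
    intro n
    rw [pow_zero, mul_one]
    exact hcn n
  have hcφ : ∀ x, Summable fun n => c n * φ n x := by
    intro x
    refine Summable.of_norm (hcsum.norm.congr fun n => ?_)
    rw [norm_mul, hφ]
    simp only [norm_ee, mul_one]
  set Φ : (Fin d → ℝ) → ℂ := fun x => ∑' n, c n * φ n x with hΦ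
  have hΦs : ContDiff ℝ (⊤ : ℕ∞) Φ :=
    contDiff_tsum (N := ⊤) hcs (fun p _ => hsum p) (fun p n x _ => hterm p n x)
  have hΦp : IsPer Φ := by
    intro x k
    show ∑' n, c n * φ n _ = _
    exact tsum_congr fun n => by rw [hφp n x k]
  set ψ : ℕ → (Fin d → ℝ) → ℂ := fun n x => ∑ i ∈ Finset.range n, φ i x with hψ
  have hψs : ∀ n, ContDiff ℝ (⊤ : ℕ∞) (ψ n) := fun n => ContDiff.sum fun i _ => hφs i
  have hψp : ∀ n, IsPer (ψ n) := by
    intro n x k
    show ∑ i ∈ Finset.range n, φ i _ = _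
    exact Finset.sum_congr rfl fun i _ => by rw [hφp i x k]
  have herr : ∀ n, (fun y => ψ n (F y) - ψ n y - Φ y)
      = fun y => -∑' i, c (i + n) * φ (i + n) y := by
    intro n
    funext y
    have h1 : ψ n (F y) - ψ n y = ∑ i ∈ Finset.range n, c i * φ i y := by
      show ∑ i ∈ Finset.range n, φ i (F y) - ∑ i ∈ Finset.range n, φ i y = _
      rw [← Finset.sum_sub_distrib]
      refine Finset.sum_congr rfl fun i _ => ?_
      rw [hφF, hcdef]
      ring
    have h2 := (hcφ y).sum_add_tsum_nat_add n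
    rw [h1, hΦ]
    simp only
    rw [← h2]
    ring
  obtain ⟨ψ₀, hψ₀c, hψ₀p, hψ₀⟩ := hc.complex hFs hψs hψp hΦs hΦp (by
    intro j ε hε
    have h1 := tendsto_sum_nat_add fun n => (2 * Real.pi * M j) * ((1 / 2) ^ n / wt (κ n) ^ n)
      * wt (κ n) ^ j
    obtain ⟨N, hN⟩ := Filter.eventually_atTop.1 (h1.eventually (gt_mem_nhds hε))
    refine ⟨N, fun n hn x => lt_of_le_of_lt ?_ (hN n hn)⟩
    rw [herr]
    have h2 : iteratedFDeriv ℝ j (fun y => -∑' i, c (i + n) * φ (i + n) y) x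
        = -iteratedFDeriv ℝ j (fun y => ∑' i, c (i + n) * φ (i + n) y) x :=
      iteratedFDeriv_neg_apply
    rw [h2, norm_neg, iteratedFDeriv_tsum_apply (N := ⊤) (fun i => hcs (i + n))
      (v := fun p i => (2 * Real.pi * M p) * ((1 / 2) ^ (i + n) / wt (κ (i + n)) ^ (i + n))
        * wt (κ (i + n)) ^ p) (fun p _ => (summable_nat_add_iff n).2 (hsum p))
        (fun p i x _ => hterm p (i + n) x) (by exact_mod_cast le_top)]
    have h3 : Summable fun i => (2 * Real.pi * M j) * ((1 / 2) ^ (i + n) / wt (κ (i + n)) ^ (i + n))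
        * wt (κ (i + n)) ^ j := (summable_nat_add_iff n).2 (hsum j)
    exact tsum_of_norm_bounded h3.hasSum fun i => hterm j (i + n) x)
  -- pull back to the translation
  have hQα : ∀ y, D.Q (y + α) = F (D.Q y) + zv (D.B *ᵥ (-D.m)) := by
    intro y
    rw [D.F_Q, ← D.Qper, zv_neg]
    congr 1
    abel
  have hgp : ∀ n, IsPer fun y => φ n (D.Q y) := by
    intro n y k
    show φ n (D.Q (y + zv k)) = φ n (D.Q y)
    rw [D.Qper, (hφp n).zv]
  have hgc : ∀ n, Continuous fun y => φ n (D.Q y) := fun n => (hφs n).continuous.comp D.hQ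
  have hgα : ∀ n y, φ n (D.Q (y + α)) = ee (κ n) σ * φ n (D.Q y) := by
    intro n y
    rw [hQα, (hφp n).zv, hφF]
  have hν : ∀ n, ∃ ν : Fin d → ℤ, ee ν α = ee (κ n) σ := by
    intro n
    by_contra hno
    push Not at hno
    have h0 : ∀ k, fc (fun y => φ n (D.Q y)) k = 0 := by
      intro k
      have h1 := fc_shift (hgp n) k α
      have h2 : (fun x => φ n (D.Q (x + α))) = fun x => ee (κ n) σ * φ n (D.Q x) :=
        funext fun x => hgα n x
      have h3 : fc (fun x => ee (κ n) σ * φ n (D.Q x)) k = ee (κ n) σ * fc (fun y => φ n (D.Q y)) k := by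
        rw [fc, fc, ← integral_const_mul]
        congr 1
        funext x
        ring
      rw [h2, h3] at h1
      have h4 : (ee k α - ee (κ n) σ) * fc (fun y => φ n (D.Q y)) k = 0 := by
        linear_combination -h1
      rcases mul_eq_zero.1 h4 with h5 | h5
      · exact absurd (sub_eq_zero.1 h5) (hno k)
      · exact h5
    have h1 := const_of_fc (hgp n) (hgc n) (fun k _ => h0 k) 0
    rw [h0] at h1
    have h2 : ‖φ n (D.Q 0)‖ = 1 := norm_ee _ _
    rw [h1, norm_zero] at h2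
    exact zero_ne_one h2
  choose ν hee using hν
  have hνinj : Function.Injective ν := by
    intro i j hij
    apply hκ
    have h1 : ee (κ i) σ = ee (κ j) σ := by rw [← hee, ← hee, hij]
    have h2 : ee (κ i - κ j) σ = 1 := by
      have h3 := fc_ee_mul (κ j) (κ i) σ
      rw [← h3, h1, ee_neg]
    by_contra hne
    obtain ⟨m, hm⟩ := (ee_eq_one_iff _ _).1 h2
    exact hσ _ (sub_ne_zero.2 hne) m hm
  have hθ : ∀ n, ∃ θ : ℂ, ‖θ‖ = 1 ∧ ∀ y, φ n (D.Q y) = θ * ee (ν n) y := by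
    intro n
    have hu : IsPer fun y => φ n (D.Q y) * ee (-ν n) y := by
      intro y k
      show φ n (D.Q (y + zv k)) * ee (-ν n) (y + zv k) = φ n (D.Q y) * ee (-ν n) y
      rw [D.Qper, (hφp n).zv, (ee_per _).zv]
    have huc : Continuous fun y => φ n (D.Q y) * ee (-ν n) y := (hgc n).mul (ee_continuous _)
    have hinv : ∀ y, φ n (D.Q (y + α)) * ee (-ν n) (y + α) = φ n (D.Q y) * ee (-ν n) y := by
      intro y
      rw [hgα, ee_add, ← hee]
      have := ee_neg (ν n) α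
      linear_combination (φ n (D.Q y) * ee (-ν n) y) * this
    refine ⟨φ n (D.Q 0) * ee (-ν n) 0, ?_, fun y => ?_⟩
    · rw [norm_mul, norm_ee, one_mul]
      exact norm_ee _ _
    · have h1 := const_of_inv hα hu huc hinv 0 y
      rw [h1, mul_assoc, ee_neg, mul_one]
  choose θ hθ1 hθ2 using hθ
  have hψ'p : IsPer fun y => ψ₀ (D.Q y) := by
    intro y k
    show ψ₀ (D.Q (y + zv k)) = ψ₀ (D.Q y)
    rw [D.Qper, hψ₀p.zv]
  have hψ'c : Continuous fun y => ψ₀ (D.Q y) := hψ₀c.comp D.hQ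
  have heq : ∀ y, ψ₀ (D.Q (y + α)) - ψ₀ (D.Q y) = ∑' n, (c n * θ n) * ee (ν n) y := by
    intro y
    rw [hQα, hψ₀p.zv, ← hψ₀, hΦ]
    exact tsum_congr fun n => by rw [hθ2, mul_assoc]
  have hcθ : Summable fun n => c n * θ n := by
    refine Summable.of_norm (hcsum.norm.congr fun n => ?_)
    rw [norm_mul, hθ1, mul_one]
  have hfc : ∀ n, fc (fun y => ψ₀ (D.Q y)) (ν n) = θ n := by
    intro n
    have h1 := fc_tsum hcθ hνinj n
    have h2 : (fun y => ∑' n, (c n * θ n) * ee (ν n) y)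
        = fun y => ψ₀ (D.Q (y + α)) - ψ₀ (D.Q y) := funext fun y => (heq y).symm
    rw [h2, fc_sub (f := fun y => ψ₀ (D.Q (y + α))) (hψ'c.comp (continuous_id.add continuous_const))
      hψ'c, fc_shift hψ'p, hee] at h1
    have h3 : c n * (fc (fun y => ψ₀ (D.Q y)) (ν n) - θ n) = 0 := by
      rw [hcdef] at h1 ⊢
      linear_combination h1
    rcases mul_eq_zero.1 h3 with h | h
    · exact absurd h (hc0 n)
    · exact sub_eq_zero.1 h
  have hs := (summable_sq_fc hψ'p hψ'c).comp_injective hνinj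
  have hs1 : Summable fun _ : ℕ => (1 : ℝ) := by
    refine hs.congr fun n => ?_
    simp only [Function.comp_apply]
    rw [hfc, hθ1, one_pow]
  have := hs1.tendsto_atTop_zero
  exact one_ne_zero (tendsto_nhds_unique tendsto_const_nhds this)

end Run7.h575
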