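import Pool.Agent.Run7.h575.Lin2

set_option autoImplicit false

/-!
Growth with a small positive rate: first step, finite differentiability.
-/

open MeasureTheory Set Filter Topology

namespace Run7.h575

variable {d : ℕ}

/-- Growth of the derivatives with rate `a` per derivative, for arbitrarily large orders. -/
def GrowthRate (F : (Fin d → ℝ) → (Fin d → ℝ)) (a : ℝ) : Prop :=
  ∀ s₀ : ℕ, ∃ s : ℕ, s₀ ≤ s ∧ ∃ C : ℝ, ∀ n : ℕ, 1 ≤ n → ∀ x : Fin d → ℝ,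
    ‖iteratedFDeriv ℝ s F^[n] x‖ ≤ C * (n : ℝ) ^ (a * s)

theorem growth_all {F : (Fin d → ℝ) → (Fin d → ℝ)} {ρ : Fin d → ℝ} (hF : ContDiff ℝ (⊤ : ℕ∞) F)
    (hFe : Eqv F) {C₀ : ℝ} (hdev : ∀ (n : ℕ) (x : Fin d → ℝ), ‖vdisp F ρ n x‖ ≤ C₀)
    {a : ℝ} (ha : 0 ≤ a) (hG : GrowthRate F a) (j : ℕ) :
    ∃ C : ℝ, 1 ≤ C ∧ ∀ n : ℕ, 1 ≤ n → ∀ x : Fin d → ℝ,
      ‖iteratedFDeriv ℝ (j + 1) F^[n] x‖ ≤ C * (n : ℝ) ^ (a * (j + 1)) := by
  have hC₀ : 0 ≤ C₀ := (norm_nonneg _).trans (hdev 0 0)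
  obtain ⟨s, hs, C, hC⟩ := hG (j + 2)
  obtain ⟨r, rfl⟩ : ∃ r, s = r + 2 := ⟨s - 2, by omega⟩
  obtain ⟨CI, hCI, hI⟩ := interp (V := Fin d → ℝ) (W := Fin d → ℝ) (r + 2)
  have hC0 : 0 ≤ C := by
    have := hC 1 le_rfl 0
    rw [Nat.cast_one, Real.one_rpow, mul_one] at this
    exact (norm_nonneg _).trans this
  refine ⟨CI * (C₀ + C) + 1, by nlinarith, fun n hn x => ?_⟩
  have hn' : (1 : ℝ) ≤ n := by exact_mod_cast hn
  have hn0 : (0 : ℝ) < n := by linarith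
  have ht : 0 < (n : ℝ) ^ (-a) := Real.rpow_pos_of_pos hn0 _
  have h1 := hI (vdisp F ρ n) (vdisp_contDiff hF ρ n)
    (fun i => (vdisp_per hFe ρ n).bounded_deriv (vdisp_contDiff hF ρ n) i) C₀
    (C * (n : ℝ) ^ (a * ((r + 2 : ℕ) : ℝ))) ((n : ℝ) ^ (-a)) ht (hdev n)
    (fun x => by rw [norm_iter_vdisp_two hF]; exact hC n hn x) (j + 1) (by omega) x
  have e1 : ((n : ℝ) ^ (-a)) ^ (r + 2) * (C * (n : ℝ) ^ (a * ((r + 2 : ℕ) : ℝ))) = C := by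
    rw [← Real.rpow_natCast, ← Real.rpow_mul hn0.le, mul_comm C, ← mul_assoc, ← Real.rpow_add hn0]
    have : -a * ((r + 2 : ℕ) : ℝ) + a * ((r + 2 : ℕ) : ℝ) = 0 := by ring
    rw [this, Real.rpow_zero, one_mul]
  rw [e1] at h1
  have e2 : ((n : ℝ) ^ (-a)) ^ (j + 1) = ((n : ℝ) ^ (a * (j + 1)))⁻¹ := by
    rw [← Real.rpow_natCast, ← Real.rpow_mul hn0.le, ← Real.rpow_neg hn0.le]
    congr 1
    push_cast
    ring
  rw [e2] at h1
  have hp : 0 < (n : ℝ) ^ (a * (j + 1)) := Real.rpow_pos_of_pos hn0 _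
  rw [inv_mul_le_iff₀ hp] at h1
  have h2 := norm_iter_le_vdisp hF ρ n j x
  have h3 : (1 : ℝ) ≤ (n : ℝ) ^ (a * (j + 1)) := Real.one_le_rpow hn' (by positivity)
  calc ‖iteratedFDeriv ℝ (j + 1) F^[n] x‖ ≤ (n : ℝ) ^ (a * (j + 1)) * (CI * (C₀ + C)) + 1 := by
        linarith
    _ ≤ (CI * (C₀ + C) + 1) * (n : ℝ) ^ (a * (j + 1)) := by nlinarith

/-- Interpolation between a rate of convergence and a rate of growth. -/
theorem interp_rate {v : ℕ → (Fin d → ℝ) → (Fin d → ℝ)} (hs : ∀ N, ContDiff ℝ (⊤ : ℕ∞) (v N))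
    (hp : ∀ N, 1 ≤ N → IsPer (v N)) {κ a C0 : ℝ} (ha : 0 ≤ a) (hC0 : 0 ≤ C0)
    (h0 : ∀ N : ℕ, 1 ≤ N → ∀ x, ‖v N x‖ ≤ C0 * (N : ℝ) ^ (-κ))
    (hg : ∀ s : ℕ, ∃ C, 0 ≤ C ∧ ∀ N : ℕ, 1 ≤ N → ∀ x,
      ‖iteratedFDeriv ℝ (s + 1) (v N) x‖ ≤ C * (N : ℝ) ^ (a * (s + 1))) {J : ℕ}
    (hJ : J * a < κ) : ∃ μ : ℝ, 0 < μ ∧ ∀ j ≤ J, ∃ C : ℝ, ∀ N : ℕ, 1 ≤ N →
      ∀ x, ‖iteratedFDeriv ℝ j (v N) x‖ ≤ C * (N : ℝ) ^ (-μ) := by
  set μ : ℝ := (κ - J * a) / 2 with hμ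
  have hμ0 : 0 < μ := by rw [hμ]; linarith
  set η : ℝ := μ / (J + 1) with hη
  have hη0 : 0 < η := by positivity
  obtain ⟨s, hs'⟩ := exists_nat_gt ((J * (a + η) + μ) / η)
  obtain ⟨C, hC, hgC⟩ := hg (s + J)
  obtain ⟨CI, hCI, hI⟩ := interp (V := Fin d → ℝ) (W := Fin d → ℝ) (s + J + 1)
  have hCI0 : 0 ≤ CI := by linarith
  refine ⟨μ, hμ0, fun j hj => ⟨CI * (C0 + C), fun N hN x => ?_⟩⟩
  have hN' : (1 : ℝ) ≤ N := by exact_mod_cast hN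
  have hN0 : (0 : ℝ) < N := by linarith
  set θ : ℝ := a + η with hθ
  have hθ0 : 0 < θ := by positivity
  have h1 := hI (v N) (hs N) (fun i => (hp N hN).bounded_deriv (hs N) i) (C0 * (N : ℝ) ^ (-κ))
    (C * (N : ℝ) ^ (a * ((s + J : ℕ) + 1))) ((N : ℝ) ^ (-θ)) (Real.rpow_pos_of_pos hN0 _)
    (h0 N hN) (hgC N hN) j (by omega) x
  have hpow : ∀ r : ℕ, ((N : ℝ) ^ (-θ)) ^ r = (N : ℝ) ^ (-(θ * r)) := by
    intro r
    rw [← Real.rpow_natCast, ← Real.rpow_mul hN0.le]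
    congr 1
    ring
  rw [hpow, hpow] at h1
  have hpj : 0 < (N : ℝ) ^ (θ * j) := Real.rpow_pos_of_pos hN0 _
  rw [Real.rpow_neg hN0.le, inv_mul_le_iff₀ hpj] at h1
  refine h1.trans ?_
  have hjJ : (j : ℝ) ≤ J := by exact_mod_cast hj
  have hJη : J * η ≤ μ := by
    rw [hη, mul_div_assoc', div_le_iff₀ (by positivity)]
    nlinarith
  have hθj : θ * j ≤ J * a + μ := by
    have : θ * j ≤ θ * J := by gcongr
    rw [hθ] at this ⊢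
    nlinarith
  have e1 : (N : ℝ) ^ (θ * j) * (N : ℝ) ^ (-κ) ≤ (N : ℝ) ^ (-μ) := by
    rw [← Real.rpow_add hN0]
    apply Real.rpow_le_rpow_of_exponent_le hN'
    have : κ = J * a + 2 * μ := by rw [hμ]; ring
    linarith
  have e2 : (N : ℝ) ^ (θ * j) * ((N : ℝ) ^ (-(θ * ((s + J + 1 : ℕ) : ℝ)))
      * (N : ℝ) ^ (a * ((s + J : ℕ) + 1))) ≤ (N : ℝ) ^ (-μ) := by
    rw [← Real.rpow_add hN0, ← Real.rpow_add hN0]
    apply Real.rpow_le_rpow_of_exponent_le hN'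
    push_cast
    rw [div_lt_iff₀ hη0] at hs'
    have h5 : θ * j ≤ J * (a + η) := by
      have : θ * j ≤ θ * J := by gcongr
      rw [hθ] at this ⊢
      linarith
    have h6 : θ * (s + J + 1) - a * (s + J + 1) = η * (s + J + 1) := by rw [hθ]; ring
    have h7 : (s : ℝ) * η ≤ η * (s + J + 1) := by
      have : 0 ≤ η * ((J : ℝ) + 1) := by positivity
      nlinarith
    linarith
  calc (N : ℝ) ^ (θ * j) * (CI * (C0 * (N : ℝ) ^ (-κ) + (N : ℝ) ^ (-(θ * ((s + J + 1 : ℕ) : ℝ)))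
        * (C * (N : ℝ) ^ (a * ((s + J : ℕ) + 1)))))
      = CI * (C0 * ((N : ℝ) ^ (θ * j) * (N : ℝ) ^ (-κ)) + C * ((N : ℝ) ^ (θ * j)
        * ((N : ℝ) ^ (-(θ * ((s + J + 1 : ℕ) : ℝ))) * (N : ℝ) ^ (a * ((s + J : ℕ) + 1))))) := by
        ring
    _ ≤ CI * (C0 * (N : ℝ) ^ (-μ) + C * (N : ℝ) ^ (-μ)) := by gcongr
    _ = _ := by ring

/-- Differentiability of dyadic sums. -/
theorem dyadic_sum {v : ℕ → (Fin d → ℝ) → (Fin d → ℝ)} (hs : ∀ N, ContDiff ℝ (⊤ : ℕ∞) (v N))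
    {μ : ℝ} (hμ : 0 < μ) {J : ℕ} (hb : ∀ j ≤ J, ∃ C : ℝ, ∀ N : ℕ, 1 ≤ N →
      ∀ x, ‖iteratedFDeriv ℝ j (v N) x‖ ≤ C * (N : ℝ) ^ (-μ)) :
    ContDiff ℝ J (fun x => ∑' l : ℕ, v (2 ^ l) x) ∧ ∀ x, Summable fun l : ℕ => v (2 ^ l) x := by
  have hb' : ∀ j, ∃ C : ℝ, j ≤ J → ∀ N : ℕ, 1 ≤ N →
      ∀ x, ‖iteratedFDeriv ℝ j (v N) x‖ ≤ C * (N : ℝ) ^ (-μ) := by
    intro j
    by_cases hj : j ≤ J
    · obtain ⟨C, hC⟩ := hb j hj
      exact ⟨C, fun _ => hC⟩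
    · exact ⟨0, fun h => absurd h hj⟩
  choose C hC using hb'
  set r : ℝ := 2 ^ (-μ) with hr
  have hr0 : 0 < r := Real.rpow_pos_of_pos (by norm_num) _
  have hr1 : r < 1 := Real.rpow_lt_one_of_one_lt_of_neg (by norm_num) (by linarith)
  have hbl : ∀ j, j ≤ J → ∀ l x, ‖iteratedFDeriv ℝ j (v (2 ^ l)) x‖ ≤ C j * r ^ l := by
    intro j hj l x
    have h1 := hC j hj (2 ^ l) Nat.one_le_two_pow x
    have h2 : (((2 ^ l : ℕ) : ℝ)) ^ (-μ) = r ^ l := by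
      rw [hr]
      push_cast
      rw [← Real.rpow_natCast, ← Real.rpow_mul (by norm_num), ← Real.rpow_natCast,
        ← Real.rpow_mul (by norm_num), mul_comm]
    rwa [h2] at h1
  have hsum : ∀ j, Summable fun l => C j * r ^ l := fun j =>
    (summable_geometric_of_lt_one hr0.le hr1).mul_left _
  constructor
  · exact contDiff_tsum (N := (J : ℕ∞)) (fun l => (hs _).of_le (nat_le_top J)) (fun j _ => hsum j)
      (fun j l x hj => hbl j (by exact_mod_cast hj) l x)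
  · intro x
    refine Summable.of_norm_bounded (g := fun l => C 0 * r ^ l) (hsum 0) fun l => ?_
    have := hbl 0 (Nat.zero_le _) l x
    rwa [norm_iteratedFDeriv_zero] at this

/-- Oscillation of the differences of Cesàro means, with growth of rate `a`. -/
theorem osc_wn_rate {F : (Fin d → ℝ) → (Fin d → ℝ)} {ρ : Fin d → ℝ} (hF : ContDiff ℝ (⊤ : ℕ∞) F)
    (hFe : Eqv F) {C₀ : ℝ} (hdev : ∀ (n : ℕ) (x : Fin d → ℝ), ‖vdisp F ρ n x‖ ≤ C₀)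
    {a : ℝ} (ha : 0 < a) {C1 : ℝ} (hC1 : 1 ≤ C1) (hb : ∀ n : ℕ, 1 ≤ n → ∀ x : Fin d → ℝ,
      ‖iteratedFDeriv ℝ 1 F^[n] x‖ ≤ C1 * (n : ℝ) ^ a) {c : ℝ} (hc : 0 < c) {n₀ : ℕ}
    (hcn : ∀ k : Fin d → ℤ, k ≠ 0 → c ≤ wt k ^ n₀ * ‖ee k ρ - 1‖)
    (had : a * d < 1 / ((3 * (n₀ + d) : ℕ) + 1 : ℝ)) :
    ∃ C : ℝ, 0 ≤ C ∧ ∀ n : ℕ, 1 ≤ n →
      ∀ x, ‖wn F ρ n x - wn F ρ n 0‖ ≤ C * (n : ℝ) ^ (-(1 / ((3 * (n₀ + d) : ℕ) + 1 : ℝ) - a * d)) := by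
  have hC₀ : 0 ≤ C₀ := (norm_nonneg _).trans (hdev 0 0)
  obtain ⟨Ce, hCe, hden⟩ := eff_dense_n hc hcn
  set σ : ℕ := 3 * (n₀ + d) with hσ
  set γ : ℝ := 1 / ((σ : ℝ) + 1) with hγ
  have hγ0 : 0 < γ := by positivity
  set B : ℝ := 32 * Ce * C₀ + 1 with hB
  have hB1 : 1 ≤ B := by rw [hB]; have : 0 ≤ 32 * Ce * C₀ := by positivity
                         linarith
  have hB0 : 0 < B := by linarith
  set κ : ℝ := γ - a * d with hκ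
  have hκ0 : 0 < κ := by rw [hκ]; linarith
  refine ⟨(8 * C1) ^ d * 2 ^ (a * d) * B ^ γ + 4 * C₀ * B ^ κ, by positivity,
    fun n hn x => ?_⟩
  have hn' : (1 : ℝ) ≤ n := by exact_mod_cast hn
  have hn0 : (0 : ℝ) < n := by linarith
  have hnκ : 0 < (n : ℝ) ^ (-κ) := Real.rpow_pos_of_pos hn0 _
  rcases lt_or_ge (n : ℝ) B with hlt | hge
  · -- small times
    have h1 : ∀ y, ‖wn F ρ n y‖ ≤ 2 * C₀ := by
      intro y
      have h2 := hm_sub F ρ (by omega : 1 ≤ 2 * n) hdev y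
      have h3 := hm_sub F ρ hn hdev y
      have e : wn F ρ n y = (hm F ρ (2 * n) y - y) - (hm F ρ n y - y) := by
        unfold wn; abel
      rw [e]
      refine (norm_sub_le _ _).trans ?_
      linarith
    have h2 : ‖wn F ρ n x - wn F ρ n 0‖ ≤ 4 * C₀ := by
      refine (norm_sub_le _ _).trans ?_
      have := h1 x
      have := h1 0
      linarith
    have h3 : 1 ≤ B ^ κ * (n : ℝ) ^ (-κ) := by
      rw [Real.rpow_neg hn0.le, ← div_eq_mul_inv, one_le_div (Real.rpow_pos_of_pos hn0 _)]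
      exact Real.rpow_le_rpow hn0.le hlt.le hκ0.le
    have h4 : 0 ≤ (8 * C1) ^ d * 2 ^ (a * d) * B ^ γ * (n : ℝ) ^ (-κ) := by positivity
    calc ‖wn F ρ n x - wn F ρ n 0‖ ≤ 4 * C₀ := h2
      _ = 4 * C₀ * 1 := by ring
      _ ≤ 4 * C₀ * (B ^ κ * (n : ℝ) ^ (-κ)) := by gcongr
      _ ≤ _ := by linarith
  · obtain ⟨A, hA1, hA2, hA3⟩ := exists_A hB1 σ hge
    have hA1' : (1 : ℝ) ≤ A := by exact_mod_cast hA1
    set K : ℝ := 2 * C1 * (2 * (n : ℝ)) ^ a with hK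
    have h2n : (1 : ℝ) ≤ (2 * (n : ℝ)) ^ a := Real.one_le_rpow (by linarith) ha.le
    have hK1 : 1 ≤ K := by rw [hK]; nlinarith
    have hnε : (n : ℝ) ^ a ≤ (2 * (n : ℝ)) ^ a :=
      Real.rpow_le_rpow hn0.le (by linarith) ha.le
    have Lh : ∀ x y, ‖hm F ρ n x - hm F ρ n y‖ ≤ K * ‖x - y‖ := by
      refine lip_of_deriv (hm_contDiff hF ρ n) fun x => ?_
      refine (hm_deriv (j := 0) hF ρ ha hC1 hb hn x).trans ?_
      rw [hK]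
      have : 0 ≤ C1 * (2 * (n : ℝ)) ^ a := by positivity
      nlinarith
    have Lw : ∀ x y, ‖wn F ρ n x - wn F ρ n y‖ ≤ K * ‖x - y‖ :=
      lip_of_deriv (wn_contDiff hF ρ n) fun x => wn_deriv (j := 0) hF ρ ha hC1 hb hn x
    have Eh : ∀ m : ℕ, 1 ≤ m → ∀ x, ‖hm F ρ m (F x) - hm F ρ m x - ρ‖ ≤ C₀ / m := by
      intro m hm' x
      have : (0 : ℝ) < m := by exact_mod_cast hm'
      rw [hm_F F ρ hm', norm_smul, Real.norm_of_nonneg (by positivity)]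
      calc 1 / (m : ℝ) * ‖vdisp F ρ m x‖ ≤ 1 / (m : ℝ) * C₀ := by gcongr; exact hdev m x
        _ = C₀ / m := by ring
    have hη : C₀ / n ≤ 2 * C₀ / n := by gcongr; linarith
    have Ew : ∀ x, ‖wn F ρ n (F x) - wn F ρ n x‖ ≤ 2 * C₀ / n := by
      intro x
      have e : wn F ρ n (F x) - wn F ρ n x = (hm F ρ (2 * n) (F x) - hm F ρ (2 * n) x - ρ)
          - (hm F ρ n (F x) - hm F ρ n x - ρ) := by unfold wn; abel
      rw [e]
      refine (norm_sub_le _ _).trans ?_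
      have h1 := Eh (2 * n) (by omega) x
      have h2 := Eh n hn x
      push_cast at h1
      have h3 : C₀ / (2 * (n : ℝ)) ≤ C₀ / n := by
        gcongr
        linarith
      have h4 : 2 * C₀ / (n : ℝ) = C₀ / n + C₀ / n := by ring
      linarith
    have hN : ∀ b : Fin d → ℝ, ∃ j : ℕ, (j : ℝ) * (2 * C₀ / n) ≤ 1 / (16 * A) ∧
        ∃ p : Fin d → ℤ, ‖(j : ℝ) • ρ - b - fun i => (p i : ℝ)‖ ≤ 1 / (4 * A) := by
      intro b
      obtain ⟨j, hj, hp⟩ := hden A hA1 b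
      refine ⟨j, ?_, hp⟩
      rw [mul_div_assoc', div_le_div_iff₀ hn0 (by positivity), one_mul]
      calc (j : ℝ) * (2 * C₀) * (16 * A) ≤ (Ce * (A : ℝ) ^ σ) * (2 * C₀) * (16 * A) := by gcongr
        _ = (32 * Ce * C₀) * (A : ℝ) ^ (σ + 1) := by rw [pow_succ]; ring
        _ ≤ B * (A : ℝ) ^ (σ + 1) := by
          gcongr
          rw [hB]; linarith
        _ ≤ n := hA2
    have key : ∀ i : Fin d, ∀ x x' : Fin d → ℝ, wn F ρ n x' i - wn F ρ n x i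
        ≤ (4 * K) ^ d / (2 * A) := by
      intro i x x'
      exact osc_bound (F := F) (h := hm F ρ n) (v := fun x => wn F ρ n x i) (ρ := ρ)
        (hm_eqv hFe ρ hn) ((wn_per hFe ρ hn).comp fun w => w i)
        ((continuous_apply i).comp (wn_contDiff hF ρ n).continuous) hK1 Lh
        (fun x y => (norm_le_pi_norm (wn F ρ n x - wn F ρ n y) i).trans (Lw x y))
        (fun x => (Eh n hn x).trans hη)
        (fun x => (norm_le_pi_norm (wn F ρ n (F x) - wn F ρ n x) i).trans (Ew x)) hA1 hN x x'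
    have h1 : ‖wn F ρ n x - wn F ρ n 0‖ ≤ (4 * K) ^ d / (2 * A) := by
      refine (pi_norm_le_iff_of_nonneg (by positivity)).2 fun i => ?_
      rw [Real.norm_eq_abs, Pi.sub_apply, abs_le]
      have h2 := key i x 0
      have h3 := key i 0 x
      constructor <;> linarith
    refine h1.trans ?_
    have h2 : (4 * K) ^ d = (8 * C1) ^ d * ((2 * (n : ℝ)) ^ a) ^ d := by
      rw [← mul_pow, hK]; ring
    have h3 : ((2 * (n : ℝ)) ^ a) ^ d = 2 ^ (a * d) * (n : ℝ) ^ (a * d) := by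
      rw [← Real.rpow_natCast, ← Real.rpow_mul (by positivity), ← Real.mul_rpow (by norm_num) hn0.le]
    have h4 : (B / n) ^ γ = B ^ γ * (n : ℝ) ^ (-γ) := by
      rw [Real.div_rpow hB0.le hn0.le, Real.rpow_neg hn0.le, div_eq_mul_inv]
    have h5 : (n : ℝ) ^ (a * d) * (n : ℝ) ^ (-γ) = (n : ℝ) ^ (-κ) := by
      rw [← Real.rpow_add hn0]
      congr 1
      rw [hκ]; ring
    calc (4 * K) ^ d / (2 * A) = (8 * C1) ^ d * ((2 * (n : ℝ)) ^ a) ^ d * (1 / (2 * A)) := by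
          rw [h2]; ring
      _ ≤ (8 * C1) ^ d * ((2 * (n : ℝ)) ^ a) ^ d * (B ^ γ * (n : ℝ) ^ (-γ)) := by
          rw [← h4]
          gcongr
      _ = (8 * C1) ^ d * 2 ^ (a * d) * B ^ γ * ((n : ℝ) ^ (a * d) * (n : ℝ) ^ (-γ)) := by
          rw [h3]; ring
      _ = (8 * C1) ^ d * 2 ^ (a * d) * B ^ γ * (n : ℝ) ^ (-κ) := by rw [h5]
      _ ≤ _ := by
        have : 0 ≤ 4 * C₀ * B ^ κ * (n : ℝ) ^ (-κ) := by positivity
        linarith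

/-- First step: a linearization of finite differentiability. -/
theorem linearize_fin {F : (Fin d → ℝ) → (Fin d → ℝ)} {ρ : Fin d → ℝ} (hF : ContDiff ℝ (⊤ : ℕ∞) F)
    (hFe : Eqv F) {C₀ : ℝ} (hdev : ∀ (n : ℕ) (x : Fin d → ℝ), ‖vdisp F ρ n x‖ ≤ C₀)
    {a : ℝ} (ha : 0 < a) (hG : GrowthRate F a) {c : ℝ} (hc : 0 < c) {n₀ : ℕ}
    (hcn : ∀ k : Fin d → ℤ, k ≠ 0 → c ≤ wt k ^ n₀ * ‖ee k ρ - 1‖) {J : ℕ}
    (hJ : J * a < 1 / ((3 * (n₀ + d) : ℕ) + 1 : ℝ) - a * d) :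
    ∃ H : (Fin d → ℝ) → (Fin d → ℝ), ContDiff ℝ J H ∧ Eqv H ∧ ∀ x, H (F x) = H x + ρ := by
  have hJa : 0 ≤ (J : ℝ) * a := by positivity
  obtain ⟨C1, hC1, hb1⟩ := growth_all hF hFe hdev ha.le hG 0
  have hb1' : ∀ n : ℕ, 1 ≤ n → ∀ x : Fin d → ℝ, ‖iteratedFDeriv ℝ 1 F^[n] x‖ ≤ C1 * (n : ℝ) ^ a := by
    intro n hn x
    have := hb1 n hn x
    simpa using this
  obtain ⟨C0, hC0, hosc⟩ := osc_wn_rate hF hFe hdev ha hC1 hb1' hc hcn (by linarith)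
  set v : ℕ → (Fin d → ℝ) → (Fin d → ℝ) := fun N x => wn F ρ N x - wn F ρ N 0 with hv
  have hvs : ∀ N, ContDiff ℝ (⊤ : ℕ∞) (v N) := fun N => (wn_contDiff hF ρ N).sub contDiff_const
  have hvp : ∀ N, 1 ≤ N → IsPer (v N) := fun N hN => (wn_per hFe ρ hN).comp fun w => w - wn F ρ N 0
  have hvg : ∀ s : ℕ, ∃ C, 0 ≤ C ∧ ∀ N : ℕ, 1 ≤ N → ∀ x,
      ‖iteratedFDeriv ℝ (s + 1) (v N) x‖ ≤ C * (N : ℝ) ^ (a * (s + 1)) := by
    intro s
    obtain ⟨C, hC, hCb⟩ := growth_all hF hFe hdev ha.le hG s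
    refine ⟨2 * C * 2 ^ (a * (s + 1)), by positivity, fun N hN x => ?_⟩
    rw [hv, norm_iter_sub_const]
    refine (wn_deriv hF ρ (by positivity) hC hCb hN x).trans (le_of_eq ?_)
    rw [Real.mul_rpow (by norm_num) (by positivity)]
    ring
  obtain ⟨μ, hμ, hb⟩ := interp_rate hvs hvp ha.le hC0 hosc hvg hJ
  obtain ⟨hsm, hsum⟩ := dyadic_sum hvs hμ hb
  set H : (Fin d → ℝ) → (Fin d → ℝ) := fun x => x + ∑' l, v (2 ^ l) x with hH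
  have hHs : ContDiff ℝ J H := contDiff_id.add hsm
  have h2l : ∀ l : ℕ, 1 ≤ 2 ^ l := fun l => Nat.one_le_two_pow
  have hHe : Eqv H := by
    intro x k
    show x + zv k + ∑' l, v (2 ^ l) (x + zv k) = x + ∑' l, v (2 ^ l) x + zv k
    have : ∀ l, v (2 ^ l) (x + zv k) = v (2 ^ l) x := fun l => (hvp _ (h2l l)).zv x k
    simp only [this]
    abel
  refine ⟨H, hHs, hHe, fun x => ?_⟩
  have hm1 : ∀ x, hm F ρ 1 x = x := by
    intro x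
    simp [hm]
  have htel : ∀ L x, x + ∑ l ∈ Finset.range L, v (2 ^ l) x = hm F ρ (2 ^ L) x - hm F ρ (2 ^ L) 0 := by
    intro L x
    induction L with
    | zero => simp [hm1]
    | succ L ih =>
      rw [Finset.sum_range_succ, ← add_assoc, ih, hv]
      simp only [wn]
      have : 2 * 2 ^ L = 2 ^ (L + 1) := by ring
      rw [this]
      abel
  have hlim : ∀ x, Tendsto (fun L => hm F ρ (2 ^ L) x - hm F ρ (2 ^ L) 0) atTop (𝓝 (H x)) := by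
    intro x
    have h1 := ((hsum x).hasSum.tendsto_sum_nat).const_add x
    refine h1.congr fun L => ?_
    exact htel L x
  have h1 := ((hlim (F x)).sub (hlim x)).sub (tendsto_const_nhds (x := ρ))
  have h2 : Tendsto (fun L : ℕ => (hm F ρ (2 ^ L) (F x) - hm F ρ (2 ^ L) 0)
      - (hm F ρ (2 ^ L) x - hm F ρ (2 ^ L) 0) - ρ) atTop (𝓝 0) := by
    have h3 : ∀ L : ℕ, ‖(hm F ρ (2 ^ L) (F x) - hm F ρ (2 ^ L) 0)
        - (hm F ρ (2 ^ L) x - hm F ρ (2 ^ L) 0) - ρ‖ ≤ C₀ * (1 / 2) ^ L := by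
      intro L
      have e : (hm F ρ (2 ^ L) (F x) - hm F ρ (2 ^ L) 0)
          - (hm F ρ (2 ^ L) x - hm F ρ (2 ^ L) 0) - ρ
          = hm F ρ (2 ^ L) (F x) - hm F ρ (2 ^ L) x - ρ := by abel
      rw [e, hm_F F ρ (h2l L), norm_smul, Real.norm_of_nonneg (by positivity)]
      have h4 := hdev (2 ^ L) x
      have h5 : 1 / ((2 ^ L : ℕ) : ℝ) = (1 / 2) ^ L := by push_cast; rw [one_div_pow]
      rw [h5, mul_comm]
      gcongr
    refine squeeze_zero_norm h3 ?_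
    have := (tendsto_pow_atTop_nhds_zero_of_lt_one (r := (1 / 2 : ℝ)) (by norm_num)
      (by norm_num)).const_mul C₀
    simpa using this
  have h3 := tendsto_nhds_unique h1 h2
  have h4 : H (F x) - H x = ρ := sub_eq_zero.1 h3
  rw [← h4]
  abel

end Run7.h575
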