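import Pool.Agent.Run7.h575.RD

set_option autoImplicit false

/-!
Lifts of a topological conjugacy between a torus map and a translation.
-/

open MeasureTheory Set Filter Topology Matrix

namespace Run7.h575

variable {d : ℕ}

/-- Integer vectors as real vectors. -/
def zv (k : Fin d → ℤ) : Fin d → ℝ := fun i => (k i : ℝ)

theorem zv_apply (k : Fin d → ℤ) (i : Fin d) : zv k i = (k i : ℝ) := rfl

theorem zv_zero : zv (0 : Fin d → ℤ) = 0 := by funext i; simp [zv]

theorem zv_add (k l : Fin d → ℤ) : zv (k + l) = zv k + zv l := by funext i; simp [zv]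

theorem zv_sub (k l : Fin d → ℤ) : zv (k - l) = zv k - zv l := by funext i; simp [zv]

theorem zv_neg (k : Fin d → ℤ) : zv (-k) = -zv k := by funext i; simp [zv]

theorem zv_inj {k l : Fin d → ℤ} (h : zv k = zv l) : k = l := by
  funext i
  have := congrFun h i
  simp only [zv_apply] at this
  exact_mod_cast this

theorem cov_zv (k : Fin d → ℤ) : cov (zv k) = 0 := by
  funext i
  simp [cov, zv]

theorem cov_sub (x y : Fin d → ℝ) : cov (x - y) = cov x - cov y := by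
  funext i
  simp [cov]

theorem cov_eq_zero {x : Fin d → ℝ} (h : cov x = 0) : ∃ k : Fin d → ℤ, x = zv k := by
  have h0 : cov (0 : Fin d → ℝ) = cov x := by rw [h]; funext i; simp [cov]
  obtain ⟨k, hk⟩ := cov_eq_iff.1 h0
  exact ⟨k, by rw [hk, zero_add]; rfl⟩

theorem const_of_int {X : Type*} [TopologicalSpace X] [PreconnectedSpace X] {u : X → ℝ}
    (hu : Continuous u) (h : ∀ x, ∃ n : ℤ, u x = n) (x y : X) : u x = u y := by
  have key : ∀ x y, u x < u y → False := by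
    intro x y hlt
    obtain ⟨a, ha⟩ := h x
    obtain ⟨b, hb⟩ := h y
    have hab : a < b := by
      rw [ha, hb] at hlt
      exact_mod_cast hlt
    have h1 : (a : ℝ) + 1 ≤ b := by exact_mod_cast hab
    have h2 : (a : ℝ) + 1 / 2 ∈ Set.range u := by
      have := (isPreconnected_range hu).ordConnected.out (mem_range_self x) (mem_range_self y)
      apply this
      rw [ha, hb]
      constructor <;> linarith
    obtain ⟨z, hz⟩ := h2
    obtain ⟨c, hc⟩ := h z
    rw [hc] at hz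
    have h3 : a < c := by
      have : (a : ℝ) < c := by rw [hz]; linarith
      exact_mod_cast this
    have h4 : c < a + 1 := by
      have : (c : ℝ) < a + 1 := by rw [hz]; linarith
      exact_mod_cast this
    omega
  rcases lt_trichotomy (u x) (u y) with h1 | h1 | h1
  · exact (key x y h1).elim
  · exact h1
  · exact (key y x h1).elim

theorem const_of_cov {u : (Fin d → ℝ) → (Fin d → ℝ)} (hu : Continuous u)
    (h : ∀ x, cov (u x) = 0) : ∃ k : Fin d → ℤ, ∀ x, u x = zv k := by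
  obtain ⟨k, hk⟩ := cov_eq_zero (h 0)
  refine ⟨k, fun x => ?_⟩
  rw [← hk]
  funext i
  refine const_of_int (u := fun x => u x i) ((continuous_apply i).comp hu) (fun x => ?_) x 0
  obtain ⟨l, hl⟩ := cov_eq_zero (h x)
  exact ⟨l i, by rw [hl]; rfl⟩

theorem exists_lift {g : UnitAddTorus (Fin d) → UnitAddTorus (Fin d)} (hg : Continuous g) :
    ∃ g' : (Fin d → ℝ) → (Fin d → ℝ), Continuous g' ∧ ∀ x, cov (g' x) = g (cov x) := by
  have key : ∀ i : Fin d, ∃ u : C(Fin d → ℝ, ℝ), ∀ x, ((u x : ℝ) : UnitAddCircle) = g (cov x) i := by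
    intro i
    let f : C(Fin d → ℝ, UnitAddCircle) := ⟨fun x => g (cov x) i,
      (continuous_apply i).comp (hg.comp cov_continuous)⟩
    obtain ⟨e, he⟩ := QuotientAddGroup.mk_surjective (f 0)
    obtain ⟨u, ⟨-, hu⟩, -⟩ :=
      (AddCircle.isCoveringMap_coe (1 : ℝ)).existsUnique_continuousMap_lifts f 0 e he
    exact ⟨u, fun x => congrFun hu x⟩
  choose u hu using key
  refine ⟨fun x i => u i x, continuous_pi fun i => (u i).continuous, fun x => ?_⟩
  funext i
  exact hu i x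

theorem lift_matrix {g : UnitAddTorus (Fin d) → UnitAddTorus (Fin d)}
    {u : (Fin d → ℝ) → (Fin d → ℝ)} (hu : Continuous u) (h : ∀ x, cov (u x) = g (cov x)) :
    ∃ A : Matrix (Fin d) (Fin d) ℤ, ∀ x k, u (x + zv k) = u x + zv (A *ᵥ k) := by
  have key : ∀ k : Fin d → ℤ, ∃ a : Fin d → ℤ, ∀ x, u (x + zv k) - u x = zv a := by
    intro k
    refine const_of_cov ((hu.comp (continuous_id.add continuous_const)).sub hu) fun x => ?_
    rw [cov_sub, h, h]
    show g (cov (x + zv k)) - _ = _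
    rw [cov_add, cov_zv, add_zero, sub_self]
  choose a ha using key
  have hadd : ∀ k l, a (k + l) = a k + a l := by
    intro k l
    apply zv_inj
    rw [zv_add, ← ha (k + l) 0, ← ha k 0, ← ha l (0 + zv k), zv_add, add_assoc]
    abel
  let φ : (Fin d → ℤ) →+ (Fin d → ℤ) := AddMonoidHom.mk' a hadd
  refine ⟨LinearMap.toMatrix' φ.toIntLinearMap, fun x k => ?_⟩
  rw [LinearMap.toMatrix'_mulVec]
  have := ha k x
  rw [sub_eq_iff_eq_add] at this
  rw [this, add_comm]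
  rfl

/-- The lifted data of a topological conjugacy to the translation by `α`. -/
structure Dat (F : (Fin d → ℝ) → (Fin d → ℝ)) (α : Fin d → ℝ) where
  P : (Fin d → ℝ) → (Fin d → ℝ)
  Q : (Fin d → ℝ) → (Fin d → ℝ)
  A : Matrix (Fin d) (Fin d) ℤ
  B : Matrix (Fin d) (Fin d) ℤ
  m : Fin d → ℤ
  hP : Continuous P
  hQ : Continuous Q
  QP : ∀ x, Q (P x) = x
  PQ : ∀ y, P (Q y) = y
  Pper : ∀ x k, P (x + zv k) = P x + zv (A *ᵥ k)
  Qper : ∀ y k, Q (y + zv k) = Q y + zv (B *ᵥ k)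
  BA : B * A = 1
  AB : A * B = 1
  PF : ∀ x, P (F x) = P x + (α + zv m)

theorem exists_dat {F : (Fin d → ℝ) → (Fin d → ℝ)} {α : Fin d → ℝ} (hF : Continuous F)
    (h : UnitAddTorus (Fin d) ≃ₜ UnitAddTorus (Fin d))
    (hh : ∀ x, h (cov (F x)) = h (cov x) + cov α) : Nonempty (Dat F α) := by
  obtain ⟨P, hP, hPc⟩ := exists_lift h.continuous
  obtain ⟨Q₀, hQ₀, hQ₀c⟩ := exists_lift h.symm.continuous
  obtain ⟨A, hA⟩ := lift_matrix hP hPc
  obtain ⟨c, hc⟩ := const_of_cov (u := fun x => Q₀ (P x) - x) ((hQ₀.comp hP).sub continuous_id)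
    (fun x => by rw [cov_sub, hQ₀c, hPc, h.symm_apply_apply, sub_self])
  let Q : (Fin d → ℝ) → (Fin d → ℝ) := fun y => Q₀ y - zv c
  have hQ : Continuous Q := hQ₀.sub continuous_const
  have hQc : ∀ x, cov (Q x) = h.symm (cov x) := by
    intro x
    show cov (Q₀ x - zv c) = _
    rw [cov_sub, cov_zv, sub_zero, hQ₀c]
  have QP : ∀ x, Q (P x) = x := by
    intro x
    show Q₀ (P x) - zv c = x
    rw [← hc x]
    abel
  obtain ⟨B, hB⟩ := lift_matrix hQ hQc
  obtain ⟨c', hc'⟩ := const_of_cov (u := fun y => P (Q y) - y) ((hP.comp hQ).sub continuous_id)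
    (fun y => by rw [cov_sub, hPc, hQc, h.apply_symm_apply, sub_self])
  have hc0 : zv c' = 0 := by rw [← hc' (P 0)]; simp [QP]
  have PQ : ∀ y, P (Q y) = y := by
    intro y
    have := hc' y
    rw [hc0, sub_eq_zero] at this
    exact this
  have hBA : ∀ k, B *ᵥ (A *ᵥ k) = k := by
    intro k
    have h1 := QP (0 + zv k)
    rw [hA, hB, QP] at h1
    exact zv_inj (add_left_cancel h1)
  have BA : B * A = 1 := by
    apply Matrix.ext_of_mulVec_single
    intro i
    rw [← Matrix.mulVec_mulVec, hBA, Matrix.one_mulVec]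
  obtain ⟨m, hm⟩ := const_of_cov (u := fun x => P (F x) - P x - α)
    (((hP.comp hF).sub hP).sub continuous_const) (fun x => by
      rw [cov_sub, cov_sub, hPc, hPc, hh]; abel)
  refine ⟨⟨P, Q, A, B, m, hP, hQ, QP, PQ, hA, hB, BA, mul_eq_one_comm.1 BA, fun x => ?_⟩⟩
  rw [← hm x]
  abel

namespace Dat

variable {F : (Fin d → ℝ) → (Fin d → ℝ)} {α : Fin d → ℝ} (D : Dat F α)

/-- The real linear map of the integer matrix. -/
noncomputable def rB (D : Dat F α) : (Fin d → ℝ) →L[ℝ] (Fin d → ℝ) :=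
  LinearMap.toContinuousLinearMap (Matrix.toLin' (D.B.map (Int.cast : ℤ → ℝ)))

noncomputable def rA (D : Dat F α) : (Fin d → ℝ) →L[ℝ] (Fin d → ℝ) :=
  LinearMap.toContinuousLinearMap (Matrix.toLin' (D.A.map (Int.cast : ℤ → ℝ)))

theorem zv_mulVec (M : Matrix (Fin d) (Fin d) ℤ) (k : Fin d → ℤ) :
    zv (M *ᵥ k) = (M.map (Int.cast : ℤ → ℝ)) *ᵥ zv k := by
  funext i
  simp [zv, Matrix.mulVec, dotProduct]

theorem rB_apply (x : Fin d → ℝ) : D.rB x = (D.B.map (Int.cast : ℤ → ℝ)) *ᵥ x := by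
  simp [rB, Matrix.toLin'_apply]

theorem rA_apply (x : Fin d → ℝ) : D.rA x = (D.A.map (Int.cast : ℤ → ℝ)) *ᵥ x := by
  simp [rA, Matrix.toLin'_apply]

theorem rB_zv (k : Fin d → ℤ) : D.rB (zv k) = zv (D.B *ᵥ k) := by rw [rB_apply, zv_mulVec]

theorem rA_zv (k : Fin d → ℤ) : D.rA (zv k) = zv (D.A *ᵥ k) := by rw [rA_apply, zv_mulVec]

theorem rA_rB (x : Fin d → ℝ) : D.rA (D.rB x) = x := by
  rw [rA_apply, rB_apply, Matrix.mulVec_mulVec]
  have : D.A.map (Int.cast : ℤ → ℝ) * D.B.map (Int.cast : ℤ → ℝ) = 1 := by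
    have h1 := congrArg (fun M : Matrix (Fin d) (Fin d) ℤ => M.map (Int.castRingHom ℝ)) D.AB
    simp only [Matrix.map_mul] at h1
    have h2 : (1 : Matrix (Fin d) (Fin d) ℤ).map (Int.castRingHom ℝ) = 1 :=
      Matrix.map_one _ (map_zero _) (map_one _)
    rw [h2] at h1
    exact h1
  rw [this, Matrix.one_mulVec]

theorem rB_rA (x : Fin d → ℝ) : D.rB (D.rA x) = x := by
  rw [rA_apply, rB_apply, Matrix.mulVec_mulVec]
  have : D.B.map (Int.cast : ℤ → ℝ) * D.A.map (Int.cast : ℤ → ℝ) = 1 := by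
    have h1 := congrArg (fun M : Matrix (Fin d) (Fin d) ℤ => M.map (Int.castRingHom ℝ)) D.BA
    simp only [Matrix.map_mul] at h1
    have h2 : (1 : Matrix (Fin d) (Fin d) ℤ).map (Int.castRingHom ℝ) = 1 :=
      Matrix.map_one _ (map_zero _) (map_one _)
    rw [h2] at h1
    exact h1
  rw [this, Matrix.one_mulVec]

/-- The mean rotation vector. -/
noncomputable def rho (D : Dat F α) : Fin d → ℝ := D.rB (α + zv D.m)

theorem rA_rho : D.rA D.rho = α + zv D.m := D.rA_rB _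

theorem F_Q (y : Fin d → ℝ) : F (D.Q y) = D.Q (y + (α + zv D.m)) := by
  have h := D.PF (D.Q y)
  rw [D.PQ] at h
  rw [← h, D.QP]

/-- `Q y - B y` is periodic. -/
theorem w_per : IsPer fun y => D.Q y - D.rB y := by
  intro y k
  show D.Q (y + zv k) - D.rB (y + zv k) = D.Q y - D.rB y
  rw [D.Qper, map_add, D.rB_zv]
  abel

theorem F_iter_Q (n : ℕ) (y : Fin d → ℝ) : F^[n] (D.Q y) = D.Q (y + (n : ℝ) • (α + zv D.m)) := by
  induction n with
  | zero => simp
  | succ n ih =>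
    rw [Function.iterate_succ_apply', ih, D.F_Q]
    congr 1
    push_cast
    rw [add_smul, one_smul, add_assoc]

theorem deviation : ∃ C, 0 ≤ C ∧ ∀ (n : ℕ) (x : Fin d → ℝ), ‖F^[n] x - x - (n : ℝ) • D.rho‖ ≤ C := by
  obtain ⟨B, hB⟩ := D.w_per.bounded (D.hQ.sub D.rB.continuous)
  refine ⟨2 * B, by have := (norm_nonneg _).trans (hB 0); linarith, fun n x => ?_⟩
  have h1 := D.F_iter_Q n (D.P x)
  rw [D.QP] at h1
  have h2 : F^[n] x - x - (n : ℝ) • D.rho = (D.Q (D.P x + (n : ℝ) • (α + zv D.m))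
      - D.rB (D.P x + (n : ℝ) • (α + zv D.m))) - (D.Q (D.P x) - D.rB (D.P x)) := by
    rw [h1, D.QP, map_add, map_smul]
    unfold rho
    abel
  rw [h2]
  refine (norm_sub_le _ _).trans ?_
  have := hB (D.P x + (n : ℝ) • (α + zv D.m))
  have := hB (D.P x)
  linarith

end Dat

theorem ph_eq_dot (k : Fin d → ℤ) (x : Fin d → ℝ) : ph k x = zv k ⬝ᵥ x := rfl

theorem zv_vecMul (M : Matrix (Fin d) (Fin d) ℤ) (k : Fin d → ℤ) :
    zv (k ᵥ* M) = zv k ᵥ* (M.map (Int.cast : ℤ → ℝ)) := by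
  funext i
  simp [zv, Matrix.vecMul, dotProduct]

theorem ph_mulVec (M : Matrix (Fin d) (Fin d) ℤ) (k : Fin d → ℤ) (x : Fin d → ℝ) :
    ph k ((M.map (Int.cast : ℤ → ℝ)) *ᵥ x) = ph (k ᵥ* M) x := by
  rw [ph_eq_dot, ph_eq_dot, Matrix.dotProduct_mulVec, zv_vecMul]

theorem ph_zv (k l : Fin d → ℤ) : ∃ n : ℤ, ph k (zv l) = n := ⟨_, ph_int k l⟩

/-- Irrationality of a vector. -/
def Irr (α : Fin d → ℝ) : Prop := ∀ k : Fin d → ℤ, k ≠ 0 → ∀ m : ℤ, ph k α ≠ m

theorem transfer_dioph {α β : Fin d → ℝ} (M : Matrix (Fin d) (Fin d) ℤ)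
    (hM : ∀ k : Fin d → ℤ, k ≠ 0 → k ᵥ* M ≠ 0) (h : ∀ k, ∃ n : ℤ, ph k β = ph (k ᵥ* M) α + n)
    (hα : Dioph α) : Dioph β := by
  obtain ⟨C, hC, τ, hτ, hα⟩ := hα
  set c : ℝ := ∑ i, ∑ j, |(M i j : ℝ)| + 1 with hc
  have hc0 : 0 < c := by
    have : 0 ≤ ∑ i, ∑ j, |(M i j : ℝ)| := by positivity
    linarith
  refine ⟨C / c ^ τ, by positivity, τ, hτ, fun k hk m => ?_⟩
  obtain ⟨n, hn⟩ := h k
  have h1 := hα _ (hM k hk) (m - n)
  have e : ∑ i, (k i : ℝ) * β i - (m : ℝ) = ∑ i, ((k ᵥ* M) i : ℝ) * α i - ((m - n : ℤ) : ℝ) := by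
    have : ∑ i, (k i : ℝ) * β i = ph k β := rfl
    rw [this, hn]
    have : ∑ i, ((k ᵥ* M) i : ℝ) * α i = ph (k ᵥ* M) α := rfl
    rw [this]
    push_cast
    ring
  rw [e]
  refine le_trans ?_ h1
  have h2 : ∑ i, |((k ᵥ* M) i : ℝ)| ≤ c * ∑ i, |(k i : ℝ)| := by
    have h3 : ∀ j, |((k ᵥ* M) j : ℝ)| ≤ ∑ i, |(k i : ℝ)| * |(M i j : ℝ)| := by
      intro j
      have : ((k ᵥ* M) j : ℝ) = ∑ i, (k i : ℝ) * (M i j : ℝ) := by
        simp [Matrix.vecMul, dotProduct]
      rw [this]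
      refine (Finset.abs_sum_le_sum_abs _ _).trans (le_of_eq ?_)
      exact Finset.sum_congr rfl fun i _ => abs_mul _ _
    calc ∑ j, |((k ᵥ* M) j : ℝ)| ≤ ∑ j, ∑ i, |(k i : ℝ)| * |(M i j : ℝ)| :=
          Finset.sum_le_sum fun j _ => h3 j
      _ = ∑ i, |(k i : ℝ)| * ∑ j, |(M i j : ℝ)| := by
          rw [Finset.sum_comm]
          exact Finset.sum_congr rfl fun i _ => by rw [Finset.mul_sum]
      _ ≤ ∑ i, |(k i : ℝ)| * c := by
          refine Finset.sum_le_sum fun i _ => ?_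
          have : ∑ j, |(M i j : ℝ)| ≤ ∑ i, ∑ j, |(M i j : ℝ)| :=
            Finset.single_le_sum (f := fun i => ∑ j, |(M i j : ℝ)|)
              (fun i _ => by positivity) (Finset.mem_univ i)
          have h0 := abs_nonneg (k i : ℝ)
          nlinarith
      _ = c * ∑ i, |(k i : ℝ)| := by rw [← Finset.sum_mul, mul_comm]
  have h5 : 0 < ∑ i, |((k ᵥ* M) i : ℝ)| := by
    have h0 : ∀ i ∈ Finset.univ, 0 ≤ |((k ᵥ* M) i : ℝ)| := fun i _ => abs_nonneg _
    rcases (Finset.sum_nonneg h0).lt_or_eq with h | h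
    · exact h
    · exfalso
      apply hM k hk
      funext i
      have := (Finset.sum_eq_zero_iff_of_nonneg h0).1 h.symm i (Finset.mem_univ i)
      rw [abs_eq_zero] at this
      exact_mod_cast this
  have h6 : 0 < ∑ i, |(k i : ℝ)| := by
    by_contra h7
    push Not at h7
    nlinarith
  have h7 : (∑ i, |((k ᵥ* M) i : ℝ)|) ^ τ ≤ c ^ τ * (∑ i, |(k i : ℝ)|) ^ τ := by
    rw [← Real.mul_rpow hc0.le h6.le]
    exact Real.rpow_le_rpow h5.le h2 hτ.le
  have h8 : 0 < (∑ i, |((k ᵥ* M) i : ℝ)|) ^ τ := Real.rpow_pos_of_pos h5 τ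
  rw [div_div]
  gcongr

theorem transfer_irr {α β : Fin d → ℝ} (M : Matrix (Fin d) (Fin d) ℤ)
    (hM : ∀ k : Fin d → ℤ, k ≠ 0 → k ᵥ* M ≠ 0) (h : ∀ k, ∃ n : ℤ, ph k β = ph (k ᵥ* M) α + n)
    (hα : Irr α) : Irr β := by
  intro k hk m hm
  obtain ⟨n, hn⟩ := h k
  refine hα _ (hM k hk) (m - n) ?_
  push_cast
  linarith

theorem vecMul_ne {M N : Matrix (Fin d) (Fin d) ℤ} (h : M * N = 1) (k : Fin d → ℤ) (hk : k ≠ 0) :
    k ᵥ* M ≠ 0 := by
  intro h0
  apply hk
  have h1 : (k ᵥ* M) ᵥ* N = k := by rw [Matrix.vecMul_vecMul, h, Matrix.vecMul_one]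
  rw [← h1, h0, Matrix.zero_vecMul]

namespace Dat

variable {F : (Fin d → ℝ) → (Fin d → ℝ)} {α : Fin d → ℝ} (D : Dat F α)

theorem ph_rho (k : Fin d → ℤ) : ∃ n : ℤ, ph k D.rho = ph (k ᵥ* D.B) α + n := by
  obtain ⟨n, hn⟩ := ph_zv (k ᵥ* D.B) D.m
  refine ⟨n, ?_⟩
  rw [rho, rB_apply, ph_mulVec, ph_add, hn]

theorem ph_alpha (k : Fin d → ℤ) : ∃ n : ℤ, ph k α = ph (k ᵥ* D.A) D.rho + n := by
  obtain ⟨n, hn⟩ := ph_zv k D.m
  refine ⟨-n, ?_⟩
  have h := D.rA_rho
  rw [rA_apply] at h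
  have h2 := congrArg (ph k) h
  rw [ph_mulVec, ph_add, hn] at h2
  push_cast
  linarith

theorem dioph_rho (h : Dioph α) : Dioph D.rho :=
  transfer_dioph D.B (vecMul_ne D.BA) D.ph_rho h

theorem dioph_alpha (h : Dioph D.rho) : Dioph α :=
  transfer_dioph D.A (vecMul_ne D.AB) D.ph_alpha h

theorem irr_rho (h : Irr α) : Irr D.rho :=
  transfer_irr D.B (vecMul_ne D.BA) D.ph_rho h

include D in
/-- Invariant continuous functions are constant. -/
theorem const (hα : Irr α) {v : (Fin d → ℝ) → ℝ} (hv : IsPer v) (hc : Continuous v)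
    (hinv : ∀ x, v (F x) = v x) (x y : Fin d → ℝ) : v x = v y := by
  have hper : IsPer fun y => v (D.Q y) := by
    intro y k
    show v (D.Q (y + zv k)) = _
    rw [D.Qper]
    exact hv _ _
  have h1 : ∀ y, v (D.Q (y + α)) = v (D.Q y) := by
    intro y
    have h2 := hper (y + α) D.m
    have h3 : (y + α + fun i => (D.m i : ℝ)) = y + (α + zv D.m) := by rw [add_assoc]; rfl
    simp only [h3] at h2
    rw [← h2, ← D.F_Q, hinv]
  have h4 := const_of_inv_real hα hper (hc.comp D.hQ) h1 (D.P x) (D.P y)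
  simpa only [D.QP] using h4

/-- A bounded function cannot drift. -/
theorem no_drift {W : Type*} [NormedAddCommGroup W] [NormedSpace ℝ W] {v : (Fin d → ℝ) → W} {c : W}
    {B : ℝ} (hB : ∀ x, ‖v x‖ ≤ B) (h : ∀ x, v (F x) = v x + c) : c = 0 := by
  have h1 : ∀ n : ℕ, v (F^[n] 0) = v 0 + (n : ℝ) • c := by
    intro n
    induction n with
    | zero => simp
    | succ n ih =>
      rw [Function.iterate_succ_apply', h, ih]
      push_cast
      rw [add_smul, one_smul, add_assoc]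
  by_contra hc
  have hc' : 0 < ‖c‖ := norm_pos_iff.2 hc
  obtain ⟨n, hn⟩ := exists_nat_gt (2 * B / ‖c‖)
  rw [div_lt_iff₀ hc'] at hn
  have h2 : ‖(n : ℝ) • c‖ ≤ 2 * B := by
    have : (n : ℝ) • c = v (F^[n] 0) - v 0 := by rw [h1]; abel
    rw [this]
    refine (norm_sub_le _ _).trans ?_
    have := hB (F^[n] 0)
    have := hB 0
    linarith
  rw [norm_smul, Real.norm_of_nonneg (by positivity)] at h2
  linarith

include D in
/-- Minimality. -/
theorem minimal (hα : Irr α) {E : Set (Fin d → ℝ)} (hE : IsClosed E) (hne : E.Nonempty)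
    (hper : ∀ x k, x ∈ E → x + zv k ∈ E) (hinv : ∀ x, F x ∈ E ↔ x ∈ E) : E = univ := by
  set E' : Set (Fin d → ℝ) := D.Q ⁻¹' E with hE'
  have hE'c : IsClosed E' := hE.preimage D.hQ
  have hne' : E'.Nonempty := by
    obtain ⟨x, hx⟩ := hne
    exact ⟨D.P x, by rw [hE', mem_preimage, D.QP]; exact hx⟩
  have hz : ∀ k y, y ∈ E' → y + zv k ∈ E' := by
    intro k y hy
    rw [hE', mem_preimage, D.Qper]
    exact hper _ _ hy
  have him : ∀ k : Fin d → ℤ, (fun y => y + zv k) '' E' = E' := by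
    intro k
    apply Subset.antisymm
    · rintro _ ⟨y, hy, rfl⟩; exact hz k y hy
    · intro y hy
      refine ⟨y + zv (-k), hz _ _ hy, ?_⟩
      show y + zv (-k) + zv k = y
      rw [zv_neg]; abel
  have hz' : ∀ y, y ∈ E' ↔ y + (α + zv D.m) ∈ E' := by
    intro y
    rw [hE', mem_preimage, mem_preimage, ← D.F_Q, hinv]
  have hia : (fun y => y + α) '' E' = E' := by
    apply Subset.antisymm
    · rintro _ ⟨y, hy, rfl⟩
      have h1 := (hz' y).1 hy
      have h2 := hz (-D.m) _ h1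
      have h3 : y + (α + zv D.m) + zv (-D.m) = y + α := by rw [zv_neg]; abel
      rwa [h3] at h2
    · intro y hy
      refine ⟨y - α, ?_, by simp⟩
      rw [hz']
      have h3 : y - α + (α + zv D.m) = y + zv D.m := by abel
      rw [h3]
      exact hz _ _ hy
  have hiso : ∀ c : Fin d → ℝ, Isometry fun y : Fin d → ℝ => y + c := fun c =>
    (IsometryEquiv.addRight c).isometry
  have h1 : IsPer fun y => Metric.infDist y E' := by
    intro y k
    have := Metric.infDist_image (hiso (zv k)) (x := y) (t := E')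
    rw [him] at this
    exact this
  have h2 : ∀ y, Metric.infDist (y + α) E' = Metric.infDist y E' := by
    intro y
    have := Metric.infDist_image (hiso α) (x := y) (t := E')
    rw [hia] at this
    exact this
  obtain ⟨y0, hy0⟩ := hne'
  have h3 : ∀ y, y ∈ E' := by
    intro y
    have := const_of_inv_real hα h1 (Metric.continuous_infDist_pt E') h2 y y0
    rw [Metric.infDist_zero_of_mem hy0] at this
    exact (hE'c.mem_iff_infDist_zero ⟨y0, hy0⟩).2 this
  ext x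
  simp only [mem_univ, iff_true]
  have := h3 (D.P x)
  rw [hE', mem_preimage, D.QP] at this
  exact this

end Dat

end Run7.h575
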