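import Pool.Agent.Run7.h575.Pig
import Pool.Agent.Run7.h575.Eff
import Pool.Agent.Run7.h575.Diffeo
import Pool.Agent.Run7.h575.Defs

set_option autoImplicit false

/-!
Smooth linearization from slow growth of derivatives over a Diophantine translation.
-/

open MeasureTheory Set Filter Topology

namespace Run7.h575

variable {d : ℕ}

theorem norm_iter_sub_const {V W : Type*} [NormedAddCommGroup V] [NormedSpace ℝ V]
    [NormedAddCommGroup W] [NormedSpace ℝ W] (f : V → W) (c : W) (s : ℕ) (x : V) :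
    ‖iteratedFDeriv ℝ (s + 1) (fun x => f x - c) x‖ = ‖iteratedFDeriv ℝ (s + 1) f x‖ := by
  rw [← norm_iteratedFDeriv_fderiv, ← norm_iteratedFDeriv_fderiv]
  have : fderiv ℝ (fun x => f x - c) = fderiv ℝ f := funext fun y => fderiv_sub_const c
  rw [this]

/-- The vector valued displacement. -/
noncomputable def vdisp (F : (Fin d → ℝ) → (Fin d → ℝ)) (ρ : Fin d → ℝ) (n : ℕ)
    (x : Fin d → ℝ) : Fin d → ℝ := F^[n] x - x - (n : ℝ) • ρ

theorem vdisp_per {F : (Fin d → ℝ) → (Fin d → ℝ)} (hF : Eqv F) (ρ : Fin d → ℝ) (n : ℕ) :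
    IsPer (vdisp F ρ n) := by
  intro x l
  show vdisp F ρ n (x + zv l) = vdisp F ρ n x
  unfold vdisp
  rw [hF.iterate n]
  abel

theorem vdisp_contDiff {F : (Fin d → ℝ) → (Fin d → ℝ)} (hF : ContDiff ℝ (⊤ : ℕ∞) F)
    (ρ : Fin d → ℝ) (n : ℕ) : ContDiff ℝ (⊤ : ℕ∞) (vdisp F ρ n) := by
  unfold vdisp
  exact ((contDiff_iterate hF n).sub contDiff_id).sub contDiff_const

theorem fderiv_vdisp {F : (Fin d → ℝ) → (Fin d → ℝ)} (hF : ContDiff ℝ (⊤ : ℕ∞) F)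
    (ρ : Fin d → ℝ) (n : ℕ) :
    fderiv ℝ (vdisp F ρ n) = fun x => fderiv ℝ F^[n] x - ContinuousLinearMap.id ℝ (Fin d → ℝ) := by
  funext x
  have h1 : DifferentiableAt ℝ F^[n] x := ((contDiff_iterate hF n).differentiable (by simp)) x
  have e : vdisp F ρ n = fun x => (F^[n] x - id x) - (n : ℝ) • ρ := rfl
  rw [e, fderiv_sub_const, fderiv_fun_sub h1 differentiableAt_id, fderiv_id]

theorem norm_iter_vdisp_two {F : (Fin d → ℝ) → (Fin d → ℝ)} (hF : ContDiff ℝ (⊤ : ℕ∞) F)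
    (ρ : Fin d → ℝ) (n s : ℕ) (x : Fin d → ℝ) :
    ‖iteratedFDeriv ℝ (s + 2) (vdisp F ρ n) x‖ = ‖iteratedFDeriv ℝ (s + 2) F^[n] x‖ := by
  rw [← norm_iteratedFDeriv_fderiv, fderiv_vdisp hF, norm_iter_sub_const, norm_iteratedFDeriv_fderiv]

theorem norm_iter_le_vdisp {F : (Fin d → ℝ) → (Fin d → ℝ)} (hF : ContDiff ℝ (⊤ : ℕ∞) F)
    (ρ : Fin d → ℝ) (n s : ℕ) (x : Fin d → ℝ) :
    ‖iteratedFDeriv ℝ (s + 1) F^[n] x‖ ≤ ‖iteratedFDeriv ℝ (s + 1) (vdisp F ρ n) x‖ + 1 := by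
  cases s with
  | zero =>
    rw [zero_add, norm_iteratedFDeriv_one, norm_iteratedFDeriv_one, fderiv_vdisp hF]
    have h1 : fderiv ℝ F^[n] x = (fderiv ℝ F^[n] x - ContinuousLinearMap.id ℝ (Fin d → ℝ))
      + ContinuousLinearMap.id ℝ (Fin d → ℝ) := by abel
    calc ‖fderiv ℝ F^[n] x‖ = ‖(fderiv ℝ F^[n] x - ContinuousLinearMap.id ℝ (Fin d → ℝ))
          + ContinuousLinearMap.id ℝ (Fin d → ℝ)‖ := by rw [← h1]
      _ ≤ _ := norm_add_le _ _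
      _ ≤ _ := by
        have := ContinuousLinearMap.norm_id_le (𝕜 := ℝ) (E := Fin d → ℝ)
        simp only
        linarith
  | succ s =>
    rw [← norm_iter_vdisp_two hF ρ]
    linarith

theorem subpoly_all {F : (Fin d → ℝ) → (Fin d → ℝ)} {ρ : Fin d → ℝ} (hF : ContDiff ℝ (⊤ : ℕ∞) F)
    (hFe : Eqv F) {C₀ : ℝ} (hdev : ∀ (n : ℕ) (x : Fin d → ℝ), ‖vdisp F ρ n x‖ ≤ C₀)
    (hG : Subpoly F) (j : ℕ) {ε : ℝ} (hε : 0 < ε) :
    ∃ C : ℝ, 1 ≤ C ∧ ∀ n : ℕ, 1 ≤ n → ∀ x : Fin d → ℝ,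
      ‖iteratedFDeriv ℝ (j + 1) F^[n] x‖ ≤ C * (n : ℝ) ^ ε := by
  have hC₀ : 0 ≤ C₀ := (norm_nonneg _).trans (hdev 0 0)
  set δ : ℝ := ε / (j + 1) with hδ
  have hδ0 : 0 < δ := by positivity
  obtain ⟨s, hs, C, hC⟩ := hG δ hδ0 (j + 2)
  obtain ⟨r, rfl⟩ : ∃ r, s = r + 2 := ⟨s - 2, by omega⟩
  obtain ⟨CI, hCI, hI⟩ := interp (V := Fin d → ℝ) (W := Fin d → ℝ) (r + 2)
  have hC0 : 0 ≤ C := by
    have := hC 1 le_rfl 0
    rw [Nat.cast_one, Real.one_rpow, mul_one] at this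
    exact (norm_nonneg _).trans this
  refine ⟨CI * (C₀ + C) + 1, by nlinarith, fun n hn x => ?_⟩
  have hn' : (1 : ℝ) ≤ n := by exact_mod_cast hn
  have hn0 : (0 : ℝ) < n := by linarith
  have ht : 0 < (n : ℝ) ^ (-δ) := Real.rpow_pos_of_pos hn0 _
  have h1 := hI (vdisp F ρ n) (vdisp_contDiff hF ρ n)
    (fun i => (vdisp_per hFe ρ n).bounded_deriv (vdisp_contDiff hF ρ n) i) C₀
    (C * (n : ℝ) ^ (δ * ((r + 2 : ℕ) : ℝ))) ((n : ℝ) ^ (-δ)) ht (hdev n)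
    (fun x => by rw [norm_iter_vdisp_two hF]; exact hC n hn x) (j + 1) (by omega) x
  have e1 : ((n : ℝ) ^ (-δ)) ^ (r + 2) * (C * (n : ℝ) ^ (δ * ((r + 2 : ℕ) : ℝ))) = C := by
    rw [← Real.rpow_natCast, ← Real.rpow_mul hn0.le, mul_comm C, ← mul_assoc, ← Real.rpow_add hn0]
    have : -δ * ((r + 2 : ℕ) : ℝ) + δ * ((r + 2 : ℕ) : ℝ) = 0 := by ring
    rw [this, Real.rpow_zero, one_mul]
  rw [e1] at h1
  have e2 : ((n : ℝ) ^ (-δ)) ^ (j + 1) = ((n : ℝ) ^ ε)⁻¹ := by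
    rw [← Real.rpow_natCast, ← Real.rpow_mul hn0.le, ← Real.rpow_neg hn0.le]
    congr 1
    rw [hδ]
    push_cast
    field_simp
  rw [e2] at h1
  have hp : 0 < (n : ℝ) ^ ε := Real.rpow_pos_of_pos hn0 _
  rw [inv_mul_le_iff₀ hp] at h1
  have h2 := norm_iter_le_vdisp hF ρ n j x
  have h3 : (1 : ℝ) ≤ (n : ℝ) ^ ε := Real.one_le_rpow hn' hε.le
  calc ‖iteratedFDeriv ℝ (j + 1) F^[n] x‖ ≤ (n : ℝ) ^ ε * (CI * (C₀ + C)) + 1 := by linarith
    _ ≤ (CI * (C₀ + C) + 1) * (n : ℝ) ^ ε := by nlinarith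

/-! ### Cesàro means -/

/-- The Cesàro means of the iterates. -/
noncomputable def hm (F : (Fin d → ℝ) → (Fin d → ℝ)) (ρ : Fin d → ℝ) (n : ℕ) (x : Fin d → ℝ) :
    Fin d → ℝ := (1 / (n : ℝ)) • ∑ j ∈ Finset.range n, (F^[j] x - (j : ℝ) • ρ)

theorem hm_contDiff {F : (Fin d → ℝ) → (Fin d → ℝ)} (hF : ContDiff ℝ (⊤ : ℕ∞) F)
    (ρ : Fin d → ℝ) (n : ℕ) : ContDiff ℝ (⊤ : ℕ∞) (hm F ρ n) := by
  unfold hm
  exact (ContDiff.sum fun j _ => (contDiff_iterate hF j).sub contDiff_const).const_smul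
    (1 / (n : ℝ))

theorem hm_eqv {F : (Fin d → ℝ) → (Fin d → ℝ)} (hF : Eqv F) (ρ : Fin d → ℝ) {n : ℕ} (hn : 1 ≤ n) :
    Eqv (hm F ρ n) := by
  intro x k
  unfold hm
  have hn0 : (n : ℝ) ≠ 0 := by positivity
  have h1 : ∑ j ∈ Finset.range n, (F^[j] (x + zv k) - (j : ℝ) • ρ)
      = ∑ j ∈ Finset.range n, (F^[j] x - (j : ℝ) • ρ) + (n : ℝ) • zv k := by
    have : ∀ j, F^[j] (x + zv k) - (j : ℝ) • ρ = (F^[j] x - (j : ℝ) • ρ) + zv k := by
      intro j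
      rw [hF.iterate j]
      abel
    simp only [this]
    rw [Finset.sum_add_distrib, Finset.sum_const, Finset.card_range, Nat.cast_smul_eq_nsmul]
  rw [h1, smul_add, smul_smul, one_div_mul_cancel hn0, one_smul]

theorem hm_F (F : (Fin d → ℝ) → (Fin d → ℝ)) (ρ : Fin d → ℝ) {n : ℕ} (hn : 1 ≤ n)
    (x : Fin d → ℝ) : hm F ρ n (F x) - hm F ρ n x - ρ = (1 / (n : ℝ)) • vdisp F ρ n x := by
  unfold hm vdisp
  have hn0 : (n : ℝ) ≠ 0 := by positivity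
  have h1 : ∑ j ∈ Finset.range n, (F^[j] (F x) - (j : ℝ) • ρ)
      = ∑ j ∈ Finset.range n, (F^[j] x - (j : ℝ) • ρ) + (F^[n] x - x) := by
    have h2 := Finset.sum_range_sub (fun j => F^[j] x) n
    rw [Function.iterate_zero, id] at h2
    rw [← h2, ← Finset.sum_add_distrib]
    refine Finset.sum_congr rfl fun j _ => ?_
    rw [← Function.iterate_succ_apply]
    abel
  rw [h1, smul_add, smul_sub (1 / (n : ℝ)) (F^[n] x - x), smul_smul, one_div_mul_cancel hn0,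
    one_smul]
  abel

theorem hm_sub (F : (Fin d → ℝ) → (Fin d → ℝ)) (ρ : Fin d → ℝ) {n : ℕ} (hn : 1 ≤ n)
    {C₀ : ℝ} (hdev : ∀ (n : ℕ) (x : Fin d → ℝ), ‖vdisp F ρ n x‖ ≤ C₀) (x : Fin d → ℝ) :
    ‖hm F ρ n x - x‖ ≤ C₀ := by
  have hn0 : (n : ℝ) ≠ 0 := by positivity
  have h1 : hm F ρ n x - x = (1 / (n : ℝ)) • ∑ j ∈ Finset.range n, vdisp F ρ j x := by
    unfold hm vdisp
    have : ∑ j ∈ Finset.range n, (F^[j] x - x - (j : ℝ) • ρ)
        = ∑ j ∈ Finset.range n, (F^[j] x - (j : ℝ) • ρ) - (n : ℝ) • x := by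
      have h2 : ∀ j : ℕ, F^[j] x - x - (j : ℝ) • ρ = (F^[j] x - (j : ℝ) • ρ) - x := fun j => by abel
      simp only [h2]
      rw [Finset.sum_sub_distrib, Finset.sum_const, Finset.card_range, Nat.cast_smul_eq_nsmul]
    rw [this, smul_sub, smul_smul, one_div_mul_cancel hn0, one_smul]
  rw [h1, norm_smul, Real.norm_of_nonneg (by positivity)]
  calc 1 / (n : ℝ) * ‖∑ j ∈ Finset.range n, vdisp F ρ j x‖
      ≤ 1 / (n : ℝ) * ∑ _j ∈ Finset.range n, C₀ := by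
        gcongr
        exact (norm_sum_le _ _).trans (Finset.sum_le_sum fun j _ => hdev j x)
    _ = C₀ := by
        rw [Finset.sum_const, Finset.card_range, nsmul_eq_mul]
        field_simp

theorem hm_deriv {F : (Fin d → ℝ) → (Fin d → ℝ)} (hF : ContDiff ℝ (⊤ : ℕ∞) F) (ρ : Fin d → ℝ)
    {j : ℕ} {ε C : ℝ} (hε : 0 < ε) (hC : 1 ≤ C) (h : ∀ n : ℕ, 1 ≤ n → ∀ x : Fin d → ℝ,
      ‖iteratedFDeriv ℝ (j + 1) F^[n] x‖ ≤ C * (n : ℝ) ^ ε) {n : ℕ} (hn : 1 ≤ n)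
    (x : Fin d → ℝ) : ‖iteratedFDeriv ℝ (j + 1) (hm F ρ n) x‖ ≤ C * (n : ℝ) ^ ε := by
  have hn' : (1 : ℝ) ≤ n := by exact_mod_cast hn
  have hn0 : (0 : ℝ) < n := by linarith
  have hsm : ∀ i : ℕ, ContDiff ℝ ((j + 1 : ℕ) : WithTop ℕ∞) fun x => F^[i] x - (i : ℝ) • ρ :=
    fun i => ((contDiff_iterate hF i).sub contDiff_const).of_le (nat_le_top _)
  have e1 : iteratedFDeriv ℝ (j + 1) (hm F ρ n) x
      = (1 / (n : ℝ)) • ∑ i ∈ Finset.range n,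
        iteratedFDeriv ℝ (j + 1) (fun x => F^[i] x - (i : ℝ) • ρ) x := by
    have h1 : iteratedFDeriv ℝ (j + 1) (hm F ρ n) x = (1 / (n : ℝ)) • iteratedFDeriv ℝ (j + 1)
        (fun x => ∑ i ∈ Finset.range n, (F^[i] x - (i : ℝ) • ρ)) x :=
      iteratedFDeriv_const_smul_apply (𝕜 := ℝ) (i := j + 1) (a := 1 / (n : ℝ))
        (f := fun x => ∑ i ∈ Finset.range n, (F^[i] x - (i : ℝ) • ρ)) (x := x)
        (ContDiff.sum fun i _ => hsm i).contDiffAt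
    rw [h1, iteratedFDeriv_fun_sum_apply fun i _ => (hsm i).contDiffAt]
  have hb : ∀ i ∈ Finset.range n, ‖iteratedFDeriv ℝ (j + 1) (fun x => F^[i] x - (i : ℝ) • ρ) x‖
      ≤ C * (n : ℝ) ^ ε := by
    intro i hi
    rw [norm_iter_sub_const]
    have hin : i < n := Finset.mem_range.1 hi
    rcases Nat.eq_zero_or_pos i with rfl | hi0
    · have h2 : (1 : ℝ) ≤ (n : ℝ) ^ ε := Real.one_le_rpow hn' hε.le
      have h3 : ‖iteratedFDeriv ℝ (j + 1) F^[0] x‖ ≤ 1 := by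
        rw [← norm_iteratedFDeriv_fderiv, Function.iterate_zero]
        have : fderiv ℝ (id : (Fin d → ℝ) → (Fin d → ℝ))
            = fun _ => ContinuousLinearMap.id ℝ (Fin d → ℝ) := funext fun y => fderiv_id
        rw [this]
        cases j with
        | zero =>
          rw [norm_iteratedFDeriv_zero]
          exact ContinuousLinearMap.norm_id_le
        | succ j =>
          rw [iteratedFDeriv_const_of_ne (by omega)]
          simp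
      nlinarith
    · refine (h i hi0 x).trans ?_
      have : (i : ℝ) ^ ε ≤ (n : ℝ) ^ ε :=
        Real.rpow_le_rpow (by positivity) (by exact_mod_cast hin.le) hε.le
      gcongr
  rw [e1, norm_smul, Real.norm_of_nonneg (by positivity)]
  calc 1 / (n : ℝ) * ‖∑ i ∈ Finset.range n,
        iteratedFDeriv ℝ (j + 1) (fun x => F^[i] x - (i : ℝ) • ρ) x‖
      ≤ 1 / (n : ℝ) * ∑ _i ∈ Finset.range n, C * (n : ℝ) ^ ε := by
        gcongr
        exact (norm_sum_le _ _).trans (Finset.sum_le_sum hb)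
    _ = C * (n : ℝ) ^ ε := by
        rw [Finset.sum_const, Finset.card_range, nsmul_eq_mul]
        field_simp

end Run7.h575
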