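import Pool.Agent.Run7.h575.Lin

set_option autoImplicit false

/-!
Smooth linearization from slow growth of derivatives over a Diophantine translation: conclusion.
-/

open MeasureTheory Set Filter Topology

namespace Run7.h575

variable {d : ℕ}

theorem exists_A {B : ℝ} (hB : 1 ≤ B) (σ : ℕ) {n : ℝ} (hn : B ≤ n) :
    ∃ A : ℕ, 1 ≤ A ∧ B * (A : ℝ) ^ (σ + 1) ≤ n ∧
      1 / (2 * (A : ℝ)) ≤ (B / n) ^ (1 / ((σ : ℝ) + 1)) := by
  have hB0 : 0 < B := by linarith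
  have hn0 : 0 < n := by linarith
  set γ : ℝ := 1 / ((σ : ℝ) + 1) with hγ
  have hγ0 : 0 < γ := by positivity
  have hq : 1 ≤ n / B := by rwa [one_le_div hB0]
  have h1 : 1 ≤ (n / B) ^ γ := Real.one_le_rpow hq hγ0.le
  have hA1 : 1 ≤ ⌊(n / B) ^ γ⌋₊ := Nat.le_floor (by exact_mod_cast h1)
  refine ⟨⌊(n / B) ^ γ⌋₊, hA1, ?_, ?_⟩
  · have h2 : ((⌊(n / B) ^ γ⌋₊ : ℕ) : ℝ) ≤ (n / B) ^ γ := Nat.floor_le (by positivity)
    have h3 : ((⌊(n / B) ^ γ⌋₊ : ℕ) : ℝ) ^ (σ + 1) ≤ n / B := by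
      calc ((⌊(n / B) ^ γ⌋₊ : ℕ) : ℝ) ^ (σ + 1) ≤ ((n / B) ^ γ) ^ (σ + 1) := by gcongr
        _ = n / B := by
          rw [← Real.rpow_natCast, ← Real.rpow_mul (by positivity)]
          have : γ * ((σ + 1 : ℕ) : ℝ) = 1 := by
            rw [hγ]; push_cast; field_simp
          rw [this, Real.rpow_one]
    calc B * ((⌊(n / B) ^ γ⌋₊ : ℕ) : ℝ) ^ (σ + 1) ≤ B * (n / B) := by gcongr
      _ = n := by field_simp
  · have h4 : (n / B) ^ γ < (⌊(n / B) ^ γ⌋₊ : ℕ) + 1 := Nat.lt_floor_add_one _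
    have hA1' : (1 : ℝ) ≤ (⌊(n / B) ^ γ⌋₊ : ℕ) := by exact_mod_cast hA1
    have h5 : (B / n) ^ γ = 1 / (n / B) ^ γ := by
      rw [one_div, ← Real.inv_rpow (by positivity), inv_div]
    rw [h5]
    apply one_div_le_one_div_of_le (by positivity)
    linarith

/-- The difference of Cesàro means. -/
noncomputable def wn (F : (Fin d → ℝ) → (Fin d → ℝ)) (ρ : Fin d → ℝ) (n : ℕ) (x : Fin d → ℝ) :
    Fin d → ℝ := hm F ρ (2 * n) x - hm F ρ n x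

theorem wn_contDiff {F : (Fin d → ℝ) → (Fin d → ℝ)} (hF : ContDiff ℝ (⊤ : ℕ∞) F)
    (ρ : Fin d → ℝ) (n : ℕ) : ContDiff ℝ (⊤ : ℕ∞) (wn F ρ n) :=
  (hm_contDiff hF ρ (2 * n)).sub (hm_contDiff hF ρ n)

theorem wn_per {F : (Fin d → ℝ) → (Fin d → ℝ)} (hF : Eqv F) (ρ : Fin d → ℝ) {n : ℕ} (hn : 1 ≤ n) :
    IsPer (wn F ρ n) := by
  intro x k
  show wn F ρ n (x + zv k) = wn F ρ n x
  unfold wn
  rw [hm_eqv hF ρ hn, hm_eqv hF ρ (by omega : 1 ≤ 2 * n)]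
  abel

theorem lip_of_deriv {V W : Type*} [NormedAddCommGroup V] [NormedSpace ℝ V]
    [NormedAddCommGroup W] [NormedSpace ℝ W] {f : V → W} (hf : ContDiff ℝ (⊤ : ℕ∞) f) {K : ℝ}
    (h : ∀ x, ‖iteratedFDeriv ℝ 1 f x‖ ≤ K) (x y : V) : ‖f x - f y‖ ≤ K * ‖x - y‖ := by
  refine Convex.norm_image_sub_le_of_norm_fderiv_le (𝕜 := ℝ) (s := univ)
    (fun u _ => (hf.differentiable (by simp)) u) (fun u _ => ?_) convex_univ (mem_univ _) (mem_univ _)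
  have := h u
  rwa [norm_iteratedFDeriv_one] at this

theorem wn_deriv {F : (Fin d → ℝ) → (Fin d → ℝ)} (hF : ContDiff ℝ (⊤ : ℕ∞) F) (ρ : Fin d → ℝ)
    {j : ℕ} {ε C : ℝ} (hε : 0 < ε) (hC : 1 ≤ C) (h : ∀ n : ℕ, 1 ≤ n → ∀ x : Fin d → ℝ,
      ‖iteratedFDeriv ℝ (j + 1) F^[n] x‖ ≤ C * (n : ℝ) ^ ε) {n : ℕ} (hn : 1 ≤ n)
    (x : Fin d → ℝ) :
    ‖iteratedFDeriv ℝ (j + 1) (wn F ρ n) x‖ ≤ 2 * C * (2 * (n : ℝ)) ^ ε := by
  have h1 : ContDiffAt ℝ ((j + 1 : ℕ) : WithTop ℕ∞) (hm F ρ (2 * n)) x :=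
    ((hm_contDiff hF ρ (2 * n)).of_le (nat_le_top _)).contDiffAt
  have h2 : ContDiffAt ℝ ((j + 1 : ℕ) : WithTop ℕ∞) (hm F ρ n) x :=
    ((hm_contDiff hF ρ n).of_le (nat_le_top _)).contDiffAt
  have h3 : iteratedFDeriv ℝ (j + 1) (wn F ρ n) x
      = iteratedFDeriv ℝ (j + 1) (hm F ρ (2 * n)) x - iteratedFDeriv ℝ (j + 1) (hm F ρ n) x :=
    iteratedFDeriv_sub_apply (𝕜 := ℝ) h1 h2
  have h4 := hm_deriv hF ρ hε hC h (by omega : 1 ≤ 2 * n) x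
  have h5 := hm_deriv hF ρ hε hC h hn x
  rw [h3]
  refine (norm_sub_le _ _).trans ?_
  have h6 : (n : ℝ) ^ ε ≤ (2 * (n : ℝ)) ^ ε :=
    Real.rpow_le_rpow (by positivity) (by have : (0 : ℝ) ≤ n := by positivity
                                          linarith) hε.le
  push_cast at h4
  have h7 : C * (n : ℝ) ^ ε ≤ C * (2 * (n : ℝ)) ^ ε := by gcongr
  linarith

theorem osc_wn {F : (Fin d → ℝ) → (Fin d → ℝ)} {ρ : Fin d → ℝ} (hF : ContDiff ℝ (⊤ : ℕ∞) F)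
    (hFe : Eqv F) {C₀ : ℝ} (hdev : ∀ (n : ℕ) (x : Fin d → ℝ), ‖vdisp F ρ n x‖ ≤ C₀)
    (hG : Subpoly F) (hρ : Dioph ρ) : ∃ κ : ℝ, 0 < κ ∧ ∃ C : ℝ, 0 ≤ C ∧ ∀ n : ℕ, 1 ≤ n →
      ∀ x, ‖wn F ρ n x - wn F ρ n 0‖ ≤ C * (n : ℝ) ^ (-κ) := by
  have hC₀ : 0 ≤ C₀ := (norm_nonneg _).trans (hdev 0 0)
  obtain ⟨Ce, hCe, σ, hden⟩ := eff_dense hρ
  set γ : ℝ := 1 / ((σ : ℝ) + 1) with hγ
  have hγ0 : 0 < γ := by positivity
  set ε : ℝ := γ / (2 * ((d : ℝ) + 1)) with hε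
  have hε0 : 0 < ε := by positivity
  have hεd : ε * d ≤ γ / 2 := by
    rw [hε, div_mul_eq_mul_div, div_le_div_iff₀ (by positivity) (by positivity)]
    nlinarith
  obtain ⟨C1, hC1, hb⟩ := subpoly_all hF hFe hdev hG 0 hε0
  set B : ℝ := 32 * Ce * C₀ + 1 with hB
  have hB1 : 1 ≤ B := by rw [hB]; have : 0 ≤ 32 * Ce * C₀ := by positivity
                         linarith
  have hB0 : 0 < B := by linarith
  set κ : ℝ := γ / 2 with hκ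
  have hκ0 : 0 < κ := by positivity
  refine ⟨κ, hκ0, (8 * C1) ^ d * 2 ^ κ * B ^ γ + 4 * C₀ * B ^ κ, by positivity,
    fun n hn x => ?_⟩
  have hn' : (1 : ℝ) ≤ n := by exact_mod_cast hn
  have hn0 : (0 : ℝ) < n := by linarith
  have hnκ : 0 < (n : ℝ) ^ (-κ) := Real.rpow_pos_of_pos hn0 _
  rcases lt_or_ge (n : ℝ) B with hlt | hge
  · -- small times
    have h1 : ∀ y, ‖wn F ρ n y‖ ≤ 2 * C₀ := by
      intro y
      have h2 := hm_sub F ρ (by omega : 1 ≤ 2 * n) hdev y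
      have h3 := hm_sub F ρ hn hdev y
      have e : wn F ρ n y = (hm F ρ (2 * n) y - y) - (hm F ρ n y - y) := by
        unfold wn; abel
      rw [e]
      refine (norm_sub_le _ _).trans ?_
      linarith
    have h2 : ‖wn F ρ n x - wn F ρ n 0‖ ≤ 4 * C₀ := by
      refine (norm_sub_le _ _).trans ?_
      have := h1 x
      have := h1 0
      linarith
    have h3 : 1 ≤ B ^ κ * (n : ℝ) ^ (-κ) := by
      rw [Real.rpow_neg hn0.le, ← div_eq_mul_inv, one_le_div (Real.rpow_pos_of_pos hn0 _)]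
      exact Real.rpow_le_rpow hn0.le hlt.le hκ0.le
    have h4 : 0 ≤ (8 * C1) ^ d * 2 ^ κ * B ^ γ * (n : ℝ) ^ (-κ) := by positivity
    calc ‖wn F ρ n x - wn F ρ n 0‖ ≤ 4 * C₀ := h2
      _ = 4 * C₀ * 1 := by ring
      _ ≤ 4 * C₀ * (B ^ κ * (n : ℝ) ^ (-κ)) := by gcongr
      _ ≤ _ := by linarith
  · obtain ⟨A, hA1, hA2, hA3⟩ := exists_A hB1 σ hge
    have hA1' : (1 : ℝ) ≤ A := by exact_mod_cast hA1
    set K : ℝ := 2 * C1 * (2 * (n : ℝ)) ^ ε with hK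
    have h2n : (1 : ℝ) ≤ (2 * (n : ℝ)) ^ ε := Real.one_le_rpow (by linarith) hε0.le
    have hK1 : 1 ≤ K := by rw [hK]; nlinarith
    have hnε : (n : ℝ) ^ ε ≤ (2 * (n : ℝ)) ^ ε :=
      Real.rpow_le_rpow hn0.le (by linarith) hε0.le
    have Lh : ∀ x y, ‖hm F ρ n x - hm F ρ n y‖ ≤ K * ‖x - y‖ := by
      refine lip_of_deriv (hm_contDiff hF ρ n) fun x => ?_
      refine (hm_deriv (j := 0) hF ρ hε0 hC1 hb hn x).trans ?_
      rw [hK]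
      have : 0 ≤ C1 * (2 * (n : ℝ)) ^ ε := by positivity
      nlinarith
    have Lw : ∀ x y, ‖wn F ρ n x - wn F ρ n y‖ ≤ K * ‖x - y‖ :=
      lip_of_deriv (wn_contDiff hF ρ n) fun x => wn_deriv (j := 0) hF ρ hε0 hC1 hb hn x
    have Eh : ∀ m : ℕ, 1 ≤ m → ∀ x, ‖hm F ρ m (F x) - hm F ρ m x - ρ‖ ≤ C₀ / m := by
      intro m hm' x
      have : (0 : ℝ) < m := by exact_mod_cast hm'
      rw [hm_F F ρ hm', norm_smul, Real.norm_of_nonneg (by positivity)]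
      calc 1 / (m : ℝ) * ‖vdisp F ρ m x‖ ≤ 1 / (m : ℝ) * C₀ := by gcongr; exact hdev m x
        _ = C₀ / m := by ring
    have hη : C₀ / n ≤ 2 * C₀ / n := by gcongr; linarith
    have Ew : ∀ x, ‖wn F ρ n (F x) - wn F ρ n x‖ ≤ 2 * C₀ / n := by
      intro x
      have e : wn F ρ n (F x) - wn F ρ n x = (hm F ρ (2 * n) (F x) - hm F ρ (2 * n) x - ρ)
          - (hm F ρ n (F x) - hm F ρ n x - ρ) := by unfold wn; abel
      rw [e]
      refine (norm_sub_le _ _).trans ?_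
      have h1 := Eh (2 * n) (by omega) x
      have h2 := Eh n hn x
      push_cast at h1
      have h3 : C₀ / (2 * (n : ℝ)) ≤ C₀ / n := by
        gcongr
        linarith
      have h4 : 2 * C₀ / (n : ℝ) = C₀ / n + C₀ / n := by ring
      linarith
    have hN : ∀ b : Fin d → ℝ, ∃ j : ℕ, (j : ℝ) * (2 * C₀ / n) ≤ 1 / (16 * A) ∧
        ∃ p : Fin d → ℤ, ‖(j : ℝ) • ρ - b - fun i => (p i : ℝ)‖ ≤ 1 / (4 * A) := by
      intro b
      obtain ⟨j, hj, hp⟩ := hden A hA1 b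
      refine ⟨j, ?_, hp⟩
      rw [mul_div_assoc', div_le_div_iff₀ hn0 (by positivity), one_mul]
      calc (j : ℝ) * (2 * C₀) * (16 * A) ≤ (Ce * (A : ℝ) ^ σ) * (2 * C₀) * (16 * A) := by gcongr
        _ = (32 * Ce * C₀) * (A : ℝ) ^ (σ + 1) := by rw [pow_succ]; ring
        _ ≤ B * (A : ℝ) ^ (σ + 1) := by
          gcongr
          rw [hB]; linarith
        _ ≤ n := hA2
    have key : ∀ i : Fin d, ∀ x x' : Fin d → ℝ, wn F ρ n x' i - wn F ρ n x i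
        ≤ (4 * K) ^ d / (2 * A) := by
      intro i x x'
      exact osc_bound (F := F) (h := hm F ρ n) (v := fun x => wn F ρ n x i) (ρ := ρ)
        (hm_eqv hFe ρ hn) ((wn_per hFe ρ hn).comp fun w => w i)
        ((continuous_apply i).comp (wn_contDiff hF ρ n).continuous) hK1 Lh
        (fun x y => (norm_le_pi_norm (wn F ρ n x - wn F ρ n y) i).trans (Lw x y))
        (fun x => (Eh n hn x).trans hη)
        (fun x => (norm_le_pi_norm (wn F ρ n (F x) - wn F ρ n x) i).trans (Ew x)) hA1 hN x x'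
    have h1 : ‖wn F ρ n x - wn F ρ n 0‖ ≤ (4 * K) ^ d / (2 * A) := by
      refine (pi_norm_le_iff_of_nonneg (by positivity)).2 fun i => ?_
      rw [Real.norm_eq_abs, Pi.sub_apply, abs_le]
      have h2 := key i x 0
      have h3 := key i 0 x
      constructor <;> linarith
    refine h1.trans ?_
    have h2 : (4 * K) ^ d = (8 * C1) ^ d * ((2 * (n : ℝ)) ^ ε) ^ d := by
      rw [← mul_pow, hK]; ring
    have h3 : ((2 * (n : ℝ)) ^ ε) ^ d ≤ 2 ^ κ * (n : ℝ) ^ κ := by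
      rw [← Real.rpow_natCast, ← Real.rpow_mul (by positivity), ← Real.mul_rpow (by norm_num) hn0.le]
      exact Real.rpow_le_rpow_of_exponent_le (by linarith) hεd
    have h4 : (B / n) ^ γ = B ^ γ * (n : ℝ) ^ (-γ) := by
      rw [Real.div_rpow hB0.le hn0.le, Real.rpow_neg hn0.le, div_eq_mul_inv]
    have h5 : (n : ℝ) ^ κ * (n : ℝ) ^ (-γ) = (n : ℝ) ^ (-κ) := by
      rw [← Real.rpow_add hn0]
      congr 1
      rw [hκ]; ring
    calc (4 * K) ^ d / (2 * A) = (8 * C1) ^ d * ((2 * (n : ℝ)) ^ ε) ^ d * (1 / (2 * A)) := by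
          rw [h2]; ring
      _ ≤ (8 * C1) ^ d * (2 ^ κ * (n : ℝ) ^ κ) * (B ^ γ * (n : ℝ) ^ (-γ)) := by
          rw [← h4]
          gcongr
      _ = (8 * C1) ^ d * 2 ^ κ * B ^ γ * ((n : ℝ) ^ κ * (n : ℝ) ^ (-γ)) := by ring
      _ = (8 * C1) ^ d * 2 ^ κ * B ^ γ * (n : ℝ) ^ (-κ) := by rw [h5]
      _ ≤ _ := by
        have : 0 ≤ 4 * C₀ * B ^ κ * (n : ℝ) ^ (-κ) := by positivity
        linarith

theorem deriv_wn {F : (Fin d → ℝ) → (Fin d → ℝ)} {ρ : Fin d → ℝ} (hF : ContDiff ℝ (⊤ : ℕ∞) F)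
    (hFe : Eqv F) {C₀ : ℝ} (hdev : ∀ (n : ℕ) (x : Fin d → ℝ), ‖vdisp F ρ n x‖ ≤ C₀)
    (hG : Subpoly F) (hρ : Dioph ρ) : ∃ μ : ℝ, 0 < μ ∧ ∀ j : ℕ, ∃ C : ℝ, ∀ n : ℕ, 1 ≤ n →
      ∀ x, ‖iteratedFDeriv ℝ j (fun x => wn F ρ n x - wn F ρ n 0) x‖ ≤ C * (n : ℝ) ^ (-μ) := by
  obtain ⟨κ, hκ, C, hC0, hC⟩ := osc_wn hF hFe hdev hG hρ
  refine ⟨κ / 4, by positivity, fun j => ?_⟩
  have hκ4 : 0 < κ / 4 := by positivity
  obtain ⟨C', hC'1, hC'⟩ := subpoly_all hF hFe hdev hG (2 * j + 1) hκ4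
  obtain ⟨CI, hCI, hI⟩ := interp (V := Fin d → ℝ) (W := Fin d → ℝ) (2 * j + 2)
  set θ : ℝ := κ / (2 * ((j : ℝ) + 1)) with hθ
  have hθ0 : 0 < θ := by positivity
  refine ⟨CI * (C + 2 * C' * 2 ^ (κ / 4)), fun n hn x => ?_⟩
  have hn' : (1 : ℝ) ≤ n := by exact_mod_cast hn
  have hn0 : (0 : ℝ) < n := by linarith
  have hsm : ContDiff ℝ (⊤ : ℕ∞) fun x => wn F ρ n x - wn F ρ n 0 :=
    (wn_contDiff hF ρ n).sub contDiff_const
  have hper : IsPer fun x => wn F ρ n x - wn F ρ n 0 := (wn_per hFe ρ hn).comp fun w => w - wn F ρ n 0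
  have h1 := hI _ hsm (fun i => hper.bounded_deriv hsm i) (C * (n : ℝ) ^ (-κ))
    (2 * C' * (2 * (n : ℝ)) ^ (κ / 4)) ((n : ℝ) ^ (-θ)) (Real.rpow_pos_of_pos hn0 _)
    (hC n hn) (fun x => by
      rw [norm_iter_sub_const]
      exact wn_deriv (j := 2 * j + 1) hF ρ hκ4 hC'1 hC' hn x) j (by omega) x
  have hpow : ∀ r : ℕ, ((n : ℝ) ^ (-θ)) ^ r = (n : ℝ) ^ (-(θ * r)) := by
    intro r
    rw [← Real.rpow_natCast, ← Real.rpow_mul hn0.le]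
    congr 1
    ring
  rw [hpow, hpow] at h1
  have hpj : 0 < (n : ℝ) ^ (θ * j) := Real.rpow_pos_of_pos hn0 _
  rw [Real.rpow_neg hn0.le, inv_mul_le_iff₀ hpj] at h1
  refine h1.trans ?_
  have e1 : (n : ℝ) ^ (θ * j) * (n : ℝ) ^ (-κ) ≤ (n : ℝ) ^ (-(κ / 4)) := by
    rw [← Real.rpow_add hn0]
    apply Real.rpow_le_rpow_of_exponent_le hn'
    have : θ * j ≤ κ / 2 := by
      rw [hθ, div_mul_eq_mul_div, div_le_div_iff₀ (by positivity) (by positivity)]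
      nlinarith
    linarith
  have e2 : (n : ℝ) ^ (θ * j) * ((n : ℝ) ^ (-(θ * ((2 * j + 2 : ℕ) : ℝ))) * (n : ℝ) ^ (κ / 4))
      ≤ (n : ℝ) ^ (-(κ / 4)) := by
    rw [← Real.rpow_add hn0, ← Real.rpow_add hn0]
    apply Real.rpow_le_rpow_of_exponent_le hn'
    push_cast
    have : κ / 2 ≤ θ * (j + 2) := by
      rw [hθ, div_mul_eq_mul_div, div_le_div_iff₀ (by positivity) (by positivity)]
      nlinarith
    nlinarith
  have e3 : (2 * (n : ℝ)) ^ (κ / 4) = 2 ^ (κ / 4) * (n : ℝ) ^ (κ / 4) :=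
    Real.mul_rpow (by norm_num) hn0.le
  rw [e3]
  have hC'0 : 0 ≤ C' := by linarith
  have hCI0 : 0 ≤ CI := by linarith
  calc (n : ℝ) ^ (θ * j) * (CI * (C * (n : ℝ) ^ (-κ) + (n : ℝ) ^ (-(θ * ((2 * j + 2 : ℕ) : ℝ)))
        * (2 * C' * (2 ^ (κ / 4) * (n : ℝ) ^ (κ / 4)))))
      = CI * (C * ((n : ℝ) ^ (θ * j) * (n : ℝ) ^ (-κ)) + (2 * C' * 2 ^ (κ / 4)) *
        ((n : ℝ) ^ (θ * j) * ((n : ℝ) ^ (-(θ * ((2 * j + 2 : ℕ) : ℝ))) * (n : ℝ) ^ (κ / 4)))) := by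
        ring
    _ ≤ CI * (C * (n : ℝ) ^ (-(κ / 4)) + (2 * C' * 2 ^ (κ / 4)) * (n : ℝ) ^ (-(κ / 4))) := by
        gcongr
    _ = _ := by ring

/-- Linearization. -/
theorem linearize {F : (Fin d → ℝ) → (Fin d → ℝ)} {ρ : Fin d → ℝ} (hF : ContDiff ℝ (⊤ : ℕ∞) F)
    (hFe : Eqv F) {C₀ : ℝ} (hdev : ∀ (n : ℕ) (x : Fin d → ℝ), ‖vdisp F ρ n x‖ ≤ C₀)
    (hG : Subpoly F) (hρ : Dioph ρ) : ∃ H : (Fin d → ℝ) → (Fin d → ℝ),
      ContDiff ℝ (⊤ : ℕ∞) H ∧ Eqv H ∧ ∀ x, H (F x) = H x + ρ := by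
  obtain ⟨μ, hμ, hC⟩ := deriv_wn hF hFe hdev hG hρ
  choose C hC using hC
  set W : ℕ → (Fin d → ℝ) → (Fin d → ℝ) := fun l x => wn F ρ (2 ^ l) x - wn F ρ (2 ^ l) 0 with hW
  have hWs : ∀ l, ContDiff ℝ (⊤ : ℕ∞) (W l) := fun l => (wn_contDiff hF ρ _).sub contDiff_const
  have h2l : ∀ l : ℕ, 1 ≤ 2 ^ l := fun l => Nat.one_le_two_pow
  have hWp : ∀ l, IsPer (W l) := fun l => (wn_per hFe ρ (h2l l)).comp fun w => w - wn F ρ (2 ^ l) 0
  set r : ℝ := 2 ^ (-μ) with hr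
  have hr0 : 0 < r := Real.rpow_pos_of_pos (by norm_num) _
  have hr1 : r < 1 := Real.rpow_lt_one_of_one_lt_of_neg (by norm_num) (by linarith)
  have hb : ∀ j l x, ‖iteratedFDeriv ℝ j (W l) x‖ ≤ C j * r ^ l := by
    intro j l x
    have h1 := hC j (2 ^ l) (h2l l) x
    have h2 : (((2 ^ l : ℕ) : ℝ)) ^ (-μ) = r ^ l := by
      rw [hr]
      push_cast
      rw [← Real.rpow_natCast, ← Real.rpow_mul (by norm_num), ← Real.rpow_natCast,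
        ← Real.rpow_mul (by norm_num), mul_comm]
    rwa [h2] at h1
  have hs : ∀ j, Summable fun l => C j * r ^ l := fun j =>
    (summable_geometric_of_lt_one hr0.le hr1).mul_left _
  have hsum : ∀ x, Summable fun l => W l x := by
    intro x
    refine Summable.of_norm_bounded (g := fun l => C 0 * r ^ l) (hs 0) fun l => ?_
    have := hb 0 l x
    rwa [norm_iteratedFDeriv_zero] at this
  set H : (Fin d → ℝ) → (Fin d → ℝ) := fun x => x + ∑' l, W l x with hH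
  have hHs : ContDiff ℝ (⊤ : ℕ∞) H := by
    refine contDiff_id.add ?_
    exact contDiff_tsum (N := ⊤) hWs (fun j _ => hs j) (fun j l x _ => hb j l x)
  have hHe : Eqv H := by
    intro x k
    show x + zv k + ∑' l, W l (x + zv k) = x + ∑' l, W l x + zv k
    have : ∀ l, W l (x + zv k) = W l x := fun l => (hWp l).zv x k
    simp only [this]
    abel
  refine ⟨H, hHs, hHe, fun x => ?_⟩
  have hm1 : ∀ x, hm F ρ 1 x = x := by
    intro x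
    simp [hm]
  have htel : ∀ L x, x + ∑ l ∈ Finset.range L, W l x = hm F ρ (2 ^ L) x - hm F ρ (2 ^ L) 0 := by
    intro L x
    induction L with
    | zero => simp [hm1]
    | succ L ih =>
      rw [Finset.sum_range_succ, ← add_assoc, ih, hW]
      simp only [wn]
      have : 2 * 2 ^ L = 2 ^ (L + 1) := by ring
      rw [this]
      abel
  have hlim : ∀ x, Tendsto (fun L => hm F ρ (2 ^ L) x - hm F ρ (2 ^ L) 0) atTop (𝓝 (H x)) := by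
    intro x
    have h1 := ((hsum x).hasSum.tendsto_sum_nat).const_add x
    refine h1.congr fun L => ?_
    exact htel L x
  have h1 := ((hlim (F x)).sub (hlim x)).sub (tendsto_const_nhds (x := ρ))
  have h2 : Tendsto (fun L : ℕ => (hm F ρ (2 ^ L) (F x) - hm F ρ (2 ^ L) 0)
      - (hm F ρ (2 ^ L) x - hm F ρ (2 ^ L) 0) - ρ) atTop (𝓝 0) := by
    have h3 : ∀ L : ℕ, ‖(hm F ρ (2 ^ L) (F x) - hm F ρ (2 ^ L) 0)
        - (hm F ρ (2 ^ L) x - hm F ρ (2 ^ L) 0) - ρ‖ ≤ C₀ * (1 / 2) ^ L := by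
      intro L
      have e : (hm F ρ (2 ^ L) (F x) - hm F ρ (2 ^ L) 0)
          - (hm F ρ (2 ^ L) x - hm F ρ (2 ^ L) 0) - ρ
          = hm F ρ (2 ^ L) (F x) - hm F ρ (2 ^ L) x - ρ := by abel
      rw [e, hm_F F ρ (h2l L), norm_smul, Real.norm_of_nonneg (by positivity)]
      have h4 := hdev (2 ^ L) x
      have h5 : 1 / ((2 ^ L : ℕ) : ℝ) = (1 / 2) ^ L := by push_cast; rw [one_div_pow]
      rw [h5, mul_comm]
      gcongr
    refine squeeze_zero_norm h3 ?_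
    have := (tendsto_pow_atTop_nhds_zero_of_lt_one (r := (1 / 2 : ℝ)) (by norm_num)
      (by norm_num)).const_mul C₀
    simpa using this
  have h3 := tendsto_nhds_unique h1 h2
  have h4 : H (F x) - H x = ρ := sub_eq_zero.1 h3
  rw [← h4]
  abel

end Run7.h575
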