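import Pool.Agent.Run7.h60.AAGlue

/-!
# Maps which are steady at a scale: the derivative of the mollification

A finite difference of the mollification over a distance which is small compared with the radius of
the mollification controls its derivative.
-/

set_option autoImplicit false

open Set Filter Topology Metric Function MeasureTheory
open scoped Manifold ContDiff

noncomputable section

namespace Run7.h575.MS

open Pool.Agent.Y522 Pool.Agent.Y954.SH Run7.h60.Sc

variable {n : ℕ}

lemma exists_taylor (n : ℕ) : ∃ k : ℝ, 0 ≤ k ∧ ∀ s x : E n,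
    |kr n (s - x) - kr n s + fderiv ℝ (kr n) s x| ≤ k * ‖x‖ ^ 2 := by
  have hs : ContDiff ℝ 1 (fderiv ℝ (kr n)) :=
    (kr_smooth.fderiv_right (m := ∞) (by simp)).of_le (by simp)
  obtain ⟨C, hC⟩ := hs.lipschitzWith_of_hasCompactSupport dkr_compact (by simp)
  refine ⟨C, C.2, fun s x => ?_⟩
  have hseg := (convex_segment s (s - x)).norm_image_sub_le_of_norm_hasFDerivWithin_le'
    (f := kr n) (f' := fderiv ℝ (kr n)) (φ := fderiv ℝ (kr n) s) (C := C * ‖x‖)
    (x := s) (y := s - x)
    (fun y _ => ((kr_smooth.differentiable (by simp)) y).hasFDerivAt.hasFDerivWithinAt)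
    (fun y hy => by
      have h1 := hC.dist_le_mul y s
      rw [dist_eq_norm, dist_eq_norm] at h1
      refine h1.trans ?_
      have h2 : ‖y - s‖ ≤ ‖x‖ := by
        obtain ⟨a, b, ha, hb, hab, rfl⟩ := hy
        have e1 : a • s + b • (s - x) - s = - (b • x) := by
          have e2 : a = 1 - b := by linarith
          rw [e2]
          module
        rw [e1, norm_neg, norm_smul, Real.norm_of_nonneg hb]
        calc b * ‖x‖ ≤ 1 * ‖x‖ := by
              gcongr
              linarith
          _ = ‖x‖ := one_mul _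
      gcongr) (left_mem_segment _ _ _) (right_mem_segment _ _ _)
  have e1 : kr n (s - x) - kr n s - fderiv ℝ (kr n) s (s - x - s) =
      kr n (s - x) - kr n s + fderiv ℝ (kr n) s x := by
    have : s - x - s = - x := by abel
    rw [this, map_neg, sub_neg_eq_add]
  have e2 : ‖s - x - s‖ = ‖x‖ := by
    have : s - x - s = - x := by abel
    rw [this, norm_neg]
  rw [e1, e2, Real.norm_eq_abs] at hseg
  refine hseg.trans (le_of_eq ?_)
  ring

/-- the constant -/
def k2 (n : ℕ) : ℝ := (exists_taylor n).choose * (volume (closedBall (0 : E n) 2)).toReal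

lemma k2_nonneg : 0 ≤ k2 n := mul_nonneg (exists_taylor n).choose_spec.1 ENNReal.toReal_nonneg

lemma cont_scaled {g : E n → E n} {ε : ℝ} (hε : 0 < ε) {w : E n}
    (hg : ContinuousOn g (closedBall w (2 * ε))) :
    ContinuousOn (fun s : E n => g (w + ε • s)) (closedBall 0 2) := by
  apply hg.comp (by fun_prop)
  intro s hs
  rw [mem_closedBall_zero_iff] at hs
  rw [mem_closedBall, dist_eq_norm, add_sub_cancel_left, norm_smul, Real.norm_of_nonneg hε.le]
  nlinarith

lemma integrable_dkr {g : E n → E n} {ε : ℝ} (hε : 0 < ε) {w : E n}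
    (hg : ContinuousOn g (closedBall w (2 * ε))) (v : E n) :
    Integrable (fun s : E n => (fderiv ℝ (kr n) s v) • g (w + ε • s)) := by
  have e1 : (fun s : E n => (fderiv ℝ (kr n) s v) • g (w + ε • s)) =
      (closedBall (0 : E n) 2).indicator (fun s => (fderiv ℝ (kr n) s v) • g (w + ε • s)) := by
    funext s
    by_cases hs : s ∈ closedBall (0 : E n) 2
    · rw [indicator_of_mem hs]
    · rw [indicator_of_notMem hs]
      rw [mem_closedBall_zero_iff, not_le] at hs
      rw [dkr_zero (by linarith)]
      simp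
  rw [e1, integrable_indicator_iff measurableSet_closedBall]
  apply ContinuousOn.integrableOn_compact (isCompact_closedBall _ _)
  exact ((dkr_cont.clm_apply continuous_const).continuousOn).smul (cont_scaled hε hg)

lemma mo_deriv0 {g : E n → E n} {ε : ℝ} (hε : 0 < ε) {w : E n}
    (hg : ContinuousOn g (closedBall w (2 * ε))) (v : E n) :
    fderiv ℝ (mo g ε) w v =
      - (ε⁻¹ • ∫ s, (fderiv ℝ (kr n) s v) • (g (w + ε • s) - g w)) := by
  have i1 := integrable_dkr hε hg v
  have i2 : Integrable (fun s : E n => (fderiv ℝ (kr n) s v) • g w) := by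
    apply Continuous.integrable_of_hasCompactSupport
    · exact (dkr_cont.clm_apply continuous_const).smul continuous_const
    · apply HasCompactSupport.intro (isCompact_closedBall (0 : E n) 1)
      intro s hs
      rw [mem_closedBall_zero_iff, not_le] at hs
      rw [dkr_zero hs, _root_.zero_apply, zero_smul]
  have h2 := dkr_moment v (g w) (0 : E n →L[ℝ] E n) hε
  simp only [_root_.zero_apply, add_zero, smul_zero, neg_zero] at h2
  simp only [smul_sub]
  rw [integral_sub i1 i2, h2, sub_zero, mo_deriv hε hg]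

/-- the norm of the derivative of the mollification -/
lemma mo_deriv_norm {g : E n → E n} {ε o : ℝ} (hε : 0 < ε) {w : E n}
    (hg : ContinuousOn g (closedBall w (2 * ε)))
    (ho : ∀ s : E n, ‖s‖ ≤ 1 → ‖g (w + ε • s) - g w‖ ≤ o) :
    ‖fderiv ℝ (mo g ε) w‖ * ε ≤ kc n * o := by
  have ho0 : 0 ≤ o := (norm_nonneg _).trans (ho 0 (by simp))
  rw [← le_div_iff₀ hε]
  apply ContinuousLinearMap.opNorm_le_bound _ (div_nonneg (mul_nonneg kc_nonneg ho0) hε.le)
  intro v
  rw [mo_deriv0 hε hg, norm_neg, norm_smul, norm_inv, Real.norm_of_nonneg hε.le]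
  have h6 : ‖∫ s, (fderiv ℝ (kr n) s v) • (g (w + ε • s) - g w)‖ ≤
      ∫ s, ‖fderiv ℝ (kr n) s‖ * (‖v‖ * o) := by
    apply norm_integral_le_of_norm_le (dkr_integrable.norm.mul_const _)
    apply Eventually.of_forall
    intro s
    rw [norm_smul]
    by_cases hs : ‖s‖ ≤ 1
    · calc ‖fderiv ℝ (kr n) s v‖ * ‖g (w + ε • s) - g w‖
          ≤ (‖fderiv ℝ (kr n) s‖ * ‖v‖) * o :=
            mul_le_mul (ContinuousLinearMap.le_opNorm _ _) (ho s hs) (norm_nonneg _)
              (by positivity)
        _ = _ := by ring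
    · rw [dkr_zero (not_le.1 hs)]
      simp
  rw [integral_mul_const] at h6
  change ‖_‖ ≤ kc n * (‖v‖ * o) at h6
  calc ε⁻¹ * ‖∫ s, (fderiv ℝ (kr n) s v) • (g (w + ε • s) - g w)‖
      ≤ ε⁻¹ * (kc n * (‖v‖ * o)) := by gcongr
    _ = kc n * o / ε * ‖v‖ := by field_simp

/-- functionals of the values of the mollification -/
lemma mo_val {g : E n → E n} {ε o : ℝ} (hε : 0 < ε) {w : E n} (l : E n →L[ℝ] ℝ)
    (hg : ContinuousOn g (closedBall w (2 * ε)))
    (ho : ∀ s : E n, ‖s‖ ≤ 1 → |l (g (w + ε • s) - g w)| ≤ o) :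
    |l (mo g ε w - g w)| ≤ o := by
  have i1 : Integrable (fun s : E n => kr n s • g (w + ε • s)) := by
    have e1 : (fun s : E n => kr n s • g (w + ε • s)) =
        (closedBall (0 : E n) 2).indicator (fun s => kr n s • g (w + ε • s)) := by
      funext s
      by_cases hs : s ∈ closedBall (0 : E n) 2
      · rw [indicator_of_mem hs]
      · rw [indicator_of_notMem hs]
        rw [mem_closedBall_zero_iff, not_le] at hs
        rw [kr_zero (by linarith)]
        simp
    rw [e1, integrable_indicator_iff measurableSet_closedBall]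
    apply ContinuousOn.integrableOn_compact (isCompact_closedBall _ _)
    exact (kr_smooth.continuous.continuousOn).smul (cont_scaled hε hg)
  have i2 : Integrable (fun s : E n => kr n s • g w) := kr_integrable.smul_const _
  have h1 : mo g ε w - g w = ∫ s, kr n s • (g (w + ε • s) - g w) := by
    simp only [smul_sub]
    rw [integral_sub i1 i2, integral_smul_const, kr_int, one_smul]
    rfl
  have h2 : l (mo g ε w - g w) = ∫ s, kr n s * l (g (w + ε • s) - g w) := by
    rw [h1]
    have e2 := l.integral_comp_comm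
      (φ := fun s => kr n s • (g (w + ε • s) - g w)) (by
        simp only [smul_sub]
        exact i1.sub i2)
    rw [← e2]
    congr 1
    funext s
    rw [map_smul, smul_eq_mul]
  rw [h2, ← Real.norm_eq_abs]
  have h3 : ‖∫ s, kr n s * l (g (w + ε • s) - g w)‖ ≤ ∫ s, kr n s * o := by
    apply norm_integral_le_of_norm_le (kr_integrable.mul_const _)
    apply Eventually.of_forall
    intro s
    rw [norm_mul, Real.norm_of_nonneg (kr_nonneg s), Real.norm_eq_abs]
    by_cases hs : kr n s = 0
    · rw [hs]; simp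
    · exact mul_le_mul_of_nonneg_left (ho s (kr_lt hs).le) (kr_nonneg s)
  rwa [integral_mul_const, kr_int, one_mul] at h3

/-- **The derivative of the mollification.** -/
lemma core {g : E n → E n} {ε M c t K : ℝ} {w u : E n} (l : E n →L[ℝ] ℝ) (hε : 0 < ε)
    (hg : ContinuousOn g (closedBall w (2 * ε)))
    (hM : ∀ s : E n, ‖s‖ ≤ 2 → |l (g (w + ε • s) - g w)| ≤ M * ε) (ht : 0 < t)
    (hu : ‖u‖ ≤ K) (htK : t * K ≤ 1)
    (hc : ∀ s : E n, ‖s‖ ≤ 1 →
      c * t * ε ≤ l (g (w + ε • (s + t • u)) - g (w + ε • s))) :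
    c - M * t * K ^ 2 * k2 n ≤ l (fderiv ℝ (mo g ε) w u) := by
  have hM0 : 0 ≤ M * ε := (abs_nonneg _).trans (hM 0 (by simp))
  have hK0 : 0 ≤ K := (norm_nonneg _).trans hu
  obtain ⟨k, hk⟩ : ∃ k, k = (exists_taylor n).choose := ⟨_, rfl⟩
  have hk0 : 0 ≤ k := by rw [hk]; exact (exists_taylor n).choose_spec.1
  have hkt : ∀ s x : E n, |kr n (s - x) - kr n s + fderiv ℝ (kr n) s x| ≤ k * ‖x‖ ^ 2 := by
    rw [hk]; exact (exists_taylor n).choose_spec.2
  obtain ⟨φ, hφ⟩ : ∃ φ : E n → ℝ, φ = (closedBall (0 : E n) 2).indicator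
    (fun s => l (g (w + ε • s) - g w)) := ⟨_, rfl⟩
  have hφin : ∀ s : E n, ‖s‖ ≤ 2 → φ s = l (g (w + ε • s) - g w) := by
    intro s hs
    rw [hφ, indicator_of_mem (mem_closedBall_zero_iff.2 hs)]
  have hφout : ∀ s : E n, ¬ ‖s‖ ≤ 2 → φ s = 0 := by
    intro s hs
    rw [hφ, indicator_of_notMem (fun h => hs (mem_closedBall_zero_iff.1 h))]
  have hφc : ContinuousOn (fun s => l (g (w + ε • s) - g w)) (closedBall (0 : E n) 2) :=
    l.continuous.comp_continuousOn ((cont_scaled hε hg).sub continuousOn_const)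
  have hφb : ∀ s, |φ s| ≤ M * ε := by
    intro s
    by_cases hs : ‖s‖ ≤ 2
    · rw [hφin s hs]; exact hM s hs
    · rw [hφout s hs, abs_zero]; exact hM0
  have hφm : AEStronglyMeasurable φ volume := by
    rw [hφ, aestronglyMeasurable_indicator_iff measurableSet_closedBall]
    exact hφc.aestronglyMeasurable measurableSet_closedBall
  have hφi : Integrable φ := by
    rw [hφ, integrable_indicator_iff measurableSet_closedBall]
    exact hφc.integrableOn_compact (isCompact_closedBall _ _)
  -- the derivative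
  have h1 : l (fderiv ℝ (mo g ε) w u) = - (ε⁻¹ * ∫ s, (fderiv ℝ (kr n) s u) * φ s) := by
    rw [mo_deriv0 hε hg, map_neg, map_smul, smul_eq_mul]
    have i1 := integrable_dkr hε hg u
    have i2 : Integrable (fun s : E n => (fderiv ℝ (kr n) s u) • g w) := by
      apply Continuous.integrable_of_hasCompactSupport
      · exact (dkr_cont.clm_apply continuous_const).smul continuous_const
      · apply HasCompactSupport.intro (isCompact_closedBall (0 : E n) 1)
        intro s hs
        rw [mem_closedBall_zero_iff, not_le] at hs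
        rw [dkr_zero hs, _root_.zero_apply, zero_smul]
    have e2 := l.integral_comp_comm
      (φ := fun s => (fderiv ℝ (kr n) s u) • (g (w + ε • s) - g w)) (by
        simp only [smul_sub]
        exact i1.sub i2)
    rw [← e2]
    congr 3
    funext s
    rw [map_smul, smul_eq_mul]
    by_cases hs : ‖s‖ ≤ 1
    · rw [hφin s (by linarith)]
    · rw [dkr_zero (not_le.1 hs)]
      simp
  have hmul : ∀ ψ : E n → ℝ, Continuous ψ → (∃ C, ∀ s, |ψ s| ≤ C) →
      Integrable (fun s => ψ s * φ s) := by
    rintro ψ hψ ⟨C, hC⟩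
    exact hφi.bdd_mul hψ.aestronglyMeasurable (Eventually.of_forall fun s => by
      rw [Real.norm_eq_abs]; exact hC s)
  obtain ⟨Ck, hCk⟩ : ∃ C, ∀ s : E n, |kr n s| ≤ C := by
    obtain ⟨C, hC⟩ := kr_smooth.continuous.bounded_above_of_compact_support
      (kr_compact (n := n))
    exact ⟨C, fun s => by rw [← Real.norm_eq_abs]; exact hC s⟩
  obtain ⟨Cd, hCd⟩ : ∃ C, ∀ s : E n, |fderiv ℝ (kr n) s u| ≤ C := by
    obtain ⟨C, hC⟩ := dkr_cont.bounded_above_of_compact_support (dkr_compact (n := n))
    refine ⟨C * ‖u‖, fun s => ?_⟩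
    rw [← Real.norm_eq_abs]
    exact ((fderiv ℝ (kr n) s).le_opNorm u).trans (by gcongr; exact hC s)
  have i0 : Integrable (fun s => kr n s * φ s) := hmul _ kr_smooth.continuous ⟨Ck, hCk⟩
  have i1 : Integrable (fun s => kr n (s - t • u) * φ s) :=
    hmul _ (kr_smooth.continuous.comp (continuous_id.sub continuous_const))
      ⟨Ck, fun s => hCk _⟩
  have i2 : Integrable (fun s => (fderiv ℝ (kr n) s u) * φ s) :=
    hmul _ (dkr_cont.clm_apply continuous_const) ⟨Cd, hCd⟩
  -- the translation
  have h3 : ∫ s, kr n s * φ (s + t • u) = ∫ s, kr n (s - t • u) * φ s := by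
    rw [← integral_add_right_eq_self (fun s => kr n (s - t • u) * φ s) (t • u)]
    congr 1
    funext s
    rw [add_sub_cancel_right]
  have i3 : Integrable (fun s => kr n s * φ (s + t • u)) := by
    have := i1.comp_add_right (t • u)
    simpa only [add_sub_cancel_right] using this
  have h2 : c * t * ε ≤ ∫ s, kr n s * (φ (s + t • u) - φ s) := by
    have e1 : c * t * ε = ∫ s : E n, kr n s * (c * t * ε) := by
      rw [integral_mul_const, kr_int, one_mul]
    rw [e1]
    apply integral_mono (kr_integrable.mul_const _)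
    · have : (fun s => kr n s * (φ (s + t • u) - φ s)) =
          fun s => kr n s * φ (s + t • u) - kr n s * φ s := by
        funext s; ring
      rw [this]
      exact i3.sub i0
    · intro s
      beta_reduce
      by_cases hs : kr n s = 0
      · rw [hs, zero_mul, zero_mul]
      · apply mul_le_mul_of_nonneg_left _ (kr_nonneg s)
        have hs1 := (kr_lt hs).le
        have hs2 : ‖s + t • u‖ ≤ 2 := by
          refine (norm_add_le _ _).trans ?_
          rw [norm_smul, Real.norm_of_nonneg ht.le]
          have : t * ‖u‖ ≤ t * K := by gcongr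
          linarith
        rw [hφin _ hs2, hφin s (by linarith), ← map_sub]
        refine (hc s hs1).trans (le_of_eq ?_)
        congr 1
        abel
  have h4 : ∫ s, kr n s * (φ (s + t • u) - φ s) =
      (∫ s, (kr n (s - t • u) - kr n s + fderiv ℝ (kr n) s (t • u)) * φ s) -
        t * ∫ s, (fderiv ℝ (kr n) s u) * φ s := by
    have e1 : ∫ s, kr n s * (φ (s + t • u) - φ s) =
        (∫ s, kr n s * φ (s + t • u)) - ∫ s, kr n s * φ s := by
      rw [← integral_sub i3 i0]
      congr 1
      funext s
      ring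
    have e2 : ∫ s, (kr n (s - t • u) - kr n s + fderiv ℝ (kr n) s (t • u)) * φ s =
        (∫ s, kr n (s - t • u) * φ s) - (∫ s, kr n s * φ s) +
          t * ∫ s, (fderiv ℝ (kr n) s u) * φ s := by
      have i01 : Integrable (fun s => kr n (s - t • u) * φ s - kr n s * φ s) := i1.sub i0
      rw [← integral_const_mul, ← integral_sub i1 i0, ← integral_add i01 (i2.const_mul t)]
      congr 1
      funext s
      rw [map_smul, smul_eq_mul]
      ring
    rw [e1, e2, h3]
    ring
  have h5 : |∫ s, (kr n (s - t • u) - kr n s + fderiv ℝ (kr n) s (t • u)) * φ s| ≤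
      (k * (t * K) ^ 2) * (M * ε) * (volume (closedBall (0 : E n) 2)).toReal := by
    rw [← Real.norm_eq_abs]
    have e1 : ‖∫ s, (kr n (s - t • u) - kr n s + fderiv ℝ (kr n) s (t • u)) * φ s‖ ≤
        ∫ s, (closedBall (0 : E n) 2).indicator (fun _ => (k * (t * K) ^ 2) * (M * ε)) s := by
      apply norm_integral_le_of_norm_le
      · rw [integrable_indicator_iff measurableSet_closedBall]
        exact integrableOn_const (isCompact_closedBall _ _).measure_lt_top.ne
      · apply Eventually.of_forall
        intro s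
        by_cases hs : ‖s‖ ≤ 2
        · rw [indicator_of_mem (mem_closedBall_zero_iff.2 hs), norm_mul, Real.norm_eq_abs,
            Real.norm_eq_abs]
          apply mul_le_mul _ (hφb s) (abs_nonneg _) (by positivity)
          refine (hkt s (t • u)).trans ?_
          rw [norm_smul, Real.norm_of_nonneg ht.le]
          gcongr
        · rw [indicator_of_notMem (fun h => hs (mem_closedBall_zero_iff.1 h)), hφout s hs,
            mul_zero, norm_zero]
    rw [integral_indicator measurableSet_closedBall, setIntegral_const, smul_eq_mul] at e1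
    refine e1.trans (le_of_eq ?_)
    rw [mul_comm]
    rfl
  have h6 := abs_le.1 h5
  rw [h1]
  obtain ⟨I, hI⟩ : ∃ I, I = ∫ s, (fderiv ℝ (kr n) s u) * φ s := ⟨_, rfl⟩
  rw [← hI] at h4 ⊢
  rw [h4] at h2
  have h7 : c * t * ε ≤ (k * (t * K) ^ 2) * (M * ε) *
      (volume (closedBall (0 : E n) 2)).toReal - t * I := by linarith [h6.2]
  have h8 : k2 n = k * (volume (closedBall (0 : E n) 2)).toReal := by rw [hk]; rfl
  rw [h8]
  obtain ⟨V, hV⟩ : ∃ V, V = (volume (closedBall (0 : E n) 2)).toReal := ⟨_, rfl⟩
  rw [← hV] at h7 ⊢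
  have h9 : (c - M * t * K ^ 2 * (k * V)) * (t * ε) ≤ - (ε⁻¹ * I) * (t * ε) := by
    have : - (ε⁻¹ * I) * (t * ε) = - (t * I) := by
      field_simp
    rw [this]
    nlinarith
  exact le_of_mul_le_mul_right h9 (by positivity)

end Run7.h575.MS
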