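import Pool.Agent.Run7.h575.MS1

/-!
# Maps which are steady at a scale: change of the coordinates of the target and interpolation
-/

set_option autoImplicit false

open Set Filter Topology Metric Function MeasureTheory
open scoped Manifold ContDiff

noncomputable section

namespace Run7.h575.MS

open Pool.Agent.Y522 Pool.Agent.Y954.SH Run7.h60.Sc

variable {n : ℕ}

/-- functionals, one for each direction -/
abbrev Fn (n : ℕ) : Type := E n → (E n →L[ℝ] ℝ)

/-- the functionals in other coordinates of the target -/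
def tr (l : Fn n) (D : E n ≃L[ℝ] E n) : Fn n := fun v => (l v) ∘L (D.symm : E n →L[ℝ] E n)

lemma tr_apply (l : Fn n) (D : E n ≃L[ℝ] E n) (v x : E n) : tr l D v x = l v (D.symm x) := rfl

/-- `h` is steady on the ball of radius `R ε` about `z`: for every unit vector `v` the functional
`l v` increases along steps of length `t ε` in the directions near `v`. -/
def DM (R t δ c M B : ℝ) (h : E n → E n) (z : E n) (ε om : ℝ) (l : Fn n) : Prop :=
  (∀ y : E n, ‖y‖ ≤ R * ε → ‖h (z + y) - h z‖ ≤ B * om) ∧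
  ∀ v : E n, ‖v‖ = 1 →
    (∀ y : E n, ‖y‖ ≤ R * ε → |l v (h (z + y) - h z)| ≤ M * ε) ∧
    ∀ y y' : E n, ‖y‖ ≤ R * ε → ‖y'‖ ≤ R * ε → ‖y' - y - (t * ε) • v‖ ≤ δ * ε →
      c * t * ε ≤ l v (h (z + y') - h (z + y))

/-- `a` with the derivative `A'` is close to `p` -/
def NrD (ε om : ℝ) (l : Fn n) (p a : E n) (A' : E n →L[ℝ] E n) (C θ : ℝ) : Prop :=
  ‖a - p‖ ≤ C * om ∧ ‖A'‖ * ε ≤ C * om ∧
    ∀ v : E n, ‖v‖ = 1 → |l v (a - p)| ≤ C * ε ∧ θ ≤ l v (A' v)

lemma NrD.mono {ε om : ℝ} {l : Fn n} {p a : E n} {A' : E n →L[ℝ] E n} {C C' θ θ' : ℝ}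
    (h : NrD ε om l p a A' C θ) (hε : 0 ≤ ε) (hom : 0 ≤ om) (hC : C ≤ C') (hθ : θ' ≤ θ) :
    NrD ε om l p a A' C' θ' :=
  ⟨h.1.trans (by gcongr), h.2.1.trans (by gcongr), fun v hv =>
    ⟨(h.2.2 v hv).1.trans (by gcongr), hθ.trans (h.2.2 v hv).2⟩⟩

/-- a small correction -/
lemma corr {l : E n →L[ℝ] ℝ} {D : E n ≃L[ℝ] E n} {Q R : ℝ} {r : E n} (hR : ‖r‖ ≤ R) (hQ : 0 ≤ Q)
    (hD : ‖(D.symm : E n →L[ℝ] E n)‖ ≤ Q) : |l (D.symm r)| ≤ ‖l‖ * (Q * R) := by
  rw [← Real.norm_eq_abs]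
  calc ‖l (D.symm r)‖ ≤ ‖l‖ * ‖D.symm r‖ := l.le_opNorm _
    _ ≤ ‖l‖ * (‖(D.symm : E n →L[ℝ] E n)‖ * ‖r‖) := by
        gcongr
        exact (D.symm : E n →L[ℝ] E n).le_opNorm _
    _ ≤ ‖l‖ * (Q * R) := by gcongr

/-- other coordinates of the target -/
lemma NrD.change {l : Fn n} {D : E n ≃L[ℝ] E n} {ε om Q C θ σ : ℝ} {p a q b : E n}
    {A' F : E n →L[ℝ] E n} (h : NrD ε om l p a A' C θ) (hε : 0 < ε) (hom : 0 ≤ om) (hC : 0 ≤ C)
    (hQ : 0 ≤ Q) (hD' : ‖(D : E n →L[ℝ] E n)‖ ≤ Q) (hD : ‖(D.symm : E n →L[ℝ] E n)‖ ≤ Q)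
    (h1 : ‖b - q - D (a - p)‖ ≤ Q * ‖a - p‖ ^ 2)
    (h2 : ‖F - (D : E n →L[ℝ] E n)‖ ≤ Q * ‖a - p‖) (h3 : C * om ≤ 1)
    (hσ0 : 0 ≤ σ) (hσ : ∀ v : E n, ‖v‖ = 1 → ‖l v‖ * om ^ 2 ≤ σ * ε) :
    NrD ε om (tr l D) q b (F ∘L A') (2 * Q * C + C + Q ^ 2 * C ^ 2 * σ)
      (θ - Q ^ 2 * C ^ 2 * σ) := by
  obtain ⟨ha, hA, hl⟩ := h
  have hCom : 0 ≤ C * om := mul_nonneg hC hom
  have ha1 : ‖a - p‖ ≤ 1 := ha.trans h3
  have hsq : ‖a - p‖ ^ 2 ≤ C * om := by nlinarith [norm_nonneg (a - p)]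
  have hF : ‖F‖ ≤ 2 * Q := by
    have e1 : F = (F - (D : E n →L[ℝ] E n)) + (D : E n →L[ℝ] E n) := by abel
    rw [e1]
    refine (norm_add_le _ _).trans ?_
    have : Q * ‖a - p‖ ≤ Q * 1 := by gcongr
    linarith
  have hb : ‖b - q‖ ≤ 2 * Q * C * om := by
    have e1 : b - q = (b - q - D (a - p)) + D (a - p) := by abel
    rw [e1]
    refine (norm_add_le _ _).trans ?_
    have e2 : ‖D (a - p)‖ ≤ Q * (C * om) :=
      ((D : E n →L[ℝ] E n).le_opNorm _).trans (by gcongr)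
    have e3 : Q * ‖a - p‖ ^ 2 ≤ Q * (C * om) := by gcongr
    linarith
  refine ⟨?_, ?_, fun v hv => ?_⟩
  · refine hb.trans ?_
    have : 0 ≤ (C + Q ^ 2 * C ^ 2 * σ) * om := by positivity
    linarith
  · calc ‖F ∘L A'‖ * ε ≤ (‖F‖ * ‖A'‖) * ε := by
          gcongr
          exact ContinuousLinearMap.opNorm_comp_le _ _
      _ = ‖F‖ * (‖A'‖ * ε) := by ring
      _ ≤ (2 * Q) * (C * om) := by gcongr
      _ ≤ _ := by
          have : 0 ≤ (C + Q ^ 2 * C ^ 2 * σ) * om := by positivity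
          linarith
  · obtain ⟨hv1, hv2⟩ := hl v hv
    have hσv := hσ v hv
    constructor
    · have e1 : tr l D v (b - q) = l v (a - p) + l v (D.symm (b - q - D (a - p))) := by
        rw [tr_apply, map_sub D.symm (b - q) (D (a - p)), D.symm_apply_apply,
          map_sub (l v) (D.symm (b - q)) (a - p)]
        ring
      rw [e1]
      have e2 := corr (l := l v) (D := D) h1 hQ hD
      have e3 : ‖l v‖ * (Q * (Q * ‖a - p‖ ^ 2)) ≤ Q ^ 2 * C ^ 2 * σ * ε := by
        calc ‖l v‖ * (Q * (Q * ‖a - p‖ ^ 2)) ≤ ‖l v‖ * (Q * (Q * (C * om) ^ 2)) := by gcongr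
          _ = Q ^ 2 * C ^ 2 * (‖l v‖ * om ^ 2) := by ring
          _ ≤ Q ^ 2 * C ^ 2 * (σ * ε) := by gcongr
          _ = _ := by ring
      calc _ ≤ |l v (a - p)| + |l v (D.symm (b - q - D (a - p)))| := abs_add_le _ _
        _ ≤ C * ε + Q ^ 2 * C ^ 2 * σ * ε := add_le_add hv1 (e2.trans e3)
        _ ≤ _ := by
            have : 0 ≤ 2 * Q * C * ε := by positivity
            linarith
    · have e1 : tr l D v ((F ∘L A') v) = l v (A' v) +
          l v (D.symm ((F - (D : E n →L[ℝ] E n)) (A' v))) := by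
        rw [tr_apply, ContinuousLinearMap.sub_apply, map_sub D.symm, map_sub (l v)]
        have : D.symm ((D : E n →L[ℝ] E n) (A' v)) = A' v := D.symm_apply_apply _
        rw [this]
        simp only [ContinuousLinearMap.comp_apply]
        ring
      rw [e1]
      have e2 : ‖(F - (D : E n →L[ℝ] E n)) (A' v)‖ ≤ (Q * (C * om)) * (C * om / ε) := by
        refine ((F - (D : E n →L[ℝ] E n)).le_opNorm _).trans ?_
        have e3 : ‖A' v‖ ≤ C * om / ε := by
          rw [le_div_iff₀ hε]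
          have := A'.le_opNorm v
          rw [hv, mul_one] at this
          calc ‖A' v‖ * ε ≤ ‖A'‖ * ε := by gcongr
            _ ≤ _ := hA
        have e4 : ‖F - (D : E n →L[ℝ] E n)‖ ≤ Q * (C * om) := h2.trans (by gcongr)
        gcongr
      have e5 := corr (l := l v) (D := D) e2 hQ hD
      have e6 : ‖l v‖ * (Q * ((Q * (C * om)) * (C * om / ε))) ≤ Q ^ 2 * C ^ 2 * σ := by
        have e7 : ‖l v‖ * (Q * ((Q * (C * om)) * (C * om / ε))) =
            Q ^ 2 * C ^ 2 * (‖l v‖ * om ^ 2 / ε) := by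
          field_simp
        rw [e7]
        have e8 : ‖l v‖ * om ^ 2 / ε ≤ σ := by
          rw [div_le_iff₀ hε]
          exact hσv
        gcongr
      have e9 := (abs_le.1 (e5.trans e6)).1
      linarith

/-- interpolation -/
lemma NrD.interp {l : Fn n} {ε om C θ t τ : ℝ} {p a b : E n} {A' B' : E n →L[ℝ] E n}
    {T : E n →L[ℝ] ℝ} (h : NrD ε om l p a A' C θ) (h' : NrD ε om l p b B' C θ) (hε : 0 ≤ ε)
    (hom : 0 ≤ om) (hC : 0 ≤ C) (ht0 : 0 ≤ t) (ht1 : t ≤ 1) (hT : ‖T‖ ≤ τ) (hτ : 2 * τ * ε ≤ 1) :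
    NrD ε om l p (a + t • (b - a)) (A' + t • (B' - A') + T.smulRight (b - a)) (2 * C)
      (θ - 2 * C * ε * τ) := by
  have h1t : 0 ≤ 1 - t := by linarith
  have hCom : 0 ≤ C * om := mul_nonneg hC hom
  have hba : ‖b - a‖ ≤ 2 * (C * om) := by
    have e1 : b - a = (b - p) - (a - p) := by abel
    rw [e1]
    refine (norm_sub_le _ _).trans ?_
    linarith [h.1, h'.1]
  refine ⟨?_, ?_, fun v hv => ?_⟩
  · have e1 : a + t • (b - a) - p = (1 - t) • (a - p) + t • (b - p) := by module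
    rw [e1]
    refine (norm_add_le _ _).trans ?_
    rw [norm_smul, norm_smul, Real.norm_of_nonneg ht0, Real.norm_of_nonneg h1t]
    calc (1 - t) * ‖a - p‖ + t * ‖b - p‖ ≤ (1 - t) * (C * om) + t * (C * om) :=
          add_le_add (mul_le_mul_of_nonneg_left h.1 h1t) (mul_le_mul_of_nonneg_left h'.1 ht0)
      _ = C * om := by ring
      _ ≤ 2 * C * om := by linarith
  · have e1 : A' + t • (B' - A') + T.smulRight (b - a) =
        (1 - t) • A' + t • B' + T.smulRight (b - a) := by module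
    rw [e1]
    have e2 : ‖(1 - t) • A' + t • B' + T.smulRight (b - a)‖ ≤
        (1 - t) * ‖A'‖ + t * ‖B'‖ + τ * (2 * (C * om)) := by
      refine (norm_add_le _ _).trans (add_le_add ((norm_add_le _ _).trans ?_) ?_)
      · rw [norm_smul, norm_smul, Real.norm_of_nonneg ht0, Real.norm_of_nonneg h1t]
      · rw [ContinuousLinearMap.norm_smulRight_apply]
        exact mul_le_mul hT hba (norm_nonneg _) ((norm_nonneg _).trans hT)
    calc _ ≤ ((1 - t) * ‖A'‖ + t * ‖B'‖ + τ * (2 * (C * om))) * ε := by gcongr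
      _ = (1 - t) * (‖A'‖ * ε) + t * (‖B'‖ * ε) + (2 * τ * ε) * (C * om) := by ring
      _ ≤ (1 - t) * (C * om) + t * (C * om) + 1 * (C * om) := by
          refine add_le_add (add_le_add (mul_le_mul_of_nonneg_left h.2.1 h1t)
            (mul_le_mul_of_nonneg_left h'.2.1 ht0)) (mul_le_mul_of_nonneg_right hτ hCom)
      _ = 2 * C * om := by ring
  · obtain ⟨g1, g2⟩ := h.2.2 v hv
    obtain ⟨g3, g4⟩ := h'.2.2 v hv
    constructor
    · have e1 : l v (a + t • (b - a) - p) = (1 - t) * l v (a - p) + t * l v (b - p) := by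
        have : a + t • (b - a) - p = (1 - t) • (a - p) + t • (b - p) := by module
        rw [this, map_add, map_smul, map_smul, smul_eq_mul, smul_eq_mul]
      rw [e1]
      refine (abs_add_le _ _).trans ?_
      rw [abs_mul, abs_mul, abs_of_nonneg ht0, abs_of_nonneg h1t]
      have e2 : 0 ≤ C * ε := mul_nonneg hC hε
      calc (1 - t) * |l v (a - p)| + t * |l v (b - p)| ≤ (1 - t) * (C * ε) + t * (C * ε) :=
            add_le_add (mul_le_mul_of_nonneg_left g1 h1t) (mul_le_mul_of_nonneg_left g3 ht0)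
        _ = C * ε := by ring
        _ ≤ 2 * C * ε := by linarith
    · have e1 : l v ((A' + t • (B' - A') + T.smulRight (b - a)) v) =
          (1 - t) * l v (A' v) + t * l v (B' v) + T v * l v (b - a) := by
        simp only [ContinuousLinearMap.add_apply, ContinuousLinearMap.smul_apply,
          ContinuousLinearMap.sub_apply, ContinuousLinearMap.smulRight_apply, map_add, map_smul,
          map_sub, smul_eq_mul]
        ring
      rw [e1]
      have e2 : |T v * l v (b - a)| ≤ τ * (2 * C * ε) := by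
        rw [abs_mul]
        have e3 : |T v| ≤ τ := by
          rw [← Real.norm_eq_abs]
          have := T.le_opNorm v
          rw [hv, mul_one] at this
          exact this.trans hT
        have e4 : |l v (b - a)| ≤ 2 * C * ε := by
          have e5 : l v (b - a) = l v (b - p) - l v (a - p) := by
            rw [← map_sub]
            congr 1
            abel
          rw [e5]
          refine (abs_sub _ _).trans ?_
          linarith
        exact mul_le_mul e3 e4 (abs_nonneg _) ((abs_nonneg _).trans e3)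
      have e6 := (abs_le.1 e2).1
      have e7 : θ ≤ (1 - t) * l v (A' v) + t * l v (B' v) := by
        calc θ = (1 - t) * θ + t * θ := by ring
          _ ≤ _ := add_le_add (mul_le_mul_of_nonneg_left g2 h1t)
              (mul_le_mul_of_nonneg_left g4 ht0)
      linarith

/-- steady maps in other coordinates of the target -/
lemma DM.change {h μ : E n → E n} {z : E n} {D : E n ≃L[ℝ] E n} {l : Fn n}
    {R t δ c c' M M' B ε om Q σ : ℝ} (hA : DM R t δ c M B h z ε om l) (hε : 0 < ε) (hom : 0 ≤ om)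
    (hB : 0 ≤ B) (hQ : 0 ≤ Q) (hR : 0 ≤ R)
    (hD' : ‖(D : E n →L[ℝ] E n)‖ ≤ Q) (hD : ‖(D.symm : E n →L[ℝ] E n)‖ ≤ Q)
    (h1 : ∀ a, ‖a - h z‖ ≤ B * om → ‖μ a - μ (h z) - D (a - h z)‖ ≤ Q * ‖a - h z‖ ^ 2)
    (h3 : B * om ≤ 1) (hσ : ∀ v : E n, ‖v‖ = 1 → ‖l v‖ * om ^ 2 ≤ σ * ε)
    (hM : M + Q ^ 2 * B ^ 2 * σ ≤ M') (hc : c' * t ≤ c * t - 2 * (Q ^ 2 * B ^ 2 * σ)) :
    DM R t δ c' M' (2 * Q * B) (fun y => μ (h y)) z ε om (tr l D) := by
  obtain ⟨hA1, hA2⟩ := hA
  have key : ∀ v : E n, ‖v‖ = 1 → ∀ y : E n, ‖y‖ ≤ R * ε →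
      |tr l D v (μ (h (z + y)) - μ (h z)) - l v (h (z + y) - h z)| ≤ Q ^ 2 * B ^ 2 * σ * ε := by
    intro v hv y hy
    have g1 := hA1 y hy
    obtain ⟨a, ha⟩ : ∃ a, a = h (z + y) := ⟨_, rfl⟩
    rw [← ha] at g1 ⊢
    have g2 := h1 a g1
    have e1 : tr l D v (μ a - μ (h z)) - l v (a - h z) =
        l v (D.symm (μ a - μ (h z) - D (a - h z))) := by
      rw [tr_apply, map_sub D.symm (μ a - μ (h z)) (D (a - h z)), D.symm_apply_apply,
        map_sub (l v) (D.symm (μ a - μ (h z))) (a - h z)]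
    rw [e1]
    refine (corr (l := l v) g2 hQ hD).trans ?_
    calc ‖l v‖ * (Q * (Q * ‖a - h z‖ ^ 2)) ≤ ‖l v‖ * (Q * (Q * (B * om) ^ 2)) := by gcongr
      _ = Q ^ 2 * B ^ 2 * (‖l v‖ * om ^ 2) := by ring
      _ ≤ Q ^ 2 * B ^ 2 * (σ * ε) := by
          have := hσ v hv
          gcongr
      _ = _ := by ring
  refine ⟨fun y hy => ?_, fun v hv => ⟨fun y hy => ?_, fun y y' hy hy' hyy => ?_⟩⟩
  · have g1 := hA1 y hy
    beta_reduce
    obtain ⟨a, ha⟩ : ∃ a, a = h (z + y) := ⟨_, rfl⟩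
    rw [← ha] at g1 ⊢
    have g2 := h1 a g1
    have e1 : μ a - μ (h z) = (μ a - μ (h z) - D (a - h z)) + D (a - h z) := by abel
    rw [e1]
    refine (norm_add_le _ _).trans ?_
    have e2 : ‖D (a - h z)‖ ≤ Q * (B * om) :=
      ((D : E n →L[ℝ] E n).le_opNorm _).trans (by gcongr)
    have hsq : ‖a - h z‖ ^ 2 ≤ B * om := by nlinarith [norm_nonneg (a - h z)]
    have e3 : Q * ‖a - h z‖ ^ 2 ≤ Q * (B * om) := by gcongr
    linarith
  · have g1 := key v hv y hy
    have g2 := (hA2 v hv).1 y hy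
    beta_reduce
    obtain ⟨x, hx⟩ : ∃ x, x = tr l D v (μ (h (z + y)) - μ (h z)) := ⟨_, rfl⟩
    rw [← hx] at g1 ⊢
    have e1 : x = (x - l v (h (z + y) - h z)) + l v (h (z + y) - h z) := by ring
    rw [e1]
    refine (abs_add_le _ _).trans ?_
    have : (M + Q ^ 2 * B ^ 2 * σ) * ε ≤ M' * ε := by gcongr
    linarith
  · have g1 := (abs_le.1 (key v hv y hy)).2
    have g2 := (abs_le.1 (key v hv y' hy')).1
    have g3 := (hA2 v hv).2 y y' hy hy' hyy
    beta_reduce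
    have e1 : tr l D v (μ (h (z + y')) - μ (h (z + y))) =
        tr l D v (μ (h (z + y')) - μ (h z)) - tr l D v (μ (h (z + y)) - μ (h z)) := by
      rw [← map_sub]
      congr 1
      abel
    have e2 : l v (h (z + y') - h (z + y)) =
        l v (h (z + y') - h z) - l v (h (z + y) - h z) := by
      rw [← map_sub]
      congr 1
      abel
    rw [e1]
    rw [e2] at g3
    have : c' * t * ε ≤ (c * t - 2 * (Q ^ 2 * B ^ 2 * σ)) * ε := by gcongr
    linarith

end Run7.h575.MS
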