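import Pool.Agent.Run7.h575.MS2

/-!
# Maps which are steady at small scales: local statements near a point
-/

set_option autoImplicit false

open Set Filter Topology Metric Function MeasureTheory
open scoped Manifold ContDiff

noncomputable section

namespace Run7.h575.MS

open Pool.Agent.Y522 Pool.Agent.Y954.SH Run7.h60.Sc

variable {n : ℕ}

/-- `h` is steady near `z₀` at the scales `ε m`, `m → ∞` -/
def DMF (R t δ c M B : ℝ) (ε : ℕ → ℝ) (h : E n → E n) (z₀ : E n) (om : E n × ℕ → ℝ)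
    (l : E n × ℕ → Fn n) : Prop :=
  (∀ᶠ p in 𝓝 z₀ ×ˢ atTop, 0 ≤ om p ∧ DM R t δ c M B h p.1 (ε p.2) (om p) (l p)) ∧
  Tendsto om (𝓝 z₀ ×ˢ atTop) (𝓝 0) ∧
  ∀ σ : ℝ, 0 < σ → ∀ᶠ p in 𝓝 z₀ ×ˢ atTop, ∀ v : E n, ‖v‖ = 1 →
    ‖l p v‖ * (om p) ^ 2 ≤ σ * ε p.2

/-- the maps `G m` are smooth near `z₀` and close to `h` -/
def NrG (ε : ℕ → ℝ) (h : E n → E n) (z₀ : E n) (om : E n × ℕ → ℝ) (l : E n × ℕ → Fn n)
    (G : ℕ → E n → E n) (C θ : ℝ) : Prop :=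
  ∀ᶠ p in 𝓝 z₀ ×ˢ atTop, 0 ≤ om p ∧ ContDiffAt ℝ ∞ (G p.2) p.1 ∧
    NrD (ε p.2) (om p) (l p) (h p.1) (G p.2 p.1) (fderiv ℝ (G p.2) p.1) C θ

lemma NrG.mono {ε : ℕ → ℝ} (hε : ∀ m, 0 < ε m) {h : E n → E n} {z₀ : E n}
    {om : E n × ℕ → ℝ} {l : E n × ℕ → Fn n} {G : ℕ → E n → E n} {C C' θ θ' : ℝ}
    (hG : NrG ε h z₀ om l G C θ) (hC : C ≤ C') (hθ : θ' ≤ θ) : NrG ε h z₀ om l G C' θ' :=
  Eventually.mono hG fun _ hp => ⟨hp.1, hp.2.1, hp.2.2.mono (hε _).le hp.1 hC hθ⟩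

/-- the values of `G` are close to the values of `h` -/
lemma NrG.tendsto {ε : ℕ → ℝ} {h : E n → E n} {z₀ : E n} {C θ : ℝ}
    {om : E n × ℕ → ℝ} {l : E n × ℕ → Fn n} {G : ℕ → E n → E n}
    (hom : Tendsto om (𝓝 z₀ ×ˢ atTop) (𝓝 0))
    (hG : NrG ε h z₀ om l G C θ) (hc : ContinuousAt h z₀) :
    Tendsto (fun p : E n × ℕ => G p.2 p.1) (𝓝 z₀ ×ˢ atTop) (𝓝 (h z₀)) := by
  have h1 : Tendsto (fun p : E n × ℕ => G p.2 p.1 - h p.1) (𝓝 z₀ ×ˢ atTop) (𝓝 0) := by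
    have h2 := hom.const_mul C
    rw [mul_zero] at h2
    refine squeeze_zero_norm' ?_ h2
    filter_upwards [hG] with p hp
    exact hp.2.2.1
  have h3 := h1.add (tendsto_val hc)
  simpa using h3

/-- change of the coordinates of the target -/
lemma DMF.change {ε : ℕ → ℝ} (hε : ∀ m, 0 < ε m) {h μ : E n → E n} {z₀ : E n}
    {R t δ c c' M M' B : ℝ} {om : E n × ℕ → ℝ} {l : E n × ℕ → Fn n}
    (hA : DMF R t δ c M B ε h z₀ om l) (hB : 0 ≤ B) (hR : 0 ≤ R) (ht : 0 < t) (hM : M < M')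
    (hcc : c' < c) (hc : ContinuousAt h z₀) (hμ : LD n μ (h z₀)) :
    ∃ B' : ℝ, 0 ≤ B' ∧
      DMF R t δ c' M' B' ε (fun z => μ (h z)) z₀ om (fun p => tr (l p) (Dq μ (h p.1))) := by
  obtain ⟨Q, ρ, hQ1, hρ, hq⟩ := quad hμ
  have hQ0 : 0 ≤ Q := by linarith
  obtain ⟨hA1, hA2, hA3⟩ := hA
  obtain ⟨σ, hσ0, hσ1, hσ2⟩ : ∃ σ : ℝ, 0 < σ ∧ M + Q ^ 2 * B ^ 2 * σ ≤ M' ∧
      c' * t ≤ c * t - 2 * (Q ^ 2 * B ^ 2 * σ) := by
    have c1 : ∀ᶠ σ in 𝓝 (0 : ℝ), M + Q ^ 2 * B ^ 2 * σ < M' :=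
      (Continuous.continuousAt (by fun_prop : Continuous fun σ : ℝ => M + Q ^ 2 * B ^ 2 * σ)
        ).eventually_lt_const (by simpa using hM)
    have c2 : ∀ᶠ σ in 𝓝 (0 : ℝ), c' * t < c * t - 2 * (Q ^ 2 * B ^ 2 * σ) :=
      (Continuous.continuousAt (by fun_prop :
        Continuous fun σ : ℝ => c * t - 2 * (Q ^ 2 * B ^ 2 * σ))).eventually_const_lt
          (by simpa using mul_lt_mul_of_pos_right hcc ht)
    have c0 : ∀ᶠ σ in 𝓝[>] (0 : ℝ), 0 < σ := self_mem_nhdsWithin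
    obtain ⟨σ, h1, h2, h3⟩ := (c0.and
      ((c1.filter_mono nhdsWithin_le_nhds).and (c2.filter_mono nhdsWithin_le_nhds))).exists
    exact ⟨σ, h1, h2.le, h3.le⟩
  have e1 : ∀ᶠ p in 𝓝 z₀ ×ˢ atTop, h p.1 ∈ ball (h z₀) (ρ / 2) :=
    (tendsto_val hc).eventually (ball_mem_nhds _ (by linarith))
  have hBom : Tendsto (fun p => B * om p) (𝓝 z₀ ×ˢ atTop) (𝓝 0) := by
    have := hA2.const_mul B
    rwa [mul_zero] at this
  have e2 : ∀ᶠ p in 𝓝 z₀ ×ˢ atTop, B * om p < ρ / 2 := hBom.eventually_lt_const (by linarith)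
  have e3 : ∀ᶠ p in 𝓝 z₀ ×ˢ atTop, B * om p < 1 := hBom.eventually_lt_const one_pos
  refine ⟨2 * Q * B, by positivity, ?_, hA2, ?_⟩
  · filter_upwards [e1, e2, e3, hA1, hA3 σ hσ0] with p h1 h2 h3 h4 h5
    have hp := hq (h p.1) (ball_subset_ball (by linarith) h1)
    refine ⟨h4.1, DM.change h4.2 (hε _) h4.1 hB hQ0 hR hp.2.1 hp.2.2.1 ?_ h3.le h5 hσ1 hσ2⟩
    intro a ha
    refine (hp.2.2.2 a ?_).1
    rw [mem_ball, dist_eq_norm] at h1 ⊢
    calc ‖a - h z₀‖ = ‖(a - h p.1) + (h p.1 - h z₀)‖ := by congr 1; abel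
      _ ≤ ‖a - h p.1‖ + ‖h p.1 - h z₀‖ := norm_add_le _ _
      _ < ρ / 2 + ρ / 2 := add_lt_add (ha.trans_lt h2) h1
      _ = ρ := by ring
  · intro σ' hσ'
    filter_upwards [e1, hA3 (σ' / Q) (by positivity)] with p h1 h5 v hv
    have hp := hq (h p.1) (ball_subset_ball (by linarith) h1)
    have g1 : ‖tr (l p) (Dq μ (h p.1)) v‖ ≤ ‖l p v‖ * Q := by
      refine (ContinuousLinearMap.opNorm_comp_le _ _).trans ?_
      have := hp.2.2.1
      gcongr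
    have g2 := h5 v hv
    calc ‖tr (l p) (Dq μ (h p.1)) v‖ * (om p) ^ 2 ≤ (‖l p v‖ * Q) * (om p) ^ 2 := by gcongr
      _ = Q * (‖l p v‖ * (om p) ^ 2) := by ring
      _ ≤ Q * (σ' / Q * ε p.2) := by gcongr
      _ = σ' * ε p.2 := by field_simp

lemma NrG.change {ε : ℕ → ℝ} (hε : ∀ m, 0 < ε m) {h μ : E n → E n} {z₀ : E n}
    {C θ θ' : ℝ} {om : E n × ℕ → ℝ} {l : E n × ℕ → Fn n} {G : ℕ → E n → E n}
    (hom : Tendsto om (𝓝 z₀ ×ˢ atTop) (𝓝 0))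
    (hs : ∀ σ : ℝ, 0 < σ → ∀ᶠ p in 𝓝 z₀ ×ˢ atTop, ∀ v : E n, ‖v‖ = 1 →
      ‖l p v‖ * (om p) ^ 2 ≤ σ * ε p.2)
    (hG : NrG ε h z₀ om l G C θ) (hC : 0 ≤ C) (hθ : θ' < θ)
    (hc : ContinuousAt h z₀) (hμ : LD n μ (h z₀)) :
    ∃ C' : ℝ, 0 ≤ C' ∧ NrG ε (fun z => μ (h z)) z₀ om (fun p => tr (l p) (Dq μ (h p.1)))
      (fun m z => μ (G m z)) C' θ' := by
  obtain ⟨Q, ρ, hQ1, hρ, hq⟩ := quad hμ
  have hQ0 : 0 ≤ Q := by linarith
  obtain ⟨σ, hσ0, hσ1, hσ2⟩ : ∃ σ : ℝ, 0 < σ ∧ σ ≤ 1 ∧ θ' ≤ θ - Q ^ 2 * C ^ 2 * σ := by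
    have c1 : ∀ᶠ σ in 𝓝 (0 : ℝ), σ < 1 := eventually_lt_nhds one_pos
    have c2 : ∀ᶠ σ in 𝓝 (0 : ℝ), θ' < θ - Q ^ 2 * C ^ 2 * σ :=
      (Continuous.continuousAt (by fun_prop :
        Continuous fun σ : ℝ => θ - Q ^ 2 * C ^ 2 * σ)).eventually_const_lt (by simpa using hθ)
    have c0 : ∀ᶠ σ in 𝓝[>] (0 : ℝ), 0 < σ := self_mem_nhdsWithin
    obtain ⟨σ, h1, h2, h3⟩ := (c0.and
      ((c1.filter_mono nhdsWithin_le_nhds).and (c2.filter_mono nhdsWithin_le_nhds))).exists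
    exact ⟨σ, h1, h2.le, h3.le⟩
  have e1 : ∀ᶠ p in 𝓝 z₀ ×ˢ atTop, h p.1 ∈ ball (h z₀) ρ :=
    (tendsto_val hc).eventually (ball_mem_nhds _ hρ)
  have e2 : ∀ᶠ p in 𝓝 z₀ ×ˢ atTop, G p.2 p.1 ∈ ball (h z₀) ρ :=
    (hG.tendsto hom hc).eventually (ball_mem_nhds _ hρ)
  have e3 : ∀ᶠ p in 𝓝 z₀ ×ˢ atTop, C * om p < 1 := by
    have := hom.const_mul C
    rw [mul_zero] at this
    exact this.eventually_lt_const one_pos
  refine ⟨2 * Q * C + C + Q ^ 2 * C ^ 2 * 1, by positivity, ?_⟩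
  filter_upwards [e1, e2, e3, hG, hs σ hσ0] with p h1 h2 h3 h5 h6
  have hp := hq _ h1
  have hp2 := hq _ h2
  have hp3 := hp.2.2.2 _ h2
  have hd : fderiv ℝ (fun z => μ (G p.2 z)) p.1 =
      fderiv ℝ μ (G p.2 p.1) ∘L fderiv ℝ (G p.2) p.1 :=
    fderiv_comp (𝕜 := ℝ) (g := μ) (f := G p.2) p.1
      (hp2.1.contDiffAt.differentiableAt (by simp)) (h5.2.1.differentiableAt (by simp))
  refine ⟨h5.1, ContDiffAt.comp p.1 (g := μ) hp2.1.contDiffAt h5.2.1, ?_⟩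
  rw [hd]
  refine (NrD.change h5.2.2 (hε _) h5.1 hC hQ0 hp.2.1 hp.2.2.1 hp3.1 hp3.2 h3.le hσ0.le h6).mono
    (hε _).le h5.1 ?_ hσ2
  gcongr

lemma NrG.congr {ε : ℕ → ℝ} {h h' : E n → E n} {z₀ : E n} {C θ : ℝ}
    {om : E n × ℕ → ℝ} {l l' : E n × ℕ → Fn n} {G G' : ℕ → E n → E n}
    (hG : NrG ε h z₀ om l G C θ)
    (hh : h =ᶠ[𝓝 z₀] h') (hl : ∀ᶠ p in 𝓝 z₀ ×ˢ atTop, l p = l' p)
    (hGG : ∀ᶠ p in 𝓝 z₀ ×ˢ atTop, G p.2 p.1 = G' p.2 p.1) : NrG ε h' z₀ om l' G' C θ := by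
  have h1 : ∀ᶠ p : E n × ℕ in 𝓝 z₀ ×ˢ atTop, h p.1 = h' p.1 := tendsto_fst.eventually hh
  have h2 : ∀ᶠ p : E n × ℕ in 𝓝 z₀ ×ˢ atTop, G p.2 =ᶠ[𝓝 p.1] G' p.2 := by
    obtain ⟨P1, hP1, P2, hP2, hP⟩ := eventually_prod_iff.1 hGG
    have h3 : ∀ᶠ p : E n × ℕ in 𝓝 z₀ ×ˢ atTop, ∀ᶠ y in 𝓝 p.1, P1 y :=
      tendsto_fst.eventually (eventually_eventually_nhds.2 hP1)
    have h4 : ∀ᶠ p : E n × ℕ in 𝓝 z₀ ×ˢ atTop, P2 p.2 := tendsto_snd.eventually hP2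
    filter_upwards [h3, h4] with p g1 g2
    filter_upwards [g1] with y hy
    exact hP hy g2
  filter_upwards [hG, h1, h2, hl] with p g1 g2 g3 g4
  refine ⟨g1.1, g1.2.1.congr_of_eventuallyEq g3.symm, ?_⟩
  rw [← g2, ← g4, ← g3.fderiv_eq, ← g3.self_of_nhds]
  exact g1.2.2

/-- interpolation -/
lemma NrG.interp {ε : ℕ → ℝ} (hε : ∀ m, 0 < ε m) (hε0 : Tendsto ε atTop (𝓝 0))
    {h : E n → E n} {z₀ : E n} {C θ θ' : ℝ}
    {om : E n × ℕ → ℝ} {l : E n × ℕ → Fn n} {G G' : ℕ → E n → E n} {t : E n → ℝ}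
    (hG : NrG ε h z₀ om l G C θ) (hG' : NrG ε h z₀ om l G' C θ) (hC : 0 ≤ C) (hθ : θ' < θ)
    (ht : ∀ᶠ z in 𝓝 z₀, ContDiffAt ℝ ∞ t z) (ht0 : ∀ z, 0 ≤ t z) (ht1 : ∀ z, t z ≤ 1) :
    NrG ε h z₀ om l (fun m z => G m z + t z • (G' m z - G m z)) (2 * C) θ' := by
  have hc : ContinuousAt (fderiv ℝ t) z₀ :=
    (ht.self_of_nhds.fderiv_right (m := 0) (by simp)).continuousAt
  have e1 : ∀ᶠ z in 𝓝 z₀, ‖fderiv ℝ t z‖ ≤ ‖fderiv ℝ t z₀‖ + 1 :=
    hc.norm.eventually_le_const (by linarith)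
  have e3 : ∀ᶠ p : E n × ℕ in 𝓝 z₀ ×ˢ atTop,
      θ' < θ - 2 * C * ε p.2 * (‖fderiv ℝ t z₀‖ + 1) := by
    have := (((tendsto_scale hε0 z₀).const_mul (2 * C)).mul_const (‖fderiv ℝ t z₀‖ + 1)).const_sub θ
    rw [mul_zero, zero_mul, sub_zero] at this
    exact this.eventually_const_lt hθ
  have e4 : ∀ᶠ p : E n × ℕ in 𝓝 z₀ ×ˢ atTop, 2 * (‖fderiv ℝ t z₀‖ + 1) * ε p.2 < 1 := by
    have := (tendsto_scale hε0 z₀).const_mul (2 * (‖fderiv ℝ t z₀‖ + 1))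
    rw [mul_zero] at this
    exact this.eventually_lt_const one_pos
  filter_upwards [hG, hG', tendsto_fst.eventually e1, tendsto_fst.eventually ht, e3, e4] with
    p g1 g2 g3 g4 g5 g6
  have d1 := (g1.2.1.differentiableAt (by simp)).hasFDerivAt
  have d2 := (g2.2.1.differentiableAt (by simp)).hasFDerivAt
  have d3 := (g4.differentiableAt (by simp)).hasFDerivAt
  have d4 := d1.add (d3.smul (d2.sub d1))
  refine ⟨g1.1, g1.2.1.add (g4.smul (g2.2.1.sub g1.2.1)), ?_⟩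
  have e4 : fderiv ℝ (fun z => G p.2 z + t z • (G' p.2 z - G p.2 z)) p.1 =
      fderiv ℝ (G p.2) p.1 + t p.1 • (fderiv ℝ (G' p.2) p.1 - fderiv ℝ (G p.2) p.1) +
        (fderiv ℝ t p.1).smulRight (G' p.2 p.1 - G p.2 p.1) := by
    have := d4.fderiv
    rw [add_assoc]
    exact this
  rw [e4]
  exact (NrD.interp g1.2.2 g2.2.2 (hε _).le g1.1 hC (ht0 _) (ht1 _) g3 g6.le).mono (hε _).le
    g1.1 le_rfl g5.le

/-- the derivative of the inverse -/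
lemma Dq_inv {lam lam' : E n → E n} {z₀ : E n} (hlam : LD n lam z₀) (hlam' : LD n lam' (lam z₀))
    (hll : ∀ᶠ z in 𝓝 z₀, lam' (lam z) = z) :
    ∀ᶠ z in 𝓝 z₀, ((Dq lam z).symm : E n →L[ℝ] E n) = (Dq lam' (lam z) : E n →L[ℝ] E n) := by
  have h3 : ∀ᶠ y in 𝓝 z₀, LD n lam' (lam y) := hlam.continuousAt.eventually hlam'.eventually
  filter_upwards [hlam.eventually, eventually_eventually_nhds.2 hll, h3] with z' g1 g2 g3
  have g4 : (Dq lam' (lam z') : E n →L[ℝ] E n) ∘L (Dq lam z' : E n →L[ℝ] E n) =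
      ContinuousLinearMap.id ℝ (E n) := by
    rw [Dq_coe g1, Dq_coe g3]
    have g5 := HasFDerivAt.comp z' (g := lam') (f := lam)
        (g3.contDiffAt.differentiableAt (by simp)).hasFDerivAt
        (g1.contDiffAt.differentiableAt (by simp)).hasFDerivAt
    have g6 : HasFDerivAt (lam' ∘ lam) (ContinuousLinearMap.id ℝ (E n)) z' :=
      (hasFDerivAt_id z').congr_of_eventuallyEq g2
    exact g5.unique g6
  ext1 v
  have g7 := DFunLike.congr_fun g4 ((Dq lam z').symm v)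
  simp only [ContinuousLinearMap.comp_apply, ContinuousLinearEquiv.coe_coe,
    ContinuousLinearEquiv.apply_symm_apply, ContinuousLinearMap.id_apply] at g7
  exact g7.symm

/-- the mollification in other coordinates of the source -/
lemma NrG.source {ε : ℕ → ℝ} (hε : ∀ m, 0 < ε m) (hε0 : Tendsto ε atTop (𝓝 0))
    {h g lam lam' : E n → E n} {z₀ : E n} {K R t δ c M B : ℝ}
    {om : E n × ℕ → ℝ} {l : E n × ℕ → Fn n} (hA : DMF R t δ c M B ε h z₀ om l)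
    (hB : 0 ≤ B) (hM : 0 ≤ M) (hK : 1 ≤ K) (hR : 3 * K ≤ R) (ht : 0 < t) (htK : t * K ≤ 1)
    (hδ : 0 < δ) (hlam : LD n lam z₀)
    (hlK : ∀ᶠ z in 𝓝 z₀, ‖(Dq lam z : E n →L[ℝ] E n)‖ ≤ K ∧
      ‖((Dq lam z).symm : E n →L[ℝ] E n)‖ ≤ K)
    (hlam' : LD n lam' (lam z₀)) (hll : ∀ᶠ z in 𝓝 z₀, lam' (lam z) = z)
    (hgl : ∀ᶠ w in 𝓝 (lam z₀), g w = h (lam' w))
    (hgc : ∀ᶠ w in 𝓝 (lam z₀), ContinuousAt g w) :
    NrG ε h z₀ om l (fun m z => mo g (ε m) (lam z)) (B + kc n * B * K + M)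
      (c - M * t * K ^ 2 * k2 n) := by
  obtain ⟨Q, ρ, hQ1, hρ, hq⟩ := quad hlam'
  have hQ0 : 0 ≤ Q := by linarith
  have hK0 : 0 ≤ K := by linarith
  obtain ⟨r, hr, hgr⟩ := Metric.eventually_nhds_iff_ball.1 (hgl.and hgc)
  have e1 : ∀ᶠ p : E n × ℕ in 𝓝 z₀ ×ˢ atTop, lam p.1 ∈ ball (lam z₀) (min ρ r / 2) :=
    (tendsto_val hlam.continuousAt).eventually (ball_mem_nhds _ (by positivity))
  have e2 : ∀ᶠ p : E n × ℕ in 𝓝 z₀ ×ˢ atTop, ε p.2 < min ρ r / 4 :=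
    (tendsto_scale hε0 z₀).eventually_lt_const (by positivity)
  have e3 : ∀ᶠ p : E n × ℕ in 𝓝 z₀ ×ˢ atTop, 8 * Q * ε p.2 < min δ 1 := by
    have := (tendsto_scale hε0 z₀).const_mul (8 * Q)
    rw [mul_zero] at this
    exact this.eventually_lt_const (by positivity)
  filter_upwards [e1, e2, e3, hA.1, tendsto_fst.eventually hlK,
    tendsto_fst.eventually (Dq_inv hlam hlam' hll), tendsto_fst.eventually hll,
    tendsto_fst.eventually hlam.eventually] with p h1 h2 h3 h4 h5 h6 h7 h8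
  obtain ⟨om0, hD1, hD2⟩ := h4
  have hεp := hε p.2
  obtain ⟨w, hw⟩ : ∃ w, w = lam p.1 := ⟨_, rfl⟩
  obtain ⟨T, hT⟩ : ∃ T, T = Dq lam p.1 := ⟨_, rfl⟩
  rw [← hw] at h1 h6 h7
  rw [← hT] at h5 h6
  have hmem : ∀ x : E n, ‖x‖ ≤ 2 * ε p.2 → w + x ∈ ball (lam z₀) (min ρ r) := by
    intro x hx
    rw [mem_ball] at h1 ⊢
    calc dist (w + x) (lam z₀) ≤ dist (w + x) w + dist w (lam z₀) := dist_triangle _ _ _
      _ < min ρ r / 2 + min ρ r / 2 := by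
          apply add_lt_add _ h1
          rw [dist_eq_norm, add_sub_cancel_left]
          linarith
      _ = min ρ r := by ring
  have hw0 := hmem 0 (by rw [norm_zero]; linarith)
  rw [add_zero] at hw0
  have hwρ : w ∈ ball (lam z₀) ρ := ball_subset_ball (min_le_left _ _) hw0
  have hqw := hq w hwρ
  obtain ⟨Y, hY⟩ : ∃ Y : E n → E n, ∀ x, Y x = lam' (w + x) - p.1 := ⟨_, fun _ => rfl⟩
  obtain ⟨e, he⟩ : ∃ e : E n → E n, ∀ x, e x = Y x - T.symm x := ⟨_, fun _ => rfl⟩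
  have hTs : ∀ x, T.symm x = Dq lam' w x := fun x => DFunLike.congr_fun h6 x
  have hex : ∀ x : E n, ‖x‖ ≤ 2 * ε p.2 → ‖e x‖ ≤ Q * (2 * ε p.2) ^ 2 := by
    intro x hx
    have g1 := (hqw.2.2.2 (w + x) (ball_subset_ball (min_le_left _ _) (hmem x hx))).1
    rw [add_sub_cancel_left, h7, ← hTs, ← hY, ← he] at g1
    exact g1.trans (by gcongr)
  have h3a : 8 * Q * ε p.2 ≤ δ := h3.le.trans (min_le_left _ _)
  have h3b : 8 * Q * ε p.2 ≤ 1 := h3.le.trans (min_le_right _ _)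
  have hYR : ∀ x : E n, ‖x‖ ≤ 2 * ε p.2 → ‖Y x‖ ≤ R * ε p.2 := by
    intro x hx
    have e1 : Y x = e x + T.symm x := by rw [he]; abel
    rw [e1]
    refine (norm_add_le _ _).trans ?_
    have g1 := hex x hx
    have g2 : ‖T.symm x‖ ≤ K * (2 * ε p.2) :=
      ((T.symm : E n →L[ℝ] E n).le_opNorm x).trans (by
        have := h5.2
        gcongr)
    have g3 : Q * (2 * ε p.2) ^ 2 ≤ K * ε p.2 := by
      have : Q * (2 * ε p.2) ^ 2 = (8 * Q * ε p.2) * (ε p.2 / 2) := by ring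
      rw [this]
      calc (8 * Q * ε p.2) * (ε p.2 / 2) ≤ 1 * (ε p.2 / 2) := by gcongr
        _ ≤ 1 * ε p.2 := by linarith
        _ ≤ K * ε p.2 := by gcongr
    have g4 : 3 * K * ε p.2 ≤ R * ε p.2 := by gcongr
    linarith
  have hgY : ∀ x : E n, ‖x‖ ≤ 2 * ε p.2 → g (w + x) = h (p.1 + Y x) := by
    intro x hx
    rw [(hgr _ (ball_subset_ball (min_le_right _ _) (hmem x hx))).1, hY, add_sub_cancel]
  have hg0 : g w = h p.1 := by
    have := (hgr _ (ball_subset_ball (min_le_right _ _) hw0)).1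
    rw [this, h7]
  have hcg : ContinuousOn g (closedBall w (2 * ε p.2)) := by
    intro y hy
    rw [mem_closedBall, dist_eq_norm] at hy
    have := hmem (y - w) hy
    rw [add_sub_cancel] at this
    exact (hgr _ (ball_subset_ball (min_le_right _ _) this)).2.continuousWithinAt
  have hs := mo_smooth hεp hcg
  have hd : fderiv ℝ (fun z => mo g (ε p.2) (lam z)) p.1 =
      fderiv ℝ (mo g (ε p.2)) w ∘L (T : E n →L[ℝ] E n) := by
    rw [hT, Dq_coe h8, hw]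
    rw [hw] at hs
    exact fderiv_comp (𝕜 := ℝ) (g := mo g (ε p.2)) (f := lam) p.1
      (hs.differentiableAt (by simp)) (h8.contDiffAt.differentiableAt (by simp))
  have hosc : ∀ x : E n, ‖x‖ ≤ 2 * ε p.2 → ‖g (w + x) - g w‖ ≤ B * om p := by
    intro x hx
    rw [hgY x hx, hg0]
    exact hD1 _ (hYR x hx)
  refine ⟨om0, ?_, ?_⟩
  · rw [hw] at hs
    exact ContDiffAt.comp p.1 (g := mo g (ε p.2)) hs h8.contDiffAt
  beta_reduce
  rw [hd, ← hw]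
  have hn1 : ‖mo g (ε p.2) w - h p.1‖ ≤ B * om p := by
    rw [← hg0]
    exact mo_close hεp hcg fun y hy => hosc y (by linarith)
  have hn2 : ‖fderiv ℝ (mo g (ε p.2)) w‖ * ε p.2 ≤ kc n * (B * om p) := by
    apply mo_deriv_norm hεp hcg
    intro s hs
    apply hosc
    rw [norm_smul, Real.norm_of_nonneg hεp.le]
    nlinarith
  have hkc : 0 ≤ kc n := kc_nonneg
  have hBom : 0 ≤ B * om p := mul_nonneg hB om0
  refine ⟨?_, ?_, fun v hv => ?_⟩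
  · refine hn1.trans ?_
    have : 0 ≤ (kc n * B * K + M) * om p := by positivity
    linarith
  · calc ‖fderiv ℝ (mo g (ε p.2)) w ∘L (T : E n →L[ℝ] E n)‖ * ε p.2
        ≤ (‖fderiv ℝ (mo g (ε p.2)) w‖ * ‖(T : E n →L[ℝ] E n)‖) * ε p.2 := by
          gcongr
          exact ContinuousLinearMap.opNorm_comp_le _ _
      _ = (‖fderiv ℝ (mo g (ε p.2)) w‖ * ε p.2) * ‖(T : E n →L[ℝ] E n)‖ := by ring
      _ ≤ (kc n * (B * om p)) * K := by
          have := h5.1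
          gcongr
      _ ≤ _ := by
          have : 0 ≤ (B + M) * om p := by positivity
          nlinarith
  · obtain ⟨hv1, hv2⟩ := hD2 v hv
    have hval : ∀ s : E n, ‖s‖ ≤ 2 → |l p v (g (w + ε p.2 • s) - g w)| ≤ M * ε p.2 := by
      intro s hs
      have hx : ‖ε p.2 • s‖ ≤ 2 * ε p.2 := by
        rw [norm_smul, Real.norm_of_nonneg hεp.le]
        nlinarith
      rw [hgY _ hx, hg0]
      exact hv1 _ (hYR _ hx)
    constructor
    · rw [← hg0]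
      refine (mo_val hεp (l p v) hcg fun s hs => hval s (by linarith)).trans ?_
      have : 0 ≤ (B + kc n * B * K) * ε p.2 := by positivity
      linarith
    · have hu : ‖T v‖ ≤ K := by
        have := (T : E n →L[ℝ] E n).le_opNorm v
        rw [hv, mul_one] at this
        exact this.trans h5.1
      refine core (l p v) hεp hcg hval ht hu htK fun s hs => ?_
      have hx1 : ‖ε p.2 • s‖ ≤ 2 * ε p.2 := by
        rw [norm_smul, Real.norm_of_nonneg hεp.le]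
        nlinarith
      have hx2 : ‖ε p.2 • (s + t • T v)‖ ≤ 2 * ε p.2 := by
        rw [norm_smul, Real.norm_of_nonneg hεp.le]
        have : ‖s + t • T v‖ ≤ 2 := by
          refine (norm_add_le _ _).trans ?_
          rw [norm_smul, Real.norm_of_nonneg ht.le]
          have : t * ‖T v‖ ≤ t * K := by gcongr
          linarith
        nlinarith
      change c * t * ε p.2 ≤ l p v (g (w + ε p.2 • (s + t • T v)) - g (w + ε p.2 • s))
      rw [hgY _ hx1, hgY _ hx2]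
      refine hv2 _ _ (hYR _ hx1) (hYR _ hx2) ?_
      have e1 : Y (ε p.2 • (s + t • T v)) - Y (ε p.2 • s) - (t * ε p.2) • v =
          e (ε p.2 • (s + t • T v)) - e (ε p.2 • s) := by
        rw [he, he]
        have e2 : T.symm (ε p.2 • (s + t • T v)) = T.symm (ε p.2 • s) + (t * ε p.2) • v := by
          rw [smul_add, map_add, smul_smul, map_smul T.symm (ε p.2 * t), T.symm_apply_apply,
            mul_comm (ε p.2) t]
        rw [e2]
        abel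
      rw [e1]
      refine (norm_sub_le _ _).trans ?_
      have g1 := hex _ hx1
      have g2 := hex _ hx2
      have g3 : Q * (2 * ε p.2) ^ 2 + Q * (2 * ε p.2) ^ 2 = (8 * Q * ε p.2) * ε p.2 := by ring
      have g4 : (8 * Q * ε p.2) * ε p.2 ≤ δ * ε p.2 := by gcongr
      linarith

/-- the mollification in its own coordinates -/
lemma NrG.self {ε : ℕ → ℝ} (hε : ∀ m, 0 < ε m) (hε0 : Tendsto ε atTop (𝓝 0))
    {g : E n → E n} {z₀ : E n} {K R t δ c M B : ℝ}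
    {om : E n × ℕ → ℝ} {l : E n × ℕ → Fn n} (hA : DMF R t δ c M B ε g z₀ om l)
    (hB : 0 ≤ B) (hM : 0 ≤ M) (hK : 1 ≤ K) (hR : 3 * K ≤ R) (ht : 0 < t) (htK : t * K ≤ 1)
    (hδ : 0 < δ) (hgc : ∀ᶠ w in 𝓝 z₀, ContinuousAt g w) :
    NrG ε g z₀ om l (fun m => mo g (ε m)) (B + kc n * B * K + M)
      (c - M * t * K ^ 2 * k2 n) := by
  have hid : ∀ z : E n, LD n (fun y : E n => y) z := fun z =>
    (Diffeomorph.refl (𝓡 n) (E n) ∞).isLocalDiffeomorph z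
  have hDq : ∀ z : E n, (Dq (fun y : E n => y) z : E n →L[ℝ] E n) =
      ContinuousLinearMap.id ℝ (E n) := by
    intro z
    rw [Dq_coe (hid z)]
    exact fderiv_fun_id
  have hDs : ∀ z : E n, ((Dq (fun y : E n => y) z).symm : E n →L[ℝ] E n) =
      ContinuousLinearMap.id ℝ (E n) := by
    intro z
    ext1 v
    have h1 := DFunLike.congr_fun (hDq z) ((Dq (fun y : E n => y) z).symm v)
    simp only [ContinuousLinearEquiv.coe_coe, ContinuousLinearEquiv.apply_symm_apply,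
      ContinuousLinearMap.id_apply] at h1
    exact h1.symm
  refine NrG.source (lam := fun y => y) (lam' := fun y => y) hε hε0 hA hB hM hK hR ht htK hδ
    (hid z₀) (Eventually.of_forall fun z => ?_) (hid z₀) (Eventually.of_forall fun _ => rfl)
    (Eventually.of_forall fun _ => rfl) hgc
  rw [hDq, hDs]
  exact ⟨ContinuousLinearMap.norm_id_le.trans hK, ContinuousLinearMap.norm_id_le.trans hK⟩

/-- the functionals of a local diffeomorphism -/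
def lq (h : E n → E n) (z : E n) : Fn n := tr (fun v => innerSL ℝ v) (Dq h z)

/-- local diffeomorphisms are steady -/
lemma DMF.of_LD {ε : ℕ → ℝ} (hε : ∀ m, 0 < ε m) (hε0 : Tendsto ε atTop (𝓝 0))
    {h : E n → E n} {z₀ : E n} {R t : ℝ} (hh : LD n h z₀) (hR : 1 ≤ R) (ht : 0 < t) :
    ∃ Q : ℝ, 0 ≤ Q ∧ DMF R t (t / 4) (1 / 2) (R + 1) Q ε h z₀ (fun p => ε p.2)
        (fun p => lq h p.1) ∧
      NrG ε h z₀ (fun p => ε p.2) (fun p => lq h p.1) (fun _ => h) Q 1 := by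
  obtain ⟨Q, ρ, hQ1, hρ, hq⟩ := quad hh
  have hQ0 : 0 ≤ Q := by linarith
  have hR0 : 0 ≤ R := by linarith
  have e1 : ∀ᶠ p : E n × ℕ in 𝓝 z₀ ×ˢ atTop, p.1 ∈ ball z₀ (ρ / 2) :=
    tendsto_fst.eventually (ball_mem_nhds _ (by positivity))
  have e2 : ∀ᶠ p : E n × ℕ in 𝓝 z₀ ×ˢ atTop, R * ε p.2 < min (ρ / 2) 1 := by
    have := (tendsto_scale hε0 z₀).const_mul R
    rw [mul_zero] at this
    exact this.eventually_lt_const (by positivity)
  have e3 : ∀ᶠ p : E n × ℕ in 𝓝 z₀ ×ˢ atTop, Q ^ 2 * R ^ 2 * ε p.2 < min (t / 8) 1 := by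
    have := (tendsto_scale hε0 z₀).const_mul (Q ^ 2 * R ^ 2)
    rw [mul_zero] at this
    exact this.eventually_lt_const (by positivity)
  have hnv : ∀ v : E n, ‖v‖ = 1 → ‖innerSL ℝ v‖ = 1 := fun v hv => by rw [innerSL_apply_norm, hv]
  refine ⟨2 * Q * R, by positivity, ⟨?_, tendsto_scale hε0 z₀, ?_⟩, ?_⟩
  · filter_upwards [e1, e2, e3] with p h1 h2 h3
    have hεp := (hε p.2).le
    have hp := hq p.1 (ball_subset_ball (by linarith) h1)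
    have h2a : R * ε p.2 ≤ ρ / 2 := h2.le.trans (min_le_left _ _)
    have h2b : R * ε p.2 ≤ 1 := h2.le.trans (min_le_right _ _)
    have h3a : Q ^ 2 * R ^ 2 * ε p.2 ≤ t / 8 := h3.le.trans (min_le_left _ _)
    have h3b : Q ^ 2 * R ^ 2 * ε p.2 ≤ 1 := h3.le.trans (min_le_right _ _)
    have hy' : ∀ y : E n, ‖y‖ ≤ R * ε p.2 → ‖h (p.1 + y) - h p.1 - Dq h p.1 y‖ ≤
        Q * (R * ε p.2) ^ 2 := by
      intro y hy
      have g0 : p.1 + y ∈ ball z₀ ρ := by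
        rw [mem_ball] at h1 ⊢
        calc dist (p.1 + y) z₀ ≤ dist (p.1 + y) p.1 + dist p.1 z₀ := dist_triangle _ _ _
          _ < ρ / 2 + ρ / 2 := by
              apply add_lt_add_of_le_of_lt _ h1
              rw [dist_eq_norm, add_sub_cancel_left]
              linarith
          _ = ρ := by ring
      have g1 := (hp.2.2.2 _ g0).1
      rw [add_sub_cancel_left] at g1
      exact g1.trans (by gcongr)
    have key : ∀ v : E n, ‖v‖ = 1 → ∀ y : E n, ‖y‖ ≤ R * ε p.2 →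
        |lq h p.1 v (h (p.1 + y) - h p.1) - inner ℝ v y| ≤ (Q ^ 2 * R ^ 2 * ε p.2) * ε p.2 := by
      intro v hv y hy
      have g1 := corr (l := innerSL ℝ v) (D := Dq h p.1) (hy' y hy) hQ0 hp.2.2.1
      have g2 : lq h p.1 v (h (p.1 + y) - h p.1) - inner ℝ v y =
          innerSL ℝ v ((Dq h p.1).symm (h (p.1 + y) - h p.1 - Dq h p.1 y)) := by
        unfold lq
        rw [tr_apply, map_sub (Dq h p.1).symm (h (p.1 + y) - h p.1) (Dq h p.1 y),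
          (Dq h p.1).symm_apply_apply, map_sub (innerSL ℝ v), innerSL_apply_apply ℝ v y]
      rw [g2]
      refine g1.trans (le_of_eq ?_)
      rw [hnv v hv]
      ring
    refine ⟨hεp, fun y hy => ?_, fun v hv => ⟨fun y hy => ?_, fun y y' hy hy' hyy => ?_⟩⟩
    · have e4 : h (p.1 + y) - h p.1 = (h (p.1 + y) - h p.1 - Dq h p.1 y) + Dq h p.1 y := by abel
      rw [e4]
      refine (norm_add_le _ _).trans ?_
      have g1 : ‖Dq h p.1 y‖ ≤ Q * (R * ε p.2) :=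
        ((Dq h p.1 : E n →L[ℝ] E n).le_opNorm y).trans (by
          have := hp.2.1
          gcongr)
      have g2 := hy' y hy
      have g3 : Q * (R * ε p.2) ^ 2 ≤ Q * (R * ε p.2) := by
        have : (R * ε p.2) ^ 2 ≤ R * ε p.2 := by
          have : 0 ≤ R * ε p.2 := by positivity
          nlinarith
        gcongr
      linarith
    · have g1 := key v hv y hy
      have g2 : |inner ℝ v y| ≤ R * ε p.2 := by
        refine (abs_real_inner_le_norm v y).trans ?_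
        rw [hv, one_mul]
        exact hy
      obtain ⟨x, hx⟩ : ∃ x, x = lq h p.1 v (h (p.1 + y) - h p.1) := ⟨_, rfl⟩
      rw [← hx] at g1 ⊢
      have e4 : x = (x - inner ℝ v y) + inner ℝ v y := by ring
      rw [e4]
      refine (abs_add_le _ _).trans ?_
      have : (Q ^ 2 * R ^ 2 * ε p.2) * ε p.2 ≤ 1 * ε p.2 := by gcongr
      linarith
    · have g1 := (abs_le.1 (key v hv y hy)).2
      have g2 := (abs_le.1 (key v hv y' hy')).1
      have e4 : lq h p.1 v (h (p.1 + y') - h (p.1 + y)) =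
          lq h p.1 v (h (p.1 + y') - h p.1) - lq h p.1 v (h (p.1 + y) - h p.1) := by
        rw [← map_sub]
        congr 1
        abel
      rw [e4]
      have e5 : inner ℝ v y' - inner ℝ v y = t * ε p.2 +
          inner ℝ v (y' - y - (t * ε p.2) • v) := by
        rw [inner_sub_right, inner_sub_right, inner_smul_right, real_inner_self_eq_norm_sq, hv]
        ring
      have e6 : |inner ℝ v (y' - y - (t * ε p.2) • v)| ≤ t / 4 * ε p.2 := by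
        refine (abs_real_inner_le_norm v _).trans ?_
        rw [hv, one_mul]
        exact hyy
      have e7 := (abs_le.1 e6).1
      have e8 : (Q ^ 2 * R ^ 2 * ε p.2) * ε p.2 ≤ t / 8 * ε p.2 := by gcongr
      linarith
  · intro σ hσ
    have e4 : ∀ᶠ p : E n × ℕ in 𝓝 z₀ ×ˢ atTop, Q * ε p.2 < σ := by
      have := (tendsto_scale hε0 z₀).const_mul Q
      rw [mul_zero] at this
      exact this.eventually_lt_const hσ
    filter_upwards [e1, e4] with p h1 h4 v hv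
    have hεp := (hε p.2).le
    have hp := hq p.1 (ball_subset_ball (by linarith) h1)
    have g1 : ‖lq h p.1 v‖ ≤ 1 * Q := by
      refine (ContinuousLinearMap.opNorm_comp_le _ _).trans ?_
      rw [hnv v hv]
      have := hp.2.2.1
      gcongr
    calc ‖lq h p.1 v‖ * ε p.2 ^ 2 ≤ (1 * Q) * ε p.2 ^ 2 := by gcongr
      _ = (Q * ε p.2) * ε p.2 := by ring
      _ ≤ σ * ε p.2 := by gcongr
  · have h9 : ∀ᶠ p : E n × ℕ in 𝓝 z₀ ×ˢ atTop, LD n h p.1 := tendsto_fst.eventually hh.eventually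
    filter_upwards [h9, e1] with p hp h1
    have hεp := (hε p.2).le
    have hp' := hq p.1 (ball_subset_ball (by linarith) h1)
    refine ⟨hεp, hp.contDiffAt, ?_, ?_, fun v hv => ⟨?_, ?_⟩⟩
    · rw [sub_self, norm_zero]
      positivity
    · rw [← Dq_coe hp]
      have h2 : ‖(Dq h p.1 : E n →L[ℝ] E n)‖ ≤ 2 * Q * R := by
        have := hp'.2.1
        nlinarith
      gcongr
    · rw [sub_self, map_zero, abs_zero]
      positivity
    · unfold lq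
      rw [tr_apply, ← Dq_coe hp]
      have h2 : (Dq h p.1).symm ((Dq h p.1 : E n →L[ℝ] E n) v) = v :=
        (Dq h p.1).symm_apply_apply v
      rw [h2, innerSL_apply_apply ℝ v v, real_inner_self_eq_norm_sq, hv]
      norm_num

/-- the maps are local diffeomorphisms -/
lemma NrG.ld {ε : ℕ → ℝ} {h : E n → E n} {z₀ : E n} {C θ : ℝ}
    {om : E n × ℕ → ℝ} {l : E n × ℕ → Fn n} {G : ℕ → E n → E n}
    (hG : NrG ε h z₀ om l G C θ) (hθ : 0 < θ) :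
    ∀ᶠ p : E n × ℕ in 𝓝 z₀ ×ˢ atTop, LD n (G p.2) p.1 := by
  obtain ⟨P1, hP1, P2, hP2, hP⟩ := eventually_prod_iff.1 hG
  have h3 : ∀ᶠ p : E n × ℕ in 𝓝 z₀ ×ˢ atTop, ∀ᶠ y in 𝓝 p.1, P1 y :=
    tendsto_fst.eventually (eventually_eventually_nhds.2 hP1)
  have h4 : ∀ᶠ p : E n × ℕ in 𝓝 z₀ ×ˢ atTop, P2 p.2 := tendsto_snd.eventually hP2
  filter_upwards [h3, h4] with p g1 g2
  refine Pool.Agent.Y207.SH3.LD_of_pos ?_ fun u hu h0 => ?_
  · filter_upwards [g1] with y hy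
    exact (hP hy g2).2.1
  · have h5 := ((hP g1.self_of_nhds g2).2.2.2.2 u hu).2
    change θ ≤ l (p.1, p.2) u (fderiv ℝ (G p.2) p.1 u) at h5
    rw [h0, map_zero] at h5
    linarith

/-- one full step, in a fixed coordinate system -/
lemma NrG.step {ε : ℕ → ℝ} (hε : ∀ m, 0 < ε m) (hε0 : Tendsto ε atTop (𝓝 0))
    {h g lam lam' μ ν : E n → E n} {z₀ : E n} {K R t δ c M B C θ : ℝ} {G : ℕ → E n → E n}
    {τ : E n → ℝ} {om : E n × ℕ → ℝ} {l : E n × ℕ → Fn n} (hA : DMF R t δ c M B ε h z₀ om l)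
    (hB : 0 ≤ B) (hM : 0 ≤ M) (hK : 1 ≤ K) (hR : 3 * K ≤ R) (ht : 0 < t) (htK : t * K ≤ 1)
    (hδ : 0 < δ) (hMc : M * t * K ^ 2 * k2 n < c) (hlam : LD n lam z₀)
    (hlK : ∀ᶠ z in 𝓝 z₀, ‖(Dq lam z : E n →L[ℝ] E n)‖ ≤ K ∧
      ‖((Dq lam z).symm : E n →L[ℝ] E n)‖ ≤ K)
    (hlam' : LD n lam' (lam z₀)) (hll : ∀ᶠ z in 𝓝 z₀, lam' (lam z) = z)
    (hc : ContinuousAt h z₀) (hμ : LD n μ (h z₀)) (hν : LD n ν (μ (h z₀)))
    (hνμ : ∀ᶠ y in 𝓝 (h z₀), ν (μ y) = y)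
    (hgl : ∀ᶠ w in 𝓝 (lam z₀), g w = μ (h (lam' w)))
    (hgc : ∀ᶠ w in 𝓝 (lam z₀), ContinuousAt g w)
    (hτ : ∀ᶠ z in 𝓝 z₀, ContDiffAt ℝ ∞ τ z) (hτ0 : ∀ z, 0 ≤ τ z) (hτ1 : ∀ z, τ z ≤ 1)
    (hC : 0 ≤ C) (hθ : 0 < θ) (hG : NrG ε h z₀ om l G C θ) :
    ∃ C' θ' : ℝ, 0 ≤ C' ∧ 0 < θ' ∧ NrG ε h z₀ om l
      (fun m z => ν (μ (G m z) + τ z • (mo g (ε m) (lam z) - μ (G m z)))) C' θ' := by
  have hR0 : 0 ≤ R := by linarith
  obtain ⟨c', M', hc', hM', hMc'⟩ : ∃ c' M' : ℝ, c' < c ∧ M < M' ∧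
      M' * t * K ^ 2 * k2 n < c' := by
    obtain ⟨c', h1, h2⟩ := exists_between hMc
    have c1 : ∀ᶠ M' in 𝓝 M, M' * t * K ^ 2 * k2 n < c' :=
      (Continuous.continuousAt (by fun_prop : Continuous fun M' : ℝ => M' * t * K ^ 2 * k2 n)
        ).eventually_lt_const h1
    have c0 : ∀ᶠ M' in 𝓝[>] M, M < M' := self_mem_nhdsWithin
    obtain ⟨M', h3, h4⟩ := (c0.and (c1.filter_mono nhdsWithin_le_nhds)).exists
    exact ⟨c', M', h2, h3, h4⟩
  obtain ⟨B', hB', hA1⟩ := hA.change hε hB hR0 ht hM' hc' hc hμ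
  have hc1 : ContinuousAt (fun z => μ (h z)) z₀ :=
    ContinuousAt.comp (f := h) (g := μ) hμ.continuousAt hc
  obtain ⟨C₁, hC₁, a1⟩ := NrG.change hε hA.2.1 hA.2.2 hG hC (half_lt_self hθ) hc hμ
  have a2 := NrG.source hε hε0 hA1 hB' (hM.trans hM'.le) hK hR ht htK hδ hlam hlK hlam' hll hgl hgc
  obtain ⟨C₂, hC₂⟩ : ∃ C₂, C₂ = B' + kc n * B' * K + M' := ⟨_, rfl⟩
  obtain ⟨θ₂, hθ₂⟩ : ∃ θ₂, θ₂ = c' - M' * t * K ^ 2 * k2 n := ⟨_, rfl⟩
  have hθ₂0 : 0 < θ₂ := by rw [hθ₂]; linarith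
  rw [← hC₂, ← hθ₂] at a2
  obtain ⟨θ₃, hθ₃⟩ : ∃ θ₃, θ₃ = min (θ / 2) θ₂ := ⟨_, rfl⟩
  have hθ₃0 : 0 < θ₃ := by rw [hθ₃]; exact lt_min (by linarith) hθ₂0
  have hC3 : 0 ≤ max C₁ C₂ := hC₁.trans (le_max_left _ _)
  have b1 := a1.mono hε (le_max_left C₁ C₂) (θ' := θ₃) (by rw [hθ₃]; exact min_le_left _ _)
  have b2 := a2.mono hε (le_max_right C₁ C₂) (θ' := θ₃) (by rw [hθ₃]; exact min_le_right _ _)
  have a3 := NrG.interp hε hε0 b1 b2 hC3 (half_lt_self hθ₃0) hτ hτ0 hτ1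
  obtain ⟨C₄, hC₄, a4⟩ := NrG.change hε hA1.2.1 hA1.2.2 a3 (by positivity)
    (half_lt_self (half_pos hθ₃0)) hc1 hν
  refine ⟨C₄, _, hC₄, half_pos (half_pos hθ₃0), a4.congr ?_ ?_ (Eventually.of_forall fun _ => rfl)⟩
  · filter_upwards [hc.eventually hνμ] with z hz
    exact hz
  · have b1 : ∀ᶠ y in 𝓝 (h z₀), LD n ν (μ y) := hμ.continuousAt.eventually hν.eventually
    have b2 : ∀ᶠ y in 𝓝 (h z₀), ∀ᶠ y' in 𝓝 y, ν (μ y') = y' := eventually_eventually_nhds.2 hνμ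
    have b3 := (tendsto_val hc).eventually (b1.and (b2.and hμ.eventually))
    filter_upwards [b3] with p hp
    obtain ⟨g1, g2, g3⟩ := hp
    have g4 : (Dq ν (μ (h p.1)) : E n →L[ℝ] E n) ∘L (Dq μ (h p.1) : E n →L[ℝ] E n) =
        ContinuousLinearMap.id ℝ (E n) := by
      rw [Dq_coe g1, Dq_coe g3]
      have g5 : HasFDerivAt (fun y => ν (μ y))
          (fderiv ℝ ν (μ (h p.1)) ∘L fderiv ℝ μ (h p.1)) (h p.1) :=
        HasFDerivAt.comp (h p.1) (g := ν) (f := μ)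
          (g1.contDiffAt.differentiableAt (by simp)).hasFDerivAt
          (g3.contDiffAt.differentiableAt (by simp)).hasFDerivAt
      have g6 : HasFDerivAt (fun y => ν (μ y)) (ContinuousLinearMap.id ℝ (E n)) (h p.1) :=
        (hasFDerivAt_id (h p.1)).congr_of_eventuallyEq g2
      exact g5.unique g6
    funext v
    ext1 x
    change l p v ((Dq μ (h p.1)).symm ((Dq ν (μ (h p.1))).symm x)) = l p v x
    congr 1
    have g7 := DFunLike.congr_fun g4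
      ((Dq μ (h p.1)).symm ((Dq ν (μ (h p.1))).symm x))
    simp only [ContinuousLinearMap.comp_apply, ContinuousLinearEquiv.coe_coe,
      ContinuousLinearEquiv.apply_symm_apply, ContinuousLinearMap.id_apply] at g7
    exact g7.symm

end Run7.h575.MS
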