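import Pool.Agent.Run7.h575.MS4
import Pool.Agent.Run7.h60.AAMain

/-!
# Maps which are steady at small scales: manifolds without boundary
-/

set_option autoImplicit false

open Set Filter Topology Metric Function MeasureTheory
open scoped Manifold ContDiff

noncomputable section

namespace Run7.h575.MS

open Pool.Agent.Y522 Pool.Agent.R765 Run7.h60.Sc

/-- `h` is steady at the point `z` and the scale `r`, in the direction `v` -/
def Std {n : ℕ} (a κ δ σ : ℝ) (h : E n → E n) (z : E n) (r : ℝ) (v : E n) : Prop :=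
  ∃ l : E n →L[ℝ] ℝ,
    (∀ y : E n, ‖y‖ ≤ r → |l (h (z + y) - h z)| ≤ r ∧ ‖l‖ * ‖h (z + y) - h z‖ ^ 2 ≤ σ * r) ∧
    ∀ y y' : E n, ‖y‖ ≤ r → ‖y'‖ ≤ r → ‖y' - y - (κ * r) • v‖ ≤ δ * r →
      a * κ ^ 2 * r ≤ l (h (z + y') - h (z + y))

/-- `h` is steady near `0` at the scales `ε m` -/
def Sty {n : ℕ} (a : ℝ) (ε : ℕ → ℝ) (h : E n → E n) : Prop :=
  ∃ ρ κ δ : ℝ, 0 < ρ ∧ 0 < κ ∧ κ ≤ 1 ∧ 0 < δ ∧ ∀ σ : ℝ, 0 < σ → ∀ᶠ m in atTop,
    ∀ z : E n, ‖z‖ < ρ → ∀ v : E n, ‖v‖ = 1 → Std a κ δ σ h z (ε m) v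

/-- diagonal sequences -/
lemma diag {P : ℝ → ℕ → Prop} (h : ∀ σ : ℝ, 0 < σ → ∀ᶠ m in atTop, P σ m) :
    ∃ s : ℕ → ℝ, (∀ m, 0 < s m) ∧ Tendsto s atTop (𝓝 0) ∧ ∀ᶠ m in atTop, P (s m) m := by
  classical
  have h1 : ∀ j : ℕ, ∃ N : ℕ, ∀ m, N ≤ m → P (1 / ((j : ℝ) + 1)) m := fun j =>
    eventually_atTop.1 (h _ (by positivity))
  choose N hN using h1
  obtain ⟨J, hJ⟩ : ∃ J : ℕ → ℕ, ∀ m, J m = Nat.findGreatest (fun j => N j ≤ m) m :=
    ⟨_, fun _ => rfl⟩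
  have hJ1 : Tendsto J atTop atTop := by
    rw [Filter.tendsto_atTop]
    intro j
    filter_upwards [eventually_ge_atTop (max j (N j))] with m hm
    rw [hJ]
    exact Nat.le_findGreatest ((le_max_left _ _).trans hm) ((le_max_right _ _).trans hm)
  refine ⟨fun m => 1 / ((J m : ℝ) + 1), fun m => by positivity, ?_, ?_⟩
  · exact tendsto_one_div_add_atTop_nhds_zero_nat.comp hJ1
  · filter_upwards [eventually_ge_atTop (N 0)] with m hm
    apply hN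
    rw [hJ]
    exact Nat.findGreatest_spec (P := fun j => N j ≤ m) (Nat.zero_le m) hm

/-- the oscillation is attained -/
lemma exists_osc {n : ℕ} (h : E n → E n) {ε : ℕ → ℝ} (hε : ∀ m, 0 < ε m) :
    ∃ om : E n × ℕ → ℝ, ∀ p, ContinuousOn h (closedBall p.1 (ε p.2)) → 0 ≤ om p ∧
      (∀ y : E n, ‖y‖ ≤ ε p.2 → ‖h (p.1 + y) - h p.1‖ ≤ om p) ∧
      ∃ y : E n, ‖y‖ ≤ ε p.2 ∧ om p = ‖h (p.1 + y) - h p.1‖ := by
  have h1 : ∀ p : E n × ℕ, ∃ o : ℝ, ContinuousOn h (closedBall p.1 (ε p.2)) → 0 ≤ o ∧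
      (∀ y : E n, ‖y‖ ≤ ε p.2 → ‖h (p.1 + y) - h p.1‖ ≤ o) ∧
      ∃ y : E n, ‖y‖ ≤ ε p.2 ∧ o = ‖h (p.1 + y) - h p.1‖ := by
    intro p
    by_cases hc : ContinuousOn h (closedBall p.1 (ε p.2))
    · have hc' : ContinuousOn (fun y : E n => ‖h (p.1 + y) - h p.1‖)
          (closedBall 0 (ε p.2)) := by
        have : ContinuousOn (fun y : E n => h (p.1 + y)) (closedBall 0 (ε p.2)) := by
          apply hc.comp (by fun_prop)
          intro y hy
          rw [mem_closedBall, dist_eq_norm, add_sub_cancel_left]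
          exact mem_closedBall_zero_iff.1 hy
        exact (this.sub continuousOn_const).norm
      obtain ⟨y, hy, hmax⟩ := (isCompact_closedBall (0 : E n) (ε p.2)).exists_isMaxOn
        ⟨0, mem_closedBall_self (hε _).le⟩ hc'
      refine ⟨‖h (p.1 + y) - h p.1‖, fun _ => ⟨norm_nonneg _, fun y' hy' => ?_, y,
        mem_closedBall_zero_iff.1 hy, rfl⟩⟩
      exact hmax (mem_closedBall_zero_iff.2 hy')
    · exact ⟨0, fun h' => absurd h' hc⟩
  choose om hom using h1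
  exact ⟨om, hom⟩

/-- steady maps satisfy the local condition -/
lemma Sty.dmf {n : ℕ} {a R : ℝ} {ε : ℕ → ℝ} (hε : ∀ m, 0 < ε m) (hε0 : Tendsto ε atTop (𝓝 0))
    (hR : 0 < R) {h : E n → E n} {κ δ ρ r : ℝ} (hκ : 0 < κ)
    (hS : ∀ σ : ℝ, 0 < σ → ∀ᶠ m in atTop,
      ∀ z : E n, ‖z‖ < ρ → ∀ v : E n, ‖v‖ = 1 → Std a κ δ σ h z (ε m) v)
    (hr : 0 < r) (hrρ : r < ρ) (hc : ContinuousOn h (closedBall 0 (2 * r)))
    (hc' : ∀ z ∈ closedBall (0 : E n) r, ContinuousAt h z) :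
    ∃ (om : E n × ℕ → ℝ) (l : E n × ℕ → Fn n), ∀ z ∈ closedBall (0 : E n) r,
      DMF R (κ * R) (δ * R) (a * κ) R 1 (fun m => ε m / R) h z om l := by
  classical
  obtain ⟨s, hs0, hs1, hs2⟩ := diag hS
  obtain ⟨om, hom⟩ := exists_osc h hε
  have hl : ∀ p : E n × ℕ, ∀ v : E n, ∃ l : E n →L[ℝ] ℝ, Std a κ δ (s p.2) h p.1 (ε p.2) v →
      (∀ y : E n, ‖y‖ ≤ ε p.2 → |l (h (p.1 + y) - h p.1)| ≤ ε p.2 ∧
        ‖l‖ * ‖h (p.1 + y) - h p.1‖ ^ 2 ≤ s p.2 * ε p.2) ∧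
      ∀ y y' : E n, ‖y‖ ≤ ε p.2 → ‖y'‖ ≤ ε p.2 → ‖y' - y - (κ * ε p.2) • v‖ ≤ δ * ε p.2 →
        a * κ ^ 2 * ε p.2 ≤ l (h (p.1 + y') - h (p.1 + y)) := by
    intro p v
    by_cases hv : Std a κ δ (s p.2) h p.1 (ε p.2) v
    · obtain ⟨l, hl⟩ := hv
      exact ⟨l, fun _ => hl⟩
    · exact ⟨0, fun h' => absurd h' hv⟩
  choose l hl using hl
  refine ⟨om, l, fun z hz => ?_⟩
  rw [mem_closedBall_zero_iff] at hz
  have e1 : ∀ᶠ p : E n × ℕ in 𝓝 z ×ˢ atTop, ‖p.1‖ < min ρ (3 / 2 * r) :=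
    tendsto_fst.eventually ((continuous_norm.continuousAt).eventually_lt_const
      (lt_min (by linarith) (by linarith)))
  have e2 : ∀ᶠ p : E n × ℕ in 𝓝 z ×ˢ atTop, ε p.2 < r / 2 :=
    (tendsto_scale hε0 z).eventually_lt_const (by positivity)
  have ec : ∀ᶠ p : E n × ℕ in 𝓝 z ×ˢ atTop, ContinuousOn h (closedBall p.1 (ε p.2)) := by
    filter_upwards [e1, e2] with p g1 g2
    apply hc.mono
    intro w hw
    rw [mem_closedBall, dist_eq_norm] at hw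
    rw [mem_closedBall_zero_iff]
    calc ‖w‖ = ‖(w - p.1) + p.1‖ := by rw [sub_add_cancel]
      _ ≤ ‖w - p.1‖ + ‖p.1‖ := norm_add_le _ _
      _ ≤ r / 2 + 3 / 2 * r := by
          refine add_le_add (hw.trans g2.le) (g1.le.trans (min_le_right _ _))
      _ = 2 * r := by ring
  have es : ∀ᶠ p : E n × ℕ in 𝓝 z ×ˢ atTop, ∀ z' : E n, ‖z'‖ < ρ → ∀ v : E n, ‖v‖ = 1 →
      Std a κ δ (s p.2) h z' (ε p.2) v := tendsto_snd.eventually hs2
  refine ⟨?_, ?_, ?_⟩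
  · filter_upwards [e1, ec, es] with p g1 g2 g3
    obtain ⟨o1, o2, -⟩ := hom p g2
    have hRε : R * (ε p.2 / R) = ε p.2 := by field_simp
    refine ⟨o1, ?_, ?_⟩
    · intro y hy
      rw [hRε] at hy
      rw [one_mul]
      exact o2 y hy
    · intro v hv
      obtain ⟨q1, q2⟩ := hl p v (g3 p.1 (g1.trans_le (min_le_left _ _)) v hv)
      rw [hRε]
      refine ⟨fun y hy => (q1 y hy).1, fun y y' hy hy' hyy => ?_⟩
      have e3 : κ * R * (ε p.2 / R) = κ * ε p.2 := by field_simp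
      have e4 : δ * R * (ε p.2 / R) = δ * ε p.2 := by field_simp
      rw [e3, e4] at hyy
      refine le_trans (le_of_eq ?_) (q2 y y' hy hy' hyy)
      field_simp
  · rw [Metric.tendsto_nhds]
    intro e he
    have hcz := hc' z (mem_closedBall_zero_iff.2 hz)
    obtain ⟨η, hη, hηb⟩ := Metric.eventually_nhds_iff_ball.1
      (hcz.eventually (ball_mem_nhds (h z) (show 0 < e / 2 by linarith)))
    have e3 : ∀ᶠ p : E n × ℕ in 𝓝 z ×ˢ atTop, p.1 ∈ ball z (η / 2) :=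
      tendsto_fst.eventually (ball_mem_nhds _ (by positivity))
    have e4 : ∀ᶠ p : E n × ℕ in 𝓝 z ×ˢ atTop, ε p.2 < η / 2 :=
      (tendsto_scale hε0 z).eventually_lt_const (by positivity)
    filter_upwards [ec, e3, e4] with p g1 g2 g3
    obtain ⟨o1, -, y, hy, ho⟩ := hom p g1
    rw [Real.dist_0_eq_abs, abs_of_nonneg o1, ho]
    have hin1 : p.1 + y ∈ ball z η := by
      rw [mem_ball] at g2 ⊢
      calc dist (p.1 + y) z ≤ dist (p.1 + y) p.1 + dist p.1 z := dist_triangle _ _ _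
        _ < η / 2 + η / 2 := by
            apply add_lt_add _ g2
            rw [dist_eq_norm, add_sub_cancel_left]
            exact hy.trans_lt g3
        _ = η := by ring
    have f1 := mem_ball.1 (hηb _ hin1)
    have f2 := mem_ball.1 (hηb _ (ball_subset_ball (by linarith) g2))
    rw [← dist_eq_norm]
    calc dist (h (p.1 + y)) (h p.1) ≤ dist (h (p.1 + y)) (h z) + dist (h p.1) (h z) :=
          dist_triangle_right _ _ _
      _ < e / 2 + e / 2 := add_lt_add f1 f2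
      _ = e := by ring
  · intro σ hσ
    have e3 : ∀ᶠ p : E n × ℕ in 𝓝 z ×ˢ atTop, s p.2 < σ / R :=
      tendsto_snd.eventually (hs1.eventually_lt_const (by positivity))
    filter_upwards [e1, ec, es, e3] with p g1 g2 g3 g4 v hv
    obtain ⟨-, -, y, hy, ho⟩ := hom p g2
    obtain ⟨q1, -⟩ := hl p v (g3 p.1 (g1.trans_le (min_le_left _ _)) v hv)
    rw [ho]
    refine (q1 y hy).2.trans ?_
    have hεp := hε p.2
    calc s p.2 * ε p.2 ≤ (σ / R) * ε p.2 := by gcongr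
      _ = σ * (ε p.2 / R) := by ring

section main

variable {n : ℕ} {X Y : Type} [TopologicalSpace X] [TopologicalSpace Y]
    [ChartedSpace (E n) X] [ChartedSpace (E n) Y]

/-- `f` is steady at `x` at the scales `ε m` -/
def StAt (d : X → X → ℝ) (K a : ℝ) (ε : ℕ → ℝ) (f : X → Y) (x : X) : Prop :=
  ∃ (A : E n → X) (B : Y → E n), A 0 = x ∧ LD n A 0 ∧ LD n B (f x) ∧ BiLip d K A ∧
    Sty a ε fun z => B (f (A z))

/-- the constant -/
def ac (n : ℕ) (K : ℝ) : ℝ := 9 * K ^ 8 * (k2 n + 1)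

lemma ac_ge {K : ℝ} (hK : 1 ≤ K) : 9 * K ^ 8 ≤ ac n K := by
  have h : 0 ≤ k2 n := k2_nonneg
  have hK8 : 0 < K ^ 8 := by positivity
  unfold ac
  nlinarith

lemma ac_gt {K : ℝ} (hK : 1 ≤ K) : 9 * K ^ 8 * k2 n < ac n K := by
  have hK8 : 0 < K ^ 8 := by positivity
  unfold ac
  nlinarith

lemma ac_pos {K : ℝ} (hK : 1 ≤ K) : 0 < ac n K := by
  have hK8 : 0 < K ^ 8 := by positivity
  have := ac_ge (n := n) hK
  linarith

/-- steps are short -/
lemma step_short {a κ δ σ r : ℝ} {h : E n → E n} {z v : E n} (hr : 0 < r) (hκ : 0 < κ)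
    (hκ1 : κ ≤ 1) (hδ : 0 < δ) (hv : ‖v‖ = 1) (hS : Std a κ δ σ h z r v) : a * κ ^ 2 ≤ 1 := by
  obtain ⟨l, h1, h2⟩ := hS
  have hn : ‖(κ * r) • v‖ ≤ r := by
    rw [norm_smul, hv, mul_one, Real.norm_of_nonneg (by positivity)]
    nlinarith
  have h3 := h2 0 ((κ * r) • v) (by rw [norm_zero]; exact hr.le) hn (by
    rw [sub_zero, sub_self, norm_zero]
    positivity)
  have h4 := (abs_le.1 (h1 ((κ * r) • v) hn).1).2
  rw [add_zero] at h3
  have h5 : a * κ ^ 2 * r ≤ 1 * r := by linarith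
  exact le_of_mul_le_mul_right h5 hr

/-- a box -/
lemma exists_boxs {f : C(X, Y)} {d : X → X → ℝ} {K a : ℝ} {ε : ℕ → ℝ} (hn : 0 < n)
    (hK : 1 ≤ K) (ha : 9 * K ^ 8 ≤ a) (hak : 9 * K ^ 8 * k2 n < a) (hε : ∀ m, 0 < ε m)
    (hε0 : Tendsto ε atTop (𝓝 0)) {x : X} (h : StAt (n := n) d K a ε f x) :
    ∃ b : Bx n f, b.A 0 = x ∧ (∀ z ∈ closedBall (0 : E n) (2 * b.r),
        ∀ w ∈ closedBall (0 : E n) (2 * b.r), d (b.A z) (b.A w) ≤ K * ‖z - w‖ ∧
          ‖z - w‖ ≤ K * d (b.A z) (b.A w)) ∧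
      ∃ k : Ct, k.Ok n ∧ k.K = K ^ 2 ∧ ∃ (om : E n × ℕ → ℝ) (l : E n × ℕ → Fn n),
        ∀ z ∈ closedBall (0 : E n) b.r,
          DMF k.R k.t k.δ k.c k.M 1 (fun m => ε m / (3 * K ^ 2)) b.h z om l := by
  obtain ⟨A, B, hA0, hA, hB, hd, ρ, κ, δ, hρ, hκ, hκ1, hδ, hS⟩ := h
  obtain ⟨u, hu, hui⟩ := hB.eventually_injOn
  obtain ⟨V, hV, hVo, hxV⟩ := mem_nhds_iff.1 (Filter.inter_mem hu hB.eventually)
  obtain ⟨v, hv, hvi⟩ := hA.eventually_injOn
  have hfA : ∀ᶠ z in 𝓝 (0 : E n), f (A z) ∈ V := by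
    have c1 : ContinuousAt (fun z => f (A z)) 0 := f.continuous.continuousAt.comp hA.continuousAt
    refine c1.eventually (hVo.mem_nhds ?_)
    change f (A 0) ∈ V
    rw [hA0]
    exact hxV
  obtain ⟨s, hs, hsb⟩ := Metric.eventually_nhds_iff_ball.1 (hA.eventually.and (hfA.and hv))
  unfold BiLip at hd
  rw [← Prod.mk_zero_zero, nhds_prod_eq] at hd
  obtain ⟨P1, hP1, P2, hP2, hP⟩ := eventually_prod_iff.1 hd
  obtain ⟨s', hs', hsb'⟩ := Metric.eventually_nhds_iff_ball.1 (hP1.and hP2)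
  obtain ⟨r, hr, hr1, hr2, hr3⟩ : ∃ r : ℝ, 0 < r ∧ 2 * r < s ∧ 2 * r < s' ∧ 2 * r < ρ := by
    refine ⟨min (min s s') ρ / 4, by positivity, ?_, ?_, ?_⟩
    · have := (min_le_left (min s s') ρ).trans (min_le_left s s')
      linarith
    · have := (min_le_left (min s s') ρ).trans (min_le_right s s')
      linarith
    · have := min_le_right (min s s') ρ
      linarith
  have hin : ∀ z ∈ closedBall (0 : E n) (2 * r), z ∈ ball (0 : E n) s := fun z hz =>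
    closedBall_subset_ball hr1 hz
  have hin' : ∀ z ∈ closedBall (0 : E n) (2 * r), z ∈ ball (0 : E n) s' := fun z hz =>
    closedBall_subset_ball hr2 hz
  obtain ⟨b, hbA, hbr, hbh⟩ : ∃ b : Bx n f, b.A = A ∧ b.r = r ∧
      b.h = fun z => B (f (A z)) :=
    ⟨{ A := A, B := B, V := V, r := r, hr := hr
       hAi := fun a ha a' ha' haa => hvi (hsb a (hin a ha)).2.2 (hsb a' (hin a' ha')).2.2 haa
       hAd := fun z hz => (hsb z (hin z hz)).1
       hV := hVo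
       hBi := hui.mono fun y hy => (hV hy).1
       hBd := fun y hy => (hV hy).2
       hfV := fun z hz => (hsb z (hin z hz)).2.1 }, rfl, rfl, rfl⟩
  refine ⟨b, by rw [hbA, hA0], ?_, ?_⟩
  · rw [hbA, hbr]
    intro z hz w hw
    exact hP (hsb' z (hin' z hz)).1 (hsb' w (hin' w hw)).2
  · have hK0 : 0 < K := by linarith
    have hR : 0 < 3 * K ^ 2 := by positivity
    -- the steps are short
    have hak2 : a * κ ^ 2 ≤ 1 := by
      obtain ⟨m, hm⟩ := (hS 1 one_pos).exists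
      let v₀ : E n := EuclideanSpace.single ⟨0, hn⟩ 1
      have hv₀ : ‖v₀‖ = 1 := by simp [v₀]
      exact step_short (hε m) hκ hκ1 hδ hv₀ (hm 0 (by simpa using hρ) v₀ hv₀)
    have hk3 : κ * (3 * K ^ 4) ≤ 1 := by
      have e1 : (κ * (3 * K ^ 4)) ^ 2 ≤ 1 ^ 2 := by
        calc (κ * (3 * K ^ 4)) ^ 2 = 9 * K ^ 8 * κ ^ 2 := by ring
          _ ≤ a * κ ^ 2 := by gcongr
          _ ≤ 1 ^ 2 := by rw [one_pow]; exact hak2
      exact (pow_le_pow_iff_left₀ (by positivity) (by norm_num) (by norm_num)).1 e1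
    have hS' : ∀ σ : ℝ, 0 < σ → ∀ᶠ m in atTop, ∀ z : E n, ‖z‖ < ρ → ∀ v : E n, ‖v‖ = 1 →
        Std a κ δ σ b.h z (ε m) v := by
      rw [hbh]
      exact hS
    have c1 : ContinuousOn b.h (closedBall 0 (2 * r)) := by
      have := b.hcontOn
      rw [hbr] at this
      exact this
    have c2 : ∀ z ∈ closedBall (0 : E n) r, ContinuousAt b.h z := by
      intro z hz
      apply b.hcont
      rw [hbr]
      exact closedBall_subset_closedBall (by linarith) hz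
    obtain ⟨om, l, hl⟩ := Sty.dmf hε hε0 hR hκ hS' hr (by linarith) c1 c2
    refine ⟨⟨K ^ 2, 3 * K ^ 2, κ * (3 * K ^ 2), δ * (3 * K ^ 2), a * κ, 3 * K ^ 2⟩, ?_, rfl,
      om, l, ?_⟩
    · refine ⟨one_le_pow₀ hK, le_rfl, by positivity, ?_, by positivity, by positivity, ?_⟩
      · change κ * (3 * K ^ 2) * K ^ 2 ≤ 1
        calc κ * (3 * K ^ 2) * K ^ 2 = κ * (3 * K ^ 4) := by ring
          _ ≤ 1 := hk3
      · change 3 * K ^ 2 * (κ * (3 * K ^ 2)) * (K ^ 2) ^ 2 * k2 n < a * κ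
        calc 3 * K ^ 2 * (κ * (3 * K ^ 2)) * (K ^ 2) ^ 2 * k2 n
            = (9 * K ^ 8 * k2 n) * κ := by ring
          _ < a * κ := by gcongr
    · rw [hbr]
      exact hl

end main

end Run7.h575.MS
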