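import Pool.Agent.Run7.h575.MS1
import Pool.Agent.Run7.h60.FlatSch

/-!
# Maps which are steady in the mean at small scales: flat coordinates
-/

set_option autoImplicit false

open Set Filter Topology Metric Function MeasureTheory
open scoped Manifold ContDiff

noncomputable section

namespace Run7.h575.MS

open Pool.Agent.Y522 Pool.Agent.Y954.SH Run7.h60.Sc

variable {n : ℕ}

lemma exists_sup (n : ℕ) : ∃ C : ℝ, 0 ≤ C ∧ ∀ s : E n, kr n s ≤ C := by
  obtain ⟨C, hC⟩ := kr_smooth.continuous.bounded_above_of_compact_support (kr_compact (n := n))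
  refine ⟨C, (norm_nonneg _).trans (hC 0), fun s => ?_⟩
  have := hC s
  rw [Real.norm_of_nonneg (kr_nonneg s)] at this
  exact this

/-- the constant -/
def am (n : ℕ) : ℝ := (exists_sup n).choose + (exists_taylor n).choose + 1

lemma am_pos : 0 < am n := by
  have h1 := (exists_sup n).choose_spec.1
  have h2 := (exists_taylor n).choose_spec.1
  unfold am
  linarith

/-- `h` is steady in the mean on the ball of radius `2 r` about `z`, in the direction `v` -/
def StdM (a : ℝ) (h : E n → E n) (z : E n) (r : ℝ) (v : E n) : Prop :=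
  ∃ (κ : ℝ) (l : E n →L[ℝ] ℝ) (c : ℝ), 0 < κ ∧ κ ≤ 1 ∧
    ∫ s in closedBall (0 : E n) 2, |l (h (z + r • s)) - c| ≤ r ∧
    ∫ s in closedBall (0 : E n) 1,
      max (a * κ ^ 2 * r - l (h (z + r • (s + κ • v)) - h (z + r • s))) 0 ≤ κ ^ 2 * r

/-- **The derivative of the mollification of a map which is steady in the mean.** -/
lemma core_mean {g : E n → E n} {ε : ℝ} {w v : E n} (hε : 0 < ε)
    (hg : ContinuousOn g (closedBall w (2 * ε))) (hv : ‖v‖ = 1) (hS : StdM (am n) g w ε v) :
    fderiv ℝ (mo g ε) w v ≠ 0 := by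
  obtain ⟨t, l, c, ht, ht1, hI1, hI2⟩ := hS
  obtain ⟨k, hk⟩ : ∃ k, k = (exists_taylor n).choose := ⟨_, rfl⟩
  have hk0 : 0 ≤ k := by rw [hk]; exact (exists_taylor n).choose_spec.1
  have hkt : ∀ s x : E n, |kr n (s - x) - kr n s + fderiv ℝ (kr n) s x| ≤ k * ‖x‖ ^ 2 := by
    rw [hk]; exact (exists_taylor n).choose_spec.2
  obtain ⟨Ck, hCkd⟩ : ∃ Ck, Ck = (exists_sup n).choose := ⟨_, rfl⟩
  have hCk0 : 0 ≤ Ck := by rw [hCkd]; exact (exists_sup n).choose_spec.1
  have hCk : ∀ s : E n, kr n s ≤ Ck := by rw [hCkd]; exact (exists_sup n).choose_spec.2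
  have ham : am n = Ck + k + 1 := by rw [hk, hCkd]; rfl
  obtain ⟨φ, hφ⟩ : ∃ φ : E n → ℝ, φ = (closedBall (0 : E n) 2).indicator
    (fun s => l (g (w + ε • s)) - c) := ⟨_, rfl⟩
  have hφin : ∀ s : E n, ‖s‖ ≤ 2 → φ s = l (g (w + ε • s)) - c := by
    intro s hs
    rw [hφ, indicator_of_mem (mem_closedBall_zero_iff.2 hs)]
  have hφout : ∀ s : E n, ¬ ‖s‖ ≤ 2 → φ s = 0 := by
    intro s hs
    rw [hφ, indicator_of_notMem (fun h => hs (mem_closedBall_zero_iff.1 h))]
  have hgc := cont_scaled hε hg
  have hφc : ContinuousOn (fun s => l (g (w + ε • s)) - c) (closedBall (0 : E n) 2) :=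
    (l.continuous.comp_continuousOn hgc).sub continuousOn_const
  have hφi : Integrable φ := by
    rw [hφ, integrable_indicator_iff measurableSet_closedBall]
    exact hφc.integrableOn_compact (isCompact_closedBall _ _)
  have hφ1 : ∫ s, |φ s| ≤ ε := by
    have e1 : (fun s => |φ s|) = (closedBall (0 : E n) 2).indicator
        (fun s => |l (g (w + ε • s)) - c|) := by
      funext s
      by_cases hs : s ∈ closedBall (0 : E n) 2
      · rw [indicator_of_mem hs, hφin s (mem_closedBall_zero_iff.1 hs)]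
      · rw [indicator_of_notMem hs, hφout s (fun h => hs (mem_closedBall_zero_iff.2 h)), abs_zero]
    rw [e1, integral_indicator measurableSet_closedBall]
    exact hI1
  -- the derivative
  have h1 : l (fderiv ℝ (mo g ε) w v) = - (ε⁻¹ * ∫ s, (fderiv ℝ (kr n) s v) * φ s) := by
    have i1 := integrable_dkr hε hg v
    rw [mo_deriv hε hg, map_neg, map_smul, smul_eq_mul, ← l.integral_comp_comm i1]
    have i3 : Integrable (fun s : E n => (fderiv ℝ (kr n) s v) * l (g (w + ε • s))) := by
      have := l.integrable_comp i1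
      refine this.congr (Eventually.of_forall fun s => ?_)
      simp only [map_smul, smul_eq_mul]
    have i4 : Integrable (fun s : E n => (fderiv ℝ (kr n) s v) * c) := by
      apply Continuous.integrable_of_hasCompactSupport
      · exact (dkr_cont.clm_apply continuous_const).mul continuous_const
      · apply HasCompactSupport.intro (isCompact_closedBall (0 : E n) 1)
        intro s hs
        rw [mem_closedBall_zero_iff, not_le] at hs
        rw [dkr_zero hs, _root_.zero_apply, zero_mul]
    have e0 : ∫ s : E n, (fderiv ℝ (kr n) s v) * c = 0 := by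
      have e1 := dkr_moment v v (0 : E n →L[ℝ] E n) one_pos
      simp only [_root_.zero_apply, add_zero, smul_zero, neg_zero] at e1
      rw [integral_smul_const] at e1
      have hv0 : v ≠ 0 := by
        rintro rfl
        rw [norm_zero] at hv
        exact zero_ne_one hv
      have e2 := (smul_eq_zero.1 e1).resolve_right hv0
      rw [integral_mul_const, e2, zero_mul]
    have e3 : ∫ s, l ((fderiv ℝ (kr n) s v) • g (w + ε • s)) =
        ∫ s, (fderiv ℝ (kr n) s v) * φ s := by
      have e4 : ∫ s, (fderiv ℝ (kr n) s v) * φ s =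
          ∫ s, ((fderiv ℝ (kr n) s v) * l (g (w + ε • s)) - (fderiv ℝ (kr n) s v) * c) := by
        congr 1
        funext s
        by_cases hs : ‖s‖ ≤ 1
        · rw [hφin s (by linarith)]
          ring
        · rw [dkr_zero (not_le.1 hs)]
          simp
      rw [e4, integral_sub i3 i4, e0, sub_zero]
      congr 1
      funext s
      rw [map_smul, smul_eq_mul]
    rw [e3]
  have hmul : ∀ ψ : E n → ℝ, Continuous ψ → (∃ C, ∀ s, |ψ s| ≤ C) →
      Integrable (fun s => ψ s * φ s) := by
    rintro ψ hψ ⟨C, hC⟩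
    exact hφi.bdd_mul hψ.aestronglyMeasurable (Eventually.of_forall fun s => by
      rw [Real.norm_eq_abs]; exact hC s)
  have hCk' : ∀ s : E n, |kr n s| ≤ Ck := fun s => by
    rw [abs_of_nonneg (kr_nonneg s)]; exact hCk s
  obtain ⟨Cd, hCd⟩ : ∃ C, ∀ s : E n, |fderiv ℝ (kr n) s v| ≤ C := by
    obtain ⟨C, hC⟩ := dkr_cont.bounded_above_of_compact_support (dkr_compact (n := n))
    refine ⟨C * ‖v‖, fun s => ?_⟩
    rw [← Real.norm_eq_abs]
    exact ((fderiv ℝ (kr n) s).le_opNorm v).trans (by gcongr; exact hC s)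
  have i0 : Integrable (fun s => kr n s * φ s) := hmul _ kr_smooth.continuous ⟨Ck, hCk'⟩
  have i1 : Integrable (fun s => kr n (s - t • v) * φ s) :=
    hmul _ (kr_smooth.continuous.comp (continuous_id.sub continuous_const))
      ⟨Ck, fun s => hCk' _⟩
  have i2 : Integrable (fun s => (fderiv ℝ (kr n) s v) * φ s) :=
    hmul _ (dkr_cont.clm_apply continuous_const) ⟨Cd, hCd⟩
  -- the translation
  have h3 : ∫ s, kr n s * φ (s + t • v) = ∫ s, kr n (s - t • v) * φ s := by
    rw [← integral_add_right_eq_self (fun s => kr n (s - t • v) * φ s) (t • v)]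
    congr 1
    funext s
    rw [add_sub_cancel_right]
  have i3 : Integrable (fun s => kr n s * φ (s + t • v)) := by
    have := i1.comp_add_right (t • v)
    simpa only [add_sub_cancel_right] using this
  have hst : ∀ s : E n, ‖s‖ ≤ 1 → ‖s + t • v‖ ≤ 2 := by
    intro s hs
    refine (norm_add_le _ _).trans ?_
    rw [norm_smul, hv, mul_one, Real.norm_of_nonneg ht.le]
    linarith
  have h2 : (am n - Ck) * t ^ 2 * ε ≤ ∫ s, kr n s * (φ (s + t • v) - φ s) := by
    obtain ⟨N, hN⟩ : ∃ N : E n → ℝ, N = fun s =>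
      max (am n * t ^ 2 * ε - l (g (w + ε • (s + t • v)) - g (w + ε • s))) 0 := ⟨_, rfl⟩
    have hN0 : ∀ s, 0 ≤ N s := fun s => by rw [hN]; exact le_max_right _ _
    have hNc : ContinuousOn N (closedBall 0 1) := by
      rw [hN]
      have c1 : ContinuousOn (fun s : E n => g (w + ε • (s + t • v))) (closedBall 0 1) := by
        apply hgc.comp (f := fun s : E n => s + t • v) (by fun_prop)
        intro s hs
        exact mem_closedBall_zero_iff.2 (hst s (mem_closedBall_zero_iff.1 hs))
      have c2 : ContinuousOn (fun s : E n => g (w + ε • s)) (closedBall 0 1) :=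
        hgc.mono (closedBall_subset_closedBall (by norm_num))
      exact (continuousOn_const.sub (l.continuous.comp_continuousOn (c1.sub c2))).sup
        continuousOn_const
    have hNi : Integrable ((closedBall (0 : E n) 1).indicator N) := by
      rw [integrable_indicator_iff measurableSet_closedBall]
      exact hNc.integrableOn_compact (isCompact_closedBall _ _)
    have hNI : ∫ s, (closedBall (0 : E n) 1).indicator N s ≤ t ^ 2 * ε := by
      rw [integral_indicator measurableSet_closedBall, hN]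
      exact hI2
    have i5 : Integrable (fun s => kr n s * (φ (s + t • v) - φ s)) := by
      have : (fun s => kr n s * (φ (s + t • v) - φ s)) =
          fun s => kr n s * φ (s + t • v) - kr n s * φ s := by
        funext s; ring
      rw [this]
      exact i3.sub i0
    have i6 : Integrable (fun s => kr n s * (am n * t ^ 2 * ε)) := kr_integrable.mul_const _
    have e1 : ∫ s, (kr n s * (am n * t ^ 2 * ε) - Ck * (closedBall (0 : E n) 1).indicator N s) ≤
        ∫ s, kr n s * (φ (s + t • v) - φ s) := by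
      have i7 : Integrable (fun s => kr n s * (am n * t ^ 2 * ε) -
          Ck * (closedBall (0 : E n) 1).indicator N s) := i6.sub (hNi.const_mul Ck)
      apply integral_mono i7 i5
      intro s
      beta_reduce
      by_cases hs : ‖s‖ ≤ 1
      · have hs1 : s ∈ closedBall (0 : E n) 1 := mem_closedBall_zero_iff.2 hs
        rw [indicator_of_mem hs1, hφin _ (hst s hs), hφin s (by linarith)]
        have e2 : am n * t ^ 2 * ε - N s ≤ l (g (w + ε • (s + t • v))) - l (g (w + ε • s)) := by
          rw [← map_sub, hN]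
          have := le_max_left
            (am n * t ^ 2 * ε - l (g (w + ε • (s + t • v)) - g (w + ε • s))) 0
          beta_reduce
          linarith
        have e3 := mul_le_mul_of_nonneg_left e2 (kr_nonneg s)
        have e4 := mul_le_mul_of_nonneg_right (hCk s) (hN0 s)
        have e5 : l (g (w + ε • (s + t • v))) - c - (l (g (w + ε • s)) - c) =
            l (g (w + ε • (s + t • v))) - l (g (w + ε • s)) := by ring
        rw [e5]
        linarith
      · have hs1 : s ∉ closedBall (0 : E n) 1 := fun h => hs (mem_closedBall_zero_iff.1 h)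
        rw [indicator_of_notMem hs1, kr_zero (not_le.1 hs).le]
        simp
    rw [integral_sub i6 (hNi.const_mul Ck), integral_mul_const, kr_int, one_mul,
      integral_const_mul] at e1
    have e6 := mul_le_mul_of_nonneg_left hNI hCk0
    linarith
  have h4 : ∫ s, kr n s * (φ (s + t • v) - φ s) =
      (∫ s, (kr n (s - t • v) - kr n s + fderiv ℝ (kr n) s (t • v)) * φ s) -
        t * ∫ s, (fderiv ℝ (kr n) s v) * φ s := by
    have e1 : ∫ s, kr n s * (φ (s + t • v) - φ s) =
        (∫ s, kr n s * φ (s + t • v)) - ∫ s, kr n s * φ s := by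
      rw [← integral_sub i3 i0]
      congr 1
      funext s
      ring
    have e2 : ∫ s, (kr n (s - t • v) - kr n s + fderiv ℝ (kr n) s (t • v)) * φ s =
        (∫ s, kr n (s - t • v) * φ s) - (∫ s, kr n s * φ s) +
          t * ∫ s, (fderiv ℝ (kr n) s v) * φ s := by
      have i01 : Integrable (fun s => kr n (s - t • v) * φ s - kr n s * φ s) := i1.sub i0
      rw [← integral_const_mul, ← integral_sub i1 i0, ← integral_add i01 (i2.const_mul t)]
      congr 1
      funext s
      rw [map_smul, smul_eq_mul]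
      ring
    rw [e1, e2, h3]
    ring
  have h5 : |∫ s, (kr n (s - t • v) - kr n s + fderiv ℝ (kr n) s (t • v)) * φ s| ≤
      k * t ^ 2 * ε := by
    rw [← Real.norm_eq_abs]
    have e1 : ‖∫ s, (kr n (s - t • v) - kr n s + fderiv ℝ (kr n) s (t • v)) * φ s‖ ≤
        ∫ s, k * t ^ 2 * |φ s| := by
      apply norm_integral_le_of_norm_le (hφi.abs.const_mul _)
      apply Eventually.of_forall
      intro s
      rw [norm_mul, Real.norm_eq_abs, Real.norm_eq_abs]
      apply mul_le_mul_of_nonneg_right _ (abs_nonneg _)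
      refine (hkt s (t • v)).trans ?_
      rw [norm_smul, hv, mul_one, Real.norm_of_nonneg ht.le]
    rw [integral_const_mul] at e1
    refine e1.trans ?_
    gcongr
  have h6 := abs_le.1 h5
  intro h0
  rw [h0, map_zero] at h1
  obtain ⟨I, hI⟩ : ∃ I, I = ∫ s, (fderiv ℝ (kr n) s v) * φ s := ⟨_, rfl⟩
  rw [← hI] at h1 h4
  have hI0 : I = 0 := by
    have : ε⁻¹ * I = 0 := by linarith
    exact (mul_eq_zero.1 this).resolve_left (inv_ne_zero hε.ne')
  rw [h4, hI0, mul_zero, sub_zero, ham] at h2
  have h7 : 0 < t ^ 2 * ε := by positivity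
  nlinarith [h6.2]

/-- maps which are steady in the mean at the scales `ε k` -/
lemma ld_of_mean {ε : ℕ → ℝ} (hε : ∀ m, 0 < ε m) (hε0 : Tendsto ε atTop (𝓝 0)) {g : E n → E n}
    {x : E n} {ρ : ℝ} (hρ : 0 < ρ) (hgc : ∀ᶠ w in 𝓝 x, ContinuousAt g w)
    (h : ∀ᶠ k in atTop, ∀ z, ‖z - x‖ < ρ → ∀ v, ‖v‖ = 1 → StdM (am n) g z (ε k) v) :
    ∀ᶠ p : E n × ℕ in 𝓝 x ×ˢ atTop, LD n (mo g (ε p.2)) p.1 := by
  have e1 : ∀ᶠ p : E n × ℕ in 𝓝 x ×ˢ atTop, ‖p.1 - x‖ < ρ := by
    have e0 : ∀ᶠ y in 𝓝 x, ‖y - x‖ < ρ := by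
      filter_upwards [ball_mem_nhds x hρ] with y hy
      rwa [mem_ball, dist_eq_norm] at hy
    exact tendsto_fst.eventually e0
  have e2 : ∀ᶠ p : E n × ℕ in 𝓝 x ×ˢ atTop, ∀ z, ‖z - x‖ < ρ → ∀ v, ‖v‖ = 1 →
      StdM (am n) g z (ε p.2) v := tendsto_snd.eventually h
  filter_upwards [e1, e2, cont_near hε0 hgc, smooth_near hε hε0 hgc] with p h1 h2 h3 h4
  exact Pool.Agent.Y207.SH3.LD_of_pos h4 fun u hu h0 =>
    core_mean (hε p.2) h3 hu (h2 p.1 h1 u hu) h0

end Run7.h575.MS
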