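import Pool.Agent.Run7.h575.Diffeo

set_option autoImplicit false

/-!
Structure of maps with closed space of coboundaries.
-/

open MeasureTheory Set Filter Topology Matrix

namespace Run7.h575

variable {d : ℕ}

theorem mem_cobSub_of_slow {F : (Fin d → ℝ) → (Fin d → ℝ)} {ρ : Fin d → ℝ}
    (hF : ContDiff ℝ (⊤ : ℕ∞) F) (hFe : Eqv F) {C₀ : ℝ}
    (hdev : ∀ (n : ℕ) (x : Fin d → ℝ), ‖F^[n] x - x - (n : ℝ) • ρ‖ ≤ C₀)
    (hc : ClosedCob F) {k : Fin d → ℤ} (hk : Slow F k) : zv k ∈ cobSub F ρ := by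
  obtain ⟨Ψ, h1, h2, h3⟩ := cob_of_slow hF hFe hdev hc hk
  exact ⟨Ψ, h1, h2, fun x => h3 x⟩

/-- Structure theorem. -/
theorem structure_thm {F G : (Fin d → ℝ) → (Fin d → ℝ)} {α : Fin d → ℝ} (D : Dat F α)
    (hα : Irr α) (hFs : ContDiff ℝ (⊤ : ℕ∞) F) (hGs : ContDiff ℝ (⊤ : ℕ∞) G)
    (GF : ∀ x, G (F x) = x) (hFe : Eqv F) (hc : ClosedCob F) :
    ∃ H : (Fin d → ℝ) → (Fin d → ℝ), ContDiff ℝ (⊤ : ℕ∞) H ∧ Eqv H ∧
      (∀ k, Slow F k → ∀ x, ph k (H (F x)) = ph k (H x) + ph k D.rho) ∧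
      (∃ C : ℝ, 0 < C ∧ ∃ τ : ℝ, 0 < τ ∧ ∀ k, Slow F k → k ≠ 0 → ∀ m : ℤ,
        C / (∑ i, |(k i : ℝ)|) ^ τ ≤ |∑ i, (k i : ℝ) * D.rho i - (m : ℝ)|) ∧
      ((∀ i, Slow F (Pi.single i 1)) → (∀ x, H (F x) = H x + D.rho) ∧ Dioph D.rho ∧ Dioph α ∧
        ∃ K : (Fin d → ℝ) → (Fin d → ℝ), ContDiff ℝ (⊤ : ℕ∞) K ∧ Eqv K ∧ (∀ x, K (H x) = x) ∧
          ∀ y, H (K y) = y) := by
  obtain ⟨C₀, hC₀, hdev⟩ := D.deviation
  obtain ⟨H, hH, eH, hHF⟩ := exists_H F D.rho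
  have key : ∀ k : Fin d → ℤ, zv k ∈ cobSub F D.rho →
      ∀ x, ph k (H (F x)) = ph k (H x) + ph k D.rho := fun k hk x => hHF _ hk x
  refine ⟨H, hH, eH, fun k hk => key k (mem_cobSub_of_slow hFs hFe hdev hc hk), ?_, fun hall => ?_⟩
  · obtain ⟨C, hC, τ, hτ, h⟩ := dioph_on D hα hFs hH eH
      (V := {k | zv k ∈ cobSub F D.rho}) (fun k hk x => key k hk x) hc
    exact ⟨C, hC, τ, hτ, fun k hk => h k (mem_cobSub_of_slow hFs hFe hdev hc hk)⟩
  · have hsing : ∀ i : Fin d, Pi.single i (1 : ℝ) ∈ cobSub F D.rho := by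
      intro i
      have h1 := mem_cobSub_of_slow hFs hFe hdev hc (hall i)
      have h2 : zv (Pi.single i 1 : Fin d → ℤ) = Pi.single i (1 : ℝ) := by
        funext j
        rw [zv_apply, Pi.single_apply, Pi.single_apply]
        split <;> simp
      rwa [h2] at h1
    have htop : ∀ t : Fin d → ℝ, t ∈ cobSub F D.rho := by
      intro t
      have h5 : t = ∑ i, t i • (Pi.single i (1 : ℝ) : Fin d → ℝ) := by
        funext j
        simp [Finset.sum_apply, Pi.single_apply]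
      rw [h5]
      exact Submodule.sum_mem _ fun i _ => Submodule.smul_mem _ _ (hsing i)
    have hHF' : ∀ x, H (F x) = H x + D.rho := by
      intro x
      funext i
      have := hHF _ (hsing i) x
      simpa [Pi.single_apply] using this
    have hdio : Dioph D.rho := by
      obtain ⟨C, hC, τ, hτ, h⟩ := dioph_on D hα hFs hH eH (V := univ)
        (fun k _ x => key k (htop _) x) hc
      exact ⟨C, hC, τ, hτ, fun k => h k (mem_univ k)⟩
    exact ⟨hHF', hdio, D.dioph_alpha hdio, exists_inverse D hα hFs hGs GF hH eH hHF'⟩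

end Run7.h575
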