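import Pool.Agent.Run7.h575.Lin2
import Pool.Agent.Run7.h575.Main1

set_option autoImplicit false

/-!
The equivalence for maps whose iterates have slowly growing derivatives.
-/

open MeasureTheory Set Filter Topology

namespace Run7.h575

variable {d : ℕ}

theorem slow_of_subpoly {F : (Fin d → ℝ) → (Fin d → ℝ)} {ρ : Fin d → ℝ}
    (hF : ContDiff ℝ (⊤ : ℕ∞) F)
    (hFe : Eqv F) {C₀ : ℝ} (hdev : ∀ (n : ℕ) (x : Fin d → ℝ), ‖vdisp F ρ n x‖ ≤ C₀)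
    (hG : Subpoly F) (k : Fin d → ℤ) : Slow F k := by
  intro s hs ε hε N
  obtain ⟨j, rfl⟩ : ∃ j, s = j + 1 := ⟨s - 1, by omega⟩
  obtain ⟨C, hC1, hC⟩ := subpoly_all hF hFe hdev hG j (show (0 : ℝ) < 1 / 2 by norm_num)
  set M : ℝ := ‖phL k‖ * C with hM
  have hM0 : 0 ≤ M := by positivity
  obtain ⟨n₀, hn₀⟩ := exists_nat_gt ((M / ε) ^ 2)
  refine ⟨max (N + 1) (n₀ + 1), by omega, fun x => ?_⟩
  set n := max (N + 1) (n₀ + 1) with hn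
  have hn1 : 1 ≤ n := by omega
  have hn' : (1 : ℝ) ≤ n := by exact_mod_cast hn1
  have hn0 : (0 : ℝ) < n := by linarith
  have hnn : (n₀ : ℝ) ≤ n := by exact_mod_cast (show n₀ ≤ n by omega)
  have e : (fun y => ∑ i, (k i : ℝ) * F^[n] y i) = (phL k) ∘ F^[n] := by
    funext y
    rw [Function.comp_apply, phL_apply]
    rfl
  rw [e, ContinuousLinearMap.iteratedFDeriv_comp_left (𝕜 := ℝ) (phL k) (f := F^[n]) (x := x)
    (n := ((⊤ : ℕ∞) : WithTop ℕ∞)) (contDiff_iterate hF n).contDiffAt (i := j + 1)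
    (nat_le_top _)]
  refine (ContinuousLinearMap.norm_compContinuousMultilinearMap_le _ _).trans ?_
  have h1 := hC n hn1 x
  have h2 : (n : ℝ) ^ (1 / 2 : ℝ) * (n : ℝ) ^ (1 / 2 : ℝ) = n := by
    rw [← Real.rpow_add hn0]
    norm_num
  have h3 : M ≤ ε * (n : ℝ) ^ (1 / 2 : ℝ) := by
    have h4 : M / ε ≤ (n : ℝ) ^ (1 / 2 : ℝ) := by
      have h5 : (M / ε) ^ 2 ≤ ((n : ℝ) ^ (1 / 2 : ℝ)) ^ 2 := by
        rw [sq ((n : ℝ) ^ (1 / 2 : ℝ)), h2]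
        linarith
      exact le_of_sq_le_sq h5 (by positivity)
    rw [div_le_iff₀ hε] at h4
    linarith
  calc ‖phL k‖ * ‖iteratedFDeriv ℝ (j + 1) F^[n] x‖ ≤ ‖phL k‖ * (C * (n : ℝ) ^ (1 / 2 : ℝ)) := by
        gcongr
    _ = M * (n : ℝ) ^ (1 / 2 : ℝ) := by rw [hM]; ring
    _ ≤ ε * (n : ℝ) ^ (1 / 2 : ℝ) * (n : ℝ) ^ (1 / 2 : ℝ) := by gcongr
    _ = ε * n := by rw [mul_assoc, h2]

/-- The equivalence. -/
theorem equiv_thm {F G : (Fin d → ℝ) → (Fin d → ℝ)} {α : Fin d → ℝ} (D : Dat F α)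
    (hα : Irr α) (hFs : ContDiff ℝ (⊤ : ℕ∞) F) (hGs : ContDiff ℝ (⊤ : ℕ∞) G)
    (GF : ∀ x, G (F x) = x) (hFe : Eqv F) (hG : Subpoly F) :
    (ClosedCob F ↔ Dioph α) ∧ (Dioph α → ∃ (ρ : Fin d → ℝ) (H K : (Fin d → ℝ) → (Fin d → ℝ)),
      ContDiff ℝ (⊤ : ℕ∞) H ∧ ContDiff ℝ (⊤ : ℕ∞) K ∧ Eqv H ∧ (∀ x, K (H x) = x) ∧
        (∀ y, H (K y) = y) ∧ ∀ x, H (F x) = H x + ρ) := by
  obtain ⟨C₀, hC₀, hdev⟩ := D.deviation
  have key : Dioph α → ∃ H K : (Fin d → ℝ) → (Fin d → ℝ),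
      ContDiff ℝ (⊤ : ℕ∞) H ∧ ContDiff ℝ (⊤ : ℕ∞) K ∧ Eqv H ∧ Eqv K ∧ (∀ x, K (H x) = x) ∧
        (∀ y, H (K y) = y) ∧ ∀ x, H (F x) = H x + D.rho := by
    intro hdio
    obtain ⟨H, hH, eH, HF⟩ := linearize hFs hFe hdev hG (D.dioph_rho hdio)
    obtain ⟨K, hK, eK, KH, HK⟩ := exists_inverse D hα hFs hGs GF hH eH HF
    exact ⟨H, K, hH, hK, eH, eK, KH, HK, HF⟩
  refine ⟨⟨fun hc => ?_, fun hdio => ?_⟩, fun hdio => ?_⟩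
  · obtain ⟨H, -, -, -, -, h⟩ := structure_thm D hα hFs hGs GF hFe hc
    exact (h fun i => slow_of_subpoly hFs hFe hdev hG _).2.2.1
  · obtain ⟨H, K, hH, hK, eH, eK, KH, HK, HF⟩ := key hdio
    exact closed_of_conj hH hK eH eK KH HK HF (D.dioph_rho hdio)
  · obtain ⟨H, K, hH, hK, eH, eK, KH, HK, HF⟩ := key hdio
    exact ⟨D.rho, H, K, hH, hK, eH, KH, HK, HF⟩

end Run7.h575
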