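import Mathlib

set_option autoImplicit false

/-!
Functions on `ℝ^d` invariant under integer translations: bounds, descent to the torus, Fourier
coefficients.
-/

open MeasureTheory Set Filter Topology

namespace Run7.h575

attribute [local instance] instMeasureSpaceUnitAddCircle

local instance instHaarCircle : Measure.IsAddHaarMeasure (volume : Measure UnitAddCircle) :=
  inferInstanceAs (Measure.IsAddHaarMeasure AddCircle.haarAddCircle)

local instance instProbCircle : IsProbabilityMeasure (volume : Measure UnitAddCircle) :=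
  inferInstanceAs (IsProbabilityMeasure AddCircle.haarAddCircle)

variable {d : ℕ}

/-- Invariance under integer translations. -/
def IsPer {W : Type*} (v : (Fin d → ℝ) → W) : Prop :=
  ∀ (x : Fin d → ℝ) (k : Fin d → ℤ), v (x + fun i => (k i : ℝ)) = v x

theorem exists_fract (x : Fin d → ℝ) : ∃ y ∈ Icc (0 : Fin d → ℝ) 1, ∃ k : Fin d → ℤ,
    x = y + fun i => (k i : ℝ) := by
  refine ⟨fun i => Int.fract (x i), ⟨fun i => Int.fract_nonneg _, fun i => (Int.fract_lt_one _).le⟩,
    fun i => ⌊x i⌋, ?_⟩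
  funext i
  simp only [Pi.add_apply]
  exact (Int.fract_add_floor _).symm

theorem IsPer.bounded {W : Type*} [SeminormedAddCommGroup W] {v : (Fin d → ℝ) → W} (hv : IsPer v)
    (hc : Continuous v) : ∃ B, ∀ x, ‖v x‖ ≤ B := by
  obtain ⟨B, hB⟩ := (isCompact_Icc (a := (0 : Fin d → ℝ)) (b := 1)).exists_bound_of_continuousOn
    hc.continuousOn
  refine ⟨B, fun x => ?_⟩
  obtain ⟨y, hy, k, rfl⟩ := exists_fract x
  rw [hv]
  exact hB y hy

theorem IsPer.iterate_deriv {W : Type*} [NormedAddCommGroup W] [NormedSpace ℝ W]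
    {v : (Fin d → ℝ) → W} (hv : IsPer v) (n : ℕ) : IsPer (iteratedFDeriv ℝ n v) := by
  intro x k
  have h := iteratedFDeriv_comp_add_right (𝕜 := ℝ) (f := v) n (fun i => (k i : ℝ)) x
  rw [← h]
  congr 1
  funext z
  exact hv z k

theorem IsPer.fderiv' {W : Type*} [NormedAddCommGroup W] [NormedSpace ℝ W]
    {v : (Fin d → ℝ) → W} (hv : IsPer v) : IsPer (fderiv ℝ v) := by
  intro x k
  have h := fderiv_comp_add_right (𝕜 := ℝ) (f := v) (x := x) (fun i => (k i : ℝ))
  rw [← h]
  congr 1
  funext z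
  exact hv z k

theorem IsPer.bounded_deriv {W : Type*} [NormedAddCommGroup W] [NormedSpace ℝ W]
    {v : (Fin d → ℝ) → W} (hv : IsPer v) (hs : ContDiff ℝ (⊤ : ℕ∞) v) (n : ℕ) :
    ∃ B, ∀ x, ‖iteratedFDeriv ℝ n v x‖ ≤ B :=
  (hv.iterate_deriv n).bounded (hs.continuous_iteratedFDeriv (by exact_mod_cast le_top))

theorem IsPer.comp {W Z : Type*} {v : (Fin d → ℝ) → W} (hv : IsPer v) (g : W → Z) :
    IsPer (fun x => g (v x)) := fun x k => congrArg g (hv x k)

/-! ### the torus -/

/-- The covering map. -/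
def cov (x : Fin d → ℝ) : UnitAddTorus (Fin d) := fun i => (x i : UnitAddCircle)

theorem cov_surj : Function.Surjective (cov (d := d)) := by
  intro t
  choose y hy using fun i => QuotientAddGroup.mk_surjective (t i)
  exact ⟨y, funext hy⟩

theorem cov_quot : IsOpenQuotientMap (cov (d := d)) := by
  have h : IsOpenQuotientMap (Pi.map (fun (_ : Fin d) (r : ℝ) => (r : UnitAddCircle))) :=
    IsOpenQuotientMap.piMap fun _ => QuotientAddGroup.isOpenQuotientMap_mk
  exact h

theorem cov_continuous : Continuous (cov (d := d)) := cov_quot.continuous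

theorem cov_add (x y : Fin d → ℝ) : cov (x + y) = cov x + cov y := by
  funext i
  simp [cov]

theorem cov_eq_iff {x y : Fin d → ℝ} : cov x = cov y ↔ ∃ k : Fin d → ℤ, y = x + fun i => (k i : ℝ) := by
  constructor
  · intro h
    have h1 : ∀ i, ∃ n : ℤ, y i - x i = n := by
      intro i
      have h2 : ((x i : ℝ) : UnitAddCircle) = (y i : UnitAddCircle) := congrFun h i
      rw [QuotientAddGroup.eq, AddSubgroup.mem_zmultiples_iff] at h2
      obtain ⟨n, hn⟩ := h2
      refine ⟨n, ?_⟩
      rw [zsmul_one] at hn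
      rw [hn]; ring
    choose m hm using h1
    refine ⟨m, ?_⟩
    funext i
    rw [Pi.add_apply, ← hm i]; ring
  · rintro ⟨k, rfl⟩
    funext i
    simp [cov]

/-- The function on the torus. -/
noncomputable def lift {W : Type*} (f : (Fin d → ℝ) → W) (t : UnitAddTorus (Fin d)) : W :=
  f (Function.surjInv cov_surj t)

theorem lift_cov {W : Type*} {f : (Fin d → ℝ) → W} (hf : IsPer f) (x : Fin d → ℝ) :
    lift f (cov x) = f x := by
  have h : cov x = cov (Function.surjInv cov_surj (cov x)) := (Function.surjInv_eq cov_surj (cov x)).symm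
  obtain ⟨k, hk⟩ := cov_eq_iff.1 h
  rw [lift, hk, hf]

theorem lift_continuous {W : Type*} [TopologicalSpace W] {f : (Fin d → ℝ) → W} (hf : IsPer f)
    (hc : Continuous f) : Continuous (lift f) := by
  rw [cov_quot.isQuotientMap.continuous_iff]
  have : lift f ∘ cov = f := funext fun x => lift_cov hf x
  rwa [this]

/-! ### characters -/

/-- `k · x`. -/
noncomputable def ph (k : Fin d → ℤ) (x : Fin d → ℝ) : ℝ := ∑ j, (k j : ℝ) * x j

/-- The character `exp (2 π i k · x)`. -/
noncomputable def ee (k : Fin d → ℤ) (x : Fin d → ℝ) : ℂ :=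
  Complex.exp (2 * Real.pi * Complex.I * (ph k x : ℂ))

/-- The period cell. -/
def cube : Set (Fin d → ℝ) := Icc 0 1

/-- The Fourier coefficients `∫ exp (-2 π i k · x) f(x) dx` over the period cell. -/
noncomputable def fc (f : (Fin d → ℝ) → ℂ) (k : Fin d → ℤ) : ℂ := ∫ x in cube, ee (-k) x * f x

theorem ph_add (k : Fin d → ℤ) (x y : Fin d → ℝ) : ph k (x + y) = ph k x + ph k y := by
  simp [ph, mul_add, Finset.sum_add_distrib]

theorem ph_sub (k : Fin d → ℤ) (x y : Fin d → ℝ) : ph k (x - y) = ph k x - ph k y := by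
  simp [ph, mul_sub, Finset.sum_sub_distrib]

theorem ph_smul (k : Fin d → ℤ) (c : ℝ) (x : Fin d → ℝ) : ph k (c • x) = c * ph k x := by
  simp only [ph, Pi.smul_apply, smul_eq_mul, Finset.mul_sum]
  exact Finset.sum_congr rfl fun _ _ => by ring

theorem ph_zero (k : Fin d → ℤ) : ph k 0 = 0 := by simp [ph]

theorem ph_neg (k : Fin d → ℤ) (x : Fin d → ℝ) : ph (-k) x = -ph k x := by
  simp [ph, Finset.sum_neg_distrib]

theorem ph_int (k l : Fin d → ℤ) : ph k (fun i => (l i : ℝ)) = ((∑ i, k i * l i : ℤ) : ℝ) := by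
  simp [ph]

theorem ee_zero_left (x : Fin d → ℝ) : ee 0 x = 1 := by simp [ee, ph]

theorem ee_zero_right (k : Fin d → ℤ) : ee k 0 = 1 := by simp [ee, ph]

theorem ee_eq (k : Fin d → ℤ) (x : Fin d → ℝ) :
    ee k x = Complex.exp (((2 * Real.pi * ph k x : ℝ) : ℂ) * Complex.I) := by
  rw [ee]; congr 1; push_cast; ring

theorem norm_ee (k : Fin d → ℤ) (x : Fin d → ℝ) : ‖ee k x‖ = 1 := by
  rw [ee_eq, Complex.norm_exp_ofReal_mul_I]

theorem ee_add (k : Fin d → ℤ) (x y : Fin d → ℝ) : ee k (x + y) = ee k x * ee k y := by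
  rw [ee, ee, ee, ← Complex.exp_add, ph_add]
  congr 1
  push_cast
  ring

theorem ee_neg (k : Fin d → ℤ) (x : Fin d → ℝ) : ee (-k) x * ee k x = 1 := by
  rw [ee, ee, ← Complex.exp_add, ph_neg]
  push_cast
  rw [mul_neg, neg_add_cancel, Complex.exp_zero]

theorem ee_eq_one_iff (k : Fin d → ℤ) (x : Fin d → ℝ) : ee k x = 1 ↔ ∃ m : ℤ, ph k x = m := by
  rw [ee, Complex.exp_eq_one_iff]
  have h3 : (2 * Real.pi * Complex.I : ℂ) ≠ 0 := by simp [Real.pi_ne_zero]
  constructor
  · rintro ⟨n, hn⟩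
    refine ⟨n, ?_⟩
    have : ((ph k x : ℝ) : ℂ) = ((n : ℝ) : ℂ) := by
      apply mul_left_cancel₀ h3
      rw [hn]; push_cast; ring
    exact_mod_cast this
  · rintro ⟨n, hn⟩
    refine ⟨n, ?_⟩
    rw [hn]; push_cast; ring

theorem ee_int (k l : Fin d → ℤ) : ee k (fun i => (l i : ℝ)) = 1 :=
  (ee_eq_one_iff _ _).2 ⟨_, ph_int k l⟩

theorem ee_per (k : Fin d → ℤ) : IsPer (ee k) := fun x l => by rw [ee_add, ee_int, mul_one]

theorem ph_contDiff (k : Fin d → ℤ) {n : WithTop ℕ∞} : ContDiff ℝ n (ph k) := by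
  unfold ph
  exact ContDiff.sum fun i _ => contDiff_const.mul (contDiff_apply ℝ ℝ i)

theorem ee_contDiff (k : Fin d → ℤ) {n : WithTop ℕ∞} : ContDiff ℝ n (ee k) := by
  unfold ee
  exact (contDiff_const.mul (Complex.ofRealCLM.contDiff.comp (ph_contDiff k))).cexp

theorem ee_continuous (k : Fin d → ℤ) : Continuous (ee k) := (ee_contDiff k (n := 0)).continuous

theorem mFourier_cov (k : Fin d → ℤ) (x : Fin d → ℝ) : UnitAddTorus.mFourier k (cov x) = ee k x := by
  change ∏ i, (fourier (k i) ((x i : ℝ) : UnitAddCircle) : ℂ) = _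
  have h1 : ∀ i, (fourier (k i) ((x i : ℝ) : UnitAddCircle) : ℂ)
      = Complex.exp (2 * Real.pi * Complex.I * ((k i : ℝ) * x i : ℝ)) := by
    intro i
    rw [fourier_coe_apply]
    congr 1
    push_cast
    ring
  rw [Finset.prod_congr rfl fun i _ => h1 i, ← Complex.exp_sum, ee, ph]
  congr 1
  push_cast
  rw [Finset.mul_sum]

theorem cell_ae : ({x : Fin d → ℝ | ∀ i, x i ∈ Ioc ((0 : Fin d → ℝ) i) ((0 : Fin d → ℝ) i + 1)} : Set (Fin d → ℝ))
    =ᵐ[volume] cube := by
  have e : ({x : Fin d → ℝ | ∀ i, x i ∈ Ioc ((0 : Fin d → ℝ) i) ((0 : Fin d → ℝ) i + 1)} : Set (Fin d → ℝ))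
      = Set.pi univ (fun i => Ioc ((0 : Fin d → ℝ) i) ((1 : Fin d → ℝ) i)) := by
    ext x; simp
  rw [e]
  exact Measure.univ_pi_Ioc_ae_eq_Icc (μ := fun _ : Fin d => (volume : Measure ℝ))

theorem integral_torus {E : Type*} [NormedAddCommGroup E] [NormedSpace ℝ E]
    (f : UnitAddTorus (Fin d) → E) : ∫ t, f t = ∫ x in cube, f (cov x) := by
  rw [UnitAddTorus.integral_preimage f 0, Measure.restrict_congr_set cell_ae]
  rfl

theorem fc_eq {f : (Fin d → ℝ) → ℂ} (hf : IsPer f) (k : Fin d → ℤ) :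
    UnitAddTorus.mFourierCoeff (lift f) k = fc f k := by
  rw [UnitAddTorus.mFourierCoeff, integral_torus, fc]
  congr 1
  funext x
  rw [mFourier_cov, lift_cov hf, smul_eq_mul]

/-- Fourier inversion. -/
theorem hasSum_fc {f : (Fin d → ℝ) → ℂ} (hf : IsPer f) (hc : Continuous f) (hs : Summable (fc f))
    (x : Fin d → ℝ) : HasSum (fun k => fc f k * ee k x) (f x) := by
  let F : C(UnitAddTorus (Fin d), ℂ) := ⟨lift f, lift_continuous hf hc⟩
  have e : UnitAddTorus.mFourierCoeff F = fc f := funext fun k => fc_eq hf k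
  have h := UnitAddTorus.hasSum_mFourier_series_apply_of_summable (f := F) (by rw [e]; exact hs)
    (cov x)
  rw [e] at h
  simp only [mFourier_cov, smul_eq_mul] at h
  rw [show F (cov x) = f x from lift_cov hf x] at h
  exact h

theorem integrableOn_cube {E : Type*} [NormedAddCommGroup E] {f : (Fin d → ℝ) → E}
    (hf : Continuous f) : IntegrableOn f cube := hf.continuousOn.integrableOn_compact isCompact_Icc

/-- The integral over the cell is invariant under translations. -/
theorem integral_shift {E : Type*} [NormedAddCommGroup E] [NormedSpace ℝ E]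
    {f : (Fin d → ℝ) → E} (hf : IsPer f) (β : Fin d → ℝ) :
    ∫ x in cube, f (x + β) = ∫ x in cube, f x := by
  have h1 : ∫ x in cube, f x = ∫ t, lift f t := by
    rw [integral_torus]; congr 1; funext x; rw [lift_cov hf]
  have h2 : ∫ x in cube, f (x + β) = ∫ t, lift f (t + cov β) := by
    rw [integral_torus]; congr 1; funext x; rw [← cov_add, lift_cov hf]
  rw [h1, h2]
  exact integral_add_right_eq_self (lift f) (cov β)

theorem fc_shift {f : (Fin d → ℝ) → ℂ} (hf : IsPer f) (k : Fin d → ℤ) (β : Fin d → ℝ) :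
    fc (fun x => f (x + β)) k = ee k β * fc f k := by
  have h : IsPer fun x => ee (-k) x * f x := fun x l => by
    show ee (-k) _ * f _ = _
    rw [ee_per, hf]
  have h1 := integral_shift h β
  rw [fc, fc, ← h1, ← integral_const_mul]
  congr 1
  funext x
  rw [ee_add]
  have := ee_neg k β
  linear_combination (-(ee (-k) x * f (x + β))) * this

theorem fc_sub {f g : (Fin d → ℝ) → ℂ} (hf : Continuous f) (hg : Continuous g) (k : Fin d → ℤ) :
    fc (fun x => f x - g x) k = fc f k - fc g k := by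
  have h1 : IntegrableOn (fun x => ee (-k) x * f x) cube :=
    integrableOn_cube ((ee_continuous _).mul hf)
  have h2 : IntegrableOn (fun x => ee (-k) x * g x) cube :=
    integrableOn_cube ((ee_continuous _).mul hg)
  rw [fc, fc, fc, ← integral_sub h1 h2]
  congr 1
  funext x
  ring

theorem volume_cube : volume (cube (d := d)) = 1 := by
  rw [cube, Real.volume_Icc_pi]
  simp

theorem norm_fc_le {f : (Fin d → ℝ) → ℂ} {B : ℝ} (hB : ∀ x, ‖f x‖ ≤ B) (k : Fin d → ℤ) :
    ‖fc f k‖ ≤ B := by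
  have h := norm_setIntegral_le_of_norm_le_const (μ := (volume : Measure (Fin d → ℝ)))
    (s := cube) (f := fun x => ee (-k) x * f x) (C := B) (by rw [volume_cube]; exact ENNReal.one_lt_top)
    (fun x _ => by rw [norm_mul, norm_ee, one_mul]; exact hB x)
  rw [measureReal_def, volume_cube] at h
  rw [fc]
  simpa using h

/-- Parseval, as square summability. -/
theorem summable_sq_fc {f : (Fin d → ℝ) → ℂ} (hf : IsPer f) (hc : Continuous f) :
    Summable fun k => ‖fc f k‖ ^ 2 := by
  let F : C(UnitAddTorus (Fin d), ℂ) := ⟨lift f, lift_continuous hf hc⟩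
  have h := (UnitAddTorus.hasSum_sq_mFourierCoeff (ContinuousMap.toLp 2 volume ℂ F)).summable
  simp only [UnitAddTorus.mFourierCoeff_toLp] at h
  have e : UnitAddTorus.mFourierCoeff F = fc f := funext fun k => fc_eq hf k
  simpa only [e] using h

theorem summable_of_fin {f : (Fin d → ℝ) → ℂ} {S : Finset (Fin d → ℤ)} (h : ∀ k ∉ S, fc f k = 0) :
    Summable (fc f) := summable_of_ne_finset_zero h

/-- A continuous function on the torus whose nonconstant Fourier coefficients vanish is constant. -/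
theorem const_of_fc {f : (Fin d → ℝ) → ℂ} (hf : IsPer f) (hc : Continuous f)
    (h : ∀ k, k ≠ 0 → fc f k = 0) (x : Fin d → ℝ) : f x = fc f 0 := by
  have h1 : ∀ k ∉ ({0} : Finset (Fin d → ℤ)), fc f k = 0 := fun k hk => h k (by simpa using hk)
  have h2 := hasSum_fc hf hc (summable_of_fin h1) x
  have h3 : HasSum (fun k => fc f k * ee k x) (∑ k ∈ ({0} : Finset (Fin d → ℤ)), fc f k * ee k x) :=
    hasSum_sum_of_ne_finset_zero fun k hk => by rw [h1 k hk, zero_mul]
  rw [h2.unique h3]
  simp [ee_zero_left]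

/-- Continuous functions invariant under an irrational translation are constant. -/
theorem const_of_inv {α : Fin d → ℝ} (hα : ∀ k : Fin d → ℤ, k ≠ 0 → ∀ m : ℤ, ph k α ≠ m)
    {f : (Fin d → ℝ) → ℂ} (hf : IsPer f) (hc : Continuous f) (h : ∀ x, f (x + α) = f x)
    (x y : Fin d → ℝ) : f x = f y := by
  have h0 : ∀ k, k ≠ 0 → fc f k = 0 := by
    intro k hk
    have h1 := fc_shift hf k α
    simp only [h] at h1
    have h2 : (ee k α - 1) * fc f k = 0 := by rw [sub_mul, ← h1]; ring
    rcases mul_eq_zero.1 h2 with h3 | h3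
    · obtain ⟨m, hm⟩ := (ee_eq_one_iff k α).1 (sub_eq_zero.1 h3)
      exact absurd hm (hα k hk m)
    · exact h3
  rw [const_of_fc hf hc h0 x, const_of_fc hf hc h0 y]

/-- Real version. -/
theorem const_of_inv_real {α : Fin d → ℝ} (hα : ∀ k : Fin d → ℤ, k ≠ 0 → ∀ m : ℤ, ph k α ≠ m)
    {f : (Fin d → ℝ) → ℝ} (hf : IsPer f) (hc : Continuous f) (h : ∀ x, f (x + α) = f x)
    (x y : Fin d → ℝ) : f x = f y := by
  have := const_of_inv hα (f := fun x => (f x : ℂ)) (hf.comp _)
    (Complex.continuous_ofReal.comp hc) (fun x => by rw [h]) x y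
  exact_mod_cast this

end Run7.h575
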