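import Pool.Agent.Run7.h575.Slow

set_option autoImplicit false

/-!
A function with small coboundary and controlled Lipschitz constant has small oscillation.
-/

open MeasureTheory Set Filter Topology

namespace Run7.h575

variable {d : ℕ}

/-- The cell of side `1 / q` containing a point of the torus. -/
noncomputable def cell (q : ℕ) (hq : 0 < q) (z : Fin d → ℝ) : Fin d → Fin q := fun i =>
  ⟨⌊(q : ℝ) * Int.fract (z i)⌋₊, by
    have hq' : (0 : ℝ) < q := by exact_mod_cast hq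
    rw [Nat.floor_lt (mul_nonneg hq'.le (Int.fract_nonneg _))]
    have := Int.fract_lt_one (z i)
    nlinarith⟩

theorem cell_eq {q : ℕ} (hq : 0 < q) {z z' : Fin d → ℝ} (h : cell q hq z = cell q hq z') :
    ∃ k : Fin d → ℤ, ‖z - (z' + zv k)‖ ≤ 1 / q := by
  have hq' : (0 : ℝ) < q := by exact_mod_cast hq
  refine ⟨fun i => ⌊z i⌋ - ⌊z' i⌋, (pi_norm_le_iff_of_nonneg (by positivity)).2 fun i => ?_⟩
  have h1 : ⌊(q : ℝ) * Int.fract (z i)⌋₊ = ⌊(q : ℝ) * Int.fract (z' i)⌋₊ :=
    congrArg Fin.val (congrFun h i)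
  have h2 := Nat.floor_le (mul_nonneg hq'.le (Int.fract_nonneg (z i)))
  have h3 := Nat.lt_floor_add_one ((q : ℝ) * Int.fract (z i))
  have h4 := Nat.floor_le (mul_nonneg hq'.le (Int.fract_nonneg (z' i)))
  have h5 := Nat.lt_floor_add_one ((q : ℝ) * Int.fract (z' i))
  rw [h1] at h2 h3
  have e : (z - (z' + zv fun i => ⌊z i⌋ - ⌊z' i⌋)) i = Int.fract (z i) - Int.fract (z' i) := by
    simp only [Pi.sub_apply, Pi.add_apply, zv_apply, Int.fract]
    push_cast
    ring
  rw [e, Real.norm_eq_abs, abs_le]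
  have h6 : (q : ℝ) * (Int.fract (z i) - Int.fract (z' i)) < 1 := by linarith
  have h7 : -1 < (q : ℝ) * (Int.fract (z i) - Int.fract (z' i)) := by linarith
  constructor
  · rw [neg_le_iff_add_nonneg, ← sub_nonneg]
    have : (0 : ℝ) ≤ (1 + q * (Int.fract (z i) - Int.fract (z' i))) / q :=
      div_nonneg (by linarith) hq'.le
    have e2 : (1 + (q : ℝ) * (Int.fract (z i) - Int.fract (z' i))) / q
        = Int.fract (z i) - Int.fract (z' i) + 1 / q - 0 := by
      field_simp; ring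
    linarith
  · rw [le_div_iff₀ hq']
    linarith

theorem iter_error {F h : (Fin d → ℝ) → (Fin d → ℝ)} {ρ : Fin d → ℝ} {η : ℝ}
    (Eh : ∀ x, ‖h (F x) - h x - ρ‖ ≤ η) (j : ℕ) (x : Fin d → ℝ) :
    ‖h (F^[j] x) - h x - (j : ℝ) • ρ‖ ≤ j * η := by
  induction j with
  | zero => simp
  | succ j ih =>
    rw [Function.iterate_succ_apply']
    have e : h (F (F^[j] x)) - h x - ((j + 1 : ℕ) : ℝ) • ρ
        = (h (F (F^[j] x)) - h (F^[j] x) - ρ) + (h (F^[j] x) - h x - (j : ℝ) • ρ) := by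
      push_cast
      rw [add_smul, one_smul]
      abel
    rw [e]
    refine (norm_add_le _ _).trans ?_
    push_cast
    have := Eh (F^[j] x)
    linarith

theorem iter_error' {F : (Fin d → ℝ) → (Fin d → ℝ)} {v : (Fin d → ℝ) → ℝ} {η : ℝ}
    (Ev : ∀ x, |v (F x) - v x| ≤ η) (j : ℕ) (x : Fin d → ℝ) :
    |v (F^[j] x) - v x| ≤ j * η := by
  induction j with
  | zero => simp
  | succ j ih =>
    rw [Function.iterate_succ_apply']
    have e : v (F (F^[j] x)) - v x = (v (F (F^[j] x)) - v (F^[j] x)) + (v (F^[j] x) - v x) := by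
      ring
    rw [e]
    refine (abs_add_le _ _).trans ?_
    push_cast
    have := Ev (F^[j] x)
    linarith

/-- The oscillation bound. -/
theorem osc_bound {F h : (Fin d → ℝ) → (Fin d → ℝ)} {v : (Fin d → ℝ) → ℝ} {ρ : Fin d → ℝ}
    (hh : Eqv h) (hv : IsPer v) (vc : Continuous v) {K η : ℝ} (hK : 1 ≤ K)
    (Lh : ∀ x y, ‖h x - h y‖ ≤ K * ‖x - y‖) (Lv : ∀ x y, |v x - v y| ≤ K * ‖x - y‖)
    (Eh : ∀ x, ‖h (F x) - h x - ρ‖ ≤ η) (Ev : ∀ x, |v (F x) - v x| ≤ η)
    {A : ℕ} (hA : 1 ≤ A)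
    (hN : ∀ b : Fin d → ℝ, ∃ j : ℕ, (j : ℝ) * η ≤ 1 / (16 * A) ∧ ∃ p : Fin d → ℤ,
      ‖(j : ℝ) • ρ - b - fun i => (p i : ℝ)‖ ≤ 1 / (4 * A)) (x x' : Fin d → ℝ) :
    v x' - v x ≤ (4 * K) ^ d / (2 * A) := by
  have hA' : (1 : ℝ) ≤ A := by exact_mod_cast hA
  have hA0 : (0 : ℝ) < A := by linarith
  rcases le_or_gt (v x' - v x) 0 with hneg | hpos
  · exact hneg.trans (by positivity)
  set ω := v x' - v x with hω
  set M : ℕ := ⌊2 * A * ω⌋₊ with hM
  have hM1 : (M : ℝ) ≤ 2 * A * ω := Nat.floor_le (by positivity)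
  have hM2 : 2 * A * ω < M + 1 := Nat.lt_floor_add_one _
  choose j hj p hp using fun a : Fin d → Fin A => hN fun i => ((a i : ℕ) : ℝ) / A
  have hy : ∀ i : Fin (M + 1), ∃ y, v y = v x + (i : ℕ) / (2 * A) := by
    intro i
    have hi : ((i : ℕ) : ℝ) ≤ M := by exact_mod_cast Nat.lt_succ_iff.1 i.2
    have h1 : v x + (i : ℕ) / (2 * A) ∈ Icc (v x) (v x') := by
      constructor
      · have : (0 : ℝ) ≤ (i : ℕ) / (2 * A) := by positivity
        linarith
      · have : ((i : ℕ) : ℝ) / (2 * A) ≤ ω := by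
          rw [div_le_iff₀ (by positivity)]
          linarith
        linarith
    obtain ⟨y, hy⟩ := intermediate_value_univ x x' vc h1
    exact ⟨y, hy⟩
  choose y hy using hy
  set q : ℕ := ⌈3 * A * K⌉₊ with hq
  have hq1 : 3 * A * K ≤ q := Nat.le_ceil _
  have hq2 : (q : ℝ) ≤ 4 * A * K := by
    have := (Nat.ceil_lt_add_one (show 0 ≤ 3 * A * K by positivity)).le
    have h1 : 1 ≤ A * K := by nlinarith
    rw [hq]
    linarith
  have hq0 : 0 < q := by
    have : (0 : ℝ) < q := lt_of_lt_of_le (by positivity) hq1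
    exact_mod_cast this
  have hq0' : (0 : ℝ) < q := by exact_mod_cast hq0
  have hKq : K * (1 / q) < 3 / (8 * A) := by
    rw [mul_one_div, div_lt_div_iff₀ hq0' (by positivity)]
    have : 0 < A * K := by positivity
    nlinarith
  set Z : Fin (M + 1) × (Fin d → Fin A) → (Fin d → ℝ) := fun s => F^[j s.2] (y s.1) with hZ
  have hinj : Function.Injective fun s => cell q hq0 (Z s) := by
    rintro ⟨i, a⟩ ⟨i', a'⟩ hs
    obtain ⟨k, hk⟩ := cell_eq hq0 hs
    have hk' : K * ‖Z (i, a) - (Z (i', a') + zv k)‖ < 3 / (8 * A) :=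
      lt_of_le_of_lt (mul_le_mul_of_nonneg_left hk (by linarith)) hKq
    have h16 : 1 / (16 * (A : ℝ)) = (1 / 16) * (1 / A) := by field_simp
    have h38 : 3 / (8 * (A : ℝ)) = (3 / 8) * (1 / A) := by field_simp
    have h4 : 1 / (4 * (A : ℝ)) = (1 / 4) * (1 / A) := by field_simp
    have hAi : 0 < 1 / (A : ℝ) := by positivity
    -- same level
    have hi : i = i' := by
      have h1 := lt_of_le_of_lt (Lv (Z (i, a)) (Z (i', a') + zv k)) hk'
      rw [hv.zv] at h1
      have h2 := (iter_error' Ev (j a) (y i)).trans (hj a)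
      have h3 := (iter_error' Ev (j a') (y i')).trans (hj a')
      have h2' : |v (Z (i, a)) - v (y i)| ≤ 1 / (16 * A) := h2
      have h3' : |v (Z (i', a')) - v (y i')| ≤ 1 / (16 * A) := h3
      rw [hy] at h2' h3'
      rw [h16] at h2' h3'
      rw [h38] at h1
      rw [abs_lt] at h1
      rw [abs_le] at h2' h3'
      have h5 : |((i : ℕ) : ℝ) / (2 * A) - (i' : ℕ) / (2 * A)| < (1 / 2) * (1 / A) := by
        rw [abs_lt]
        constructor <;> linarith [h1.1, h1.2, h2'.1, h2'.2, h3'.1, h3'.2]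
      have h6 : |((i : ℕ) : ℝ) - (i' : ℕ)| < 1 := by
        have e : ((i : ℕ) : ℝ) / (2 * A) - (i' : ℕ) / (2 * A)
            = (((i : ℕ) : ℝ) - (i' : ℕ)) * (1 / (2 * A)) := by ring
        rw [e, abs_mul, abs_of_pos (show (0 : ℝ) < 1 / (2 * A) by positivity)] at h5
        have e2 : (1 / 2 : ℝ) * (1 / A) = 1 * (1 / (2 * A)) := by field_simp
        rw [e2] at h5
        exact lt_of_mul_lt_mul_right h5 (by positivity)
      have h7 : |((i : ℕ) : ℤ) - ((i' : ℕ) : ℤ)| < 1 := by exact_mod_cast h6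
      rw [abs_lt] at h7
      apply Fin.ext
      omega
    subst hi
    have h1 := lt_of_le_of_lt (Lh (Z (i, a)) (Z (i, a') + zv k)) hk'
    rw [hh] at h1
    have h2 : ‖h (Z (i, a)) - h (y i) - (j a : ℝ) • ρ‖ ≤ 1 / (16 * A) :=
      (iter_error Eh (j a) (y i)).trans (hj a)
    have h3 : ‖h (Z (i, a')) - h (y i) - (j a' : ℝ) • ρ‖ ≤ 1 / (16 * A) :=
      (iter_error Eh (j a') (y i)).trans (hj a')
    have h5 := hp a
    have h6 := hp a'
    rw [h16] at h2 h3
    rw [h38] at h1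
    rw [h4] at h5 h6
    have ha : a = a' := by
      funext t
      have g1 := lt_of_le_of_lt (norm_le_pi_norm _ t) h1
      have g2 := (norm_le_pi_norm _ t).trans h2
      have g3 := (norm_le_pi_norm _ t).trans h3
      have g5 := (norm_le_pi_norm _ t).trans h5
      have g6 := (norm_le_pi_norm _ t).trans h6
      simp only [Pi.sub_apply, Pi.add_apply, Pi.smul_apply, smul_eq_mul, Real.norm_eq_abs,
        zv_apply] at g1 g2 g3 g5 g6
      rw [abs_lt] at g1
      rw [abs_le] at g2 g3 g5 g6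
      have g7 : |((a t : ℕ) : ℝ) / A - (a' t : ℕ) / A - (k t - p a t + p a' t)| < 1 / A := by
        rw [abs_lt]
        constructor <;> linarith [g1.1, g1.2, g2.1, g2.2, g3.1, g3.2, g5.1, g5.2, g6.1, g6.2]
      have g8 : |((a t : ℕ) : ℝ) - (a' t : ℕ) - A * (k t - p a t + p a' t)| < 1 := by
        have e : ((a t : ℕ) : ℝ) / A - (a' t : ℕ) / A - (k t - p a t + p a' t)
            = (((a t : ℕ) : ℝ) - (a' t : ℕ) - A * (k t - p a t + p a' t)) * (1 / A) := by
          field_simp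
        rw [e, abs_mul, abs_of_pos hAi] at g7
        exact lt_of_mul_lt_mul_right (by rw [one_mul]; exact g7) hAi.le
      have g9 : |((a t : ℕ) : ℤ) - ((a' t : ℕ) : ℤ) - (A : ℤ) * (k t - p a t + p a' t)| < 1 := by
        exact_mod_cast g8
      have g10 : ((a t : ℕ) : ℤ) - ((a' t : ℕ) : ℤ) = (A : ℤ) * (k t - p a t + p a' t) := by
        rw [abs_lt] at g9
        omega
      have g11 := (a t).2
      have g12 := (a' t).2
      have g13 : (k t - p a t + p a' t) = 0 := by
        by_contra hne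
        rcases lt_or_gt_of_ne hne with hlt | hgt
        · have : (A : ℤ) * (k t - p a t + p a' t) ≤ A * (-1) := by
            apply mul_le_mul_of_nonneg_left <;> omega
          omega
        · have : (A : ℤ) * 1 ≤ (A : ℤ) * (k t - p a t + p a' t) := by
            apply mul_le_mul_of_nonneg_left <;> omega
          omega
      rw [g13, mul_zero] at g10
      apply Fin.ext
      omega
    rw [ha]
  have hcard := Fintype.card_le_of_injective _ hinj
  simp only [Fintype.card_prod, Fintype.card_fin, Fintype.card_pi, Finset.prod_const,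
    Finset.card_univ] at hcard
  have hcard' : ((M : ℝ) + 1) * (A : ℝ) ^ d ≤ (q : ℝ) ^ d := by exact_mod_cast hcard
  have h1 : ((M : ℝ) + 1) * (A : ℝ) ^ d ≤ (4 * K) ^ d * (A : ℝ) ^ d := by
    refine hcard'.trans ?_
    rw [← mul_pow]
    have : (q : ℝ) ≤ 4 * K * A := by linarith
    gcongr
  have h2 : (M : ℝ) + 1 ≤ (4 * K) ^ d := le_of_mul_le_mul_right h1 (by positivity)
  rw [le_div_iff₀ (by positivity)]
  linarith

end Run7.h575
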