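import Pool.Agent.Run7.h575.Per

set_option autoImplicit false

/-!
Rapid decay of Fourier coefficients, smoothness of Fourier series, and the cohomological equation
over a Diophantine translation.
-/

open MeasureTheory Set Filter Topology

namespace Run7.h575

variable {d : ℕ}

/-- The weight `1 + |k|`. -/
noncomputable def wt (k : Fin d → ℤ) : ℝ := 1 + ‖k‖

theorem one_le_wt (k : Fin d → ℤ) : 1 ≤ wt k := by
  have := norm_nonneg k
  unfold wt
  linarith

theorem wt_pos (k : Fin d → ℤ) : 0 < wt k := lt_of_lt_of_le one_pos (one_le_wt k)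

theorem abs_le_wt (k : Fin d → ℤ) (j : Fin d) : |(k j : ℝ)| ≤ wt k := by
  have h := norm_le_pi_norm k j
  rw [Int.norm_eq_abs] at h
  unfold wt
  linarith

theorem summable_int : Summable fun n : ℤ => (1 + (n : ℝ) ^ 2)⁻¹ := by
  have h : Summable fun n : ℤ => |(n : ℝ)| ^ (-2 : ℝ) := Real.summable_abs_int_rpow (by norm_num)
  have h2 := h.add (summable_of_hasFiniteSupport (f := fun n : ℤ => if n = 0 then (1 : ℝ) else 0)
    ((Set.finite_singleton (0 : ℤ)).subset fun n hn => by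
      by_contra h
      exact hn (if_neg h)))
  refine Summable.of_nonneg_of_le (fun n => by positivity) (fun n => ?_) h2
  by_cases hn : n = 0
  · subst hn; simp
  · rw [if_neg hn, add_zero]
    have hn' : (n : ℝ) ≠ 0 := by exact_mod_cast hn
    rw [Real.rpow_neg (abs_nonneg _), show (2 : ℝ) = ((2 : ℕ) : ℝ) by norm_num,
      Real.rpow_natCast, sq_abs]
    rw [inv_le_inv₀ (by positivity) (by positivity)]
    linarith

theorem summable_prod (n : ℕ) : Summable fun k : Fin n → ℤ => ∏ i, (1 + (k i : ℝ) ^ 2)⁻¹ := by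
  induction n with
  | zero => exact (hasSum_fintype _).summable
  | succ n ih =>
    have h1 := summable_int.mul_of_nonneg ih (fun m => by positivity)
      (fun k => Finset.prod_nonneg fun i _ => by positivity)
    refine ((Fin.consEquiv fun _ : Fin (n + 1) => ℤ).summable_iff).1 ?_
    refine h1.congr fun p => ?_
    simp [Fin.consEquiv, Fin.prod_univ_succ, mul_comm]

theorem one_add_sq_le (k : Fin d → ℤ) (j : Fin d) : 1 + (k j : ℝ) ^ 2 ≤ wt k ^ 2 := by
  have h := norm_le_pi_norm k j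
  rw [Int.norm_eq_abs] at h
  have h2 : (k j : ℝ) ^ 2 ≤ ‖k‖ ^ 2 := by
    rw [← sq_abs (k j : ℝ)]
    exact pow_le_pow_left₀ (abs_nonneg _) h 2
  have h3 := norm_nonneg k
  unfold wt
  nlinarith

theorem summable_wt : Summable fun k : Fin d → ℤ => ((wt k) ^ (2 * d))⁻¹ := by
  refine Summable.of_nonneg_of_le (fun k => by have := wt_pos k; positivity) (fun k => ?_)
    (summable_prod d)
  rw [Finset.prod_inv_distrib, inv_le_inv₀ (by have := wt_pos k; positivity)
    (Finset.prod_pos fun i _ => by positivity)]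
  calc ∏ i, (1 + (k i : ℝ) ^ 2) ≤ ∏ _i : Fin d, wt k ^ 2 :=
        Finset.prod_le_prod (fun i _ => by positivity) fun i _ => one_add_sq_le k i
    _ = wt k ^ (2 * d) := by
        rw [Finset.prod_const, Finset.card_univ, Fintype.card_fin, ← pow_mul]

/-- Rapidly decreasing coefficients. -/
def RD (a : (Fin d → ℤ) → ℂ) : Prop := ∀ n : ℕ, Summable fun k => wt k ^ n * ‖a k‖

/-- Polynomial bounds imply rapid decrease. -/
theorem rd_of_bounds {a : (Fin d → ℤ) → ℂ} (h : ∀ n : ℕ, ∃ C, ∀ k, wt k ^ n * ‖a k‖ ≤ C) : RD a := by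
  intro n
  obtain ⟨C, hC⟩ := h (n + 2 * d)
  refine Summable.of_nonneg_of_le (fun k => by have := wt_pos k; positivity) (fun k => ?_)
    (summable_wt.mul_left C)
  have hw := wt_pos k
  rw [← div_eq_mul_inv, le_div_iff₀ (by positivity)]
  have := hC k
  rw [pow_add] at this
  linarith

theorem RD.bound {a : (Fin d → ℤ) → ℂ} (h : RD a) (n : ℕ) : ∃ C, ∀ k, wt k ^ n * ‖a k‖ ≤ C :=
  ⟨∑' k, wt k ^ n * ‖a k‖, fun k => (h n).le_tsum k fun l _ => by
    have := wt_pos l
    positivity⟩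

theorem RD.summable {a : (Fin d → ℤ) → ℂ} (h : RD a) : Summable a := by
  have := h 0
  simp only [pow_zero, one_mul] at this
  exact this.of_norm

theorem RD.mono {a b : (Fin d → ℤ) → ℂ} (h : RD a) (n : ℕ) (C : ℝ)
    (hb : ∀ k, ‖b k‖ ≤ C * wt k ^ n * ‖a k‖) : RD b := by
  intro m
  refine Summable.of_nonneg_of_le (fun k => by have := wt_pos k; positivity) (fun k => ?_)
    ((h (m + n)).mul_left C)
  have hw := wt_pos k
  calc wt k ^ m * ‖b k‖ ≤ wt k ^ m * (C * wt k ^ n * ‖a k‖) :=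
        mul_le_mul_of_nonneg_left (hb k) (by positivity)
    _ = C * (wt k ^ (m + n) * ‖a k‖) := by rw [pow_add]; ring

/-! ### derivatives of characters -/

/-- The linear form `k · x`. -/
noncomputable def phL (k : Fin d → ℤ) : (Fin d → ℝ) →L[ℝ] ℝ :=
  ∑ i, (k i : ℝ) • (ContinuousLinearMap.proj i : (Fin d → ℝ) →L[ℝ] ℝ)

theorem phL_apply (k : Fin d → ℤ) (x : Fin d → ℝ) : phL k x = ph k x := by
  simp [phL, ph]

theorem norm_phL_le (k : Fin d → ℤ) : ‖phL k‖ ≤ d * wt k := by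
  refine (norm_sum_le _ _).trans ?_
  calc ∑ i, ‖(k i : ℝ) • (ContinuousLinearMap.proj i : (Fin d → ℝ) →L[ℝ] ℝ)‖
      ≤ ∑ _i : Fin d, wt k := by
        refine Finset.sum_le_sum fun i _ => ?_
        rw [norm_smul]
        have h1 : ‖(ContinuousLinearMap.proj i : (Fin d → ℝ) →L[ℝ] ℝ)‖ ≤ 1 := by
          refine ContinuousLinearMap.opNorm_le_bound _ zero_le_one fun v => ?_
          rw [one_mul]
          exact norm_le_pi_norm v i
        have h2 := abs_le_wt k i
        calc ‖(k i : ℝ)‖ * _ ≤ wt k * 1 :=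
              mul_le_mul h2 h1 (norm_nonneg _) (wt_pos k).le
          _ = wt k := mul_one _
    _ = d * wt k := by simp

theorem norm_iter_exp (n : ℕ) (t : ℝ) :
    ‖iteratedFDeriv ℝ n (fun t : ℝ => Complex.exp (2 * Real.pi * Complex.I * (t : ℂ))) t‖
      = (2 * Real.pi) ^ n := by
  have h : ∀ n : ℕ, iteratedDeriv n (fun t : ℝ => Complex.exp (2 * Real.pi * Complex.I * (t : ℂ)))
      = fun t : ℝ => (2 * Real.pi * Complex.I) ^ n * Complex.exp (2 * Real.pi * Complex.I * (t : ℂ)) := by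
    intro n
    induction n with
    | zero => simp
    | succ n ih =>
      rw [iteratedDeriv_succ, ih]
      funext t
      have h1 : HasDerivAt (fun t : ℝ => (t : ℂ)) 1 t := Complex.ofRealCLM.hasDerivAt
      have h2 := ((h1.const_mul (2 * Real.pi * Complex.I)).cexp).const_mul
        ((2 * Real.pi * Complex.I) ^ n)
      rw [h2.deriv]
      ring
  rw [norm_iteratedFDeriv_eq_norm_iteratedDeriv, h]
  have h3 : Complex.exp (2 * Real.pi * Complex.I * (t : ℂ))
      = Complex.exp (((2 * Real.pi * t : ℝ) : ℂ) * Complex.I) := by congr 1; push_cast; ring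
  rw [norm_mul, h3, Complex.norm_exp_ofReal_mul_I, mul_one, norm_pow]
  congr 1
  rw [norm_mul, norm_mul, Complex.norm_I, mul_one, Complex.norm_real, Real.norm_eq_abs,
    abs_of_pos Real.pi_pos, Complex.norm_ofNat]

theorem norm_iter_ee (n : ℕ) (k : Fin d → ℤ) (x : Fin d → ℝ) :
    ‖iteratedFDeriv ℝ n (ee k) x‖ ≤ (2 * Real.pi * (d * wt k)) ^ n := by
  have e : ee k = (fun t : ℝ => Complex.exp (2 * Real.pi * Complex.I * (t : ℂ))) ∘ (phL k) := by
    funext y
    rw [Function.comp_apply, phL_apply, ee]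
  have hc : ContDiff ℝ n (fun t : ℝ => Complex.exp (2 * Real.pi * Complex.I * (t : ℂ))) :=
    (contDiff_const.mul Complex.ofRealCLM.contDiff).cexp
  rw [e, ContinuousLinearMap.iteratedFDeriv_comp_right (phL k) hc x le_rfl]
  refine (ContinuousMultilinearMap.norm_compContinuousLinearMap_le _ _).trans ?_
  rw [norm_iter_exp, Finset.prod_const, Finset.card_univ, Fintype.card_fin, ← mul_pow]
  have := norm_phL_le k
  have h2 := Real.pi_pos
  gcongr

/-- The sum of a Fourier series. -/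
noncomputable def fs (a : (Fin d → ℤ) → ℂ) (x : Fin d → ℝ) : ℂ := ∑' k, a k * ee k x

theorem fs_summable {a : (Fin d → ℤ) → ℂ} (h : Summable a) (x : Fin d → ℝ) :
    Summable fun k => a k * ee k x :=
  Summable.of_norm (h.norm.congr fun k => by rw [norm_mul, norm_ee, mul_one])

theorem fs_per (a : (Fin d → ℤ) → ℂ) : IsPer (fs a) := by
  intro x k
  unfold fs
  exact tsum_congr fun l => by rw [ee_per]

theorem iter_const_mul {n : ℕ} (c : ℂ) (k : Fin d → ℤ) (x : Fin d → ℝ) :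
    iteratedFDeriv ℝ n (fun x => c * ee k x) x = c • iteratedFDeriv ℝ n (ee k) x := by
  have h := iteratedFDeriv_const_smul_apply (𝕜 := ℝ) (i := n) (a := c) (f := ee k) (x := x)
    ((ee_contDiff k).contDiffAt)
  exact h

theorem RD.contDiff {a : (Fin d → ℤ) → ℂ} (h : RD a) : ContDiff ℝ (⊤ : ℕ∞) (fs a) := by
  unfold fs
  refine contDiff_tsum (𝕜 := ℝ) (N := ⊤)
    (v := fun n k => ‖a k‖ * (2 * Real.pi * (d * wt k)) ^ n)
    (fun k => contDiff_const.mul (ee_contDiff k)) (fun n _ => ?_) (fun n k x _ => ?_)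
  · refine ((h n).mul_left ((2 * Real.pi * d) ^ n)).congr fun k => ?_
    rw [← mul_assoc (2 * Real.pi), mul_pow (2 * Real.pi * d)]
    ring
  · rw [iter_const_mul, norm_smul]
    exact mul_le_mul_of_nonneg_left (norm_iter_ee n k x) (norm_nonneg _)

/-! ### decay of coefficients -/

theorem decay_dir (j : Fin d) (k : Fin d → ℤ) (hk : k j ≠ 0) (p : ℕ) :
    ∀ (f : (Fin d → ℝ) → ℂ) (B : ℝ), IsPer f → ContDiff ℝ (⊤ : ℕ∞) f →
      (∀ x, ‖iteratedFDeriv ℝ p f x‖ ≤ B) → (4 * |(k j : ℝ)|) ^ p * ‖fc f k‖ ≤ B := by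
  have hk' : (k j : ℝ) ≠ 0 := by exact_mod_cast hk
  have hk0 : 0 < |(k j : ℝ)| := abs_pos.2 hk'
  induction p with
  | zero =>
    intro f B hf _ hB
    rw [pow_zero, one_mul]
    exact norm_fc_le (fun x => by simpa using hB x) k
  | succ p ih =>
    intro f B hf hs hB
    set β : Fin d → ℝ := Pi.single j (1 / (2 * (k j : ℝ))) with hβ
    have hph : ph k β = 1 / 2 := by
      rw [ph, Finset.sum_eq_single j]
      · rw [hβ, Pi.single_eq_same]; field_simp
      · intro b _ hb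
        rw [hβ, Pi.single_eq_of_ne hb, mul_zero]
      · intro h; exact absurd (Finset.mem_univ j) h
    have hee : ee k β = -1 := by
      rw [ee, hph]
      have : (2 * Real.pi * Complex.I * ((1 / 2 : ℝ) : ℂ)) = Real.pi * Complex.I := by
        push_cast; ring
      rw [this, Complex.exp_pi_mul_I]
    have hnβ : ‖β‖ = 1 / (2 * |(k j : ℝ)|) := by
      rw [hβ, Pi.norm_single, norm_div, norm_mul, norm_one, Real.norm_eq_abs, Real.norm_eq_abs]
      norm_num
    have hper : IsPer fun x => f (x + β) - f x := by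
      intro x l
      show f (_ + β) - f _ = _
      rw [hf, add_right_comm, hf]
    have hsm : ContDiff ℝ (⊤ : ℕ∞) fun x => f (x + β) - f x :=
      (hs.comp (contDiff_id.add contDiff_const)).sub hs
    have hD : Differentiable ℝ (iteratedFDeriv ℝ p f) :=
      hs.differentiable_iteratedFDeriv (by exact_mod_cast WithTop.coe_lt_top p)
    have hb : ∀ x, ‖iteratedFDeriv ℝ p (fun x => f (x + β) - f x) x‖ ≤ B * ‖β‖ := by
      intro x
      have e1 : iteratedFDeriv ℝ p (fun x => f (x + β) - f x) x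
          = iteratedFDeriv ℝ p f (x + β) - iteratedFDeriv ℝ p f x := by
        have h1 : ContDiffAt ℝ p (fun x => f (x + β)) x :=
          ((hs.comp (contDiff_id.add contDiff_const)).of_le (by exact_mod_cast le_top)).contDiffAt
        have h2 : ContDiffAt ℝ p f x := (hs.of_le (by exact_mod_cast le_top)).contDiffAt
        have h3 := iteratedFDeriv_sub_apply (𝕜 := ℝ) h1 h2
        have h4 := iteratedFDeriv_comp_add_right (𝕜 := ℝ) (f := f) p β x
        rw [← h4]
        exact h3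
      rw [e1]
      have := Convex.norm_image_sub_le_of_norm_fderiv_le (𝕜 := ℝ) (f := iteratedFDeriv ℝ p f)
        (s := Set.univ) (C := B) (x := x) (y := x + β) (fun u _ => hD u)
        (fun u _ => by rw [norm_fderiv_iteratedFDeriv]; exact hB u) convex_univ (mem_univ _)
        (mem_univ _)
      rwa [add_sub_cancel_left] at this
    have h5 := ih _ _ hper hsm hb
    have h6 : fc (fun x => f (x + β) - f x) k = -2 * fc f k := by
      rw [fc_sub (f := fun x => f (x + β)) (hs.continuous.comp (continuous_id.add continuous_const))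
        hs.continuous, fc_shift hf, hee]
      ring
    rw [h6, norm_mul, norm_neg, Complex.norm_ofNat, hnβ] at h5
    have h7 : (4 * |(k j : ℝ)|) ^ (p + 1) * ‖fc f k‖
        = 2 * |(k j : ℝ)| * ((4 * |(k j : ℝ)|) ^ p * (2 * ‖fc f k‖)) := by
      rw [pow_succ]; ring
    rw [h7]
    calc 2 * |(k j : ℝ)| * ((4 * |(k j : ℝ)|) ^ p * (2 * ‖fc f k‖))
        ≤ 2 * |(k j : ℝ)| * (B * (1 / (2 * |(k j : ℝ)|))) := by gcongr
      _ = B := by field_simp

theorem decay {f : (Fin d → ℝ) → ℂ} (hf : IsPer f) (hs : ContDiff ℝ (⊤ : ℕ∞) f) : RD (fc f) := by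
  refine rd_of_bounds fun n => ?_
  obtain ⟨B, hB⟩ := hf.bounded_deriv hs n
  obtain ⟨B0, hB0⟩ := hf.bounded hs.continuous
  have hBn : 0 ≤ B := (norm_nonneg _).trans (hB 0)
  have hB0n : 0 ≤ B0 := (norm_nonneg _).trans (hB0 0)
  refine ⟨B + B0, fun k => ?_⟩
  by_cases hk : k = 0
  · subst hk
    have : wt (0 : Fin d → ℤ) = 1 := by simp [wt]
    rw [this, one_pow, one_mul]
    exact (norm_fc_le hB0 0).trans (by linarith)
  · have hne : Nonempty (Fin d) := by
      by_contra h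
      rw [not_nonempty_iff] at h
      exact hk (Subsingleton.elim _ _)
    obtain ⟨j, hj⟩ : ∃ j, ‖k‖ = ‖k j‖ := by
      obtain ⟨j, hj⟩ := Finite.exists_max (fun j => ‖k j‖)
      refine ⟨j, le_antisymm ((pi_norm_le_iff_of_nonempty _).2 hj) (norm_le_pi_norm k j)⟩
    have hkj : k j ≠ 0 := by
      intro h
      rw [h, norm_zero, norm_eq_zero] at hj
      exact hk hj
    have h1 := decay_dir j k hkj n f B hf hs hB
    have h2 : (1 : ℝ) ≤ |(k j : ℝ)| := by exact_mod_cast Int.one_le_abs hkj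
    have h3 : wt k ≤ 4 * |(k j : ℝ)| := by
      rw [wt, hj, Int.norm_eq_abs]
      linarith
    have h4 := wt_pos k
    calc wt k ^ n * ‖fc f k‖ ≤ (4 * |(k j : ℝ)|) ^ n * ‖fc f k‖ := by gcongr
      _ ≤ B := h1
      _ ≤ B + B0 := by linarith

/-! ### Diophantine vectors -/

/-- Diophantine vectors. -/
def Dioph (α : Fin d → ℝ) : Prop :=
  ∃ C : ℝ, 0 < C ∧ ∃ τ : ℝ, 0 < τ ∧ ∀ k : Fin d → ℤ, k ≠ 0 → ∀ m : ℤ,
    C / (∑ i, |(k i : ℝ)|) ^ τ ≤ |∑ i, (k i : ℝ) * α i - (m : ℝ)|

theorem norm_exp_sub_one_ge (t : ℝ) : 4 * |t - round t| ≤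
    ‖Complex.exp (2 * Real.pi * Complex.I * (t : ℂ)) - 1‖ := by
  set u := t - round t with hu
  have e1 : Complex.exp (2 * Real.pi * Complex.I * (t : ℂ)) = Complex.exp (((2 * Real.pi * u : ℝ) : ℂ) * Complex.I) := by
    have h : (2 * Real.pi * Complex.I * (t : ℂ)) = ((2 * Real.pi * u : ℝ) : ℂ) * Complex.I
        + (round t : ℤ) * (2 * Real.pi * Complex.I) := by
      rw [hu]; push_cast; ring
    rw [h, Complex.exp_add, Complex.exp_int_mul_two_pi_mul_I, mul_one]
  have hub : |u| ≤ 1 / 2 := abs_sub_round t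
  have e2 : ‖Complex.exp (((2 * Real.pi * u : ℝ) : ℂ) * Complex.I) - 1‖ = 2 * |Real.sin (Real.pi * u)| := by
    have h := Complex.norm_exp_I_mul_ofReal_sub_one (2 * Real.pi * u)
    rw [mul_comm Complex.I] at h
    rw [h, norm_mul, Real.norm_eq_abs, Real.norm_eq_abs, abs_two]
    congr 3
    ring
  rw [e1, e2]
  have h3 : 2 / Real.pi * |Real.pi * u| ≤ |Real.sin (Real.pi * u)| := by
    refine Real.mul_abs_le_abs_sin ?_
    rw [abs_mul, abs_of_pos Real.pi_pos]
    have := Real.pi_pos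
    nlinarith
  have h4 : 2 / Real.pi * |Real.pi * u| = 2 * |u| := by
    rw [abs_mul, abs_of_pos Real.pi_pos]
    field_simp
  linarith

theorem norm_exp_sub_one_le (t : ℝ) (m : ℤ) :
    ‖Complex.exp (2 * Real.pi * Complex.I * (t : ℂ)) - 1‖ ≤ 2 * Real.pi * |t - m| := by
  set u := t - m with hu
  have e1 : Complex.exp (2 * Real.pi * Complex.I * (t : ℂ)) = Complex.exp (((2 * Real.pi * u : ℝ) : ℂ) * Complex.I) := by
    have h : (2 * Real.pi * Complex.I * (t : ℂ)) = ((2 * Real.pi * u : ℝ) : ℂ) * Complex.I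
        + (m : ℤ) * (2 * Real.pi * Complex.I) := by
      rw [hu]; push_cast; ring
    rw [h, Complex.exp_add, Complex.exp_int_mul_two_pi_mul_I, mul_one]
  have e2 : ‖Complex.exp (((2 * Real.pi * u : ℝ) : ℂ) * Complex.I) - 1‖ = 2 * |Real.sin (Real.pi * u)| := by
    have h := Complex.norm_exp_I_mul_ofReal_sub_one (2 * Real.pi * u)
    rw [mul_comm Complex.I] at h
    rw [h, norm_mul, Real.norm_eq_abs, Real.norm_eq_abs, abs_two]
    congr 3
    ring
  rw [e1, e2]
  have h3 : |Real.sin (Real.pi * u)| ≤ |Real.pi * u| := Real.abs_sin_le_abs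
  rw [abs_mul, abs_of_pos Real.pi_pos] at h3
  linarith

theorem ee_sub_one_ge {α : Fin d → ℝ} (hα : Dioph α) : ∃ c : ℝ, 0 < c ∧ ∃ n : ℕ,
    ∀ k : Fin d → ℤ, k ≠ 0 → c ≤ wt k ^ n * ‖ee k α - 1‖ := by
  obtain ⟨C, hC, τ, hτ, h⟩ := hα
  obtain ⟨n, hn⟩ := exists_nat_ge τ
  have hd : (0 : ℝ) < (d + 1 : ℝ) ^ τ := by positivity
  refine ⟨4 * C / (d + 1 : ℝ) ^ τ, by positivity, n, fun k hk => ?_⟩
  have h1 := h k hk (round (ph k α))
  have h2 : 4 * |ph k α - round (ph k α)| ≤ ‖ee k α - 1‖ := norm_exp_sub_one_ge _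
  have h3 : 4 * (C / (∑ i, |(k i : ℝ)|) ^ τ) ≤ ‖ee k α - 1‖ := by
    refine le_trans ?_ h2
    have : |ph k α - round (ph k α)| = |∑ i, (k i : ℝ) * α i - (round (ph k α) : ℝ)| := rfl
    rw [this]
    linarith
  have hw := wt_pos k
  have hw1 := one_le_wt k
  have h4 : ∑ i, |(k i : ℝ)| ≤ (d + 1) * wt k := by
    calc ∑ i, |(k i : ℝ)| ≤ ∑ _i : Fin d, wt k := Finset.sum_le_sum fun i _ => abs_le_wt k i
      _ = d * wt k := by simp
      _ ≤ (d + 1) * wt k := by nlinarith
  have h5 : 0 < ∑ i, |(k i : ℝ)| := by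
    have h0 : ∀ i ∈ Finset.univ, 0 ≤ |(k i : ℝ)| := fun i _ => abs_nonneg _
    rcases (Finset.sum_nonneg h0).lt_or_eq with h | h
    · exact h
    · exfalso
      apply hk
      funext i
      have := (Finset.sum_eq_zero_iff_of_nonneg h0).1 h.symm i (Finset.mem_univ i)
      rw [abs_eq_zero] at this
      exact_mod_cast this
  have h6 : (∑ i, |(k i : ℝ)|) ^ τ ≤ (d + 1 : ℝ) ^ τ * wt k ^ n := by
    calc (∑ i, |(k i : ℝ)|) ^ τ ≤ ((d + 1) * wt k) ^ τ := Real.rpow_le_rpow h5.le h4 hτ.le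
      _ = (d + 1 : ℝ) ^ τ * wt k ^ τ := Real.mul_rpow (by positivity) hw.le
      _ ≤ (d + 1 : ℝ) ^ τ * wt k ^ n := by
        have : wt k ^ τ ≤ wt k ^ (n : ℝ) := Real.rpow_le_rpow_of_exponent_le hw1 hn
        rw [Real.rpow_natCast] at this
        gcongr
  have h7 : 0 < (∑ i, |(k i : ℝ)|) ^ τ := Real.rpow_pos_of_pos h5 τ
  calc 4 * C / (d + 1 : ℝ) ^ τ = wt k ^ n * (4 * (C / ((d + 1 : ℝ) ^ τ * wt k ^ n))) := by
        field_simp
    _ ≤ wt k ^ n * (4 * (C / (∑ i, |(k i : ℝ)|) ^ τ)) := by gcongr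
    _ ≤ wt k ^ n * ‖ee k α - 1‖ := by gcongr

/-- The cohomological equation over a Diophantine translation. -/
theorem solve {α : Fin d → ℝ} (hα : Dioph α) {f : (Fin d → ℝ) → ℝ} (hf : IsPer f)
    (hs : ContDiff ℝ (⊤ : ℕ∞) f) (h0 : ∫ x in cube, f x = 0) :
    ∃ g : (Fin d → ℝ) → ℝ, IsPer g ∧ ContDiff ℝ (⊤ : ℕ∞) g ∧ ∀ x, g (x + α) - g x = f x := by
  obtain ⟨c, hc, n, hn⟩ := ee_sub_one_ge hα
  set fC : (Fin d → ℝ) → ℂ := fun x => (f x : ℂ) with hfC
  have hfCp : IsPer fC := hf.comp _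
  have hfCs : ContDiff ℝ (⊤ : ℕ∞) fC := Complex.ofRealCLM.contDiff.comp hs
  have hrd := decay hfCp hfCs
  have hfc0 : fc fC 0 = 0 := by
    rw [fc]
    have : (fun x => ee (-0) x * fC x) = fun x : Fin d → ℝ => ((f x : ℝ) : ℂ) := by
      funext x; rw [neg_zero, ee_zero_left, one_mul]
    rw [this, integral_complex_ofReal, h0, Complex.ofReal_zero]
  set a : (Fin d → ℤ) → ℂ := fun k => if k = 0 then 0 else fc fC k / (ee k α - 1) with ha
  have hne : ∀ k : Fin d → ℤ, k ≠ 0 → ee k α - 1 ≠ 0 := by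
    intro k hk h
    have := hn k hk
    rw [h, norm_zero, mul_zero] at this
    linarith
  have haRD : RD a := by
    refine hrd.mono n c⁻¹ fun k => ?_
    by_cases hk : k = 0
    · rw [ha]
      simp only [hk, if_true, norm_zero]
      have := wt_pos (0 : Fin d → ℤ)
      positivity
    · simp only [ha, if_neg hk, norm_div]
      have h1 := hn k hk
      have h2 : 0 < ‖ee k α - 1‖ := norm_pos_iff.2 (hne k hk)
      rw [div_le_iff₀ h2]
      calc ‖fc fC k‖ = c⁻¹ * c * ‖fc fC k‖ := by field_simp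
        _ ≤ c⁻¹ * (wt k ^ n * ‖ee k α - 1‖) * ‖fc fC k‖ := by gcongr
        _ = c⁻¹ * wt k ^ n * ‖fc fC k‖ * ‖ee k α - 1‖ := by ring
  refine ⟨fun x => (fs a x).re, (fs_per a).comp _, Complex.reCLM.contDiff.comp haRD.contDiff,
    fun x => ?_⟩
  have h1 : HasSum (fun k => a k * ee k (x + α) - a k * ee k x) (fs a (x + α) - fs a x) :=
    (fs_summable haRD.summable (x + α)).hasSum.sub (fs_summable haRD.summable x).hasSum
  have h2 := hasSum_fc hfCp hfCs.continuous hrd.summable x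
  have h3 : (fun k => a k * ee k (x + α) - a k * ee k x) = fun k => fc fC k * ee k x := by
    funext k
    by_cases hk : k = 0
    · simp [ha, hk, hfc0]
    · simp only [ha, if_neg hk]
      rw [ee_add]
      have := hne k hk
      field_simp
  rw [h3] at h1
  have h4 := h1.unique h2
  have h5 := congrArg Complex.re h4
  rw [Complex.sub_re] at h5
  simpa [hfC] using h5

end Run7.h575
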