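import Pool.Agent.Run7.h575.Main1
import Pool.Agent.Run7.h575.Lin

set_option autoImplicit false

/-!
Higher derivatives of iterates are controlled by the first derivatives, and rigidity.
-/

open MeasureTheory Set Filter Topology Matrix

namespace Run7.h575

variable {d : ℕ}

/-- The derivative of order `s + 1` of a composition, up to the top order term. -/
theorem top_order {F g : (Fin d → ℝ) → (Fin d → ℝ)} (hF : ContDiff ℝ (⊤ : ℕ∞) F)
    (hg : ContDiff ℝ (⊤ : ℕ∞) g) {s : ℕ} {B X : ℝ} (hB : 0 ≤ B) (hX : 1 ≤ X)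
    (hFB : ∀ l ≤ s, ∀ y, ‖iteratedFDeriv ℝ l (fderiv ℝ F) y‖ ≤ B) (x : Fin d → ℝ)
    (hgX : ∀ i, 1 ≤ i → i ≤ s → ‖iteratedFDeriv ℝ i g x‖ ≤ X) :
    ‖iteratedFDeriv ℝ (s + 1) (fun y => F (g y)) x
      - (fderiv ℝ F (g x)).compContinuousMultilinearMap (iteratedFDeriv ℝ (s + 1) g x)‖
      ≤ 2 ^ s * s.factorial * B * X ^ (s + 1) := by
  set L0 := fderiv ℝ F (g x) with hL0
  have hF' : ContDiff ℝ (⊤ : ℕ∞) (fderiv ℝ F) := hF.fderiv_right (by simp)
  have hg' : ContDiff ℝ (⊤ : ℕ∞) (fderiv ℝ g) := hg.fderiv_right (by simp)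
  have hdF : Differentiable ℝ F := hF.differentiable (by simp)
  have hdg : Differentiable ℝ g := hg.differentiable (by simp)
  have e1 : iteratedFDeriv ℝ (s + 1) (fun y => F (g y)) x
      - L0.compContinuousMultilinearMap (iteratedFDeriv ℝ (s + 1) g x)
      = iteratedFDeriv ℝ (s + 1) (fun y => F (g y) - L0 (g y)) x := by
    have h1 : ContDiffAt ℝ ((s + 1 : ℕ) : WithTop ℕ∞) (fun y => F (g y)) x :=
      ((hF.comp hg).of_le (nat_le_top _)).contDiffAt
    have h2 : ContDiffAt ℝ ((s + 1 : ℕ) : WithTop ℕ∞) (fun y => L0 (g y)) x :=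
      ((L0.contDiff.comp hg).of_le (nat_le_top _)).contDiffAt
    have h3 := iteratedFDeriv_sub_apply (𝕜 := ℝ) h1 h2
    have h4 := ContinuousLinearMap.iteratedFDeriv_comp_left (𝕜 := ℝ) L0 (f := g) (x := x)
      (n := ((⊤ : ℕ∞) : WithTop ℕ∞)) hg.contDiffAt (i := s + 1) (nat_le_top _)
    have h5 : iteratedFDeriv ℝ (s + 1) (fun y => L0 (g y)) x
        = L0.compContinuousMultilinearMap (iteratedFDeriv ℝ (s + 1) g x) := h4
    rw [← h5]
    exact h3.symm
  rw [e1, ← norm_iteratedFDeriv_fderiv]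
  have e2 : fderiv ℝ (fun y => F (g y) - L0 (g y))
      = fun y => (ContinuousLinearMap.compL ℝ (Fin d → ℝ) (Fin d → ℝ) (Fin d → ℝ))
        (fderiv ℝ F (g y) - L0) (fderiv ℝ g y) := by
    funext y
    have h1 : HasFDerivAt (fun y => F (g y)) ((fderiv ℝ F (g y)).comp (fderiv ℝ g y)) y :=
      (hdF (g y)).hasFDerivAt.comp y (hdg y).hasFDerivAt
    have h2 : HasFDerivAt (fun y => L0 (g y)) (L0.comp (fderiv ℝ g y)) y :=
      L0.hasFDerivAt.comp y (hdg y).hasFDerivAt
    have h3 : HasFDerivAt (fun y => F (g y) - L0 (g y))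
        ((fderiv ℝ F (g y)).comp (fderiv ℝ g y) - L0.comp (fderiv ℝ g y)) y := h1.sub h2
    rw [h3.fderiv, ContinuousLinearMap.compL_apply]
    exact (ContinuousLinearMap.sub_comp _ _ _).symm
  rw [e2]
  have hA : ContDiff ℝ (⊤ : ℕ∞) fun y => fderiv ℝ F (g y) - L0 := (hF'.comp hg).sub contDiff_const
  refine (ContinuousLinearMap.norm_iteratedFDeriv_le_of_bilinear_of_le_one
    (ContinuousLinearMap.compL ℝ (Fin d → ℝ) (Fin d → ℝ) (Fin d → ℝ)) hA hg' x
    (nat_le_top s) (ContinuousLinearMap.norm_compL_le _ _ _ _)).trans ?_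
  have hterm : ∀ i ∈ Finset.range (s + 1),
      (s.choose i : ℝ) * ‖iteratedFDeriv ℝ i (fun y => fderiv ℝ F (g y) - L0) x‖
        * ‖iteratedFDeriv ℝ (s - i) (fderiv ℝ g) x‖
      ≤ (s.choose i : ℝ) * (s.factorial * B * X ^ (s + 1)) := by
    intro i hi
    have his : i ≤ s := Nat.lt_succ_iff.1 (Finset.mem_range.1 hi)
    have hX0 : 0 ≤ X := by linarith
    rcases Nat.eq_zero_or_pos i with rfl | hi0
    · rw [norm_iteratedFDeriv_zero, ← hL0, sub_self, norm_zero, mul_zero, zero_mul]
      positivity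
    · obtain ⟨i', rfl⟩ : ∃ i', i = i' + 1 := ⟨i - 1, by omega⟩
      rw [norm_iter_sub_const]
      have h1 := norm_iteratedFDeriv_comp_le (𝕜 := ℝ) (g := fderiv ℝ F) (f := g) (n := i' + 1)
        hF' hg (nat_le_top (i' + 1)) x (C := B) (D := X) (fun l hl => hFB l (by omega) _)
        (fun l hl1 hl2 => (hgX l hl1 (by omega)).trans (le_self_pow₀ hX (by omega)))
      have h2 : ‖iteratedFDeriv ℝ (s - (i' + 1)) (fderiv ℝ g) x‖ ≤ X := by
        rw [norm_iteratedFDeriv_fderiv]
        exact hgX _ (by omega) (by omega)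
      have h3 : ((i' + 1).factorial : ℝ) ≤ s.factorial := by
        exact_mod_cast Nat.factorial_le his
      have h4 : X ^ (i' + 1) ≤ X ^ s := pow_le_pow_right₀ hX his
      have h5 : ‖iteratedFDeriv ℝ (i' + 1) (fun y => fderiv ℝ F (g y)) x‖
          ≤ s.factorial * B * X ^ s := by
        refine h1.trans ?_
        gcongr
      calc (s.choose (i' + 1) : ℝ) * ‖iteratedFDeriv ℝ (i' + 1) (fun y => fderiv ℝ F (g y)) x‖
            * ‖iteratedFDeriv ℝ (s - (i' + 1)) (fderiv ℝ g) x‖
          ≤ (s.choose (i' + 1) : ℝ) * (s.factorial * B * X ^ s) * X := by gcongr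
        _ = (s.choose (i' + 1) : ℝ) * (s.factorial * B * X ^ (s + 1)) := by rw [pow_succ]; ring
  refine (Finset.sum_le_sum hterm).trans (le_of_eq ?_)
  rw [← Finset.sum_mul]
  have : (∑ i ∈ Finset.range (s + 1), (s.choose i : ℝ)) = 2 ^ s := by
    exact_mod_cast Nat.sum_range_choose s
  rw [this]
  ring

/-- Higher derivatives of the iterates up to time `q` are polynomially controlled by `q` and the
first derivatives. -/
theorem higher {F : (Fin d → ℝ) → (Fin d → ℝ)} (hF : ContDiff ℝ (⊤ : ℕ∞) F) (hFe : Eqv F)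
    (s : ℕ) : ∃ C : ℝ, 1 ≤ C ∧ ∃ m : ℕ, ∀ (q : ℕ) (L : ℝ), 1 ≤ q → 1 ≤ L →
      (∀ n ≤ q, ∀ x, ‖fderiv ℝ F^[n] x‖ ≤ L) → ∀ i, 1 ≤ i → i ≤ s + 1 → ∀ n ≤ q, ∀ x,
        ‖iteratedFDeriv ℝ i F^[n] x‖ ≤ C * (q * L) ^ m := by
  induction s with
  | zero =>
    refine ⟨1, le_rfl, 1, fun q L hq hL h i hi1 hi2 n hn x => ?_⟩
    obtain rfl : i = 1 := by omega
    rw [norm_iteratedFDeriv_one, one_mul, pow_one]
    have hq' : (1 : ℝ) ≤ q := by exact_mod_cast hq
    have := h n hn x
    nlinarith
  | succ s ih =>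
    obtain ⟨C, hC, m, hm⟩ := ih
    obtain ⟨D, hD, hDb⟩ := hFe.bounds hF (s + 2)
    set B : ℝ := D ^ (s + 2) with hB
    have hB1 : 1 ≤ B := one_le_pow₀ hD
    have hFB : ∀ l ≤ s + 1, ∀ y, ‖iteratedFDeriv ℝ l (fderiv ℝ F) y‖ ≤ B := by
      intro l hl y
      rw [norm_iteratedFDeriv_fderiv]
      exact (hDb y (l + 1) (by omega) (by omega)).trans (pow_le_pow_right₀ hD (by omega))
    set K : ℝ := 2 ^ (s + 1) * (s + 1).factorial * B * C ^ (s + 2) with hK
    have hK0 : 0 ≤ K := by positivity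
    refine ⟨C + K, by linarith, m * (s + 2) + 1, fun q L hq hL h i hi1 hi2 n hn x => ?_⟩
    have hq' : (1 : ℝ) ≤ q := by exact_mod_cast hq
    have hqL : 1 ≤ (q : ℝ) * L := by nlinarith
    have hqL0 : 0 ≤ (q : ℝ) * L := by linarith
    have hm' := hm q L hq hL h
    rcases Nat.lt_or_ge i (s + 2) with h1 | h1
    · refine (hm' i hi1 (by omega) n hn x).trans ?_
      have h2 : ((q : ℝ) * L) ^ m ≤ (q * L) ^ (m * (s + 2) + 1) :=
        pow_le_pow_right₀ hqL (by nlinarith)
      calc C * (q * L) ^ m ≤ C * (q * L) ^ (m * (s + 2) + 1) := by gcongr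
        _ ≤ (C + K) * (q * L) ^ (m * (s + 2) + 1) := by gcongr; linarith
    · obtain rfl : i = s + 2 := by omega
      set X : ℝ := C * (q * L) ^ m with hX
      have hX1 : 1 ≤ X := by
        have : 1 ≤ ((q : ℝ) * L) ^ m := one_le_pow₀ hqL
        rw [hX]; nlinarith
      set Y : ℝ := 2 ^ (s + 1) * (s + 1).factorial * B * X ^ (s + 2) with hY
      have hY0 : 0 ≤ Y := by positivity
      have key : ∀ n m' : ℕ, n + m' ≤ q →
          ‖(fderiv ℝ F^[m'] (F^[n] x)).compContinuousMultilinearMap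
            (iteratedFDeriv ℝ (s + 2) F^[n] x)‖ ≤ n * (L * Y) := by
        intro n
        induction n with
        | zero =>
          intro m' _
          have h2 : iteratedFDeriv ℝ (s + 2) F^[0] x = 0 := by
            rw [← norm_eq_zero, ← norm_iteratedFDeriv_fderiv, Function.iterate_zero]
            have : fderiv ℝ (id : (Fin d → ℝ) → (Fin d → ℝ))
                = fun _ => ContinuousLinearMap.id ℝ (Fin d → ℝ) := funext fun y => fderiv_id
            rw [this, iteratedFDeriv_const_of_ne (by omega)]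
            simp
          rw [h2]
          refine (ContinuousLinearMap.norm_compContinuousMultilinearMap_le _ _).trans ?_
          simp
        | succ n ihn =>
          intro m' hm''
          have h2 := top_order (F := F) (g := F^[n]) hF (contDiff_iterate hF n) (s := s + 1)
            (by linarith : (0 : ℝ) ≤ B) hX1 hFB x
            (fun i h3 h4 => hm' i h3 h4 n (by omega) x)
          have e1 : F^[n + 1] = fun y => F (F^[n] y) :=
            funext fun y => Function.iterate_succ_apply' F n y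
          set R := iteratedFDeriv ℝ (s + 1 + 1) (fun y => F (F^[n] y)) x
            - (fderiv ℝ F (F^[n] x)).compContinuousMultilinearMap
              (iteratedFDeriv ℝ (s + 1 + 1) F^[n] x) with hR
          have e2 : iteratedFDeriv ℝ (s + 2) F^[n + 1] x
              = (fderiv ℝ F (F^[n] x)).compContinuousMultilinearMap
                (iteratedFDeriv ℝ (s + 2) F^[n] x) + R := by
            rw [e1, hR]
            abel
          have e3 : (fderiv ℝ F^[m'] (F^[n + 1] x)).comp (fderiv ℝ F (F^[n] x))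
              = fderiv ℝ F^[m' + 1] (F^[n] x) := by
            have h5 : F^[m' + 1] = F^[m'] ∘ F := Function.iterate_succ F m'
            rw [h5, fderiv_comp _ (((contDiff_iterate hF m').differentiable (by simp)) _)
              ((hF.differentiable (by simp)) _), ← Function.iterate_succ_apply' F n x]
          have e4 : (fderiv ℝ F^[m'] (F^[n + 1] x)).compContinuousMultilinearMap
                (iteratedFDeriv ℝ (s + 2) F^[n + 1] x)
              = (fderiv ℝ F^[m' + 1] (F^[n] x)).compContinuousMultilinearMap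
                (iteratedFDeriv ℝ (s + 2) F^[n] x)
                + (fderiv ℝ F^[m'] (F^[n + 1] x)).compContinuousMultilinearMap R := by
            rw [e2, ← e3]
            ext v
            simp
          rw [e4]
          refine (norm_add_le _ _).trans ?_
          have h6 := ihn (m' + 1) (by omega)
          have h7 : ‖(fderiv ℝ F^[m'] (F^[n + 1] x)).compContinuousMultilinearMap R‖ ≤ L * Y := by
            refine (ContinuousLinearMap.norm_compContinuousMultilinearMap_le _ _).trans ?_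
            exact mul_le_mul (h m' (by omega) _) h2 (norm_nonneg _) (by linarith)
          push_cast
          linarith
      have h2 := key n 0 (by omega)
      have e5 : (fderiv ℝ F^[0] (F^[n] x)).compContinuousMultilinearMap
          (iteratedFDeriv ℝ (s + 2) F^[n] x) = iteratedFDeriv ℝ (s + 2) F^[n] x := by
        rw [Function.iterate_zero, fderiv_id]
        ext v
        simp
      rw [e5] at h2
      refine h2.trans ?_
      have hnq : (n : ℝ) ≤ q := by exact_mod_cast hn
      calc (n : ℝ) * (L * Y) ≤ q * (L * Y) := by gcongr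
        _ = K * (q * L) ^ (m * (s + 2) + 1) := by
          rw [hY, hX, hK, mul_pow, ← pow_mul, pow_succ ((q : ℝ) * L)]
          ring
        _ ≤ (C + K) * (q * L) ^ (m * (s + 2) + 1) := by gcongr; linarith

end Run7.h575
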