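import Pool.Agent.Run7.h575.Rigid

set_option autoImplicit false

/-!
Rapid returns in one direction prevent the space of coboundaries from being closed.
-/

open MeasureTheory Set Filter Topology

namespace Run7.h575

variable {d : ℕ}

/-- Super-polynomially good returns in the direction `k`, relative to the return time and to the
first derivatives up to that time. -/
def RigidDir (F : (Fin d → ℝ) → (Fin d → ℝ)) (k : Fin d → ℤ) : Prop :=
  ∀ M : ℕ, ∃ q : ℕ, 2 ≤ q ∧ ∃ p : ℤ, ∃ L : ℝ, (∀ n ≤ q, ∀ x, ‖fderiv ℝ F^[n] x‖ ≤ L) ∧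
    ∀ x : Fin d → ℝ, |∑ i, (k i : ℝ) * (F^[q] x i - x i) - p| * (q * L) ^ M ≤ 1

theorem rot_near {F : (Fin d → ℝ) → (Fin d → ℝ)} {ρ : Fin d → ℝ} {C₀ : ℝ}
    (hdev : ∀ (n : ℕ) (x : Fin d → ℝ), ‖F^[n] x - x - (n : ℝ) • ρ‖ ≤ C₀) {k : Fin d → ℤ} {q : ℕ}
    {p : ℤ} {ε : ℝ} (h : ∀ x, |ph k (F^[q] x - x) - p| ≤ ε) : |(q : ℝ) * ph k ρ - p| ≤ ε := by
  have hC₀ : 0 ≤ C₀ := (norm_nonneg _).trans (hdev 0 0)
  have h1 : ∀ n : ℕ, |ph k ((F^[q])^[n] 0 - 0) - n * p| ≤ n * ε := by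
    intro n
    induction n with
    | zero => simp [ph_zero]
    | succ n ih =>
      rw [Function.iterate_succ_apply']
      have e : ph k (F^[q] ((F^[q])^[n] 0) - 0) - ((n + 1 : ℕ) : ℝ) * p
          = (ph k (F^[q] ((F^[q])^[n] 0) - (F^[q])^[n] 0) - p) + (ph k ((F^[q])^[n] 0 - 0) - n * p) := by
        have : F^[q] ((F^[q])^[n] 0) - 0 = (F^[q] ((F^[q])^[n] 0) - (F^[q])^[n] 0) + ((F^[q])^[n] 0 - 0) := by
          abel
        rw [this, ph_add]
        push_cast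
        ring
      rw [e]
      refine (abs_add_le _ _).trans ?_
      have := h ((F^[q])^[n] 0)
      push_cast
      linarith
  set C₁ : ℝ := (∑ i, |(k i : ℝ)|) * C₀ with hC₁
  have h2 : ∀ n : ℕ, n * |(q : ℝ) * ph k ρ - p| ≤ n * ε + C₁ := by
    intro n
    have h3 := (ph_abs_le k _).trans
      (mul_le_mul_of_nonneg_left (hdev (q * n) 0) (by positivity : 0 ≤ ∑ i, |(k i : ℝ)|))
    rw [Function.iterate_mul, ph_sub, ph_smul] at h3
    have h4 := h1 n
    rw [← hC₁] at h3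
    push_cast at h3
    have e : (n : ℝ) * ((q : ℝ) * ph k ρ - p) = (ph k ((F^[q])^[n] 0 - 0) - n * p)
        - (ph k ((F^[q])^[n] 0 - 0) - q * n * ph k ρ) := by ring
    calc (n : ℝ) * |(q : ℝ) * ph k ρ - p| = |(n : ℝ) * ((q : ℝ) * ph k ρ - p)| := by
          rw [abs_mul, abs_of_nonneg (by positivity : (0 : ℝ) ≤ n)]
      _ ≤ |ph k ((F^[q])^[n] 0 - 0) - n * p| + |ph k ((F^[q])^[n] 0 - 0) - q * n * ph k ρ| := by
          rw [e]; exact abs_sub _ _
      _ ≤ n * ε + C₁ := by linarith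
  by_contra hcon
  push Not at hcon
  obtain ⟨n, hn⟩ := exists_nat_gt (C₁ / (|(q : ℝ) * ph k ρ - p| - ε))
  rw [div_lt_iff₀ (by linarith)] at hn
  have := h2 n
  linarith

theorem iter_affine_le (L : (Fin d → ℝ) →L[ℝ] ℝ) (b : ℝ) (j : ℕ) (x : Fin d → ℝ) :
    ‖iteratedFDeriv ℝ (j + 1) (fun x => L x + b) x‖ ≤ ‖L‖ := by
  cases j with
  | zero =>
    rw [zero_add, norm_iteratedFDeriv_one, fderiv_add_const, ContinuousLinearMap.fderiv]
  | succ j =>
    rw [iter_affine, norm_zero]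
    exact norm_nonneg _

theorem exists_gap {ρ : Fin d → ℝ} (hρ : Irr ρ) {k : Fin d → ℤ} (hk : k ≠ 0) (Q : ℕ) :
    ∃ δ : ℝ, 0 < δ ∧ ∀ q : ℕ, 1 ≤ q → q < Q → ∀ p : ℤ, δ ≤ |(q : ℝ) * ph k ρ - p| := by
  induction Q with
  | zero => exact ⟨1, one_pos, fun q _ h => by omega⟩
  | succ Q ih =>
    obtain ⟨δ, hδ, h⟩ := ih
    rcases Nat.eq_zero_or_pos Q with rfl | hQ
    · exact ⟨1, one_pos, fun q h1 h2 => by omega⟩
    · have h1 : 0 < |(Q : ℝ) * ph k ρ - round ((Q : ℝ) * ph k ρ)| := by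
        apply abs_pos.2
        intro h0
        have h2 := hρ ((Q : ℤ) • k) (smul_ne_zero (by exact_mod_cast hQ.ne') hk)
          (round ((Q : ℝ) * ph k ρ))
        apply h2
        have h3 : ph ((Q : ℤ) • k) ρ = Q * ph k ρ := by
          unfold ph
          rw [Finset.mul_sum]
          refine Finset.sum_congr rfl fun i _ => ?_
          simp only [Pi.smul_apply, smul_eq_mul]
          push_cast
          ring
        rw [h3]
        linarith
      refine ⟨min δ |(Q : ℝ) * ph k ρ - round ((Q : ℝ) * ph k ρ)|, lt_min hδ h1,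
        fun q hq1 hq2 p => ?_⟩
      rcases Nat.lt_or_ge q Q with h3 | h3
      · exact (min_le_left _ _).trans (h q hq1 h3 p)
      · obtain rfl : q = Q := by omega
        exact (min_le_right _ _).trans (round_le _ p)

theorem slow_of_rigid {F : (Fin d → ℝ) → (Fin d → ℝ)} (hF : ContDiff ℝ (⊤ : ℕ∞) F) (hFe : Eqv F)
    {α : Fin d → ℝ} (D : Dat F α) (hα : Irr α) {k : Fin d → ℤ} (hk : k ≠ 0)
    (hR : RigidDir F k) : Slow F k := by
  have hne : Nonempty (Fin d) := by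
    by_contra h
    rw [not_nonempty_iff] at h
    exact hk (Subsingleton.elim _ _)
  obtain ⟨C₀, hC₀, hdev⟩ := D.deviation
  intro s hs ε hε N
  obtain ⟨j, rfl⟩ : ∃ j, s = j + 1 := ⟨s - 1, by omega⟩
  obtain ⟨C, hC, m, hm⟩ := higher hF hFe (j + 1)
  obtain ⟨CI, hCI, hI⟩ := interp (V := Fin d → ℝ) (W := ℝ) (j + 2)
  set Λ : ℝ := ‖phL k‖ with hΛ
  have hΛ0 : 0 ≤ Λ := norm_nonneg _
  set K : ℝ := CI * (1 + Λ * C) + Λ with hK
  obtain ⟨Q, hQ⟩ := exists_nat_gt (K / ε)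
  obtain ⟨δ, hδ, hgap⟩ := exists_gap (D.irr_rho hα) hk (max N Q + 1)
  obtain ⟨M0, hM0⟩ := exists_pow_lt_of_lt_one hδ (show (1 / 2 : ℝ) < 1 by norm_num)
  obtain ⟨q, hq2, p, L, hL, hret⟩ := hR (max M0 ((m + 1) * (j + 1)))
  set M := max M0 ((m + 1) * (j + 1)) with hM
  have hq' : (2 : ℝ) ≤ q := by exact_mod_cast hq2
  have hL1 : 1 ≤ L := by
    have := hL 0 (by omega) 0
    rw [Function.iterate_zero, fderiv_id, ContinuousLinearMap.norm_id] at this
    exact this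
  set R : ℝ := q * L with hRdef
  have hR2 : 2 ≤ R := by rw [hRdef]; nlinarith
  have hR1 : 1 ≤ R := by linarith
  have hR0 : 0 < R := by linarith
  have hret' : ∀ x, |ph k (F^[q] x - x) - p| ≤ 1 / R ^ M := by
    intro x
    rw [le_div_iff₀ (by positivity)]
    exact hret x
  have hnear := rot_near hdev hret'
  have hqbig : max N Q ≤ q := by
    by_contra hlt
    push Not at hlt
    have h1 := hgap q (by omega) (by omega) p
    have h2 : 1 / R ^ M ≤ (1 / 2) ^ M0 := by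
      rw [one_div_pow]
      apply one_div_le_one_div_of_le (by positivity)
      calc (2 : ℝ) ^ M0 ≤ 2 ^ M := pow_le_pow_right₀ (by norm_num) (le_max_left _ _)
        _ ≤ R ^ M := by gcongr
    linarith
  refine ⟨q, le_trans (le_max_left _ _) hqbig, fun x => ?_⟩
  -- the small function
  have hAs : ContDiff ℝ (⊤ : ℕ∞) fun y => ph k (F^[q] y) := (ph_contDiff k).comp (contDiff_iterate hF q)
  have hLs : ContDiff ℝ (⊤ : ℕ∞) fun y => phL k y + (p : ℝ) := (phL k).contDiff.add contDiff_const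
  set v : (Fin d → ℝ) → ℝ := fun y => ph k (F^[q] y) - (phL k y + p) with hv
  have hvs : ContDiff ℝ (⊤ : ℕ∞) v := hAs.sub hLs
  have hve : ∀ y, v y = ph k (F^[q] y - y) - p := by
    intro y
    rw [hv, ph_sub]
    simp only [phL_apply]
    ring
  have hvp : IsPer v := by
    intro y l
    show v (y + zv l) = v y
    rw [hve, hve, hFe.iterate q]
    congr 2
    abel
  have hsub : ∀ (i : ℕ) (y : Fin d → ℝ), iteratedFDeriv ℝ i v y
      = iteratedFDeriv ℝ i (fun y => ph k (F^[q] y)) y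
        - iteratedFDeriv ℝ i (fun y => phL k y + (p : ℝ)) y := fun i y =>
    iteratedFDeriv_sub_apply (𝕜 := ℝ) ((hAs.of_le (nat_le_top i)).contDiffAt)
      ((hLs.of_le (nat_le_top i)).contDiffAt)
  have hcomp : ∀ (i : ℕ) (y : Fin d → ℝ), ‖iteratedFDeriv ℝ i (fun y => ph k (F^[q] y)) y‖
      ≤ Λ * ‖iteratedFDeriv ℝ i F^[q] y‖ := by
    intro i y
    have e : (fun y => ph k (F^[q] y)) = (phL k) ∘ F^[q] := by
      funext y
      rw [Function.comp_apply, phL_apply]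
    rw [e, ContinuousLinearMap.iteratedFDeriv_comp_left (𝕜 := ℝ) (phL k) (f := F^[q]) (x := y)
      (n := ((⊤ : ℕ∞) : WithTop ℕ∞)) (contDiff_iterate hF q).contDiffAt (i := i) (nat_le_top _)]
    exact ContinuousLinearMap.norm_compContinuousMultilinearMap_le _ _
  have h1 := hI v hvs (fun i => hvp.bounded_deriv hvs i) (1 / R ^ M) (Λ * (C * R ^ m))
    (1 / R ^ (m + 1)) (by positivity) (fun y => by
      rw [Real.norm_eq_abs, hve]; exact hret' y) (fun y => by
      rw [hsub, iter_affine, sub_zero]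
      refine (hcomp _ _).trans ?_
      gcongr
      exact hm q L (by omega) hL1 hL (j + 2) (by omega) (by omega) q le_rfl y) (j + 1) (by omega) x
  have h2 : ‖iteratedFDeriv ℝ (j + 1) v x‖ ≤ CI * (1 + Λ * C) := by
    rw [one_div_pow, ← pow_mul, one_div_mul_eq_div, div_le_iff₀ (by positivity)] at h1
    refine h1.trans ?_
    have e1 : 1 / R ^ M * R ^ ((m + 1) * (j + 1)) ≤ 1 := by
      rw [one_div_mul_eq_div, div_le_one (by positivity)]
      exact pow_le_pow_right₀ hR1 (le_max_right _ _)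
    have e2 : (1 / R ^ (m + 1)) ^ (j + 2) * R ^ m * R ^ ((m + 1) * (j + 1)) ≤ 1 := by
      rw [one_div_pow, ← pow_mul, mul_assoc, ← pow_add, one_div_mul_eq_div,
        div_le_one (by positivity)]
      exact pow_le_pow_right₀ hR1 (by nlinarith)
    have hCI0 : 0 ≤ CI := by linarith
    have hC0 : 0 ≤ C := by linarith
    calc CI * (1 / R ^ M + (1 / R ^ (m + 1)) ^ (j + 2) * (Λ * (C * R ^ m))) * R ^ ((m + 1) * (j + 1))
        = CI * (1 / R ^ M * R ^ ((m + 1) * (j + 1))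
          + Λ * C * ((1 / R ^ (m + 1)) ^ (j + 2) * R ^ m * R ^ ((m + 1) * (j + 1)))) := by ring
      _ ≤ CI * (1 + Λ * C * 1) := by gcongr
      _ = CI * (1 + Λ * C) := by ring
  have h3 : iteratedFDeriv ℝ (j + 1) (fun y => ph k (F^[q] y)) x
      = iteratedFDeriv ℝ (j + 1) v x + iteratedFDeriv ℝ (j + 1) (fun y => phL k y + (p : ℝ)) x := by
    rw [hsub]; abel
  have h4 : ‖iteratedFDeriv ℝ (j + 1) (fun y => ph k (F^[q] y)) x‖ ≤ K := by
    rw [h3]
    refine (norm_add_le _ _).trans ?_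
    have := iter_affine_le (phL k) p j x
    rw [hK]
    linarith
  have h5 : (Q : ℝ) ≤ q := by exact_mod_cast le_trans (le_max_right _ _) hqbig
  rw [div_lt_iff₀ hε] at hQ
  calc _ ≤ K := h4
    _ ≤ ε * q := by nlinarith

theorem Slow.smul {F : (Fin d → ℝ) → (Fin d → ℝ)} (hF : ContDiff ℝ (⊤ : ℕ∞) F) {k : Fin d → ℤ}
    (hk : Slow F k) {q : ℕ} (hq : 1 ≤ q) : Slow F ((q : ℤ) • k) := by
  intro s hs ε hε N
  have hq0 : (0 : ℝ) < q := by exact_mod_cast hq
  obtain ⟨n, hn, hb⟩ := hk s hs (ε / q) (by positivity) N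
  refine ⟨n, hn, fun x => ?_⟩
  have e : (fun y => ∑ i, ((((q : ℤ) • k) i : ℤ) : ℝ) * F^[n] y i)
      = fun y => (q : ℝ) * ph k (F^[n] y) := by
    funext y
    unfold ph
    rw [Finset.mul_sum]
    refine Finset.sum_congr rfl fun i _ => ?_
    simp only [Pi.smul_apply, smul_eq_mul]
    push_cast
    ring
  have hs' : ContDiff ℝ (⊤ : ℕ∞) fun y => ph k (F^[n] y) := (ph_contDiff k).comp (contDiff_iterate hF n)
  have h1 : iteratedFDeriv ℝ s (fun y => (q : ℝ) * ph k (F^[n] y)) x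
      = (q : ℝ) • iteratedFDeriv ℝ s (fun y => ph k (F^[n] y)) x :=
    iteratedFDeriv_const_smul_apply (𝕜 := ℝ) (i := s) (a := (q : ℝ))
      (f := fun y => ph k (F^[n] y)) (x := x) ((hs'.of_le (nat_le_top s)).contDiffAt)
  rw [e, h1, norm_smul, Real.norm_of_nonneg hq0.le]
  have h2 : ‖iteratedFDeriv ℝ s (fun y => ph k (F^[n] y)) x‖ ≤ ε / q * n := hb x
  calc (q : ℝ) * ‖iteratedFDeriv ℝ s (fun y => ph k (F^[n] y)) x‖ ≤ q * (ε / q * n) := by gcongr
    _ = ε * n := by field_simp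

/-- Rapid returns in one direction exclude closedness. -/
theorem not_closed_of_rigid {F G : (Fin d → ℝ) → (Fin d → ℝ)} {α : Fin d → ℝ} (D : Dat F α)
    (hα : Irr α) (hFs : ContDiff ℝ (⊤ : ℕ∞) F) (hGs : ContDiff ℝ (⊤ : ℕ∞) G)
    (GF : ∀ x, G (F x) = x) (hFe : Eqv F) {k : Fin d → ℤ} (hk : k ≠ 0) (hR : RigidDir F k) :
    ¬ ClosedCob F := by
  intro hc
  have hslow := slow_of_rigid hFs hFe D hα hk hR
  obtain ⟨C₀, hC₀, hdev⟩ := D.deviation
  have hne : Nonempty (Fin d) := by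
    by_contra h
    rw [not_nonempty_iff] at h
    exact hk (Subsingleton.elim _ _)
  obtain ⟨H, -, -, -, ⟨C, hC, τ, hτ, hdio⟩, -⟩ := structure_thm D hα hFs hGs GF hFe hc
  obtain ⟨T, hT⟩ := exists_nat_ge τ
  set S : ℝ := ∑ i, |(k i : ℝ)| with hS
  have hS1 : 1 ≤ S := sum_abs_pos hk
  obtain ⟨M1, hM1⟩ := exists_pow_lt_of_lt_one (show 0 < C / S ^ T by positivity)
    (show (1 / 2 : ℝ) < 1 by norm_num)
  obtain ⟨q, hq2, p, L, hL, hret⟩ := hR (M1 + T)
  have hq' : (2 : ℝ) ≤ q := by exact_mod_cast hq2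
  have hq0 : (0 : ℝ) < q := by linarith
  have hL1 : 1 ≤ L := by
    have := hL 0 (by omega) 0
    rw [Function.iterate_zero, fderiv_id, ContinuousLinearMap.norm_id] at this
    exact this
  set R : ℝ := q * L with hRdef
  have hRq : (q : ℝ) ≤ R := by rw [hRdef]; nlinarith
  have hR0 : 0 < R := by linarith
  have hret' : ∀ x, |ph k (F^[q] x - x) - p| ≤ 1 / R ^ (M1 + T) := by
    intro x
    rw [le_div_iff₀ (by positivity)]
    exact hret x
  have hnear := rot_near hdev hret'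
  have hk' : (q : ℤ) • k ≠ 0 := smul_ne_zero (by exact_mod_cast (by omega : q ≠ 0)) hk
  have h1 := hdio _ (hslow.smul hFs (by omega : 1 ≤ q)) hk' p
  have e1 : ∑ i, ((((q : ℤ) • k) i : ℤ) : ℝ) * D.rho i = q * ph k D.rho := by
    unfold ph
    rw [Finset.mul_sum]
    refine Finset.sum_congr rfl fun i _ => ?_
    simp only [Pi.smul_apply, smul_eq_mul]
    push_cast
    ring
  have e2 : ∑ i, |((((q : ℤ) • k) i : ℤ) : ℝ)| = q * S := by
    rw [hS, Finset.mul_sum]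
    refine Finset.sum_congr rfl fun i _ => ?_
    simp only [Pi.smul_apply, smul_eq_mul]
    push_cast
    rw [abs_mul, abs_of_nonneg hq0.le]
  rw [e1, e2] at h1
  have h2 : C / (q * S) ^ τ ≤ 1 / R ^ (M1 + T) := h1.trans hnear
  have hqS : 1 ≤ (q : ℝ) * S := by nlinarith
  have h3 : ((q : ℝ) * S) ^ τ ≤ (q * S) ^ T := by
    have := Real.rpow_le_rpow_of_exponent_le hqS hT
    rwa [Real.rpow_natCast] at this
  have h4 : C / (q * S) ^ T ≤ 1 / (q : ℝ) ^ (M1 + T) := by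
    calc C / (q * S) ^ T ≤ C / (q * S) ^ τ := by
          have : 0 < ((q : ℝ) * S) ^ τ := Real.rpow_pos_of_pos (by positivity) _
          gcongr
      _ ≤ 1 / R ^ (M1 + T) := h2
      _ ≤ 1 / (q : ℝ) ^ (M1 + T) := by gcongr
  have h5 : C / S ^ T ≤ 1 / (q : ℝ) ^ M1 := by
    rw [div_le_div_iff₀ (by positivity) (by positivity), mul_pow, pow_add] at h4
    rw [div_le_div_iff₀ (by positivity) (by positivity)]
    have h6 : 0 < (q : ℝ) ^ T := by positivity
    have h7 : (C * (q : ℝ) ^ M1) * (q : ℝ) ^ T ≤ (1 * S ^ T) * (q : ℝ) ^ T := by linarith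
    exact le_of_mul_le_mul_right h7 h6
  have h6 : 1 / (q : ℝ) ^ M1 ≤ (1 / 2) ^ M1 := by
    rw [one_div_pow]
    gcongr
  linarith

end Run7.h575
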