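import Pool.Agent.Run7.h575.Rigid2

set_option autoImplicit false

/-!
Rapid returns in one direction exclude the Diophantine condition.
-/

open MeasureTheory Set Filter Topology

namespace Run7.h575

variable {d : ℕ}

/-- Rapid returns in one direction exclude the Diophantine condition for the rotation vector. -/
theorem rigid_contra {F : (Fin d → ℝ) → (Fin d → ℝ)} {ρ : Fin d → ℝ} {C₀ : ℝ}
    (hdev : ∀ (n : ℕ) (x : Fin d → ℝ), ‖F^[n] x - x - (n : ℝ) • ρ‖ ≤ C₀) {k : Fin d → ℤ}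
    (hk : k ≠ 0) (hR : RigidDir F k) : ¬ Dioph ρ := by
  rintro ⟨C, hC, τ, hτ, hdio⟩
  have hne : Nonempty (Fin d) := by
    by_contra h
    rw [not_nonempty_iff] at h
    exact hk (Subsingleton.elim _ _)
  obtain ⟨T, hT⟩ := exists_nat_ge τ
  set S : ℝ := ∑ i, |(k i : ℝ)| with hS
  have hS1 : 1 ≤ S := sum_abs_pos hk
  obtain ⟨M1, hM1⟩ := exists_pow_lt_of_lt_one (show 0 < C / S ^ T by positivity)
    (show (1 / 2 : ℝ) < 1 by norm_num)
  obtain ⟨q, hq2, p, L, hL, hret⟩ := hR (M1 + T)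
  have hq' : (2 : ℝ) ≤ q := by exact_mod_cast hq2
  have hq0 : (0 : ℝ) < q := by linarith
  have hL1 : 1 ≤ L := by
    have := hL 0 (by omega) 0
    rw [Function.iterate_zero, fderiv_id, ContinuousLinearMap.norm_id] at this
    exact this
  set R : ℝ := q * L with hRdef
  have hRq : (q : ℝ) ≤ R := by rw [hRdef]; nlinarith
  have hR0 : 0 < R := by linarith
  have hret' : ∀ x, |ph k (F^[q] x - x) - p| ≤ 1 / R ^ (M1 + T) := by
    intro x
    rw [le_div_iff₀ (by positivity)]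
    exact hret x
  have hnear := rot_near hdev hret'
  have hk' : (q : ℤ) • k ≠ 0 := smul_ne_zero (by exact_mod_cast (by omega : q ≠ 0)) hk
  have h1 := hdio _ hk' p
  have e1 : ∑ i, ((((q : ℤ) • k) i : ℤ) : ℝ) * ρ i = q * ph k ρ := by
    unfold ph
    rw [Finset.mul_sum]
    refine Finset.sum_congr rfl fun i _ => ?_
    simp only [Pi.smul_apply, smul_eq_mul]
    push_cast
    ring
  have e2 : ∑ i, |((((q : ℤ) • k) i : ℤ) : ℝ)| = q * S := by
    rw [hS, Finset.mul_sum]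
    refine Finset.sum_congr rfl fun i _ => ?_
    simp only [Pi.smul_apply, smul_eq_mul]
    push_cast
    rw [abs_mul, abs_of_nonneg hq0.le]
  rw [e1, e2] at h1
  have h2 : C / (q * S) ^ τ ≤ 1 / R ^ (M1 + T) := h1.trans hnear
  have hqS : 1 ≤ (q : ℝ) * S := by nlinarith
  have h3 : ((q : ℝ) * S) ^ τ ≤ (q * S) ^ T := by
    have := Real.rpow_le_rpow_of_exponent_le hqS hT
    rwa [Real.rpow_natCast] at this
  have h4 : C / (q * S) ^ T ≤ 1 / (q : ℝ) ^ (M1 + T) := by
    calc C / (q * S) ^ T ≤ C / (q * S) ^ τ := by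
          have : 0 < ((q : ℝ) * S) ^ τ := Real.rpow_pos_of_pos (by positivity) _
          gcongr
      _ ≤ 1 / R ^ (M1 + T) := h2
      _ ≤ 1 / (q : ℝ) ^ (M1 + T) := by gcongr
  have h5 : C / S ^ T ≤ 1 / (q : ℝ) ^ M1 := by
    rw [div_le_div_iff₀ (by positivity) (by positivity), mul_pow, pow_add] at h4
    rw [div_le_div_iff₀ (by positivity) (by positivity)]
    have h6 : 0 < (q : ℝ) ^ T := by positivity
    have h7 : (C * (q : ℝ) ^ M1) * (q : ℝ) ^ T ≤ (1 * S ^ T) * (q : ℝ) ^ T := by linarith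
    exact le_of_mul_le_mul_right h7 h6
  have h6 : 1 / (q : ℝ) ^ M1 ≤ (1 / 2) ^ M1 := by
    rw [one_div_pow]
    gcongr
  linarith

end Run7.h575
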