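import Pool.Agent.Run7.h575.Rigid3

set_option autoImplicit false

/-!
Hölder conjugacies with polynomial growth to a simultaneously Liouville translation have rapid
returns in every direction.
-/

open MeasureTheory Set Filter Topology

namespace Run7.h575

variable {d : ℕ}

theorem iter_conj {F : (Fin d → ℝ) → (Fin d → ℝ)} {α : Fin d → ℝ}
    (h : UnitAddTorus (Fin d) ≃ₜ UnitAddTorus (Fin d))
    (hh : ∀ x, h (cov (F x)) = h (cov x) + cov α) (q : ℕ) (x : Fin d → ℝ) :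
    h (cov (F^[q] x)) = h (cov x) + q • cov α := by
  induction q with
  | zero => simp
  | succ q ih => rw [Function.iterate_succ_apply', hh, ih, succ_nsmul, add_assoc]

theorem round_const {u : (Fin d → ℝ) → ℝ} (hu : Continuous u) (h : ∀ x, |u x - round (u x)| ≤ 1 / 8)
    (x y : Fin d → ℝ) : round (u x) = round (u y) := by
  have hl : IsLocallyConstant fun x => round (u x) := by
    rw [IsLocallyConstant.iff_eventually_eq]
    intro x
    have h1 : ∀ᶠ y in 𝓝 x, |u y - u x| < 1 / 8 := by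
      have := (Metric.continuous_iff.1 hu x (1 / 8) (by norm_num))
      obtain ⟨δ, hδ, h2⟩ := this
      filter_upwards [Metric.ball_mem_nhds x hδ] with y hy
      exact h2 y hy
    filter_upwards [h1] with y hy
    have h2 := h x
    have h3 := h y
    rw [abs_lt] at hy
    rw [abs_le] at h2 h3
    have h4 : ((round (u y) : ℤ) : ℝ) < round (u x) + 1 := by linarith [hy.1, hy.2, h2.1, h2.2, h3.1, h3.2]
    have h5 : ((round (u x) : ℤ) : ℝ) < round (u y) + 1 := by linarith [hy.1, hy.2, h2.1, h2.2, h3.1, h3.2]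
    have h6 : round (u y) < round (u x) + 1 := by exact_mod_cast h4
    have h7 : round (u x) < round (u y) + 1 := by exact_mod_cast h5
    omega
  exact hl.apply_eq_of_preconnectedSpace x y

theorem rigid_of_holder {F : (Fin d → ℝ) → (Fin d → ℝ)} (hF : Continuous F) {α : Fin d → ℝ}
    (h : UnitAddTorus (Fin d) ≃ₜ UnitAddTorus (Fin d))
    (hh : ∀ x, h (cov (F x)) = h (cov x) + cov α) {κ C : ℝ} (hκ : 0 < κ)
    (hol : ∀ s t, dist (h.symm s) (h.symm t) ≤ C * dist s t ^ κ) {A C1 : ℝ}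
    (hgr : ∀ n : ℕ, 1 ≤ n → ∀ x, ‖fderiv ℝ F^[n] x‖ ≤ C1 * (n : ℝ) ^ A)
    (hL : ∀ M : ℕ, ∃ q : ℕ, 2 ≤ q ∧ ∃ p : Fin d → ℤ, ∀ i, |(q : ℝ) * α i - p i| ≤ 1 / (q : ℝ) ^ M)
    (k : Fin d → ℤ) : RigidDir F k := by
  intro M
  set S : ℝ := ∑ i, |(k i : ℝ)| with hS
  have hS0 : 0 ≤ S := by positivity
  set N1 : ℕ := ⌈A⌉₊ with hN1
  have hAN : A ≤ N1 := Nat.le_ceil _
  obtain ⟨T, hT⟩ := exists_nat_gt (1 / κ)
  have hT0 : (0 : ℝ) < T := lt_trans (by positivity) hT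
  have hTκ : 1 / (T : ℝ) ≤ κ := by
    rw [div_lt_iff₀ hκ] at hT
    rw [div_le_iff₀ hT0]
    linarith
  set C2 : ℝ := |C| + 1 with hC2
  have hC20 : 0 < C2 := by positivity
  set C3 : ℝ := |C1| + 1 with hC3
  have hC31 : 1 ≤ C3 := by rw [hC3]; linarith [abs_nonneg C1]
  obtain ⟨E, hE⟩ := pow_unbounded_of_one_lt (8 * (S + 1) * C2 * C3 ^ M) (show (1 : ℝ) < 2 by norm_num)
  set M2 : ℕ := (N1 + 1) * M + E with hM2
  obtain ⟨q, hq2, p', hq⟩ := hL (T * M2)
  have hq' : (2 : ℝ) ≤ q := by exact_mod_cast hq2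
  have hq1 : (1 : ℝ) ≤ q := by linarith
  have hq0 : (0 : ℝ) < q := by linarith
  -- the displacement on the torus
  have h1 : ‖q • cov α‖ ≤ 1 / (q : ℝ) ^ (T * M2) := by
    refine (pi_norm_le_iff_of_nonneg (by positivity)).2 fun i => ?_
    have e : (q • cov α) i = (((q : ℝ) * α i : ℝ) : UnitAddCircle) := by
      show q • (cov α i) = _
      rw [show ((q : ℝ) * α i) = q • α i by simp]
      rfl
    rw [e, UnitAddCircle.norm_eq]
    exact (round_le _ (p' i)).trans (hq i)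
  have h2 : (‖q • cov α‖) ^ κ ≤ 1 / (q : ℝ) ^ M2 := by
    have h3 : 1 / (q : ℝ) ^ (T * M2) ≤ 1 := by
      rw [div_le_one (by positivity)]
      exact one_le_pow₀ hq1
    calc (‖q • cov α‖) ^ κ ≤ (1 / (q : ℝ) ^ (T * M2)) ^ κ :=
          Real.rpow_le_rpow (norm_nonneg _) h1 hκ.le
      _ ≤ (1 / (q : ℝ) ^ (T * M2)) ^ (1 / (T : ℝ)) :=
          Real.rpow_le_rpow_of_exponent_ge (by positivity) h3 hTκ
      _ = 1 / (q : ℝ) ^ M2 := by
          have e : 1 / (q : ℝ) ^ (T * M2) = (1 / (q : ℝ) ^ M2) ^ T := by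
            rw [one_div_pow, ← pow_mul, mul_comm]
          rw [e, one_div (T : ℝ), Real.pow_rpow_inv_natCast (by positivity)]
          intro h0
          rw [h0] at hT0
          simp at hT0
  set δ : ℝ := C2 * (1 / (q : ℝ) ^ M2) with hδ
  have hδ0 : 0 ≤ δ := by positivity
  have h3 : ∀ x i, ‖((F^[q] x i - x i : ℝ) : UnitAddCircle)‖ ≤ δ := by
    intro x i
    have e1 : h.symm (h (cov x) + q • cov α) = cov (F^[q] x) := by
      rw [← iter_conj h hh, h.symm_apply_apply]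
    have e2 := hol (h (cov x) + q • cov α) (h (cov x))
    rw [e1, h.symm_apply_apply, dist_eq_norm (h (cov x) + q • cov α), add_sub_cancel_left] at e2
    have e3 : ‖cov (F^[q] x) - cov x‖ ≤ δ := by
      rw [← dist_eq_norm]
      refine e2.trans ?_
      have h4 : C ≤ C2 := by rw [hC2]; linarith [le_abs_self C]
      have h5 : 0 ≤ ‖q • cov α‖ ^ κ := by positivity
      calc C * ‖q • cov α‖ ^ κ ≤ C2 * ‖q • cov α‖ ^ κ := by gcongr
        _ ≤ C2 * (1 / (q : ℝ) ^ M2) := by gcongr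
    have e4 := (norm_le_pi_norm (cov (F^[q] x) - cov x) i).trans e3
    exact e4
  have hqM : (q : ℝ) ^ M2 = (q : ℝ) ^ ((N1 + 1) * M) * (q : ℝ) ^ E := by rw [hM2, pow_add]
  have hqE : 8 * (S + 1) * C2 * C3 ^ M ≤ (q : ℝ) ^ E :=
    hE.le.trans (pow_le_pow_left₀ (by norm_num) hq' E)
  have hkey : 8 * (S + 1) * δ * (C3 ^ M * (q : ℝ) ^ ((N1 + 1) * M)) ≤ 1 := by
    rw [hδ, hqM]
    have hp1 : 0 < (q : ℝ) ^ ((N1 + 1) * M) := by positivity
    have hp2 : 0 < (q : ℝ) ^ E := by positivity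
    have e : 8 * (S + 1) * (C2 * (1 / ((q : ℝ) ^ ((N1 + 1) * M) * (q : ℝ) ^ E)))
        * (C3 ^ M * (q : ℝ) ^ ((N1 + 1) * M)) = (8 * (S + 1) * C2 * C3 ^ M) / (q : ℝ) ^ E := by
      field_simp
    rw [e, div_le_one hp2]
    exact hqE
  have hP1 : 1 ≤ C3 ^ M * (q : ℝ) ^ ((N1 + 1) * M) := by
    have := one_le_pow₀ hC31 (n := M)
    have := one_le_pow₀ hq1 (n := (N1 + 1) * M)
    nlinarith
  have hδ8 : 8 * (S + 1) * δ ≤ 1 := by
    have : 0 ≤ 8 * (S + 1) * δ := by positivity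
    nlinarith
  have hδ1 : δ ≤ 1 / 8 := by nlinarith
  have h4 : ∀ i x, |(F^[q] x i - x i) - round (F^[q] x i - x i)| ≤ δ := by
    intro i x
    rw [← UnitAddCircle.norm_eq]
    exact h3 x i
  have hcont : ∀ i, Continuous fun x => F^[q] x i - x i := fun i =>
    ((continuous_apply i).comp (hF.iterate q)).sub (continuous_apply i)
  have h5 : ∀ i x, round (F^[q] x i - x i) = round (F^[q] 0 i - (0 : Fin d → ℝ) i) := fun i x =>
    round_const (hcont i) (fun x => (h4 i x).trans hδ1) x 0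
  refine ⟨q, hq2, ∑ i, k i * round (F^[q] 0 i - (0 : Fin d → ℝ) i), C3 * (q : ℝ) ^ N1, ?_, ?_⟩
  · intro n hn x
    have hqN : 1 ≤ (q : ℝ) ^ N1 := one_le_pow₀ hq1
    rcases Nat.eq_zero_or_pos n with rfl | hn0
    · rw [Function.iterate_zero, fderiv_id]
      refine ContinuousLinearMap.norm_id_le.trans ?_
      nlinarith
    · refine (hgr n hn0 x).trans ?_
      have hn1 : (1 : ℝ) ≤ n := by exact_mod_cast hn0
      have hnq : (n : ℝ) ≤ q := by exact_mod_cast hn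
      have h6 : C1 ≤ C3 := by rw [hC3]; linarith [le_abs_self C1]
      have h7 : (n : ℝ) ^ A ≤ (q : ℝ) ^ N1 := by
        calc (n : ℝ) ^ A ≤ (n : ℝ) ^ (N1 : ℝ) := Real.rpow_le_rpow_of_exponent_le hn1 hAN
          _ = (n : ℝ) ^ N1 := Real.rpow_natCast _ _
          _ ≤ (q : ℝ) ^ N1 := by gcongr
      have h8 : 0 ≤ (n : ℝ) ^ A := by positivity
      calc C1 * (n : ℝ) ^ A ≤ C3 * (n : ℝ) ^ A := by gcongr
        _ ≤ C3 * (q : ℝ) ^ N1 := by gcongr
  · intro x
    have h6 : |∑ i, (k i : ℝ) * (F^[q] x i - x i)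
        - ((∑ i, k i * round (F^[q] 0 i - (0 : Fin d → ℝ) i) : ℤ) : ℝ)| ≤ S * δ := by
      push_cast
      rw [← Finset.sum_sub_distrib, hS, Finset.sum_mul]
      refine (Finset.abs_sum_le_sum_abs _ _).trans (Finset.sum_le_sum fun i _ => ?_)
      rw [← mul_sub, abs_mul]
      have := h4 i x
      rw [h5 i x] at this
      exact mul_le_mul_of_nonneg_left this (abs_nonneg _)
    have e : ((q : ℝ) * (C3 * (q : ℝ) ^ N1)) ^ M = C3 ^ M * (q : ℝ) ^ ((N1 + 1) * M) := by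
      rw [pow_mul, pow_succ, mul_pow, mul_pow, mul_pow]
      ring
    rw [e]
    have hP0 : 0 ≤ C3 ^ M * (q : ℝ) ^ ((N1 + 1) * M) := by linarith
    calc _ ≤ S * δ * (C3 ^ M * (q : ℝ) ^ ((N1 + 1) * M)) := by gcongr
      _ ≤ 8 * (S + 1) * δ * (C3 ^ M * (q : ℝ) ^ ((N1 + 1) * M)) := by
          gcongr
          linarith
      _ ≤ 1 := hkey

end Run7.h575
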