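import Pool.Agent.Run7.h575.Small

set_option autoImplicit false

/-!
Slow growth of derivatives along a subsequence of times puts the displacement in the closure of the
space of coboundaries.
-/

open MeasureTheory Set Filter Topology Matrix

namespace Run7.h575

variable {d : ℕ}

theorem nat_le_top (n : ℕ) : (n : WithTop ℕ∞) ≤ ((⊤ : ℕ∞) : WithTop ℕ∞) := by
  exact_mod_cast le_top

theorem Eqv.iterate {F : (Fin d → ℝ) → (Fin d → ℝ)} (hF : Eqv F) (n : ℕ) : Eqv F^[n] := by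
  induction n with
  | zero => intro x k; rfl
  | succ n ih =>
    intro x k
    rw [Function.iterate_succ_apply', Function.iterate_succ_apply', ih, hF]

theorem contDiff_iterate {F : (Fin d → ℝ) → (Fin d → ℝ)} (hF : ContDiff ℝ (⊤ : ℕ∞) F) (n : ℕ) :
    ContDiff ℝ (⊤ : ℕ∞) F^[n] := by
  induction n with
  | zero => exact contDiff_id
  | succ n ih => rw [Function.iterate_succ']; exact hF.comp ih

theorem ph_abs_le (k : Fin d → ℤ) (x : Fin d → ℝ) : |ph k x| ≤ (∑ i, |(k i : ℝ)|) * ‖x‖ := by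
  unfold ph
  refine (Finset.abs_sum_le_sum_abs _ _).trans ?_
  rw [Finset.sum_mul]
  refine Finset.sum_le_sum fun i _ => ?_
  rw [abs_mul]
  have : |x i| ≤ ‖x‖ := norm_le_pi_norm x i
  gcongr

/-- The second and higher derivatives of an affine function vanish. -/
theorem iter_affine (L : (Fin d → ℝ) →L[ℝ] ℝ) (b : ℝ) (s : ℕ) (x : Fin d → ℝ) :
    iteratedFDeriv ℝ (s + 2) (fun x => L x + b) x = 0 := by
  rw [← norm_eq_zero, ← norm_iteratedFDeriv_fderiv]
  have : fderiv ℝ (fun x => L x + b) = fun _ => L := by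
    funext y
    rw [fderiv_add_const]
    exact L.fderiv
  rw [this, iteratedFDeriv_const_of_ne (by omega)]
  simp

/-- The displacement cocycle in the direction `k`. -/
noncomputable def disp (F : (Fin d → ℝ) → (Fin d → ℝ)) (ρ : Fin d → ℝ) (k : Fin d → ℤ) (n : ℕ)
    (x : Fin d → ℝ) : ℝ := ph k (F^[n] x - x - (n : ℝ) • ρ)

theorem disp_zero (F : (Fin d → ℝ) → (Fin d → ℝ)) (ρ : Fin d → ℝ) (k : Fin d → ℤ)
    (x : Fin d → ℝ) : disp F ρ k 0 x = 0 := by simp [disp, ph_zero]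

theorem disp_cocycle (F : (Fin d → ℝ) → (Fin d → ℝ)) (ρ : Fin d → ℝ) (k : Fin d → ℤ) (n : ℕ)
    (x : Fin d → ℝ) : disp F ρ k n (F x) = disp F ρ k (n + 1) x - disp F ρ k 1 x := by
  unfold disp
  rw [← ph_sub, Function.iterate_one, ← Function.iterate_succ_apply F n x]
  congr 1
  push_cast
  rw [add_smul, one_smul]
  abel

theorem disp_per {F : (Fin d → ℝ) → (Fin d → ℝ)} (hF : Eqv F) (ρ : Fin d → ℝ) (k : Fin d → ℤ)
    (n : ℕ) : IsPer (disp F ρ k n) := by
  intro x l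
  show disp F ρ k n (x + zv l) = disp F ρ k n x
  unfold disp
  rw [hF.iterate n]
  congr 1
  abel

theorem disp_contDiff {F : (Fin d → ℝ) → (Fin d → ℝ)} (hF : ContDiff ℝ (⊤ : ℕ∞) F)
    (ρ : Fin d → ℝ) (k : Fin d → ℤ) (n : ℕ) : ContDiff ℝ (⊤ : ℕ∞) (disp F ρ k n) := by
  unfold disp
  exact (ph_contDiff k).comp (((contDiff_iterate hF n).sub contDiff_id).sub contDiff_const)

theorem iter_disp {F : (Fin d → ℝ) → (Fin d → ℝ)} (hF : ContDiff ℝ (⊤ : ℕ∞) F)
    (ρ : Fin d → ℝ) (k : Fin d → ℤ) (n s : ℕ) (x : Fin d → ℝ) :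
    iteratedFDeriv ℝ (s + 2) (disp F ρ k n) x
      = iteratedFDeriv ℝ (s + 2) (fun y => ph k (F^[n] y)) x := by
  have e : disp F ρ k n = fun y => ph k (F^[n] y) - (phL k y + ph k ((n : ℝ) • ρ)) := by
    funext y
    rw [disp, ph_sub, ph_sub, phL_apply]
    ring
  have h1 : ContDiffAt ℝ ((s + 2 : ℕ) : WithTop ℕ∞) (fun y => ph k (F^[n] y)) x :=
    (((ph_contDiff k).comp (contDiff_iterate hF n)).of_le (nat_le_top (s + 2))).contDiffAt
  have h2 : ContDiffAt ℝ ((s + 2 : ℕ) : WithTop ℕ∞) (fun y => phL k y + ph k ((n : ℝ) • ρ)) x :=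
    ((phL k).contDiff.add contDiff_const).contDiffAt
  have h3 := iteratedFDeriv_sub_apply (𝕜 := ℝ) h1 h2
  rw [iter_affine, sub_zero] at h3
  rw [e]
  exact h3

/-- Growth of the derivatives of the iterates is sublinear along a subsequence, for every order,
in the direction `k`. -/
def Slow (F : (Fin d → ℝ) → (Fin d → ℝ)) (k : Fin d → ℤ) : Prop :=
  ∀ s : ℕ, 1 ≤ s → ∀ ε : ℝ, 0 < ε → ∀ N : ℕ, ∃ n, N ≤ n ∧ ∀ x : Fin d → ℝ,
    ‖iteratedFDeriv ℝ s (fun y => ∑ i, (k i : ℝ) * F^[n] y i) x‖ ≤ ε * n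

/-- If coboundaries are closed, the displacement in a slow direction is a coboundary. -/
theorem cob_of_slow {F : (Fin d → ℝ) → (Fin d → ℝ)} {ρ : Fin d → ℝ} (hF : ContDiff ℝ (⊤ : ℕ∞) F)
    (hFe : Eqv F) {C₀ : ℝ} (hdev : ∀ (n : ℕ) (x : Fin d → ℝ), ‖F^[n] x - x - (n : ℝ) • ρ‖ ≤ C₀)
    (hc : ClosedCob F) {k : Fin d → ℤ} (hk : Slow F k) :
    ∃ Ψ : (Fin d → ℝ) → ℝ, ContDiff ℝ (⊤ : ℕ∞) Ψ ∧ IsPer Ψ ∧
      ∀ x, ph k (F x - x - ρ) = Ψ (F x) - Ψ x := by
  have hC₀ : 0 ≤ C₀ := (norm_nonneg _).trans (hdev 0 0)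
  set C₁ : ℝ := (∑ i, |(k i : ℝ)|) * C₀ with hC₁
  have hC₁0 : 0 ≤ C₁ := by positivity
  have hu0 : ∀ n x, |disp F ρ k n x| ≤ C₁ := by
    intro n x
    refine (ph_abs_le k _).trans ?_
    rw [hC₁]
    gcongr
    exact hdev n x
  choose C hC hI using fun s : ℕ => interp (V := Fin d → ℝ) (W := ℝ) s
  -- good times
  have htime : ∀ m : ℕ, ∃ n : ℕ, 1 ≤ n ∧ ∀ j ≤ m, ∀ x,
      ‖iteratedFDeriv ℝ j (disp F ρ k n) x‖ ≤ 2 / (m + 1) * n := by
    intro m
    have hCm : 0 < C (m + 2) := by have := hC (m + 2); linarith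
    set ε : ℝ := 1 / ((m + 1) * C (m + 2)) with hε
    have hε0 : 0 < ε := by positivity
    obtain ⟨N, hN⟩ := exists_nat_gt (C₁ / ε)
    obtain ⟨n, hn, hb⟩ := hk (m + 2) (by omega) ε hε0 (N + 1)
    have hn1 : (N : ℝ) < n := by exact_mod_cast (show N < n by omega)
    have hn2 : C₁ ≤ ε * n := by
      rw [div_lt_iff₀ hε0] at hN
      nlinarith
    refine ⟨n, by omega, fun j hj x => ?_⟩
    have h1 := hI (m + 2) (disp F ρ k n) (disp_contDiff hF ρ k n)
      (fun i => (disp_per hFe ρ k n).bounded_deriv (disp_contDiff hF ρ k n) i)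
      C₁ (ε * n) 1 one_pos (fun x => by rw [Real.norm_eq_abs]; exact hu0 n x)
      (fun x => by rw [iter_disp hF]; exact hb x) j (by omega) x
    rw [one_pow, one_mul, one_pow, one_mul] at h1
    refine h1.trans ?_
    calc C (m + 2) * (C₁ + ε * n) ≤ C (m + 2) * (ε * n + ε * n) := by gcongr
      _ = 2 / (m + 1) * n := by rw [hε]; field_simp; ring
  choose n hn1 hn using htime
  set Ψ : ℕ → (Fin d → ℝ) → ℝ := fun m x => -(1 / (n m : ℝ)) * ∑ j ∈ Finset.range (n m), disp F ρ k j x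
    with hΨ
  have hsum : ∀ (N : ℕ) (x : Fin d → ℝ), ∑ j ∈ Finset.range N, disp F ρ k j (F x)
      = ∑ j ∈ Finset.range N, disp F ρ k j x + disp F ρ k N x - N * disp F ρ k 1 x := by
    intro N x
    induction N with
    | zero => simp [disp_zero]
    | succ N ih =>
      rw [Finset.sum_range_succ, ih, Finset.sum_range_succ, disp_cocycle]
      push_cast
      ring
  have herr : ∀ m, (fun y => Ψ m (F y) - Ψ m y - disp F ρ k 1 y)
      = fun y => -(1 / (n m : ℝ)) * disp F ρ k (n m) y := by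
    intro m
    funext y
    have h0 : (n m : ℝ) ≠ 0 := by
      have : 0 < n m := hn1 m
      positivity
    rw [hΨ]
    simp only
    rw [hsum]
    field_simp
    ring
  obtain ⟨Ψ₀, h1, h2, h3⟩ := hc Ψ (disp F ρ k 1) (fun m => contDiff_const.mul
      (ContDiff.sum fun j _ => disp_contDiff hF ρ k j))
    (fun m x l => by
      show -(1 / (n m : ℝ)) * ∑ j ∈ Finset.range (n m), disp F ρ k j _ = _
      congr 1
      exact Finset.sum_congr rfl fun j _ => disp_per hFe ρ k j x l)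
    (disp_contDiff hF ρ k 1) (disp_per hFe ρ k 1) (fun j ε hε => by
      obtain ⟨N, hN⟩ := exists_nat_gt (2 / ε)
      refine ⟨max N j, fun m hm x => ?_⟩
      rw [herr]
      have h4 : iteratedFDeriv ℝ j (fun y => -(1 / (n m : ℝ)) * disp F ρ k (n m) y) x
          = (-(1 / (n m : ℝ))) • iteratedFDeriv ℝ j (disp F ρ k (n m)) x :=
        iteratedFDeriv_const_smul_apply (𝕜 := ℝ) (i := j) (a := -(1 / (n m : ℝ)))
          (f := disp F ρ k (n m)) (x := x)
          (((disp_contDiff hF ρ k (n m)).of_le (by exact_mod_cast le_top)).contDiffAt)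
      have h0 : (0 : ℝ) < n m := by exact_mod_cast hn1 m
      rw [h4, norm_smul, norm_neg, Real.norm_of_nonneg (by positivity)]
      have h5 := hn m j (le_trans (le_max_right _ _) hm) x
      have h6 : (N : ℝ) ≤ m := by exact_mod_cast le_trans (le_max_left _ _) hm
      have h7 : 2 / ε < m + 1 := by linarith
      rw [div_lt_iff₀ hε] at h7
      calc 1 / (n m : ℝ) * ‖iteratedFDeriv ℝ j (disp F ρ k (n m)) x‖
          ≤ 1 / (n m : ℝ) * (2 / (m + 1) * n m) := by gcongr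
        _ = 2 / (m + 1) := by field_simp
        _ < ε := by rw [div_lt_iff₀ (by positivity)]; linarith)
  refine ⟨Ψ₀, h1, h2, fun x => ?_⟩
  rw [← h3]
  simp [disp]

/-- The real directions in which the displacement is a coboundary. -/
def cobSub (F : (Fin d → ℝ) → (Fin d → ℝ)) (ρ : Fin d → ℝ) : Submodule ℝ (Fin d → ℝ) where
  carrier := {t | ∃ Ψ : (Fin d → ℝ) → ℝ, ContDiff ℝ (⊤ : ℕ∞) Ψ ∧ IsPer Ψ ∧
      ∀ x, ∑ i, t i * (F x - x - ρ) i = Ψ (F x) - Ψ x}
  add_mem' := by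
    rintro s t ⟨Ψ, h1, h2, h3⟩ ⟨Ψ', h1', h2', h3'⟩
    refine ⟨fun x => Ψ x + Ψ' x, h1.add h1', fun x k => by
      show Ψ (x + zv k) + Ψ' (x + zv k) = Ψ x + Ψ' x
      rw [h2.zv, h2'.zv], fun x => ?_⟩
    simp only [Pi.add_apply, add_mul, Finset.sum_add_distrib, h3, h3']
    ring
  zero_mem' := ⟨fun _ => 0, contDiff_const, fun x k => rfl, fun x => by simp⟩
  smul_mem' := by
    rintro c t ⟨Ψ, h1, h2, h3⟩
    refine ⟨fun x => c * Ψ x, contDiff_const.mul h1, fun x k => by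
      show c * Ψ (x + zv k) = c * Ψ x
      rw [h2.zv], fun x => ?_⟩
    simp only [Pi.smul_apply, smul_eq_mul]
    rw [← mul_sub, ← h3, Finset.mul_sum]
    exact Finset.sum_congr rfl fun i _ => by ring

/-- A smooth map conjugating the displacement in all directions of the subspace. -/
theorem exists_H (F : (Fin d → ℝ) → (Fin d → ℝ)) (ρ : Fin d → ℝ) :
    ∃ H : (Fin d → ℝ) → (Fin d → ℝ), ContDiff ℝ (⊤ : ℕ∞) H ∧ Eqv H ∧
      ∀ t ∈ cobSub F ρ, ∀ x, ∑ i, t i * H (F x) i = ∑ i, t i * H x i + ∑ i, t i * ρ i := by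
  obtain ⟨π, hπ⟩ := LinearMap.exists_leftInverse_of_injective (cobSub F ρ).subtype
    (Submodule.ker_subtype _)
  have hπ' : ∀ t : cobSub F ρ, π (t : Fin d → ℝ) = t := fun t => LinearMap.congr_fun hπ t
  choose Ψ h1 h2 h3 using fun i : Fin d => (π (Pi.single i 1)).2
  refine ⟨fun x i => x i - Ψ i x, ?_, ?_, fun t ht x => ?_⟩
  · rw [contDiff_pi]
    exact fun i => (contDiff_apply ℝ ℝ i).sub (h1 i)
  · intro x k
    funext i
    show (x + zv k) i - Ψ i (x + zv k) = (x i - Ψ i x) + zv k i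
    rw [(h2 i).zv, Pi.add_apply]
    ring
  · have e : t = ∑ i, t i • ((π (Pi.single i 1) : cobSub F ρ) : Fin d → ℝ) := by
      have h4 := hπ' ⟨t, ht⟩
      have h5 : t = ∑ i, t i • (Pi.single i (1 : ℝ) : Fin d → ℝ) := by
        funext j
        simp [Finset.sum_apply, Pi.single_apply]
      have h6 : π t = ∑ i, t i • π (Pi.single i (1 : ℝ)) := by
        conv_lhs => rw [h5]
        rw [map_sum]
        exact Finset.sum_congr rfl fun i _ => map_smul _ _ _
      have h7 := congrArg (Subtype.val) h6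
      rw [show π t = ⟨t, ht⟩ from h4] at h7
      simpa [Submodule.coe_sum] using h7
    have key : ∑ j, t j * (F x - x - ρ) j = ∑ i, t i * (Ψ i (F x) - Ψ i x) := by
      have h8 : ∀ j, t j = ∑ i, t i * ((π (Pi.single i 1) : cobSub F ρ) : Fin d → ℝ) j := by
        intro j
        have := congrFun e j
        simpa [Finset.sum_apply] using this
      calc ∑ j, t j * (F x - x - ρ) j
          = ∑ j, (∑ i, t i * ((π (Pi.single i 1) : cobSub F ρ) : Fin d → ℝ) j) * (F x - x - ρ) j :=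
            Finset.sum_congr rfl fun j _ => by rw [← h8]
        _ = ∑ i, t i * ∑ j, ((π (Pi.single i 1) : cobSub F ρ) : Fin d → ℝ) j * (F x - x - ρ) j := by
            simp only [Finset.sum_mul, Finset.mul_sum]
            rw [Finset.sum_comm]
            exact Finset.sum_congr rfl fun i _ => Finset.sum_congr rfl fun j _ => by ring
        _ = ∑ i, t i * (Ψ i (F x) - Ψ i x) :=
            Finset.sum_congr rfl fun i _ => by rw [h3]
    have h9 : ∑ i, t i * (F x i - Ψ i (F x)) - ∑ i, t i * (x i - Ψ i x) - ∑ i, t i * ρ i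
        = ∑ j, t j * (F x - x - ρ) j - ∑ i, t i * (Ψ i (F x) - Ψ i x) := by
      simp only [← Finset.sum_sub_distrib]
      exact Finset.sum_congr rfl fun i _ => by simp only [Pi.sub_apply]; ring
    rw [key] at h9
    linarith

end Run7.h575
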