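import Pool.Agent.Run7.h575.Cob

set_option autoImplicit false

/-!
If the space of smooth coboundaries is closed, the smooth eigenvalues satisfy a Diophantine
condition.
-/

open MeasureTheory Set Filter Topology Matrix

namespace Run7.h575

variable {d : ℕ}

theorem sum_abs_pos {k : Fin d → ℤ} (hk : k ≠ 0) : 1 ≤ ∑ i, |(k i : ℝ)| := by
  obtain ⟨j, hj⟩ : ∃ j, k j ≠ 0 := by
    by_contra h
    push Not at h
    exact hk (funext h)
  have h1 : (1 : ℝ) ≤ |(k j : ℝ)| := by exact_mod_cast Int.one_le_abs hj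
  exact h1.trans (Finset.single_le_sum (f := fun i => |(k i : ℝ)|) (fun i _ => abs_nonneg _)
    (Finset.mem_univ j))

theorem wt_le_sum {k : Fin d → ℤ} (hk : k ≠ 0) : wt k ≤ 2 * ∑ i, |(k i : ℝ)| := by
  have h1 := sum_abs_pos hk
  have h2 : ‖k‖ ≤ ∑ i, |(k i : ℝ)| := by
    refine (pi_norm_le_iff_of_nonneg (by linarith)).2 fun j => ?_
    rw [Int.norm_eq_abs]
    exact (Finset.single_le_sum (f := fun i => |(k i : ℝ)|) (fun i _ => abs_nonneg _)
      (Finset.mem_univ j))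
  unfold wt
  linarith

/-- Failure of the Diophantine condition on `V` produces a sequence of resonances. -/
theorem exists_resonances {ρ : Fin d → ℝ} (hρ : Irr ρ) {V : Set (Fin d → ℤ)}
    (h : ¬ ∃ C : ℝ, 0 < C ∧ ∃ τ : ℝ, 0 < τ ∧ ∀ k ∈ V, k ≠ 0 → ∀ m : ℤ,
      C / (∑ i, |(k i : ℝ)|) ^ τ ≤ |∑ i, (k i : ℝ) * ρ i - (m : ℝ)|) :
    ∃ κ : ℕ → (Fin d → ℤ), Function.Injective κ ∧ ∀ n, κ n ∈ V ∧ κ n ≠ 0 ∧ ∃ m : ℤ,
      |ph (κ n) ρ - m| ≤ (1 / 2) ^ n / wt (κ n) ^ n := by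
  push Not at h
  have step : ∀ (j : ℕ) (S : Finset (Fin d → ℤ)), ∃ k ∈ V, k ≠ 0 ∧ k ∉ S ∧ ∃ m : ℤ,
      |ph k ρ - m| ≤ (1 / 2) ^ j / wt k ^ j := by
    intro j S
    have hS : ∃ δ : ℝ, 0 < δ ∧ ∀ k ∈ S, k ≠ 0 → δ ≤ |ph k ρ - round (ph k ρ)| := by
      induction S using Finset.induction_on with
      | empty => exact ⟨1, one_pos, fun k hk => by simp at hk⟩
      | insert a S _ ih =>
        obtain ⟨δ, hδ, hS⟩ := ih
        by_cases ha : a = 0
        · refine ⟨δ, hδ, fun k hk hk0 => ?_⟩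
          rcases Finset.mem_insert.1 hk with rfl | hk
          · exact absurd ha hk0
          · exact hS k hk hk0
        · have h1 : 0 < |ph a ρ - round (ph a ρ)| := abs_pos.2 (sub_ne_zero.2 (hρ a ha _))
          refine ⟨min δ |ph a ρ - round (ph a ρ)|, lt_min hδ h1, fun k hk hk0 => ?_⟩
          rcases Finset.mem_insert.1 hk with rfl | hk
          · exact min_le_right _ _
          · exact (min_le_left _ _).trans (hS k hk hk0)
    obtain ⟨δ, hδ, hS⟩ := hS
    obtain ⟨k, hkV, hk0, m, hm⟩ := h (min δ ((1 / 4) ^ j)) (lt_min hδ (by positivity))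
      (j + 1 : ℝ) (by positivity)
    have h1 := sum_abs_pos hk0
    have h2 := wt_le_sum hk0
    have hw := wt_pos k
    set s := ∑ i, |(k i : ℝ)| with hs
    have hm' : |ph k ρ - m| < min δ ((1 / 4) ^ j) / s ^ ((j : ℝ) + 1) := hm
    have e : s ^ ((j : ℝ) + 1) = s ^ (j + 1) := by
      rw [← Real.rpow_natCast]; push_cast; rfl
    rw [e] at hm'
    refine ⟨k, hkV, hk0, fun hkS => ?_, m, ?_⟩
    · have h3 := hS k hkS hk0
      have h4 := round_le (ph k ρ) m
      have h5 : min δ ((1 / 4) ^ j) / s ^ (j + 1) ≤ δ := by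
        rw [div_le_iff₀ (by positivity)]
        have h6 : 1 ≤ s ^ (j + 1) := one_le_pow₀ h1
        have h7 := min_le_left δ ((1 / 4 : ℝ) ^ j)
        nlinarith
      linarith
    · refine hm'.le.trans ?_
      rw [div_le_div_iff₀ (by positivity) (by positivity)]
      calc min δ ((1 / 4) ^ j) * wt k ^ j ≤ (1 / 4) ^ j * (2 * s) ^ j := by
            gcongr
            exact min_le_right _ _
        _ = (1 / 2) ^ j * s ^ j := by
            rw [mul_pow, ← mul_assoc, ← mul_pow]; norm_num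
        _ ≤ (1 / 2) ^ j * s ^ (j + 1) :=
            mul_le_mul_of_nonneg_left (pow_le_pow_right₀ h1 (by omega)) (by positivity)
  obtain ⟨f, hf1, hf2⟩ := exists_seq_of_forall_finset_exists
    (fun p : ℕ × (Fin d → ℤ) => p.2 ∈ V ∧ p.2 ≠ 0 ∧ ∃ m : ℤ,
      |ph p.2 ρ - m| ≤ (1 / 2) ^ p.1 / wt p.2 ^ p.1)
    (fun p q => p.1 < q.1 ∧ p.2 ≠ q.2) (fun s _ => by
      obtain ⟨k, h1, h2, h3, h4⟩ := step (s.sup Prod.fst + 1) (s.image Prod.snd)
      refine ⟨(s.sup Prod.fst + 1, k), ⟨h1, h2, h4⟩, fun x hx => ⟨?_, fun h => h3 ?_⟩⟩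
      · have := Finset.le_sup (f := Prod.fst) hx
        show x.1 < s.sup Prod.fst + 1
        omega
      · exact Finset.mem_image.2 ⟨x, hx, h⟩)
  have hmono : StrictMono fun n => (f n).1 := fun m n hmn => (hf2 m n hmn).1
  refine ⟨fun n => (f n).2, ?_, fun n => ?_⟩
  · intro m n hmn
    rcases lt_trichotomy m n with h | h | h
    · exact absurd hmn (hf2 m n h).2
    · exact h
    · exact absurd hmn.symm (hf2 n m h).2
  · obtain ⟨h1, h2, m, hm⟩ := hf1 n
    refine ⟨h1, h2, m, hm.trans ?_⟩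
    have hn : n ≤ (f n).1 := hmono.le_apply
    have hw := one_le_wt (f n).2
    have hw' := wt_pos (f n).2
    show (1 / 2 : ℝ) ^ (f n).1 / wt (f n).2 ^ (f n).1 ≤ (1 / 2) ^ n / wt (f n).2 ^ n
    gcongr ?_ / ?_
    · exact pow_le_pow_of_le_one (by norm_num) (by norm_num) hn
    · exact pow_le_pow_right₀ hw hn

theorem summable_geo_wt (M : ℝ) (hM : 0 ≤ M) (κ : ℕ → (Fin d → ℤ)) (p : ℕ) :
    Summable fun n => M * ((1 / 2) ^ n / wt (κ n) ^ n) * wt (κ n) ^ p := by
  rw [← summable_nat_add_iff p]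
  refine Summable.of_nonneg_of_le (fun n => ?_) (fun n => ?_)
    ((summable_geometric_of_lt_one (r := (1 / 2 : ℝ)) (by norm_num) (by norm_num)).mul_left M)
  · have := wt_pos (κ (n + p))
    positivity
  · have hw := wt_pos (κ (n + p))
    have hw1 := one_le_wt (κ (n + p))
    have h1 : wt (κ (n + p)) ^ p / wt (κ (n + p)) ^ (n + p) ≤ 1 := by
      rw [div_le_one (by positivity)]
      exact pow_le_pow_right₀ hw1 (by omega)
    calc M * ((1 / 2) ^ (n + p) / wt (κ (n + p)) ^ (n + p)) * wt (κ (n + p)) ^ p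
        = M * (1 / 2) ^ (n + p) * (wt (κ (n + p)) ^ p / wt (κ (n + p)) ^ (n + p)) := by ring
      _ ≤ M * (1 / 2) ^ (n + p) * 1 := by gcongr
      _ ≤ M * (1 / 2) ^ n := by
        rw [mul_one]
        gcongr ?_ * ?_
        exact pow_le_pow_of_le_one (by norm_num) (by norm_num) (by omega)

/-- If the space of smooth coboundaries is closed, resonances in directions with a smooth
eigenfunction are controlled. -/
theorem dioph_on {F H : (Fin d → ℝ) → (Fin d → ℝ)} {α : Fin d → ℝ} (D : Dat F α) (hα : Irr α)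
    (hFs : ContDiff ℝ (⊤ : ℕ∞) F) (hH : ContDiff ℝ (⊤ : ℕ∞) H) (eH : Eqv H)
    {V : Set (Fin d → ℤ)}
    (hV : ∀ k ∈ V, ∀ x, ph k (H (F x)) = ph k (H x) + ph k D.rho) (hc : ClosedCob F) :
    ∃ C : ℝ, 0 < C ∧ ∃ τ : ℝ, 0 < τ ∧ ∀ k ∈ V, k ≠ 0 → ∀ m : ℤ,
      C / (∑ i, |(k i : ℝ)|) ^ τ ≤ |∑ i, (k i : ℝ) * D.rho i - (m : ℝ)| := by
  by_contra hcon
  obtain ⟨κ, hκ, hres⟩ := exists_resonances (D.irr_rho hα) hcon
  set c : ℕ → ℂ := fun n => ee (κ n) D.rho - 1 with hcdef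
  have hc0 : ∀ n, c n ≠ 0 := by
    intro n h
    obtain ⟨m, hm⟩ := (ee_eq_one_iff _ _).1 (sub_eq_zero.1 h)
    exact D.irr_rho hα _ (hres n).2.1 m hm
  have hcn : ∀ n, ‖c n‖ ≤ 2 * Real.pi * ((1 / 2) ^ n / wt (κ n) ^ n) := by
    intro n
    obtain ⟨-, -, m, hm⟩ := hres n
    refine (norm_exp_sub_one_le (ph (κ n) D.rho) m).trans ?_
    have := Real.pi_pos
    gcongr
  set φ : ℕ → (Fin d → ℝ) → ℂ := fun n x => ee (κ n) (H x) with hφ
  have hφs : ∀ n, ContDiff ℝ (⊤ : ℕ∞) (φ n) := fun n => (ee_contDiff (κ n)).comp hH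
  have hφp : ∀ n, IsPer (φ n) := fun n => (ee_per (κ n)).comp_eqv eH
  have hφF : ∀ n x, φ n (F x) = ee (κ n) D.rho * φ n x := by
    intro n x
    show ee (κ n) (H (F x)) = _ * ee (κ n) (H x)
    rw [ee, hV _ (hres n).1, ee, ee, ← Complex.exp_add]
    congr 1
    push_cast
    ring
  -- bounds for derivatives
  have hbd : ∀ p : ℕ, ∃ M : ℝ, 0 ≤ M ∧ ∀ n x, ‖iteratedFDeriv ℝ p (φ n) x‖ ≤ M * wt (κ n) ^ p := by
    intro p
    obtain ⟨D', hD', hcs⟩ := comp_small (W := ℂ) eH hH p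
    refine ⟨D' * (1 + 2 * Real.pi * d) ^ p, by have := Real.pi_pos; positivity, fun n x => ?_⟩
    have hw := one_le_wt (κ n)
    have hpi := Real.pi_pos
    have h1 := hcs (ee (κ n)) (((1 + 2 * Real.pi * d) * wt (κ n)) ^ p) (ee_contDiff _)
      (fun i hi y => by
        refine (norm_iter_ee i (κ n) y).trans ?_
        have h2 : 2 * Real.pi * (d * wt (κ n)) ≤ (1 + 2 * Real.pi * d) * wt (κ n) := by
          nlinarith
        have h3 : 1 ≤ (1 + 2 * Real.pi * d) * wt (κ n) := by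
          have : 0 ≤ 2 * Real.pi * (d : ℝ) := by positivity
          nlinarith
        calc (2 * Real.pi * (d * wt (κ n))) ^ i ≤ ((1 + 2 * Real.pi * d) * wt (κ n)) ^ i := by
              gcongr
          _ ≤ _ := pow_le_pow_right₀ h3 hi) x
    refine h1.trans (le_of_eq ?_)
    rw [mul_pow]
    ring
  choose M hM0 hM using hbd
  have hterm : ∀ p n x, ‖iteratedFDeriv ℝ p (fun x => c n * φ n x) x‖
      ≤ (2 * Real.pi * M p) * ((1 / 2) ^ n / wt (κ n) ^ n) * wt (κ n) ^ p := by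
    intro p n x
    have h1 : iteratedFDeriv ℝ p (fun x => c n * φ n x) x = c n • iteratedFDeriv ℝ p (φ n) x :=
      iteratedFDeriv_const_smul_apply (𝕜 := ℝ) (i := p) (a := c n) (f := φ n) (x := x)
        (((hφs n).of_le (by exact_mod_cast le_top)).contDiffAt)
    rw [h1, norm_smul]
    have hw := wt_pos (κ n)
    have h2 := hM0 p
    calc ‖c n‖ * ‖iteratedFDeriv ℝ p (φ n) x‖
        ≤ (2 * Real.pi * ((1 / 2) ^ n / wt (κ n) ^ n)) * (M p * wt (κ n) ^ p) :=
          mul_le_mul (hcn n) (hM p n x) (norm_nonneg _) (by have := Real.pi_pos; positivity)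
      _ = _ := by ring
  have hsum : ∀ p, Summable fun n => (2 * Real.pi * M p) * ((1 / 2) ^ n / wt (κ n) ^ n)
      * wt (κ n) ^ p := fun p =>
    summable_geo_wt _ (by have := hM0 p; have := Real.pi_pos; positivity) κ p
  have hcs : ∀ n, ContDiff ℝ (⊤ : ℕ∞) fun x => c n * φ n x := fun n => contDiff_const.mul (hφs n)
  have hcsum : Summable c := by
    refine Summable.of_norm_bounded (g := fun n => 2 * Real.pi * ((1 / 2) ^ n / wt (κ n) ^ n)
      * wt (κ n) ^ 0) (summable_geo_wt (2 * Real.pi) (by have := Real.pi_pos; positivity) κ 0) ?_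
    intro n
    rw [pow_zero, mul_one]
    exact hcn n
  have hcφ : ∀ x, Summable fun n => c n * φ n x := by
    intro x
    refine Summable.of_norm (hcsum.norm.congr fun n => ?_)
    rw [norm_mul, hφ]
    simp only [norm_ee, mul_one]
  set Φ : (Fin d → ℝ) → ℂ := fun x => ∑' n, c n * φ n x with hΦ
  have hΦs : ContDiff ℝ (⊤ : ℕ∞) Φ :=
    contDiff_tsum (N := ⊤) hcs (fun p _ => hsum p) (fun p n x _ => hterm p n x)
  have hΦp : IsPer Φ := by
    intro x k
    show ∑' n, c n * φ n _ = _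
    exact tsum_congr fun n => by rw [hφp n x k]
  set ψ : ℕ → (Fin d → ℝ) → ℂ := fun n x => ∑ i ∈ Finset.range n, φ i x with hψ
  have hψs : ∀ n, ContDiff ℝ (⊤ : ℕ∞) (ψ n) := fun n => ContDiff.sum fun i _ => hφs i
  have hψp : ∀ n, IsPer (ψ n) := by
    intro n x k
    show ∑ i ∈ Finset.range n, φ i _ = _
    exact Finset.sum_congr rfl fun i _ => by rw [hφp i x k]
  have herr : ∀ n, (fun y => ψ n (F y) - ψ n y - Φ y)
      = fun y => -∑' i, c (i + n) * φ (i + n) y := by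
    intro n
    funext y
    have h1 : ψ n (F y) - ψ n y = ∑ i ∈ Finset.range n, c i * φ i y := by
      show ∑ i ∈ Finset.range n, φ i (F y) - ∑ i ∈ Finset.range n, φ i y = _
      rw [← Finset.sum_sub_distrib]
      refine Finset.sum_congr rfl fun i _ => ?_
      rw [hφF, hcdef]
      ring
    have h2 := (hcφ y).sum_add_tsum_nat_add n
    rw [h1, hΦ]
    simp only
    rw [← h2]
    ring
  obtain ⟨ψ₀, hψ₀c, hψ₀p, hψ₀⟩ := hc.complex hFs hψs hψp hΦs hΦp (by
    intro j ε hε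
    have h1 := tendsto_sum_nat_add fun n => (2 * Real.pi * M j) * ((1 / 2) ^ n / wt (κ n) ^ n)
      * wt (κ n) ^ j
    obtain ⟨N, hN⟩ := Filter.eventually_atTop.1 (h1.eventually (gt_mem_nhds hε))
    refine ⟨N, fun n hn x => lt_of_le_of_lt ?_ (hN n hn)⟩
    rw [herr]
    have h2 : iteratedFDeriv ℝ j (fun y => -∑' i, c (i + n) * φ (i + n) y) x
        = -iteratedFDeriv ℝ j (fun y => ∑' i, c (i + n) * φ (i + n) y) x :=
      iteratedFDeriv_neg_apply
    rw [h2, norm_neg, iteratedFDeriv_tsum_apply (N := ⊤) (fun i => hcs (i + n))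
      (v := fun p i => (2 * Real.pi * M p) * ((1 / 2) ^ (i + n) / wt (κ (i + n)) ^ (i + n))
        * wt (κ (i + n)) ^ p) (fun p _ => (summable_nat_add_iff n).2 (hsum p))
        (fun p i x _ => hterm p (i + n) x) (by exact_mod_cast le_top)]
    have h3 : Summable fun i => (2 * Real.pi * M j) * ((1 / 2) ^ (i + n) / wt (κ (i + n)) ^ (i + n))
        * wt (κ (i + n)) ^ j := (summable_nat_add_iff n).2 (hsum j)
    exact tsum_of_norm_bounded h3.hasSum fun i => hterm j (i + n) x)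
  -- pull back to the translation
  have hQα : ∀ y, D.Q (y + α) = F (D.Q y) + zv (D.B *ᵥ (-D.m)) := by
    intro y
    rw [D.F_Q, ← D.Qper, zv_neg]
    congr 1
    abel
  set ν : ℕ → (Fin d → ℤ) := fun n => κ n ᵥ* D.B with hν
  have hνinj : Function.Injective ν := by
    intro m n hmn
    apply hκ
    have h1 : (κ m - κ n) ᵥ* D.B = 0 := by rw [Matrix.sub_vecMul]; exact sub_eq_zero.2 hmn
    by_contra hne
    exact vecMul_ne D.BA _ (sub_ne_zero.2 hne) h1
  have hee : ∀ n, ee (ν n) α = ee (κ n) D.rho := by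
    intro n
    obtain ⟨l, hl⟩ := D.ph_rho (κ n)
    rw [ee, ee, hl]
    have : (2 * Real.pi * Complex.I * ((ph (κ n ᵥ* D.B) α + (l : ℝ) : ℝ) : ℂ))
        = 2 * Real.pi * Complex.I * ((ph (κ n ᵥ* D.B) α : ℝ) : ℂ) + l * (2 * Real.pi * Complex.I) := by
      push_cast; ring
    rw [this, Complex.exp_add, Complex.exp_int_mul_two_pi_mul_I, mul_one]
  have hθ : ∀ n, ∃ θ : ℂ, ‖θ‖ = 1 ∧ ∀ y, φ n (D.Q y) = θ * ee (ν n) y := by
    intro n
    have hu : IsPer fun y => φ n (D.Q y) * ee (-ν n) y := by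
      intro y k
      show φ n (D.Q (y + zv k)) * ee (-ν n) (y + zv k) = φ n (D.Q y) * ee (-ν n) y
      rw [D.Qper, (hφp n).zv, (ee_per _).zv]
    have huc : Continuous fun y => φ n (D.Q y) * ee (-ν n) y :=
      ((hφs n).continuous.comp D.hQ).mul (ee_continuous _)
    have hinv : ∀ y, φ n (D.Q (y + α)) * ee (-ν n) (y + α) = φ n (D.Q y) * ee (-ν n) y := by
      intro y
      rw [hQα, (hφp n).zv, hφF, ee_add, ← hee]
      have := ee_neg (ν n) α
      linear_combination (φ n (D.Q y) * ee (-ν n) y) * this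
    refine ⟨φ n (D.Q 0) * ee (-ν n) 0, ?_, fun y => ?_⟩
    · rw [norm_mul, norm_ee, one_mul]
      exact norm_ee _ _
    · have h1 := const_of_inv hα hu huc hinv 0 y
      rw [h1, mul_assoc, ee_neg, mul_one]
  choose θ hθ1 hθ2 using hθ
  have hψ'p : IsPer fun y => ψ₀ (D.Q y) := by
    intro y k
    show ψ₀ (D.Q (y + zv k)) = ψ₀ (D.Q y)
    rw [D.Qper, hψ₀p.zv]
  have hψ'c : Continuous fun y => ψ₀ (D.Q y) := hψ₀c.comp D.hQ
  have heq : ∀ y, ψ₀ (D.Q (y + α)) - ψ₀ (D.Q y) = ∑' n, (c n * θ n) * ee (ν n) y := by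
    intro y
    rw [hQα, hψ₀p.zv, ← hψ₀, hΦ]
    exact tsum_congr fun n => by rw [hθ2, mul_assoc]
  have hcθ : Summable fun n => c n * θ n := by
    refine Summable.of_norm (hcsum.norm.congr fun n => ?_)
    rw [norm_mul, hθ1, mul_one]
  have hfc : ∀ n, fc (fun y => ψ₀ (D.Q y)) (ν n) = θ n := by
    intro n
    have h1 := fc_tsum hcθ hνinj n
    have h2 : (fun y => ∑' n, (c n * θ n) * ee (ν n) y)
        = fun y => ψ₀ (D.Q (y + α)) - ψ₀ (D.Q y) := funext fun y => (heq y).symm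
    rw [h2, fc_sub (f := fun y => ψ₀ (D.Q (y + α))) (hψ'c.comp (continuous_id.add continuous_const))
      hψ'c, fc_shift hψ'p, hee] at h1
    have h3 : c n * (fc (fun y => ψ₀ (D.Q y)) (ν n) - θ n) = 0 := by
      rw [hcdef] at h1 ⊢
      linear_combination h1
    rcases mul_eq_zero.1 h3 with h | h
    · exact absurd h (hc0 n)
    · exact sub_eq_zero.1 h
  have hs := (summable_sq_fc hψ'p hψ'c).comp_injective hνinj
  have hs1 : Summable fun _ : ℕ => (1 : ℝ) := by
    refine hs.congr fun n => ?_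
    simp only [Function.comp_apply]
    rw [hfc, hθ1, one_pow]
  have := hs1.tendsto_atTop_zero
  exact one_ne_zero (tendsto_nhds_unique tendsto_const_nhds this)

end Run7.h575
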