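import Pool.Agent.Run7.h575.Main2

set_option autoImplicit false

/-!
Iterated extensions by translations of the circle.
-/

open MeasureTheory Set Filter Topology

namespace Run7.h575

variable {n : ℕ}

/-- The projection forgetting the last coordinate. -/
noncomputable def pr (n : ℕ) : (Fin (n + 1) → ℝ) →L[ℝ] (Fin n → ℝ) :=
  ContinuousLinearMap.pi fun j => ContinuousLinearMap.proj (j.castSucc)

theorem pr_apply (x : Fin (n + 1) → ℝ) (j : Fin n) : pr n x j = x j.castSucc := rfl

/-- Appending a last coordinate. -/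
def up (u : Fin n → ℝ) (c : ℝ) : Fin (n + 1) → ℝ := Fin.snoc (α := fun _ => ℝ) u c

theorem up_castSucc (u : Fin n → ℝ) (c : ℝ) (j : Fin n) : up u c j.castSucc = u j := by
  simp [up]

theorem up_last (u : Fin n → ℝ) (c : ℝ) : up u c (Fin.last n) = c := by simp [up]

theorem ext_up {x y : Fin (n + 1) → ℝ} (h1 : ∀ j : Fin n, x j.castSucc = y j.castSucc)
    (h2 : x (Fin.last n) = y (Fin.last n)) : x = y := by
  funext i
  refine Fin.lastCases h2 (fun j => h1 j) i

theorem pr_up (u : Fin n → ℝ) (c : ℝ) : pr n (up u c) = u := funext fun j => up_castSucc u c j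

theorem up_pr (x : Fin (n + 1) → ℝ) : up (pr n x) (x (Fin.last n)) = x :=
  ext_up (fun j => up_castSucc _ _ j) (up_last _ _)

theorem up_add (u v : Fin n → ℝ) (a b : ℝ) : up (u + v) (a + b) = up u a + up v b :=
  ext_up (fun j => by simp [up_castSucc]) (by simp [up_last])

theorem up_smul (c : ℝ) (u : Fin n → ℝ) (a : ℝ) : up (c • u) (c * a) = c • up u a :=
  ext_up (fun j => by simp [up_castSucc]) (by simp [up_last])

theorem up_zv (k : Fin n → ℤ) (a : ℤ) : up (zv k) (a : ℝ) = zv (Fin.snoc (α := fun _ => ℤ) k a) :=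
  ext_up (fun j => by simp [up_castSucc, zv]) (by simp [up_last, zv])

theorem pr_zv (k : Fin (n + 1) → ℤ) : pr n (zv k) = zv fun j => k j.castSucc := rfl

theorem ph_snoc (k : Fin n → ℤ) (x : Fin (n + 1) → ℝ) :
    ph (Fin.snoc (α := fun _ => ℤ) k 0) x = ph k (pr n x) := by
  rw [ph, Fin.sum_univ_castSucc, ph]
  simp [pr_apply]

theorem sum_abs_snoc (k : Fin n → ℤ) :
    ∑ i, |((Fin.snoc (α := fun _ => ℤ) k 0 : Fin (n + 1) → ℤ) i : ℝ)| = ∑ i, |(k i : ℝ)| := by
  rw [Fin.sum_univ_castSucc]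
  simp

theorem snoc_ne_zero {k : Fin n → ℤ} (hk : k ≠ 0) : (Fin.snoc (α := fun _ => ℤ) k 0 : Fin (n + 1) → ℤ) ≠ 0 := by
  intro h
  apply hk
  funext i
  have := congrFun h i.castSucc
  simpa using this

theorem up_contDiff {r : WithTop ℕ∞} {E : Type*} [NormedAddCommGroup E] [NormedSpace ℝ E]
    {u : E → (Fin n → ℝ)} {c : E → ℝ} (hu : ContDiff ℝ r u) (hc : ContDiff ℝ r c) :
    ContDiff ℝ r fun x => up (u x) (c x) := by
  rw [contDiff_pi]
  intro i
  refine Fin.lastCases ?_ (fun j => ?_) i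
  · simp only [up_last]; exact hc
  · simp only [up_castSucc]; exact (contDiff_apply ℝ ℝ j).comp hu

theorem up_continuous {X : Type*} [TopologicalSpace X]
    {u : X → (Fin n → ℝ)} {c : X → ℝ} (hu : Continuous u) (hc : Continuous c) :
    Continuous fun x => up (u x) (c x) := by
  rw [continuous_pi_iff]
  intro i
  refine Fin.lastCases ?_ (fun j => ?_) i
  · simp only [up_last]; exact hc
  · simp only [up_castSucc]; exact (continuous_apply j).comp hu

/-- `F` is the extension of `G` by the translations `φ` of the last coordinate. -/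
structure IsExt (G : (Fin n → ℝ) → (Fin n → ℝ)) (φ : (Fin n → ℝ) → ℝ)
    (F : (Fin (n + 1) → ℝ) → (Fin (n + 1) → ℝ)) : Prop where
  base : ∀ x (i : Fin n), F x i.castSucc = G (fun j => x j.castSucc) i
  fib : ∀ x, F x (Fin.last n) = x (Fin.last n) + φ (fun j => x j.castSucc)

namespace IsExt

variable {G : (Fin n → ℝ) → (Fin n → ℝ)} {φ : (Fin n → ℝ) → ℝ}
  {F : (Fin (n + 1) → ℝ) → (Fin (n + 1) → ℝ)} (h : IsExt G φ F)

include h

theorem prF (x : Fin (n + 1) → ℝ) : pr n (F x) = G (pr n x) := funext fun i => h.base x i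

theorem last (x : Fin (n + 1) → ℝ) : F x (Fin.last n) = x (Fin.last n) + φ (pr n x) := h.fib x

theorem eq_up (x : Fin (n + 1) → ℝ) :
    F x = up (G (pr n x)) (x (Fin.last n) + φ (pr n x)) := by
  conv_lhs => rw [← up_pr (F x)]
  rw [h.prF, h.last]

theorem G_eq (u : Fin n → ℝ) : G u = pr n (F (up u 0)) := by rw [h.prF, pr_up]

theorem φ_eq (u : Fin n → ℝ) : φ u = F (up u 0) (Fin.last n) := by
  rw [h.last, up_last, pr_up, zero_add]

theorem G_contDiff {r : WithTop ℕ∞} (hF : ContDiff ℝ r F) : ContDiff ℝ r G := by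
  have e : G = fun u => pr n (F (up u 0)) := funext h.G_eq
  rw [e]
  exact (pr n).contDiff.comp (hF.comp (up_contDiff contDiff_id contDiff_const))

theorem φ_contDiff {r : WithTop ℕ∞} (hF : ContDiff ℝ r F) : ContDiff ℝ r φ := by
  have e : φ = fun u => F (up u 0) (Fin.last n) := funext h.φ_eq
  rw [e]
  exact (contDiff_apply ℝ ℝ (Fin.last n)).comp (hF.comp (up_contDiff contDiff_id contDiff_const))

theorem G_eqv (hF : Eqv F) : Eqv G := by
  intro u k
  have e : up (u + zv k) 0 = up u 0 + zv (Fin.snoc (α := fun _ => ℤ) k 0) := by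
    have : up (u + zv k) (0 + 0) = up u 0 + up (zv k) 0 := up_add _ _ _ _
    rw [add_zero] at this
    rw [this]
    congr 1
    have h1 := up_zv k 0
    rw [Int.cast_zero] at h1
    exact h1
  rw [h.G_eq, h.G_eq, e, hF, map_add, pr_zv]
  congr 1
  funext j
  simp [zv]

theorem φ_per (hF : Eqv F) : IsPer φ := by
  intro u k
  show φ (u + zv k) = φ u
  have e : up (u + zv k) 0 = up u 0 + zv (Fin.snoc (α := fun _ => ℤ) k 0) := by
    have : up (u + zv k) (0 + 0) = up u 0 + up (zv k) 0 := up_add _ _ _ _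
    rw [add_zero] at this
    rw [this]
    congr 1
    have h1 := up_zv k 0
    rw [Int.cast_zero] at h1
    exact h1
  rw [h.φ_eq, h.φ_eq, e, hF]
  simp [zv]

theorem pr_iter (x : Fin (n + 1) → ℝ) (j : ℕ) : pr n (F^[j] x) = G^[j] (pr n x) := by
  induction j with
  | zero => rfl
  | succ j ih => rw [Function.iterate_succ_apply', Function.iterate_succ_apply', h.prF, ih]

theorem F_add (x : Fin (n + 1) → ℝ) (s : ℝ) : F (x + up 0 s) = F x + up 0 s := by
  have e : pr n (x + up 0 s) = pr n x := by rw [map_add, pr_up, add_zero]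
  rw [h.eq_up, h.eq_up, e, Pi.add_apply, up_last, ← up_add, add_zero]
  congr 1
  ring

/-- The base of a conjugate of a translation is a conjugate of a translation. -/
theorem factor {α : Fin (n + 1) → ℝ} (D : Dat F α) (hα : Irr α) :
    ∃ D' : Dat G (pr n D.rho), D'.rho = pr n D.rho := by
  set P : (Fin (n + 1) → ℝ) → (Fin (n + 1) → ℝ) := fun x => D.rB (D.P x) with hP
  set Q : (Fin (n + 1) → ℝ) → (Fin (n + 1) → ℝ) := fun y => D.Q (D.rA y) with hQ
  have hPc : Continuous P := D.rB.continuous.comp D.hP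
  have hQc : Continuous Q := D.hQ.comp D.rA.continuous
  have QP : ∀ x, Q (P x) = x := by
    intro x
    show D.Q (D.rA (D.rB (D.P x))) = x
    rw [D.rA_rB, D.QP]
  have PQ : ∀ y, P (Q y) = y := by
    intro y
    show D.rB (D.P (D.Q (D.rA y))) = y
    rw [D.PQ, D.rB_rA]
  have eP : Eqv P := by
    intro x k
    show D.rB (D.P (x + zv k)) = D.rB (D.P x) + zv k
    rw [D.Pper, map_add, D.rB_zv, Matrix.mulVec_mulVec, D.BA, Matrix.one_mulVec]
  have PF : ∀ x, P (F x) = P x + D.rho := by
    intro x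
    show D.rB (D.P (F x)) = D.rB (D.P x) + D.rho
    rw [D.PF, map_add]
    rfl
  have hθ : ∀ (s : ℝ) x, P (x + up 0 s) - P x = P (up 0 s) - P 0 := by
    intro s x
    have hper : IsPer fun x => P (x + up 0 s) - P x := by
      intro x k
      show P (x + zv k + up 0 s) - P (x + zv k) = P (x + up 0 s) - P x
      rw [add_right_comm, eP, eP]
      abel
    have hcont : Continuous fun x => P (x + up 0 s) - P x :=
      (hPc.comp (continuous_id.add continuous_const)).sub hPc
    have hinv : ∀ x, P (F x + up 0 s) - P (F x) = P (x + up 0 s) - P x := by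
      intro x
      rw [← h.F_add, PF, PF]
      abel
    have h0 : P (0 + up 0 s) - P 0 = P (up 0 s) - P 0 := by rw [zero_add]
    rw [← h0]
    funext i
    exact D.const hα (v := fun x => (P (x + up 0 s) - P x) i) (hper.comp fun w => w i)
      ((continuous_apply i).comp hcont) (fun x => congrFun (hinv x) i) x 0
  have hupadd : ∀ s t : ℝ, up (0 : Fin n → ℝ) (s + t) = up 0 s + up 0 t := by
    intro s t
    rw [← up_add, add_zero]
  let θ : ℝ →+ (Fin (n + 1) → ℝ) := AddMonoidHom.mk' (fun s => P (up 0 s) - P 0) (by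
    intro s t
    have h1 := hθ t (up 0 s)
    rw [hupadd]
    have : P (up 0 s + up 0 t) - P 0 = (P (up 0 s + up 0 t) - P (up 0 s)) + (P (up 0 s) - P 0) := by
      abel
    rw [this, h1]
    abel)
  have hθc : Continuous θ :=
    (hPc.comp (up_continuous continuous_const continuous_id)).sub continuous_const
  have hθlin : ∀ s : ℝ, P (up 0 s) - P 0 = s • (P (up 0 1) - P 0) := by
    intro s
    have h1 := (θ.toRealLinearMap hθc).map_smul s (1 : ℝ)
    rw [smul_eq_mul, mul_one] at h1
    exact h1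
  have hθ1 : P (up 0 1) - P 0 = up 0 1 := by
    have h1 := eP 0 (Fin.snoc (α := fun _ => ℤ) 0 1)
    rw [← up_zv, zero_add, zv_zero, Int.cast_one] at h1
    rw [h1]
    abel
  have hPs : ∀ x (s : ℝ), P (x + up 0 s) = P x + up 0 s := by
    intro x s
    have h1 := hθ s x
    rw [hθlin, hθ1, ← up_smul, smul_zero, mul_one] at h1
    exact sub_eq_iff_eq_add'.1 h1
  have hQs : ∀ y (s : ℝ), Q (y + up 0 s) = Q y + up 0 s := by
    intro y s
    have h1 : P (Q y + up 0 s) = y + up 0 s := by rw [hPs, PQ]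
    rw [← h1, QP]
  have hdec : ∀ x : Fin (n + 1) → ℝ, x = up (pr n x) 0 + up 0 (x (Fin.last n)) := by
    intro x
    rw [← up_add, add_zero, zero_add, up_pr]
  have hPpr : ∀ x, pr n (P x) = pr n (P (up (pr n x) 0)) := by
    intro x
    conv_lhs => rw [hdec x, hPs, map_add, pr_up, add_zero]
  have hQpr : ∀ x, pr n (Q x) = pr n (Q (up (pr n x) 0)) := by
    intro x
    conv_lhs => rw [hdec x, hQs, map_add, pr_up, add_zero]
  have hupc : Continuous fun u : Fin n → ℝ => up u 0 := up_continuous continuous_id continuous_const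
  have hz : ∀ (u : Fin n → ℝ) (k : Fin n → ℤ), up (u + zv k) 0
      = up u 0 + zv (Fin.snoc (α := fun _ => ℤ) k 0) := by
    intro u k
    have h0 : up (u + zv k) (0 + 0) = up u 0 + up (zv k) 0 := up_add _ _ _ _
    rw [add_zero] at h0
    rw [h0]
    congr 1
    have h1 := up_zv k 0
    rw [Int.cast_zero] at h1
    exact h1
  have hz2 : ∀ k : Fin n → ℤ, pr n (zv (Fin.snoc (α := fun _ => ℤ) k 0)) = zv k := by
    intro k
    rw [pr_zv]
    congr 1
    funext j
    simp
  have eQ : Eqv Q := by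
    intro y k
    have h1 : P (Q y + zv k) = y + zv k := by rw [eP, PQ]
    rw [← h1, QP]
  refine ⟨⟨fun u => pr n (P (up u 0)), fun u => pr n (Q (up u 0)), 1, 1, 0,
    (pr n).continuous.comp (hPc.comp hupc), (pr n).continuous.comp (hQc.comp hupc),
    fun u => ?_, fun u => ?_, fun u k => ?_, fun u k => ?_, by simp, by simp, fun u => ?_⟩, ?_⟩
  · rw [← hQpr, QP, pr_up]
  · rw [← hPpr, PQ, pr_up]
  · rw [hz, eP, map_add, hz2, Matrix.one_mulVec]
  · rw [hz, eQ, map_add, hz2, Matrix.one_mulVec]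
  · rw [h.G_eq, ← hPpr, PF, map_add, zv_zero, add_zero]
  · unfold Dat.rho
    rw [Dat.rB_apply]
    simp only
    rw [zv_zero, add_zero]
    have : ((1 : Matrix (Fin n) (Fin n) ℤ).map (Int.cast : ℤ → ℝ)) = 1 := by
      have := Matrix.map_one (n := Fin n) (Int.castRingHom ℝ) (map_zero _) (map_one _)
      exact this
    rw [this, Matrix.one_mulVec]

end IsExt

end Run7.h575
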