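import Pool.Agent.Run7.h575.Tower

set_option autoImplicit false

/-!
The equivalence for towers of translation extensions.
-/

open MeasureTheory Set Filter Topology

namespace Run7.h575

/-- Smooth linearizability with rotation vector `ρ`. -/
def Lin {d : ℕ} (F : (Fin d → ℝ) → (Fin d → ℝ)) (ρ : Fin d → ℝ) : Prop :=
  ∃ H K : (Fin d → ℝ) → (Fin d → ℝ), ContDiff ℝ (⊤ : ℕ∞) H ∧ ContDiff ℝ (⊤ : ℕ∞) K ∧ Eqv H ∧
    Eqv K ∧ (∀ x, K (H x) = x) ∧ (∀ y, H (K y) = y) ∧ ∀ x, H (F x) = H x + ρ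

/-- The Diophantine condition on a set of directions. -/
def DOn {d : ℕ} (ρ : Fin d → ℝ) (V : Set (Fin d → ℤ)) : Prop :=
  ∃ C : ℝ, 0 < C ∧ ∃ τ : ℝ, 0 < τ ∧ ∀ k ∈ V, k ≠ 0 → ∀ m : ℤ,
    C / (∑ i, |(k i : ℝ)|) ^ τ ≤ |∑ i, (k i : ℝ) * ρ i - (m : ℝ)|

/-- Diophantine condition on all partially linearized directions. -/
def DV {d : ℕ} (F : (Fin d → ℝ) → (Fin d → ℝ)) (ρ : Fin d → ℝ) : Prop :=
  ∀ (V : Set (Fin d → ℤ)) (H : (Fin d → ℝ) → (Fin d → ℝ)), ContDiff ℝ (⊤ : ℕ∞) H → Eqv H →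
    (∀ k ∈ V, ∀ x, ph k (H (F x)) = ph k (H x) + ph k ρ) → DOn ρ V

variable {n : ℕ}

theorem DOn.of_pr {ρ : Fin (n + 1) → ℝ} {V : Set (Fin n → ℤ)} {V' : Set (Fin (n + 1) → ℤ)}
    (h : DOn ρ V') (hV : ∀ k ∈ V, (Fin.snoc (α := fun _ => ℤ) k 0 : Fin (n + 1) → ℤ) ∈ V') :
    DOn (pr n ρ) V := by
  obtain ⟨C, hC, τ, hτ, h⟩ := h
  refine ⟨C, hC, τ, hτ, fun k hk hk0 m => ?_⟩
  have h1 := h _ (hV k hk) (snoc_ne_zero hk0) m
  rw [sum_abs_snoc] at h1
  have h2 := ph_snoc k ρ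
  unfold ph at h2
  rw [h2] at h1
  exact h1

theorem dioph_pr {ρ : Fin (n + 1) → ℝ} (h : Dioph ρ) : Dioph (pr n ρ) := by
  obtain ⟨C, hC, τ, hτ, h⟩ := h
  obtain ⟨C', hC', τ', hτ', h'⟩ := DOn.of_pr (V := univ) (V' := univ)
    ⟨C, hC, τ, hτ, fun k _ => h k⟩ (fun k _ => mem_univ _)
  exact ⟨C', hC', τ', hτ', fun k => h' k (mem_univ k)⟩

theorem irr_pr {ρ : Fin (n + 1) → ℝ} (h : Irr ρ) : Irr (pr n ρ) := by
  intro k hk m
  have := h _ (snoc_ne_zero hk) m
  rwa [ph_snoc] at this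

namespace IsExt

variable {G : (Fin n → ℝ) → (Fin n → ℝ)} {φ : (Fin n → ℝ) → ℝ}
  {F : (Fin (n + 1) → ℝ) → (Fin (n + 1) → ℝ)} (h : IsExt G φ F)

include h

theorem slow {k : Fin n → ℤ} (hG : ContDiff ℝ (⊤ : ℕ∞) G) (hk : Slow G k) :
    Slow F (Fin.snoc (α := fun _ => ℤ) k 0) := by
  intro s hs ε hε N
  obtain ⟨m, hm, hb⟩ := hk s hs ε hε N
  refine ⟨m, hm, fun x => ?_⟩
  have e : (fun y : Fin (n + 1) → ℝ => ∑ i, ((Fin.snoc (α := fun _ => ℤ) k 0 : Fin (n + 1) → ℤ) i : ℝ)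
      * F^[m] y i) = (fun u => ∑ i, (k i : ℝ) * G^[m] u i) ∘ (pr n) := by
    funext y
    rw [Function.comp_apply, ← h.pr_iter]
    exact ph_snoc k (F^[m] y)
  have hsm : ContDiff ℝ s (fun u => ∑ i, (k i : ℝ) * G^[m] u i) := by
    have : ContDiff ℝ (⊤ : ℕ∞) (fun u => ph k (G^[m] u)) :=
      (ph_contDiff k).comp (contDiff_iterate hG m)
    exact this.of_le (nat_le_top s)
  rw [e, ContinuousLinearMap.iteratedFDeriv_comp_right (pr n) hsm x le_rfl]
  refine (ContinuousMultilinearMap.norm_compContinuousLinearMap_le _ _).trans ?_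
  have h1 : ‖pr n‖ ≤ 1 := by
    refine ContinuousLinearMap.opNorm_le_bound _ zero_le_one fun x => ?_
    rw [one_mul]
    exact (pi_norm_le_iff_of_nonneg (norm_nonneg _)).2 fun j => norm_le_pi_norm x j.castSucc
  have h2 : ∏ _i : Fin s, ‖pr n‖ ≤ 1 := by
    rw [Finset.prod_const]
    exact pow_le_one₀ (norm_nonneg _) h1
  calc _ ≤ ‖iteratedFDeriv ℝ s (fun u => ∑ i, (k i : ℝ) * G^[m] u i) (pr n x)‖ * 1 := by
        gcongr
    _ ≤ ε * m := by rw [mul_one]; exact hb _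

theorem dv {ρ : Fin (n + 1) → ℝ} (hF : DV F ρ) : DV G (pr n ρ) := by
  intro V H hH eH hV
  have h1 := hF {k | ∃ k' ∈ V, k = Fin.snoc (α := fun _ => ℤ) k' 0}
    (fun x => up (H (pr n x)) (x (Fin.last n)))
    (up_contDiff (hH.comp (pr n).contDiff) (contDiff_apply ℝ ℝ _)) (by
      intro x k
      show up (H (pr n (x + zv k))) ((x + zv k) (Fin.last n)) = up (H (pr n x)) (x (Fin.last n)) + zv k
      rw [map_add, pr_zv, eH, Pi.add_apply, up_add]
      congr 1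
      exact ext_up (fun j => by rw [up_castSucc]; rfl) (by rw [up_last])) (by
      rintro _ ⟨k, hk, rfl⟩ x
      rw [ph_snoc, ph_snoc, ph_snoc, pr_up, pr_up, h.prF]
      exact hV k hk _)
  exact h1.of_pr fun k hk => ⟨k, hk, rfl⟩

theorem det_ne (hFd : Differentiable ℝ F) (hGd : Differentiable ℝ G) (hφd : Differentiable ℝ φ)
    (hdet : ∀ x, (fderiv ℝ F x).det ≠ 0) (u : Fin n → ℝ) : (fderiv ℝ G u).det ≠ 0 := by
  intro h0
  have h1 : ¬ Function.Injective (fderiv ℝ G u) := by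
    intro hinj
    have : (LinearMap.det ((fderiv ℝ G u : (Fin n → ℝ) →L[ℝ] (Fin n → ℝ)) : (Fin n → ℝ) →ₗ[ℝ] (Fin n → ℝ))) ≠ 0 := by
      have h2 : LinearMap.ker ((fderiv ℝ G u : (Fin n → ℝ) →L[ℝ] (Fin n → ℝ)) : (Fin n → ℝ) →ₗ[ℝ] (Fin n → ℝ)) = ⊥ :=
        LinearMap.ker_eq_bot.2 hinj
      intro h3
      have h4 := LinearMap.bot_lt_ker_of_det_eq_zero h3
      rw [h2] at h4
      exact lt_irrefl _ h4
    exact this h0
  rw [injective_iff_map_eq_zero] at h1
  push Not at h1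
  obtain ⟨w, hw, hw0⟩ := h1
  set x := up u 0 with hx
  set v := up w (-(fderiv ℝ φ u w)) with hv
  have hG1 : (fderiv ℝ G (pr n x)).comp (pr n) = (pr n).comp (fderiv ℝ F x) := by
    have e : G ∘ (pr n) = (pr n) ∘ F := funext fun y => (h.prF y).symm
    have h2 := congrArg (fun f => fderiv ℝ f x) e
    rw [fderiv_comp x (hGd _) (pr n).differentiableAt, fderiv_comp x (pr n).differentiableAt (hFd _),
      ContinuousLinearMap.fderiv, ContinuousLinearMap.fderiv] at h2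
    exact h2
  have hl : (ContinuousLinearMap.proj (Fin.last n) : (Fin (n + 1) → ℝ) →L[ℝ] ℝ).comp (fderiv ℝ F x)
      = ContinuousLinearMap.proj (Fin.last n) + (fderiv ℝ φ (pr n x)).comp (pr n) := by
    have e : (fun y => (ContinuousLinearMap.proj (Fin.last n) : (Fin (n + 1) → ℝ) →L[ℝ] ℝ) (F y))
        = fun y => (ContinuousLinearMap.proj (Fin.last n) : (Fin (n + 1) → ℝ) →L[ℝ] ℝ) y
          + (φ ∘ (pr n)) y :=
      funext fun y => h.last y
    have h2 := congrArg (fun f => fderiv ℝ f x) e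
    have e1 : fderiv ℝ (fun y => (ContinuousLinearMap.proj (Fin.last n) : (Fin (n + 1) → ℝ) →L[ℝ] ℝ) (F y)) x
        = (ContinuousLinearMap.proj (Fin.last n) : (Fin (n + 1) → ℝ) →L[ℝ] ℝ).comp (fderiv ℝ F x) := by
      have := fderiv_comp x (ContinuousLinearMap.proj (Fin.last n) : (Fin (n + 1) → ℝ) →L[ℝ] ℝ).differentiableAt
        (hFd x)
      rw [ContinuousLinearMap.fderiv] at this
      exact this
    have hφ' : DifferentiableAt ℝ (φ ∘ (pr n)) x := (hφd _).comp x (pr n).differentiableAt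
    rw [e1, fderiv_fun_add (ContinuousLinearMap.differentiableAt _) hφ', ContinuousLinearMap.fderiv,
      fderiv_comp x (hφd _) (pr n).differentiableAt, ContinuousLinearMap.fderiv] at h2
    exact h2
  have hv0 : fderiv ℝ F x v = 0 := by
    apply ext_up
    · intro j
      have h2 := congrFun (DFunLike.congr_fun hG1 v) j
      simp only [ContinuousLinearMap.comp_apply] at h2
      rw [hx, pr_up, hv, pr_up, hw] at h2
      rw [← hx, ← hv] at h2
      rw [pr_apply] at h2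
      rw [← h2]
      rfl
    · have h2 := DFunLike.congr_fun hl v
      simp only [ContinuousLinearMap.comp_apply, ContinuousLinearMap.proj_apply,
        add_apply] at h2
      rw [h2, hx, pr_up, hv, pr_up, up_last]
      simp
  have h3 : v ≠ 0 := by
    intro h4
    apply hw0
    have := congrArg (pr n) h4
    rwa [hv, pr_up, map_zero] at this
  have h5 : LinearMap.det ((fderiv ℝ F x : (Fin (n + 1) → ℝ) →L[ℝ] (Fin (n + 1) → ℝ)) : (Fin (n + 1) → ℝ) →ₗ[ℝ] (Fin (n + 1) → ℝ)) = 0 := by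
    by_contra h6
    have h7 := (LinearMap.isUnit_iff_isUnit_det _).2 (isUnit_iff_ne_zero.2 h6)
    have h8 := (LinearMap.isUnit_iff_ker_eq_bot _).1 h7
    apply h3
    have : v ∈ LinearMap.ker ((fderiv ℝ F x : (Fin (n + 1) → ℝ) →L[ℝ] (Fin (n + 1) → ℝ)) : (Fin (n + 1) → ℝ) →ₗ[ℝ] (Fin (n + 1) → ℝ)) := hv0
    rw [h8] at this
    exact this
  exact hdet x h5

theorem lin {α : Fin (n + 1) → ℝ} (D : Dat F α) (hFs : ContDiff ℝ (⊤ : ℕ∞) F) (hFe : Eqv F)
    {σ : Fin n → ℝ} (hσ : Dioph σ) (hG : Lin G σ) : Lin F D.rho := by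
  obtain ⟨H, K, hH, hK, eH, eK, KH, HK, HG⟩ := hG
  have hφs := h.φ_contDiff hFs
  have hφp := h.φ_per hFe
  set c : ℝ := ∫ y in cube, φ (K y) with hc
  have hfs : ContDiff ℝ (⊤ : ℕ∞) fun y => φ (K y) - c := (hφs.comp hK).sub contDiff_const
  have hfp : IsPer fun y => φ (K y) - c := (hφp.comp_eqv eK).comp fun t => t - c
  have h0 : ∫ y in cube, (φ (K y) - c) = 0 := by
    have i1 : IntegrableOn (fun y => φ (K y)) (cube (d := n)) := integrableOn_cube (hφs.comp hK).continuous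
    have i2 : IntegrableOn (fun _ : Fin n → ℝ => c) (cube (d := n)) := integrableOn_cube continuous_const
    rw [integral_sub i1 i2, setIntegral_const, measureReal_def, volume_cube]
    simp [hc]
  obtain ⟨ψ, hψp, hψs, hψ⟩ := solve hσ hfp hfs h0
  set HF : (Fin (n + 1) → ℝ) → (Fin (n + 1) → ℝ) := fun x =>
    up (H (pr n x)) (x (Fin.last n) - ψ (H (pr n x))) with hHF
  have hHs : ContDiff ℝ (⊤ : ℕ∞) HF := up_contDiff (hH.comp (pr n).contDiff)
    ((contDiff_apply ℝ ℝ _).sub (hψs.comp (hH.comp (pr n).contDiff)))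
  have hHe : Eqv HF := by
    intro x k
    show up (H (pr n (x + zv k))) ((x + zv k) (Fin.last n) - ψ (H (pr n (x + zv k)))) = _
    rw [map_add, pr_zv, eH, hψp.zv, Pi.add_apply]
    apply ext_up
    · intro j
      rw [up_castSucc, Pi.add_apply, Pi.add_apply, hHF]
      simp only [up_castSucc]
      rfl
    · rw [up_last, Pi.add_apply, hHF]
      simp only [up_last]
      ring
  have hHF' : ∀ x, HF (F x) = HF x + up σ c := by
    intro x
    show up (H (pr n (F x))) (F x (Fin.last n) - ψ (H (pr n (F x)))) = _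
    have h1 := hψ (H (pr n x))
    rw [KH] at h1
    rw [h.prF, h.last, HG, ← up_add]
    congr 1
    linarith
  have hρ : up σ c = D.rho := (rot_eq D hHs.continuous hHe hHF').2
  refine ⟨HF, fun y => up (K (pr n y)) (y (Fin.last n) + ψ (pr n y)), hHs,
    up_contDiff (hK.comp (pr n).contDiff)
      ((contDiff_apply ℝ ℝ _).add (hψs.comp (pr n).contDiff)), hHe, ?_, fun x => ?_, fun y => ?_, ?_⟩
  · intro x k
    show up (K (pr n (x + zv k))) ((x + zv k) (Fin.last n) + ψ (pr n (x + zv k)))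
      = up (K (pr n x)) (x (Fin.last n) + ψ (pr n x)) + zv k
    rw [map_add, pr_zv, eK, hψp.zv, Pi.add_apply]
    apply ext_up
    · intro j
      rw [up_castSucc, Pi.add_apply, Pi.add_apply, up_castSucc]
      rfl
    · rw [up_last, Pi.add_apply, up_last]
      ring
  · rw [hHF]
    simp only [pr_up, up_last]
    rw [KH, sub_add_cancel, up_pr]
  · rw [hHF]
    simp only [pr_up, up_last]
    rw [HK, add_sub_cancel_right, up_pr]
  · rw [← hρ]
    exact hHF'

end IsExt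

end Run7.h575
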