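import Pool.Agent.Run7.h575.Tower2
import Pool.Agent.Run7.h575.Approx

set_option autoImplicit false

/-!
The equivalence for towers, with smooth conjugacies allowed at every stage and with factors.
-/

open MeasureTheory Set Filter Topology Matrix

namespace Run7.h575

variable {d m : ℕ}

theorem Desc.matrix {p : (Fin d → ℝ) → (Fin d → ℝ)} (hp : Desc p) (hc : Continuous p) :
    ∃ M : Matrix (Fin d) (Fin d) ℤ, ∀ x k, p (x + zv k) = p x + zv (M *ᵥ k) := by
  choose a ha using hp.const hc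
  have hadd : ∀ k l, a (k + l) = a k + a l := by
    intro k l
    apply zv_inj
    have h1 := ha (k + l) 0
    have h2 := ha k 0
    have h3 := ha l (0 + zv k)
    rw [zv_add, ← add_assoc, h3, h2] at h1
    rw [zv_add]
    have h4 : p 0 + zv (a (k + l)) = p 0 + (zv (a k) + zv (a l)) := by rw [← h1]; abel
    exact add_left_cancel h4
  let φ : (Fin d → ℤ) →+ (Fin d → ℤ) := AddMonoidHom.mk' a hadd
  refine ⟨LinearMap.toMatrix' φ.toIntLinearMap, fun x k => ?_⟩
  rw [LinearMap.toMatrix'_mulVec]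
  exact ha k x

/-- The real linear map of an integer matrix. -/
noncomputable def rM (M : Matrix (Fin d) (Fin d) ℤ) : (Fin d → ℝ) →L[ℝ] (Fin d → ℝ) :=
  LinearMap.toContinuousLinearMap (Matrix.toLin' (M.map (Int.cast : ℤ → ℝ)))

theorem rM_apply (M : Matrix (Fin d) (Fin d) ℤ) (x : Fin d → ℝ) :
    rM M x = (M.map (Int.cast : ℤ → ℝ)) *ᵥ x := by
  simp [rM, Matrix.toLin'_apply]

theorem rM_zv (M : Matrix (Fin d) (Fin d) ℤ) (k : Fin d → ℤ) : rM M (zv k) = zv (M *ᵥ k) := by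
  rw [rM_apply, Dat.zv_mulVec]

theorem rM_rM {M N : Matrix (Fin d) (Fin d) ℤ} (h : M * N = 1) (x : Fin d → ℝ) :
    rM M (rM N x) = x := by
  rw [rM_apply, rM_apply, Matrix.mulVec_mulVec]
  have : M.map (Int.cast : ℤ → ℝ) * N.map (Int.cast : ℤ → ℝ) = 1 := by
    have h1 := congrArg (fun M : Matrix (Fin d) (Fin d) ℤ => M.map (Int.castRingHom ℝ)) h
    simp only [Matrix.map_mul] at h1
    have h2 : (1 : Matrix (Fin d) (Fin d) ℤ).map (Int.castRingHom ℝ) = 1 :=
      Matrix.map_one _ (map_zero _) (map_one _)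
    rw [h2] at h1
    exact h1
  rw [this, Matrix.one_mulVec]

theorem matrix_inv {Θ Θ' : (Fin d → ℝ) → (Fin d → ℝ)} {M M' : Matrix (Fin d) (Fin d) ℤ}
    (hΘ'Θ : ∀ x, Θ' (Θ x) = x) (hM : ∀ x k, Θ (x + zv k) = Θ x + zv (M *ᵥ k))
    (hM' : ∀ x k, Θ' (x + zv k) = Θ' x + zv (M' *ᵥ k)) : M' * M = 1 := by
  apply Matrix.ext_of_mulVec_single
  intro i
  rw [← Matrix.mulVec_mulVec, Matrix.one_mulVec]
  have h1 := hΘ'Θ (0 + zv (Pi.single i 1))
  rw [hM, hM', hΘ'Θ] at h1
  exact zv_inj (add_left_cancel h1)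

theorem det_comp_ne {A B : (Fin d → ℝ) →L[ℝ] (Fin d → ℝ)} (hA : A.det ≠ 0) (hB : B.det ≠ 0) :
    (A.comp B).det ≠ 0 := by
  have : (A.comp B).det = A.det * B.det := by
    show LinearMap.det _ = LinearMap.det _ * LinearMap.det _
    rw [← LinearMap.det_comp]
    rfl
  rw [this]
  exact mul_ne_zero hA hB

/-- Both halves for towers. -/
theorem tower_main {m : ℕ} {G : (Fin m → ℝ) → (Fin m → ℝ)} (hT : Tower m G) :
    ∀ {β : Fin m → ℝ} (D : Dat G β), Irr β → ContDiff ℝ (⊤ : ℕ∞) G → Eqv G →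
      (∀ x, (fderiv ℝ G x).det ≠ 0) →
      (Dioph D.rho → Lin G D.rho) ∧
      (∀ {d : ℕ} {F : (Fin d → ℝ) → (Fin d → ℝ)} {α : Fin d → ℝ} (_ : Dat F α), Irr α →
        ContDiff ℝ (⊤ : ℕ∞) F → ClosedCob F → ∀ p : (Fin d → ℝ) → (Fin m → ℝ),
        ContDiff ℝ (⊤ : ℕ∞) p → Desc p → (∀ x, p (F x) = G (p x)) → Dioph D.rho) := by
  induction hT with
  | base m G hG =>
    intro β D hβ hGs hGe hdet
    obtain ⟨C₀, hC₀, hdev⟩ := D.deviation
    constructor
    · intro hdio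
      obtain ⟨H, hH, eH, HF⟩ := linearize hGs hGe hdev hG hdio
      obtain ⟨K, hK, eK, KH, HK⟩ := exists_inverse_gen (by simp) D hβ
        (hGs.differentiable (by simp)) hdet hH eH HF
      exact ⟨H, K, hH, hK, eH, eK, KH, HK, HF⟩
    · intro d F α DF hα hFs hc p hp ep hpF
      choose Ψ h1 h2 h3 using fun i : Fin m => cob_of_slow_factor (k := Pi.single i 1) hGs hGe hdev
        hc hp ep hpF (slow_of_subpoly hGs hGe hdev hG _)
      have hph : ∀ (i : Fin m) (v : Fin m → ℝ), ph (Pi.single i 1) v = v i := by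
        intro i v
        rw [ph, Finset.sum_eq_single i]
        · simp
        · intro b _ hb; simp [Pi.single_eq_of_ne hb]
        · intro h; exact absurd (Finset.mem_univ i) h
      refine dioph_fac DF hα hFs (H := fun x i => p x i - Ψ i x) ?_ ?_ (D.irr_rho hβ) ?_ hc
      · rw [contDiff_pi]
        exact fun i => ((contDiff_apply ℝ ℝ i).comp hp).sub (h1 i)
      · intro x k
        obtain ⟨l, hl⟩ := ep x k
        refine ⟨l, ?_⟩
        funext i
        show p (x + zv k) i - Ψ i (x + zv k) = p x i - Ψ i x + zv l i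
        rw [hl, (h2 i).zv, Pi.add_apply]
        ring
      · intro x
        funext i
        have := h3 i x
        rw [hph] at this
        simp only [Pi.sub_apply, Pi.add_apply] at this ⊢
        rw [hpF]
        linarith
  | ext n G φ F hG hb hf ih =>
    intro β D hβ hFs hFe hdet
    have hE : IsExt G φ F := ⟨hb, hf⟩
    obtain ⟨D', hD'⟩ := hE.factor D hβ
    have hGs := hE.G_contDiff hFs
    have hGe := hE.G_eqv hFe
    have hdetG := hE.det_ne (hFs.differentiable (by simp)) (hGs.differentiable (by simp))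
      ((hE.φ_contDiff hFs).differentiable (by simp)) hdet
    obtain ⟨ih1, ih2⟩ := ih D' (irr_pr (D.irr_rho hβ)) hGs hGe hdetG
    rw [hD'] at ih1 ih2
    constructor
    · intro hdio
      have h1 := dioph_pr hdio
      exact hE.lin D hFs hFe h1 (ih1 h1)
    · intro d F' α DF hα hF's hc p hp ep hpF
      have eppr : Desc fun x => pr n (p x) := by
        intro x k
        obtain ⟨l, hl⟩ := ep x k
        refine ⟨fun j => l j.castSucc, ?_⟩
        show pr n (p (x + zv k)) = pr n (p x) + zv fun j => l j.castSucc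
        rw [hl, map_add, pr_zv]
      have h2 := ih2 DF hα hF's hc (fun x => pr n (p x)) ((pr n).contDiff.comp hp) eppr
        (fun x => by rw [hpF, hE.prF])
      obtain ⟨H, K, hH, hK, eH, eK, KH, HK, HF⟩ := hE.lin D hFs hFe h2 (ih1 h2)
      exact dioph_fac DF hα hF's (H := fun x => H (p x)) (hH.comp hp) (ep.comp eH.desc)
        (D.irr_rho hβ) (fun x => by rw [hpF, HF]) hc
  | conj m G F Θ Θ' hG hΘ hΘ' hΘ'Θ hΘΘ' eΘ eΘ' hconj ih =>
    intro β D hβ hFs hFe hdet
    obtain ⟨M, hM⟩ := Desc.matrix (p := Θ) eΘ hΘ.continuous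
    obtain ⟨M', hM'⟩ := Desc.matrix (p := Θ') eΘ' hΘ'.continuous
    have hM'M : M' * M = 1 := matrix_inv hΘ'Θ hM hM'
    have hMM' : M * M' = 1 := mul_eq_one_comm.1 hM'M
    have hGeq : ∀ x, G x = Θ' (F (Θ x)) := fun x => by rw [hconj, hΘ'Θ]
    have hGfun : G = fun x => Θ' (F (Θ x)) := funext hGeq
    have hGs : ContDiff ℝ (⊤ : ℕ∞) G := by rw [hGfun]; exact hΘ'.comp (hFs.comp hΘ)
    have hGe : Eqv G := by
      intro x k
      rw [hGeq, hGeq, hM, hFe, hM', Matrix.mulVec_mulVec, hM'M, Matrix.one_mulVec]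
    have hdF := hFs.differentiable (by simp : ((⊤ : ℕ∞) : WithTop ℕ∞) ≠ 0)
    have hdΘ := hΘ.differentiable (by simp : ((⊤ : ℕ∞) : WithTop ℕ∞) ≠ 0)
    have hdΘ' := hΘ'.differentiable (by simp : ((⊤ : ℕ∞) : WithTop ℕ∞) ≠ 0)
    have hdetG : ∀ x, (fderiv ℝ G x).det ≠ 0 := by
      intro x
      have h1 : fderiv ℝ G x = (fderiv ℝ Θ' (F (Θ x))).comp ((fderiv ℝ F (Θ x)).comp (fderiv ℝ Θ x)) := by
        have e : G = Θ' ∘ (F ∘ Θ) := hGfun
        rw [e, fderiv_comp x (hdΘ' _) ((hdF.comp hdΘ) x), fderiv_comp x (hdF _) (hdΘ _)]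
        rfl
      rw [h1]
      exact det_comp_ne (det_ne_zero hdΘ' hdΘ hΘΘ' _)
        (det_comp_ne (hdet _) (det_ne_zero hdΘ hdΘ' hΘ'Θ _))
    let D' : Dat G β :=
      { P := fun x => D.P (Θ x)
        Q := fun y => Θ' (D.Q y)
        A := D.A * M
        B := M' * D.B
        m := D.m
        hP := D.hP.comp hΘ.continuous
        hQ := hΘ'.continuous.comp D.hQ
        QP := fun x => by rw [D.QP, hΘ'Θ]
        PQ := fun y => by rw [hΘΘ', D.PQ]
        Pper := fun x k => by rw [hM, D.Pper, Matrix.mulVec_mulVec]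
        Qper := fun y k => by rw [D.Qper, hM', Matrix.mulVec_mulVec]
        BA := by rw [Matrix.mul_assoc, ← Matrix.mul_assoc D.B, D.BA, Matrix.one_mul, hM'M]
        AB := by rw [Matrix.mul_assoc, ← Matrix.mul_assoc M, hMM', Matrix.one_mul, D.AB]
        PF := fun x => by rw [← hconj, D.PF] }
    obtain ⟨ih1, ih2⟩ := ih D' hβ hGs hGe hdetG
    constructor
    · intro hdio
      obtain ⟨H, K, hH, hK, eH, eK, KH, HK, HG⟩ := ih1 (D'.dioph_rho (D.dioph_alpha hdio))
      have hHs : ContDiff ℝ (⊤ : ℕ∞) fun x => rM M (H (Θ' x)) :=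
        (rM M).contDiff.comp (hH.comp hΘ')
      have hHe : Eqv fun x => rM M (H (Θ' x)) := by
        intro x k
        show rM M (H (Θ' (x + zv k))) = rM M (H (Θ' x)) + zv k
        rw [hM', eH, map_add, rM_zv, Matrix.mulVec_mulVec, hMM', Matrix.one_mulVec]
      have hHF : ∀ x, rM M (H (Θ' (F x))) = rM M (H (Θ' x)) + rM M D'.rho := by
        intro x
        have h1 : Θ' (F x) = G (Θ' x) := by rw [hGeq, hΘΘ']
        rw [h1, HG, map_add]
      have hρ := (rot_eq D hHs.continuous hHe hHF).2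
      refine ⟨fun x => rM M (H (Θ' x)), fun y => Θ (K (rM M' y)), hHs,
        hΘ.comp (hK.comp (rM M').contDiff), hHe, ?_, fun x => ?_, fun y => ?_, fun x => ?_⟩
      · intro y k
        show Θ (K (rM M' (y + zv k))) = Θ (K (rM M' y)) + zv k
        rw [map_add, rM_zv, eK, hM, Matrix.mulVec_mulVec, hMM', Matrix.one_mulVec]
      · show Θ (K (rM M' (rM M (H (Θ' x))))) = x
        rw [rM_rM hM'M, KH, hΘΘ']
      · show rM M (H (Θ' (Θ (K (rM M' y))))) = y
        rw [hΘ'Θ, HK, rM_rM hMM']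
      · show rM M (H (Θ' (F x))) = rM M (H (Θ' x)) + D.rho
        rw [← hρ, hHF]
    · intro d F' α DF hα hF's hc p hp ep hpF
      have h1 := ih2 DF hα hF's hc (fun x => Θ' (p x)) (hΘ'.comp hp)
        (ep.comp (q := Θ') eΘ') (fun x => by rw [hGeq, hΘΘ', hpF])
      exact D.dioph_rho (D'.dioph_alpha h1)

/-- The equivalence for towers. -/
theorem tower_equiv {d : ℕ} {F G : (Fin d → ℝ) → (Fin d → ℝ)} (hT : Tower d F)
    {α : Fin d → ℝ} (D : Dat F α) (hα : Irr α) (hFs : ContDiff ℝ (⊤ : ℕ∞) F)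
    (hGs : ContDiff ℝ (⊤ : ℕ∞) G) (GF : ∀ x, G (F x) = x) (hFe : Eqv F) :
    (ClosedCob F ↔ Dioph α) ∧ (Dioph α → Lin F D.rho) := by
  have hdet : ∀ x, (fderiv ℝ F x).det ≠ 0 :=
    det_ne_zero (hFs.differentiable (by simp)) (hGs.differentiable (by simp)) GF
  obtain ⟨h1, h2⟩ := tower_main hT D hα hFs hFe hdet
  refine ⟨⟨fun hc => ?_, fun hdio => ?_⟩, fun hdio => h1 (D.dioph_rho hdio)⟩
  · exact D.dioph_alpha (h2 D hα hFs hc (fun x => x) contDiff_id (fun x k => ⟨k, rfl⟩)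
      (fun x => rfl))
  · obtain ⟨H, K, hH, hK, eH, eK, KH, HK, HF⟩ := h1 (D.dioph_rho hdio)
    exact closed_of_conj hH hK eH eK KH HK HF (D.dioph_rho hdio)

end Run7.h575
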